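import Pool.Agent.H99.Minorant

open MeasureTheory unitInterval Set

namespace Pool.Agent.H99.LowerTail

/-- the derivative of the difference in the refined Pinsker inequality -/
noncomputable def pder (b w : ℝ) : ℝ :=
  -lfun b w - 4 * (w - b) - 16 / 3 * ((w - 1 / 2) ^ 3 - (b - 1 / 2) ^ 3)

/-- the difference in the refined Pinsker inequality -/
noncomputable def pfun (b w : ℝ) : ℝ :=
  relEnt b w - 2 * (w - b) ^ 2 -
    4 / 3 * ((w - 1 / 2) ^ 4 - (b - 1 / 2) ^ 4 - 4 * (b - 1 / 2) ^ 3 * (w - b))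

lemma hasDerivAt_pder {b w : ℝ} (hb0 : 0 < b) (hb1 : b < 1) (hw0 : 0 < w) (hw1 : w < 1) :
    HasDerivAt (pder b) (1 / (w * (1 - w)) - 4 - 16 * (w - 1 / 2) ^ 2) w := by
  have h1 := (hasDerivAt_lfun hb0 hb1 hw0 hw1).neg
  have h2 : HasDerivAt (fun w : ℝ => w - b) 1 w := (hasDerivAt_id w).sub_const b
  have h3 : HasDerivAt (fun w : ℝ => w - 1 / 2) 1 w := (hasDerivAt_id w).sub_const _
  have h4 := (h1.sub (h2.const_mul 4)).sub (((h3.pow 3).sub_const ((b - 1 / 2) ^ 3)).const_mul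
    (16 / 3))
  refine h4.congr_deriv ?_
  simp only [Nat.cast_ofNat, mul_one]
  ring

lemma hasDerivAt_pfun {b w : ℝ} (hb0 : 0 < b) (hb1 : b < 1) (hw0 : 0 < w) (hw1 : w < 1) :
    HasDerivAt (pfun b) (pder b w) w := by
  have h1 := hasDerivAt_relEnt hb0 hb1 hw0 hw1
  have h2 : HasDerivAt (fun w : ℝ => w - b) 1 w := (hasDerivAt_id w).sub_const b
  have h3 : HasDerivAt (fun w : ℝ => w - 1 / 2) 1 w := (hasDerivAt_id w).sub_const _
  have h4 := (h1.sub ((h2.pow 2).const_mul 2)).sub ((((h3.pow 4).sub_const ((b - 1 / 2) ^ 4)).sub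
    (h2.const_mul (4 * (b - 1 / 2) ^ 3))).const_mul (4 / 3))
  refine h4.congr_deriv ?_
  unfold pder
  simp only [Nat.cast_ofNat, mul_one]
  ring

lemma pder_mono {b : ℝ} (hb0 : 0 < b) (hb1 : b < 1) : MonotoneOn (pder b) (Ioo 0 1) := by
  refine monotoneOn_of_deriv_nonneg (convex_Ioo 0 1) ?_ ?_ ?_
  · intro y hy
    exact (hasDerivAt_pder hb0 hb1 hy.1 hy.2).continuousAt.continuousWithinAt
  · intro y hy
    rw [interior_Ioo] at hy
    exact (hasDerivAt_pder hb0 hb1 hy.1 hy.2).differentiableAt.differentiableWithinAt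
  · intro y hy
    rw [interior_Ioo] at hy
    rw [(hasDerivAt_pder hb0 hb1 hy.1 hy.2).deriv]
    have h1 : 0 < y * (1 - y) := mul_pos hy.1 (by linarith [hy.2])
    have h2 : 4 + 16 * (y - 1 / 2) ^ 2 ≤ 1 / (y * (1 - y)) := by
      rw [le_div_iff₀ h1]
      nlinarith [sq_nonneg (y - 1 / 2), sq_nonneg ((y - 1 / 2) ^ 2)]
    linarith

lemma pfun_nonneg {b w : ℝ} (hb0 : 0 < b) (hb1 : b < 1) (hw0 : 0 ≤ w) (hw1 : w ≤ 1) :
    0 ≤ pfun b w := by
  have hpb : pder b b = 0 := by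
    unfold pder
    rw [lfun_self hb0 hb1]
    ring
  have hfb : pfun b b = 0 := by
    unfold pfun
    rw [relEnt_self hb0 hb1]
    ring
  have hc : Continuous (pfun b) := by
    have := continuous_relEnt hb0 hb1
    unfold pfun
    fun_prop
  rcases le_total w b with h | h
  · have ha : AntitoneOn (pfun b) (Icc 0 b) := by
      refine antitoneOn_of_deriv_nonpos (convex_Icc 0 b) hc.continuousOn ?_ ?_
      · intro y hy
        rw [interior_Icc] at hy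
        exact (hasDerivAt_pfun hb0 hb1 hy.1 (hy.2.trans hb1)).differentiableAt.differentiableWithinAt
      · intro y hy
        rw [interior_Icc] at hy
        rw [(hasDerivAt_pfun hb0 hb1 hy.1 (hy.2.trans hb1)).deriv, ← hpb]
        exact pder_mono hb0 hb1 ⟨hy.1, hy.2.trans hb1⟩ ⟨hb0, hb1⟩ hy.2.le
    rw [← hfb]
    exact ha ⟨hw0, h⟩ ⟨hb0.le, le_rfl⟩ h
  · have ha : MonotoneOn (pfun b) (Icc b 1) := by
      refine monotoneOn_of_deriv_nonneg (convex_Icc b 1) hc.continuousOn ?_ ?_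
      · intro y hy
        rw [interior_Icc] at hy
        exact (hasDerivAt_pfun hb0 hb1 (hb0.trans hy.1)
          hy.2).differentiableAt.differentiableWithinAt
      · intro y hy
        rw [interior_Icc] at hy
        rw [(hasDerivAt_pfun hb0 hb1 (hb0.trans hy.1) hy.2).deriv, ← hpb]
        exact pder_mono hb0 hb1 ⟨hb0, hb1⟩ ⟨hb0.trans hy.1, hy.2⟩ hy.1.le
    rw [← hfb]
    exact ha ⟨le_rfl, hb1.le⟩ ⟨h, hw1⟩ h

/-- A refinement of Pinsker's inequality. -/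
lemma relEnt_refined {b w : ℝ} (hb0 : 0 < b) (hb1 : b < 1) (hw0 : 0 ≤ w) (hw1 : w ≤ 1) :
    (2 + 8 / 3 * (b - 1 / 2) ^ 2) * (w - b) ^ 2 ≤ relEnt b w := by
  have h := pfun_nonneg hb0 hb1 hw0 hw1
  unfold pfun at h
  have e : 4 / 3 * ((w - 1 / 2) ^ 4 - (b - 1 / 2) ^ 4 - 4 * (b - 1 / 2) ^ 3 * (w - b)) =
      4 / 3 * (w - b) ^ 2 * (w + b - 1) ^ 2 + 8 / 3 * (b - 1 / 2) ^ 2 * (w - b) ^ 2 := by ring
  rw [e] at h
  have h2 : 0 ≤ 4 / 3 * (w - b) ^ 2 * (w + b - 1) ^ 2 := by positivity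
  linarith

/-- Pinsker's inequality. -/
lemma relEnt_pinsker {b w : ℝ} (hb0 : 0 < b) (hb1 : b < 1) (hw0 : 0 ≤ w) (hw1 : w ≤ 1) :
    2 * (w - b) ^ 2 ≤ relEnt b w := by
  have h := relEnt_refined hb0 hb1 hw0 hw1
  have h2 : 0 ≤ 8 / 3 * (b - 1 / 2) ^ 2 * (w - b) ^ 2 := by positivity
  linarith

end Pool.Agent.H99.LowerTail
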