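import Pool.Agent.H99.BndPoly

namespace Pool.Agent.H99.LowerTail

theorem sC0 : okSB (1 / 100) (105141 / 50000000) (17181 / 100000000) (84941 / 10000000) = true := by decide +kernel

theorem sC1 : okSB (1 / 80) (131523 / 50000000) (21523 / 100000000) (106177 / 10000000) = true := by decide +kernel

theorem sC2 : okSB (3 / 200) (19743 / 6250000) (6471 / 25000000) (25483 / 2000000) = true := by decide +kernel

theorem sC3 : okSB (7 / 400) (46101 / 12500000) (3783 / 12500000) (148653 / 10000000) = true := by decide +kernel

theorem sC4 : okSB (1 / 50) (421807 / 100000000) (34663 / 100000000) (42473 / 2500000) = true := by decide +kernel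

theorem sC5 : okSB (9 / 400) (118721 / 25000000) (39081 / 100000000) (47783 / 2500000) = true := by decide +kernel

theorem sC6 : okSB (1 / 40) (528041 / 100000000) (43519 / 100000000) (212373 / 10000000) = true := by decide +kernel

theorem sC7 : okSB (11 / 400) (581277 / 100000000) (5997 / 12500000) (116807 / 5000000) = true := by decide +kernel

theorem sC8 : okSB (3 / 100) (634593 / 100000000) (13113 / 25000000) (254857 / 10000000) = true := by decide +kernel

theorem sC9 : okSB (13 / 400) (68799 / 10000000) (56949 / 100000000) (2761 / 100000) = true := by decide +kernel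

theorem sC10 : okSB (7 / 200) (741467 / 100000000) (30733 / 50000000) (297343 / 10000000) = true := by decide +kernel

theorem sC11 : okSB (3 / 80) (31801 / 4000000) (33001 / 50000000) (79647 / 2500000) = true := by decide +kernel

theorem sC12 : okSB (1 / 25) (106083 / 12500000) (35279 / 50000000) (169917 / 5000000) = true := by decide +kernel

theorem sC13 : okSB (17 / 400) (180477 / 20000000) (15027 / 20000000) (9027 / 250000) = true := by decide +kernel

theorem sC14 : okSB (9 / 200) (239047 / 25000000) (19933 / 25000000) (382327 / 10000000) = true := by decide +kernel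

theorem sC15 : okSB (19 / 400) (1010073 / 100000000) (84349 / 100000000) (16143 / 400000) = true := by decide +kernel

theorem sC16 : okSB (1 / 20) (1064041 / 100000000) (22247 / 25000000) (53103 / 1250000) = true := by decide +kernel

theorem sC17 : okSB (21 / 400) (1118091 / 100000000) (46823 / 50000000) (223037 / 5000000) = true := by decide +kernel

theorem sC18 : okSB (11 / 200) (586113 / 50000000) (49163 / 50000000) (18693 / 400000) = true := by decide +kernel

theorem sC19 : okSB (23 / 400) (306611 / 25000000) (103027 / 100000000) (488577 / 10000000) = true := by decide +kernel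

theorem sC20 : okSB (3 / 50) (640373 / 50000000) (107749 / 100000000) (509829 / 10000000) = true := by decide +kernel

theorem sC21 : okSB (1 / 16) (1335133 / 100000000) (28123 / 25000000) (531083 / 10000000) = true := by decide +kernel

theorem sC22 : okSB (13 / 200) (347401 / 25000000) (14657 / 12500000) (276169 / 5000000) = true := by decide +kernel

theorem sC23 : okSB (27 / 400) (1444161 / 100000000) (61021 / 50000000) (573593 / 10000000) = true := by decide +kernel

theorem sC24 : okSB (7 / 100) (374701 / 25000000) (2537 / 2000000) (594849 / 10000000) = true := by decide +kernel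

theorem sC25 : okSB (29 / 400) (388383 / 25000000) (823 / 625000) (616107 / 10000000) = true := by decide +kernel

theorem sC26 : okSB (3 / 40) (1608347 / 100000000) (34133 / 25000000) (127473 / 2000000) = true := by decide +kernel

theorem sC27 : okSB (31 / 400) (1663249 / 100000000) (28281 / 20000000) (5269 / 80000) = true := by decide +kernel

theorem sC28 : okSB (2 / 25) (859119 / 50000000) (146301 / 100000000) (339943 / 5000000) = true := by decide +kernel

theorem sC29 : okSB (33 / 400) (886657 / 50000000) (7561 / 5000000) (701147 / 10000000) = true := by decide +kernel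

theorem sC30 : okSB (17 / 200) (914239 / 50000000) (122 / 78125) (72241 / 1000000) = true := by decide +kernel

theorem sC31 : okSB (7 / 80) (1883731 / 100000000) (40281 / 25000000) (371837 / 5000000) = true := by decide +kernel

theorem sC32 : okSB (9 / 100) (1939073 / 100000000) (166111 / 100000000) (764939 / 10000000) = true := by decide +kernel

theorem sC33 : okSB (37 / 400) (1994503 / 100000000) (2139 / 1250000) (157241 / 2000000) = true := by decide +kernel

theorem sC34 : okSB (19 / 200) (2050023 / 100000000) (176153 / 100000000) (50467 / 625000) = true := by decide +kernel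

theorem sC35 : okSB (39 / 400) (1052817 / 50000000) (181209 / 100000000) (41437 / 500000) = true := by decide +kernel

theorem sC36 : okSB (1 / 10) (1080667 / 50000000) (186289 / 100000000) (850009 / 10000000) = true := by decide +kernel

theorem sC37 : okSB (41 / 400) (1108563 / 50000000) (5981 / 3125000) (10891 / 125000) = true := by decide +kernel

theorem sC38 : okSB (21 / 200) (142063 / 6250000) (98259 / 50000000) (111569 / 1250000) = true := by decide +kernel

theorem sC39 : okSB (43 / 400) (1164491 / 50000000) (201669 / 100000000) (36553 / 400000) = true := by decide +kernel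

theorem sC40 : okSB (11 / 100) (2385049 / 100000000) (51711 / 25000000) (935099 / 10000000) = true := by decide +kernel

theorem sC41 : okSB (9 / 80) (305151 / 12500000) (53011 / 25000000) (478187 / 5000000) = true := by decide +kernel

theorem sC42 : okSB (23 / 200) (2497459 / 100000000) (217267 / 100000000) (977651 / 10000000) = true := by decide +kernel

theorem sC43 : okSB (47 / 400) (638451 / 25000000) (44503 / 20000000) (998929 / 10000000) = true := by decide +kernel

theorem sC44 : okSB (3 / 25) (2610243 / 100000000) (56947 / 25000000) (63763 / 625000) = true := by decide +kernel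

theorem sC45 : okSB (49 / 400) (333347 / 12500000) (116543 / 50000000) (65093 / 625000) = true := by decide +kernel

theorem sC46 : okSB (1 / 8) (680851 / 25000000) (238409 / 100000000) (106277 / 1000000) = true := by decide +kernel

theorem sC47 : okSB (51 / 400) (2780127 / 100000000) (243757 / 100000000) (1084053 / 10000000) = true := by decide +kernel

theorem sC48 : okSB (13 / 100) (1418473 / 50000000) (249131 / 100000000) (1105337 / 10000000) = true := by decide +kernel

theorem sC49 : okSB (53 / 400) (144693 / 5000000) (25453 / 10000000) (1126623 / 10000000) = true := by decide +kernel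

theorem sC50 : okSB (27 / 200) (2950871 / 100000000) (51991 / 20000000) (114791 / 1000000) = true := by decide +kernel

theorem sC51 : okSB (11 / 80) (3007979 / 100000000) (265407 / 100000000) (584599 / 5000000) = true := by decide +kernel

theorem sC52 : okSB (7 / 50) (613037 / 20000000) (67721 / 25000000) (148811 / 1250000) = true := by decide +kernel

theorem sC53 : okSB (57 / 400) (390311 / 12500000) (276387 / 100000000) (1211779 / 10000000) = true := by decide +kernel

theorem sC54 : okSB (29 / 200) (317989 / 10000000) (281917 / 100000000) (77067 / 625000) = true := by decide +kernel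

theorem sC55 : okSB (59 / 400) (3237391 / 100000000) (143737 / 50000000) (627183 / 5000000) = true := by decide +kernel

theorem sC56 : okSB (3 / 20) (329499 / 10000000) (146529 / 50000000) (1275661 / 10000000) = true := by decide +kernel

theorem sC57 : okSB (61 / 400) (335269 / 10000000) (74667 / 25000000) (648479 / 5000000) = true := by decide +kernel

theorem sC58 : okSB (31 / 200) (341049 / 10000000) (152153 / 50000000) (1318257 / 10000000) = true := by decide +kernel

theorem sC59 : okSB (63 / 400) (3468391 / 100000000) (77493 / 25000000) (1339557 / 10000000) = true := by decide +kernel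

theorem sC60 : okSB (4 / 25) (3526393 / 100000000) (63133 / 20000000) (680429 / 5000000) = true := by decide +kernel

theorem sC61 : okSB (13 / 80) (3584497 / 100000000) (160693 / 50000000) (1382161 / 10000000) = true := by decide +kernel

theorem sC62 : okSB (33 / 200) (3642703 / 100000000) (65427 / 20000000) (701733 / 5000000) = true := by decide +kernel

theorem sC63 : okSB (67 / 400) (925253 / 25000000) (20807 / 6250000) (356193 / 2500000) = true := by decide +kernel

theorem loC0 : LoOn (polyC 0 (2087 / 10000) (69 / 1000) 0 (19 / 250) 2 3) ((0 : ℚ) : ℝ) (((17 / 100) : ℚ) : ℝ) := by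
  refine LoOn.trans (lo_poly_small (y := (1 / 100)) (by decide +kernel)) ?_
  refine LoOn.trans (lo_poly sC0 (y := (1 / 80)) (by decide +kernel)) ?_
  refine LoOn.trans (lo_poly sC1 (y := (3 / 200)) (by decide +kernel)) ?_
  refine LoOn.trans (lo_poly sC2 (y := (7 / 400)) (by decide +kernel)) ?_
  refine LoOn.trans (lo_poly sC3 (y := (1 / 50)) (by decide +kernel)) ?_
  refine LoOn.trans (lo_poly sC4 (y := (9 / 400)) (by decide +kernel)) ?_
  refine LoOn.trans (lo_poly sC5 (y := (1 / 40)) (by decide +kernel)) ?_
  refine LoOn.trans (lo_poly sC6 (y := (11 / 400)) (by decide +kernel)) ?_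
  refine LoOn.trans (lo_poly sC7 (y := (3 / 100)) (by decide +kernel)) ?_
  refine LoOn.trans (lo_poly sC8 (y := (13 / 400)) (by decide +kernel)) ?_
  refine LoOn.trans (lo_poly sC9 (y := (7 / 200)) (by decide +kernel)) ?_
  refine LoOn.trans (lo_poly sC10 (y := (3 / 80)) (by decide +kernel)) ?_
  refine LoOn.trans (lo_poly sC11 (y := (1 / 25)) (by decide +kernel)) ?_
  refine LoOn.trans (lo_poly sC12 (y := (17 / 400)) (by decide +kernel)) ?_
  refine LoOn.trans (lo_poly sC13 (y := (9 / 200)) (by decide +kernel)) ?_
  refine LoOn.trans (lo_poly sC14 (y := (19 / 400)) (by decide +kernel)) ?_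
  refine LoOn.trans (lo_poly sC15 (y := (1 / 20)) (by decide +kernel)) ?_
  refine LoOn.trans (lo_poly sC16 (y := (21 / 400)) (by decide +kernel)) ?_
  refine LoOn.trans (lo_poly sC17 (y := (11 / 200)) (by decide +kernel)) ?_
  refine LoOn.trans (lo_poly sC18 (y := (23 / 400)) (by decide +kernel)) ?_
  refine LoOn.trans (lo_poly sC19 (y := (3 / 50)) (by decide +kernel)) ?_
  refine LoOn.trans (lo_poly sC20 (y := (1 / 16)) (by decide +kernel)) ?_
  refine LoOn.trans (lo_poly sC21 (y := (13 / 200)) (by decide +kernel)) ?_
  refine LoOn.trans (lo_poly sC22 (y := (27 / 400)) (by decide +kernel)) ?_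
  refine LoOn.trans (lo_poly sC23 (y := (7 / 100)) (by decide +kernel)) ?_
  refine LoOn.trans (lo_poly sC24 (y := (29 / 400)) (by decide +kernel)) ?_
  refine LoOn.trans (lo_poly sC25 (y := (3 / 40)) (by decide +kernel)) ?_
  refine LoOn.trans (lo_poly sC26 (y := (31 / 400)) (by decide +kernel)) ?_
  refine LoOn.trans (lo_poly sC27 (y := (2 / 25)) (by decide +kernel)) ?_
  refine LoOn.trans (lo_poly sC28 (y := (33 / 400)) (by decide +kernel)) ?_
  refine LoOn.trans (lo_poly sC29 (y := (17 / 200)) (by decide +kernel)) ?_
  refine LoOn.trans (lo_poly sC30 (y := (7 / 80)) (by decide +kernel)) ?_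
  refine LoOn.trans (lo_poly sC31 (y := (9 / 100)) (by decide +kernel)) ?_
  refine LoOn.trans (lo_poly sC32 (y := (37 / 400)) (by decide +kernel)) ?_
  refine LoOn.trans (lo_poly sC33 (y := (19 / 200)) (by decide +kernel)) ?_
  refine LoOn.trans (lo_poly sC34 (y := (39 / 400)) (by decide +kernel)) ?_
  refine LoOn.trans (lo_poly sC35 (y := (1 / 10)) (by decide +kernel)) ?_
  refine LoOn.trans (lo_poly sC36 (y := (41 / 400)) (by decide +kernel)) ?_
  refine LoOn.trans (lo_poly sC37 (y := (21 / 200)) (by decide +kernel)) ?_
  refine LoOn.trans (lo_poly sC38 (y := (43 / 400)) (by decide +kernel)) ?_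
  refine LoOn.trans (lo_poly sC39 (y := (11 / 100)) (by decide +kernel)) ?_
  refine LoOn.trans (lo_poly sC40 (y := (9 / 80)) (by decide +kernel)) ?_
  refine LoOn.trans (lo_poly sC41 (y := (23 / 200)) (by decide +kernel)) ?_
  refine LoOn.trans (lo_poly sC42 (y := (47 / 400)) (by decide +kernel)) ?_
  refine LoOn.trans (lo_poly sC43 (y := (3 / 25)) (by decide +kernel)) ?_
  refine LoOn.trans (lo_poly sC44 (y := (49 / 400)) (by decide +kernel)) ?_
  refine LoOn.trans (lo_poly sC45 (y := (1 / 8)) (by decide +kernel)) ?_
  refine LoOn.trans (lo_poly sC46 (y := (51 / 400)) (by decide +kernel)) ?_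
  refine LoOn.trans (lo_poly sC47 (y := (13 / 100)) (by decide +kernel)) ?_
  refine LoOn.trans (lo_poly sC48 (y := (53 / 400)) (by decide +kernel)) ?_
  refine LoOn.trans (lo_poly sC49 (y := (27 / 200)) (by decide +kernel)) ?_
  refine LoOn.trans (lo_poly sC50 (y := (11 / 80)) (by decide +kernel)) ?_
  refine LoOn.trans (lo_poly sC51 (y := (7 / 50)) (by decide +kernel)) ?_
  refine LoOn.trans (lo_poly sC52 (y := (57 / 400)) (by decide +kernel)) ?_
  refine LoOn.trans (lo_poly sC53 (y := (29 / 200)) (by decide +kernel)) ?_
  refine LoOn.trans (lo_poly sC54 (y := (59 / 400)) (by decide +kernel)) ?_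
  refine LoOn.trans (lo_poly sC55 (y := (3 / 20)) (by decide +kernel)) ?_
  refine LoOn.trans (lo_poly sC56 (y := (61 / 400)) (by decide +kernel)) ?_
  refine LoOn.trans (lo_poly sC57 (y := (31 / 200)) (by decide +kernel)) ?_
  refine LoOn.trans (lo_poly sC58 (y := (63 / 400)) (by decide +kernel)) ?_
  refine LoOn.trans (lo_poly sC59 (y := (4 / 25)) (by decide +kernel)) ?_
  refine LoOn.trans (lo_poly sC60 (y := (13 / 80)) (by decide +kernel)) ?_
  refine LoOn.trans (lo_poly sC61 (y := (33 / 200)) (by decide +kernel)) ?_
  refine LoOn.trans (lo_poly sC62 (y := (67 / 400)) (by decide +kernel)) ?_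
  exact lo_poly sC63 (y := (17 / 100)) (by decide +kernel)

end Pool.Agent.H99.LowerTail
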