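import Pool.Agent.H99.BndPoly

namespace Pool.Agent.H99.LowerTail

theorem sC64 : okSB (17 / 100) (58741 / 1562500) (169359 / 50000000) (4519 / 31250) = true := by decide +kernel

theorem sC65 : okSB (69 / 400) (190897 / 5000000) (43069 / 12500000) (146739 / 1000000) = true := by decide +kernel

theorem sC66 : okSB (7 / 40) (48457 / 1250000) (70083 / 20000000) (1488701 / 10000000) = true := by decide +kernel

theorem sC67 : okSB (71 / 400) (787057 / 20000000) (356307 / 100000000) (755007 / 5000000) = true := by decide +kernel

theorem sC68 : okSB (9 / 50) (998529 / 25000000) (90557 / 25000000) (23927 / 156250) = true := by decide +kernel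

theorem sC69 : okSB (73 / 400) (4053053 / 100000000) (368179 / 100000000) (388161 / 2500000) = true := by decide +kernel

theorem sC70 : okSB (37 / 200) (128503 / 3125000) (4677 / 1250000) (786981 / 5000000) = true := by decide +kernel

theorem sC71 : okSB (3 / 16) (2085623 / 50000000) (380171 / 100000000) (797641 / 5000000) = true := by decide +kernel

theorem sC72 : okSB (19 / 100) (4230503 / 100000000) (386211 / 100000000) (1616603 / 10000000) = true := by decide +kernel

theorem sC73 : okSB (77 / 400) (4289869 / 100000000) (196141 / 50000000) (818963 / 5000000) = true := by decide +kernel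

theorem sC74 : okSB (39 / 200) (4349343 / 100000000) (398383 / 100000000) (414813 / 2500000) = true := by decide +kernel

theorem sC75 : okSB (79 / 400) (4408927 / 100000000) (101129 / 25000000) (840289 / 5000000) = true := by decide +kernel

theorem sC76 : okSB (1 / 5) (223431 / 5000000) (410679 / 100000000) (850953 / 5000000) = true := by decide +kernel

theorem sC77 : okSB (81 / 400) (566053 / 12500000) (208437 / 50000000) (430809 / 2500000) = true := by decide +kernel

theorem sC78 : okSB (41 / 200) (2294169 / 50000000) (4231 / 1000000) (1744569 / 10000000) = true := by decide +kernel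

theorem sC79 : okSB (83 / 400) (1162091 / 25000000) (214679 / 50000000) (1765903 / 10000000) = true := by decide +kernel

theorem sC80 : okSB (21 / 100) (2354251 / 50000000) (435647 / 100000000) (44681 / 250000) = true := by decide +kernel

theorem sC81 : okSB (17 / 80) (4768753 / 100000000) (441969 / 100000000) (904289 / 5000000) = true := by decide +kernel

theorem sC82 : okSB (43 / 200) (4829117 / 100000000) (448323 / 100000000) (914959 / 5000000) = true := by decide +kernel

theorem sC83 : okSB (87 / 400) (977919 / 20000000) (45471 / 10000000) (92563 / 500000) = true := by decide +kernel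

theorem sC84 : okSB (11 / 50) (1237547 / 25000000) (46113 / 10000000) (468151 / 2500000) = true := by decide +kernel

theorem sC85 : okSB (89 / 400) (1002179 / 20000000) (467583 / 100000000) (37879 / 200000) = true := by decide +kernel

theorem sC86 : okSB (9 / 40) (2535859 / 50000000) (474069 / 100000000) (957649 / 5000000) = true := by decide +kernel

theorem sC87 : okSB (91 / 400) (2566329 / 50000000) (48059 / 10000000) (242081 / 1250000) = true := by decide +kernel

theorem sC88 : okSB (23 / 100) (2596857 / 50000000) (60893 / 12500000) (1958001 / 10000000) = true := by decide +kernel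

theorem sC89 : okSB (93 / 400) (656861 / 12500000) (123433 / 25000000) (395871 / 2000000) = true := by decide +kernel

theorem sC90 : okSB (47 / 200) (5316181 / 100000000) (100071 / 20000000) (250089 / 1250000) = true := by decide +kernel

theorem sC91 : okSB (19 / 80) (672199 / 12500000) (126753 / 25000000) (202207 / 1000000) = true := by decide +kernel

theorem sC92 : okSB (6 / 25) (2719561 / 50000000) (64213 / 12500000) (2043431 / 10000000) = true := by decide +kernel

theorem sC93 : okSB (97 / 400) (5500773 / 100000000) (32527 / 6250000) (412959 / 2000000) = true := by decide +kernel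

theorem sC94 : okSB (49 / 200) (347659 / 6250000) (105439 / 20000000) (26077 / 125000) = true := by decide +kernel

theorem sC95 : okSB (99 / 400) (5624437 / 100000000) (533993 / 100000000) (263441 / 1250000) = true := by decide +kernel

theorem sC96 : okSB (1 / 4) (5686453 / 100000000) (540829 / 100000000) (2128897 / 10000000) = true := by decide +kernel

theorem sC97 : okSB (101 / 400) (5748591 / 100000000) (5477 / 1000000) (215027 / 1000000) = true := by decide +kernel

theorem sC98 : okSB (51 / 200) (1452713 / 25000000) (34663 / 6250000) (542911 / 2500000) = true := by decide +kernel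

theorem sC99 : okSB (103 / 400) (2936619 / 50000000) (35097 / 6250000) (1096511 / 5000000) = true := by decide +kernel

theorem sC100 : okSB (13 / 50) (1483937 / 25000000) (284267 / 50000000) (2214401 / 10000000) = true := by decide +kernel

theorem sC101 : okSB (21 / 80) (374899 / 6250000) (287777 / 50000000) (2235783 / 10000000) = true := by decide +kernel

theorem sC102 : okSB (53 / 200) (6061147 / 100000000) (582611 / 100000000) (2257167 / 10000000) = true := by decide +kernel

theorem sC103 : okSB (107 / 400) (1531009 / 25000000) (589707 / 100000000) (2278553 / 10000000) = true := by decide +kernel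

theorem sC104 : okSB (27 / 100) (6187053 / 100000000) (14921 / 2500000) (2299943 / 10000000) = true := by decide +kernel

theorem sC105 : okSB (109 / 400) (6250199 / 100000000) (151003 / 25000000) (290167 / 1250000) = true := by decide +kernel

theorem sC106 : okSB (11 / 40) (3156737 / 50000000) (24449 / 4000000) (2342729 / 10000000) = true := by decide +kernel

theorem sC107 : okSB (111 / 400) (3188439 / 50000000) (24739 / 4000000) (2364127 / 10000000) = true := by decide +kernel

theorem sC108 : okSB (7 / 25) (3220207 / 50000000) (312883 / 50000000) (1192763 / 5000000) = true := by decide +kernel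

theorem sC109 : okSB (113 / 400) (6504081 / 100000000) (79137 / 12500000) (150433 / 625000) = true := by decide +kernel

theorem sC110 : okSB (57 / 200) (164197 / 2500000) (640467 / 100000000) (2428333 / 10000000) = true := by decide +kernel

theorem sC111 : okSB (23 / 80) (1657953 / 25000000) (323939 / 50000000) (2449741 / 10000000) = true := by decide +kernel

theorem sC112 : okSB (29 / 100) (6695877 / 100000000) (65533 / 10000000) (2471151 / 10000000) = true := by decide +kernel

theorem sC113 : okSB (117 / 400) (3380039 / 50000000) (82853 / 12500000) (623141 / 2500000) = true := by decide +kernel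

theorem sC114 : okSB (59 / 200) (6824413 / 100000000) (670359 / 100000000) (125699 / 500000) = true := by decide +kernel

theorem sC115 : okSB (119 / 400) (1377777 / 20000000) (677937 / 100000000) (2535399 / 10000000) = true := by decide +kernel

theorem sC116 : okSB (3 / 10) (3476747 / 50000000) (171389 / 25000000) (2556821 / 10000000) = true := by decide +kernel

theorem sC117 : okSB (121 / 400) (5483 / 78125) (346609 / 50000000) (1289123 / 5000000) = true := by decide +kernel

theorem sC118 : okSB (61 / 200) (11333 / 160000) (700923 / 100000000) (2599673 / 10000000) = true := by decide +kernel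

theorem sC119 : okSB (123 / 400) (7148149 / 100000000) (11073 / 1562500) (2621103 / 10000000) = true := by decide +kernel

theorem sC120 : okSB (31 / 100) (3606657 / 50000000) (44779 / 6250000) (2642537 / 10000000) = true := by decide +kernel

theorem sC121 : okSB (5 / 16) (363931 / 5000000) (724301 / 100000000) (2663973 / 10000000) = true := by decide +kernel

theorem sC122 : okSB (63 / 200) (7344067 / 100000000) (366091 / 50000000) (671353 / 2500000) = true := by decide +kernel

theorem sC123 : okSB (127 / 400) (7409657 / 100000000) (740107 / 100000000) (541371 / 2000000) = true := by decide +kernel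

theorem sC124 : okSB (8 / 25) (7475391 / 100000000) (374039 / 50000000) (2728301 / 10000000) = true := by decide +kernel

theorem sC125 : okSB (129 / 400) (754127 / 10000000) (378047 / 50000000) (10999 / 40000) = true := by decide +kernel

theorem sC126 : okSB (13 / 40) (3803647 / 50000000) (764157 / 100000000) (1385601 / 5000000) = true := by decide +kernel

theorem sC127 : okSB (131 / 400) (959183 / 12500000) (386133 / 50000000) (2792657 / 10000000) = true := by decide +kernel

theorem loC1 : LoOn (polyC 0 (2087 / 10000) (69 / 1000) 0 (19 / 250) 2 3) (((17 / 100) : ℚ) : ℝ) (((33 / 100) : ℚ) : ℝ) := by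
  refine LoOn.trans (lo_poly sC64 (y := (69 / 400)) (by decide +kernel)) ?_
  refine LoOn.trans (lo_poly sC65 (y := (7 / 40)) (by decide +kernel)) ?_
  refine LoOn.trans (lo_poly sC66 (y := (71 / 400)) (by decide +kernel)) ?_
  refine LoOn.trans (lo_poly sC67 (y := (9 / 50)) (by decide +kernel)) ?_
  refine LoOn.trans (lo_poly sC68 (y := (73 / 400)) (by decide +kernel)) ?_
  refine LoOn.trans (lo_poly sC69 (y := (37 / 200)) (by decide +kernel)) ?_
  refine LoOn.trans (lo_poly sC70 (y := (3 / 16)) (by decide +kernel)) ?_
  refine LoOn.trans (lo_poly sC71 (y := (19 / 100)) (by decide +kernel)) ?_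
  refine LoOn.trans (lo_poly sC72 (y := (77 / 400)) (by decide +kernel)) ?_
  refine LoOn.trans (lo_poly sC73 (y := (39 / 200)) (by decide +kernel)) ?_
  refine LoOn.trans (lo_poly sC74 (y := (79 / 400)) (by decide +kernel)) ?_
  refine LoOn.trans (lo_poly sC75 (y := (1 / 5)) (by decide +kernel)) ?_
  refine LoOn.trans (lo_poly sC76 (y := (81 / 400)) (by decide +kernel)) ?_
  refine LoOn.trans (lo_poly sC77 (y := (41 / 200)) (by decide +kernel)) ?_
  refine LoOn.trans (lo_poly sC78 (y := (83 / 400)) (by decide +kernel)) ?_
  refine LoOn.trans (lo_poly sC79 (y := (21 / 100)) (by decide +kernel)) ?_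
  refine LoOn.trans (lo_poly sC80 (y := (17 / 80)) (by decide +kernel)) ?_
  refine LoOn.trans (lo_poly sC81 (y := (43 / 200)) (by decide +kernel)) ?_
  refine LoOn.trans (lo_poly sC82 (y := (87 / 400)) (by decide +kernel)) ?_
  refine LoOn.trans (lo_poly sC83 (y := (11 / 50)) (by decide +kernel)) ?_
  refine LoOn.trans (lo_poly sC84 (y := (89 / 400)) (by decide +kernel)) ?_
  refine LoOn.trans (lo_poly sC85 (y := (9 / 40)) (by decide +kernel)) ?_
  refine LoOn.trans (lo_poly sC86 (y := (91 / 400)) (by decide +kernel)) ?_
  refine LoOn.trans (lo_poly sC87 (y := (23 / 100)) (by decide +kernel)) ?_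
  refine LoOn.trans (lo_poly sC88 (y := (93 / 400)) (by decide +kernel)) ?_
  refine LoOn.trans (lo_poly sC89 (y := (47 / 200)) (by decide +kernel)) ?_
  refine LoOn.trans (lo_poly sC90 (y := (19 / 80)) (by decide +kernel)) ?_
  refine LoOn.trans (lo_poly sC91 (y := (6 / 25)) (by decide +kernel)) ?_
  refine LoOn.trans (lo_poly sC92 (y := (97 / 400)) (by decide +kernel)) ?_
  refine LoOn.trans (lo_poly sC93 (y := (49 / 200)) (by decide +kernel)) ?_
  refine LoOn.trans (lo_poly sC94 (y := (99 / 400)) (by decide +kernel)) ?_
  refine LoOn.trans (lo_poly sC95 (y := (1 / 4)) (by decide +kernel)) ?_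
  refine LoOn.trans (lo_poly sC96 (y := (101 / 400)) (by decide +kernel)) ?_
  refine LoOn.trans (lo_poly sC97 (y := (51 / 200)) (by decide +kernel)) ?_
  refine LoOn.trans (lo_poly sC98 (y := (103 / 400)) (by decide +kernel)) ?_
  refine LoOn.trans (lo_poly sC99 (y := (13 / 50)) (by decide +kernel)) ?_
  refine LoOn.trans (lo_poly sC100 (y := (21 / 80)) (by decide +kernel)) ?_
  refine LoOn.trans (lo_poly sC101 (y := (53 / 200)) (by decide +kernel)) ?_
  refine LoOn.trans (lo_poly sC102 (y := (107 / 400)) (by decide +kernel)) ?_
  refine LoOn.trans (lo_poly sC103 (y := (27 / 100)) (by decide +kernel)) ?_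
  refine LoOn.trans (lo_poly sC104 (y := (109 / 400)) (by decide +kernel)) ?_
  refine LoOn.trans (lo_poly sC105 (y := (11 / 40)) (by decide +kernel)) ?_
  refine LoOn.trans (lo_poly sC106 (y := (111 / 400)) (by decide +kernel)) ?_
  refine LoOn.trans (lo_poly sC107 (y := (7 / 25)) (by decide +kernel)) ?_
  refine LoOn.trans (lo_poly sC108 (y := (113 / 400)) (by decide +kernel)) ?_
  refine LoOn.trans (lo_poly sC109 (y := (57 / 200)) (by decide +kernel)) ?_
  refine LoOn.trans (lo_poly sC110 (y := (23 / 80)) (by decide +kernel)) ?_
  refine LoOn.trans (lo_poly sC111 (y := (29 / 100)) (by decide +kernel)) ?_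
  refine LoOn.trans (lo_poly sC112 (y := (117 / 400)) (by decide +kernel)) ?_
  refine LoOn.trans (lo_poly sC113 (y := (59 / 200)) (by decide +kernel)) ?_
  refine LoOn.trans (lo_poly sC114 (y := (119 / 400)) (by decide +kernel)) ?_
  refine LoOn.trans (lo_poly sC115 (y := (3 / 10)) (by decide +kernel)) ?_
  refine LoOn.trans (lo_poly sC116 (y := (121 / 400)) (by decide +kernel)) ?_
  refine LoOn.trans (lo_poly sC117 (y := (61 / 200)) (by decide +kernel)) ?_
  refine LoOn.trans (lo_poly sC118 (y := (123 / 400)) (by decide +kernel)) ?_
  refine LoOn.trans (lo_poly sC119 (y := (31 / 100)) (by decide +kernel)) ?_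
  refine LoOn.trans (lo_poly sC120 (y := (5 / 16)) (by decide +kernel)) ?_
  refine LoOn.trans (lo_poly sC121 (y := (63 / 200)) (by decide +kernel)) ?_
  refine LoOn.trans (lo_poly sC122 (y := (127 / 400)) (by decide +kernel)) ?_
  refine LoOn.trans (lo_poly sC123 (y := (8 / 25)) (by decide +kernel)) ?_
  refine LoOn.trans (lo_poly sC124 (y := (129 / 400)) (by decide +kernel)) ?_
  refine LoOn.trans (lo_poly sC125 (y := (13 / 40)) (by decide +kernel)) ?_
  refine LoOn.trans (lo_poly sC126 (y := (131 / 400)) (by decide +kernel)) ?_
  exact lo_poly sC127 (y := (33 / 100)) (by decide +kernel)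

end Pool.Agent.H99.LowerTail
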