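import Pool.Agent.H99.BndPoly

namespace Pool.Agent.H99.LowerTail

theorem sC128 : okSB (33 / 100) (3869891 / 50000000) (390211 / 50000000) (562823 / 2000000) = true := by decide +kernel

theorem sC129 : okSB (133 / 400) (975781 / 12500000) (6309 / 800000) (2835577 / 10000000) = true := by decide +kernel

theorem sC130 : okSB (67 / 200) (3936431 / 50000000) (199219 / 25000000) (1428521 / 5000000) = true := by decide +kernel

theorem sC131 : okSB (27 / 80) (7939627 / 100000000) (402587 / 50000000) (2878511 / 10000000) = true := by decide +kernel

theorem sC132 : okSB (17 / 50) (8006543 / 100000000) (813521 / 100000000) (2899983 / 10000000) = true := by decide +kernel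

theorem sC133 : okSB (137 / 400) (8073611 / 100000000) (821917 / 100000000) (1460729 / 5000000) = true := by decide +kernel

theorem sC134 : okSB (69 / 200) (8140831 / 100000000) (415181 / 50000000) (2942937 / 10000000) = true := by decide +kernel

theorem sC135 : okSB (139 / 400) (1641641 / 20000000) (838857 / 100000000) (2964419 / 10000000) = true := by decide +kernel

theorem sC136 : okSB (7 / 20) (1655147 / 20000000) (423701 / 50000000) (597181 / 2000000) = true := by decide +kernel

theorem sC137 : okSB (141 / 400) (417171 / 5000000) (427999 / 50000000) (1503697 / 5000000) = true := by decide +kernel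

theorem sC138 : okSB (71 / 200) (4205631 / 50000000) (172929 / 20000000) (378611 / 1250000) = true := by decide +kernel

theorem sC139 : okSB (143 / 400) (8479261 / 100000000) (436671 / 50000000) (610077 / 2000000) = true := by decide +kernel

theorem sC140 : okSB (9 / 25) (427371 / 5000000) (220523 / 25000000) (1535943 / 5000000) = true := by decide +kernel

theorem sC141 : okSB (29 / 80) (4307869 / 50000000) (55681 / 6250000) (3093389 / 10000000) = true := by decide +kernel

theorem sC142 : okSB (73 / 200) (4342109 / 50000000) (899751 / 100000000) (3114897 / 10000000) = true := by decide +kernel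

theorem sC143 : okSB (147 / 400) (8752859 / 100000000) (908659 / 100000000) (313641 / 1000000) = true := by decide +kernel

theorem sC144 : okSB (37 / 100) (275677 / 3125000) (917623 / 100000000) (126317 / 400000) = true := by decide +kernel

theorem sC145 : okSB (149 / 400) (1111329 / 12500000) (11583 / 1250000) (635889 / 2000000) = true := by decide +kernel

theorem sC146 : okSB (3 / 8) (4479883 / 50000000) (935711 / 100000000) (3200969 / 10000000) = true := by decide +kernel

theorem sC147 : okSB (151 / 400) (4514533 / 50000000) (472419 / 50000000) (3222497 / 10000000) = true := by decide +kernel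

theorem sC148 : okSB (19 / 50) (4549267 / 50000000) (954021 / 100000000) (3244029 / 10000000) = true := by decide +kernel

theorem sC149 : okSB (153 / 400) (916817 / 10000000) (963261 / 100000000) (653113 / 2000000) = true := by decide +kernel

theorem sC150 : okSB (77 / 200) (1154747 / 12500000) (972557 / 100000000) (657421 / 2000000) = true := by decide +kernel

theorem sC151 : okSB (31 / 80) (9307953 / 100000000) (981911 / 100000000) (3308649 / 10000000) = true := by decide +kernel

theorem sC152 : okSB (39 / 100) (4689051 / 50000000) (991323 / 100000000) (1665099 / 5000000) = true := by decide +kernel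

theorem sC153 : okSB (157 / 400) (1181053 / 12500000) (1000793 / 100000000) (13407 / 40000) = true := by decide +kernel

theorem sC154 : okSB (79 / 200) (9518921 / 100000000) (505161 / 50000000) (3373307 / 10000000) = true := by decide +kernel

theorem sC155 : okSB (159 / 400) (9589593 / 100000000) (1019911 / 100000000) (3394869 / 10000000) = true := by decide +kernel

theorem sC156 : okSB (2 / 5) (4830221 / 50000000) (25739 / 2500000) (683287 / 2000000) = true := by decide +kernel

theorem sC157 : okSB (161 / 400) (973147 / 10000000) (103927 / 10000000) (1719003 / 5000000) = true := by decide +kernel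

theorem sC158 : okSB (81 / 200) (2450669 / 25000000) (1049041 / 100000000) (3459581 / 10000000) = true := by decide +kernel

theorem sC159 : okSB (163 / 400) (9874063 / 100000000) (529437 / 50000000) (87029 / 250000) = true := by decide +kernel

theorem sC160 : okSB (41 / 100) (310801 / 3125000) (1068769 / 100000000) (700549 / 2000000) = true := by decide +kernel

theorem sC161 : okSB (33 / 80) (1252173 / 12500000) (1078727 / 100000000) (1762167 / 5000000) = true := by decide +kernel

theorem sC162 : okSB (83 / 200) (10089321 / 100000000) (871 / 80000) (443241 / 1250000) = true := by decide +kernel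

theorem sC163 : okSB (167 / 400) (10161443 / 100000000) (274709 / 25000000) (1783763 / 5000000) = true := by decide +kernel

theorem sC164 : okSB (21 / 50) (1279219 / 12500000) (1108987 / 100000000) (358913 / 1000000) = true := by decide +kernel

theorem sC165 : okSB (169 / 400) (1649 / 16000) (279801 / 25000000) (1805369 / 5000000) = true := by decide +kernel

theorem sC166 : okSB (17 / 40) (5189469 / 50000000) (70593 / 6250000) (3632351 / 10000000) = true := by decide +kernel

theorem sC167 : okSB (171 / 400) (1306477 / 12500000) (569919 / 50000000) (365397 / 1000000) = true := by decide +kernel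

theorem sC168 : okSB (43 / 100) (1315611 / 12500000) (71891 / 6250000) (3675593 / 10000000) = true := by decide +kernel

theorem sC169 : okSB (173 / 400) (10598153 / 100000000) (1160741 / 100000000) (1848611 / 5000000) = true := by decide +kernel

theorem sC170 : okSB (87 / 200) (5335807 / 50000000) (36603 / 3125000) (464857 / 1250000) = true := by decide +kernel

theorem sC171 : okSB (7 / 16) (1343159 / 12500000) (1181921 / 100000000) (1870247 / 5000000) = true := by decide +kernel

theorem sC172 : okSB (11 / 25) (1352391 / 12500000) (238523 / 20000000) (3762139 / 10000000) = true := by decide +kernel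

theorem sC173 : okSB (177 / 400) (85103 / 781250) (60169 / 5000000) (3783789 / 10000000) = true := by decide +kernel

theorem sC174 : okSB (89 / 200) (10967441 / 100000000) (607109 / 50000000) (3805443 / 10000000) = true := by decide +kernel

theorem sC175 : okSB (179 / 400) (11041901 / 100000000) (1225127 / 100000000) (119597 / 312500) = true := by decide +kernel

theorem sC176 : okSB (9 / 20) (5558283 / 50000000) (123611 / 10000000) (3848771 / 10000000) = true := by decide +kernel

theorem sC177 : okSB (181 / 400) (2797859 / 25000000) (623583 / 50000000) (3870443 / 10000000) = true := by decide +kernel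

theorem sC178 : okSB (91 / 200) (5633257 / 50000000) (629149 / 50000000) (97303 / 250000) = true := by decide +kernel

theorem sC179 : okSB (183 / 400) (11341801 / 100000000) (4959 / 390625) (978451 / 2500000) = true := by decide +kernel

theorem sC180 : okSB (23 / 50) (11417299 / 100000000) (320197 / 25000000) (983873 / 2500000) = true := by decide +kernel

theorem sC181 : okSB (37 / 80) (11493009 / 100000000) (323037 / 25000000) (3957187 / 10000000) = true := by decide +kernel

theorem sC182 : okSB (93 / 200) (11568933 / 100000000) (260717 / 20000000) (3978889 / 10000000) = true := by decide +kernel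

theorem sC183 : okSB (187 / 400) (11645073 / 100000000) (657551 / 50000000) (1000149 / 2500000) = true := by decide +kernel

theorem sC184 : okSB (47 / 100) (1172143 / 10000000) (663349 / 50000000) (4022309 / 10000000) = true := by decide +kernel

theorem sC185 : okSB (189 / 400) (11798007 / 100000000) (10707 / 800000) (1011007 / 2500000) = true := by decide +kernel

theorem sC186 : okSB (19 / 40) (2968701 / 25000000) (337533 / 25000000) (2032877 / 5000000) = true := by decide +kernel

theorem sC187 : okSB (191 / 400) (746989 / 6250000) (1361971 / 100000000) (2043743 / 5000000) = true := by decide +kernel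

theorem sC188 : okSB (12 / 25) (3007267 / 25000000) (1373893 / 100000000) (164369 / 400000) = true := by decide +kernel

theorem sC189 : okSB (193 / 400) (6053269 / 50000000) (1385899 / 100000000) (413097 / 1000000) = true := by decide +kernel

theorem sC190 : okSB (97 / 200) (12184237 / 100000000) (1397991 / 100000000) (51909 / 125000) = true := by decide +kernel

theorem sC191 : okSB (39 / 80) (2452433 / 20000000) (705083 / 50000000) (4174479 / 10000000) = true := by decide +kernel

theorem loC2 : LoOn (polyC 0 (2087 / 10000) (69 / 1000) 0 (19 / 250) 2 3) (((33 / 100) : ℚ) : ℝ) (((49 / 100) : ℚ) : ℝ) := by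
  refine LoOn.trans (lo_poly sC128 (y := (133 / 400)) (by decide +kernel)) ?_
  refine LoOn.trans (lo_poly sC129 (y := (67 / 200)) (by decide +kernel)) ?_
  refine LoOn.trans (lo_poly sC130 (y := (27 / 80)) (by decide +kernel)) ?_
  refine LoOn.trans (lo_poly sC131 (y := (17 / 50)) (by decide +kernel)) ?_
  refine LoOn.trans (lo_poly sC132 (y := (137 / 400)) (by decide +kernel)) ?_
  refine LoOn.trans (lo_poly sC133 (y := (69 / 200)) (by decide +kernel)) ?_
  refine LoOn.trans (lo_poly sC134 (y := (139 / 400)) (by decide +kernel)) ?_
  refine LoOn.trans (lo_poly sC135 (y := (7 / 20)) (by decide +kernel)) ?_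
  refine LoOn.trans (lo_poly sC136 (y := (141 / 400)) (by decide +kernel)) ?_
  refine LoOn.trans (lo_poly sC137 (y := (71 / 200)) (by decide +kernel)) ?_
  refine LoOn.trans (lo_poly sC138 (y := (143 / 400)) (by decide +kernel)) ?_
  refine LoOn.trans (lo_poly sC139 (y := (9 / 25)) (by decide +kernel)) ?_
  refine LoOn.trans (lo_poly sC140 (y := (29 / 80)) (by decide +kernel)) ?_
  refine LoOn.trans (lo_poly sC141 (y := (73 / 200)) (by decide +kernel)) ?_
  refine LoOn.trans (lo_poly sC142 (y := (147 / 400)) (by decide +kernel)) ?_
  refine LoOn.trans (lo_poly sC143 (y := (37 / 100)) (by decide +kernel)) ?_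
  refine LoOn.trans (lo_poly sC144 (y := (149 / 400)) (by decide +kernel)) ?_
  refine LoOn.trans (lo_poly sC145 (y := (3 / 8)) (by decide +kernel)) ?_
  refine LoOn.trans (lo_poly sC146 (y := (151 / 400)) (by decide +kernel)) ?_
  refine LoOn.trans (lo_poly sC147 (y := (19 / 50)) (by decide +kernel)) ?_
  refine LoOn.trans (lo_poly sC148 (y := (153 / 400)) (by decide +kernel)) ?_
  refine LoOn.trans (lo_poly sC149 (y := (77 / 200)) (by decide +kernel)) ?_
  refine LoOn.trans (lo_poly sC150 (y := (31 / 80)) (by decide +kernel)) ?_
  refine LoOn.trans (lo_poly sC151 (y := (39 / 100)) (by decide +kernel)) ?_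
  refine LoOn.trans (lo_poly sC152 (y := (157 / 400)) (by decide +kernel)) ?_
  refine LoOn.trans (lo_poly sC153 (y := (79 / 200)) (by decide +kernel)) ?_
  refine LoOn.trans (lo_poly sC154 (y := (159 / 400)) (by decide +kernel)) ?_
  refine LoOn.trans (lo_poly sC155 (y := (2 / 5)) (by decide +kernel)) ?_
  refine LoOn.trans (lo_poly sC156 (y := (161 / 400)) (by decide +kernel)) ?_
  refine LoOn.trans (lo_poly sC157 (y := (81 / 200)) (by decide +kernel)) ?_
  refine LoOn.trans (lo_poly sC158 (y := (163 / 400)) (by decide +kernel)) ?_
  refine LoOn.trans (lo_poly sC159 (y := (41 / 100)) (by decide +kernel)) ?_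
  refine LoOn.trans (lo_poly sC160 (y := (33 / 80)) (by decide +kernel)) ?_
  refine LoOn.trans (lo_poly sC161 (y := (83 / 200)) (by decide +kernel)) ?_
  refine LoOn.trans (lo_poly sC162 (y := (167 / 400)) (by decide +kernel)) ?_
  refine LoOn.trans (lo_poly sC163 (y := (21 / 50)) (by decide +kernel)) ?_
  refine LoOn.trans (lo_poly sC164 (y := (169 / 400)) (by decide +kernel)) ?_
  refine LoOn.trans (lo_poly sC165 (y := (17 / 40)) (by decide +kernel)) ?_
  refine LoOn.trans (lo_poly sC166 (y := (171 / 400)) (by decide +kernel)) ?_
  refine LoOn.trans (lo_poly sC167 (y := (43 / 100)) (by decide +kernel)) ?_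
  refine LoOn.trans (lo_poly sC168 (y := (173 / 400)) (by decide +kernel)) ?_
  refine LoOn.trans (lo_poly sC169 (y := (87 / 200)) (by decide +kernel)) ?_
  refine LoOn.trans (lo_poly sC170 (y := (7 / 16)) (by decide +kernel)) ?_
  refine LoOn.trans (lo_poly sC171 (y := (11 / 25)) (by decide +kernel)) ?_
  refine LoOn.trans (lo_poly sC172 (y := (177 / 400)) (by decide +kernel)) ?_
  refine LoOn.trans (lo_poly sC173 (y := (89 / 200)) (by decide +kernel)) ?_
  refine LoOn.trans (lo_poly sC174 (y := (179 / 400)) (by decide +kernel)) ?_
  refine LoOn.trans (lo_poly sC175 (y := (9 / 20)) (by decide +kernel)) ?_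
  refine LoOn.trans (lo_poly sC176 (y := (181 / 400)) (by decide +kernel)) ?_
  refine LoOn.trans (lo_poly sC177 (y := (91 / 200)) (by decide +kernel)) ?_
  refine LoOn.trans (lo_poly sC178 (y := (183 / 400)) (by decide +kernel)) ?_
  refine LoOn.trans (lo_poly sC179 (y := (23 / 50)) (by decide +kernel)) ?_
  refine LoOn.trans (lo_poly sC180 (y := (37 / 80)) (by decide +kernel)) ?_
  refine LoOn.trans (lo_poly sC181 (y := (93 / 200)) (by decide +kernel)) ?_
  refine LoOn.trans (lo_poly sC182 (y := (187 / 400)) (by decide +kernel)) ?_
  refine LoOn.trans (lo_poly sC183 (y := (47 / 100)) (by decide +kernel)) ?_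
  refine LoOn.trans (lo_poly sC184 (y := (189 / 400)) (by decide +kernel)) ?_
  refine LoOn.trans (lo_poly sC185 (y := (19 / 40)) (by decide +kernel)) ?_
  refine LoOn.trans (lo_poly sC186 (y := (191 / 400)) (by decide +kernel)) ?_
  refine LoOn.trans (lo_poly sC187 (y := (12 / 25)) (by decide +kernel)) ?_
  refine LoOn.trans (lo_poly sC188 (y := (193 / 400)) (by decide +kernel)) ?_
  refine LoOn.trans (lo_poly sC189 (y := (97 / 200)) (by decide +kernel)) ?_
  refine LoOn.trans (lo_poly sC190 (y := (39 / 80)) (by decide +kernel)) ?_
  exact lo_poly sC191 (y := (49 / 100)) (by decide +kernel)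

end Pool.Agent.H99.LowerTail
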