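import Pool.Agent.H99.BndPoly

namespace Pool.Agent.H99.LowerTail

theorem sC192 : okSB (49 / 100) (6170163 / 50000000) (142243 / 10000000) (4196243 / 10000000) = true := by decide +kernel

theorem sC193 : okSB (197 / 400) (77617 / 625000) (71739 / 5000000) (843603 / 2000000) = true := by decide +kernel

theorem sC194 : okSB (99 / 200) (12497349 / 100000000) (1447219 / 100000000) (4239793 / 10000000) = true := by decide +kernel

theorem sC195 : okSB (199 / 400) (1572027 / 12500000) (364937 / 25000000) (2130789 / 5000000) = true := by decide +kernel

theorem sC196 : okSB (1 / 2) (12655323 / 100000000) (736183 / 50000000) (4283371 / 10000000) = true := by decide +kernel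

theorem sC197 : okSB (201 / 400) (12734671 / 100000000) (1485077 / 100000000) (430517 / 1000000) = true := by decide +kernel

theorem sC198 : okSB (101 / 200) (12814263 / 100000000) (1497879 / 100000000) (4326977 / 10000000) = true := by decide +kernel

theorem sC199 : okSB (203 / 400) (12894101 / 100000000) (188847 / 12500000) (4348791 / 10000000) = true := by decide +kernel

theorem sC200 : okSB (51 / 100) (6487093 / 50000000) (1523767 / 100000000) (1092653 / 2500000) = true := by decide +kernel

theorem sC201 : okSB (41 / 80) (13054521 / 100000000) (1536853 / 100000000) (4392441 / 10000000) = true := by decide +kernel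

theorem sC202 : okSB (103 / 200) (13135109 / 100000000) (387509 / 25000000) (2207139 / 5000000) = true := by decide +kernel

theorem sC203 : okSB (207 / 400) (264319 / 2000000) (1563317 / 100000000) (2218061 / 5000000) = true := by decide +kernel

theorem sC204 : okSB (13 / 25) (1662131 / 12500000) (1576697 / 100000000) (2228987 / 5000000) = true := by decide +kernel

theorem sC205 : okSB (209 / 400) (2675681 / 20000000) (1590177 / 100000000) (4479833 / 10000000) = true := by decide +kernel

theorem sC206 : okSB (21 / 40) (13460023 / 100000000) (1603759 / 100000000) (4501701 / 10000000) = true := by decide +kernel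

theorem sC207 : okSB (211 / 400) (846369 / 6250000) (808721 / 50000000) (4523577 / 10000000) = true := by decide +kernel

theorem sC208 : okSB (53 / 100) (13624051 / 100000000) (163123 / 10000000) (227273 / 500000) = true := by decide +kernel

theorem sC209 : okSB (213 / 400) (2741293 / 20000000) (822561 / 50000000) (570919 / 1250000) = true := by decide +kernel

theorem sC210 : okSB (107 / 200) (275783 / 2000000) (20739 / 1250000) (4589253 / 10000000) = true := by decide +kernel

theorem sC211 : okSB (43 / 80) (3468027 / 25000000) (836613 / 50000000) (2305581 / 5000000) = true := by decide +kernel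

theorem sC212 : okSB (27 / 50) (6977671 / 50000000) (1687441 / 100000000) (4633079 / 10000000) = true := by decide +kernel

theorem sC213 : okSB (217 / 400) (14038853 / 100000000) (850883 / 50000000) (931001 / 2000000) = true := by decide +kernel

theorem sC214 : okSB (109 / 200) (3530661 / 25000000) (1716201 / 100000000) (233847 / 500000) = true := by decide +kernel

theorem sC215 : okSB (219 / 400) (14206719 / 100000000) (1730749 / 100000000) (1174721 / 2500000) = true := by decide +kernel

theorem sC216 : okSB (11 / 20) (14291079 / 100000000) (1745411 / 100000000) (4720837 / 10000000) = true := by decide +kernel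

theorem sC217 : okSB (221 / 400) (898483 / 6250000) (1760189 / 100000000) (4742799 / 10000000) = true := by decide +kernel

theorem sC218 : okSB (111 / 200) (14460667 / 100000000) (443771 / 25000000) (476477 / 1000000) = true := by decide +kernel

theorem sC219 : okSB (223 / 400) (14545901 / 100000000) (1790097 / 100000000) (19147 / 40000) = true := by decide +kernel

theorem sC220 : okSB (14 / 25) (14631431 / 100000000) (180523 / 10000000) (240437 / 500000) = true := by decide +kernel

theorem sC221 : okSB (9 / 16) (735863 / 5000000) (1820483 / 100000000) (4830739 / 10000000) = true := by decide +kernel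

theorem sC222 : okSB (113 / 200) (231303 / 1562500) (91793 / 5000000) (4852749 / 10000000) = true := by decide +kernel

theorem sC223 : okSB (227 / 400) (14889829 / 100000000) (925681 / 50000000) (4874767 / 10000000) = true := by decide +kernel

theorem sC224 : okSB (57 / 100) (7488287 / 50000000) (466747 / 25000000) (1224199 / 2500000) = true := by decide +kernel

theorem sC225 : okSB (229 / 400) (1506363 / 10000000) (1882743 / 100000000) (983767 / 2000000) = true := by decide +kernel

theorem sC226 : okSB (23 / 40) (15151001 / 100000000) (949313 / 50000000) (988177 / 2000000) = true := by decide +kernel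

theorem sC227 : okSB (231 / 400) (15238689 / 100000000) (23933 / 1250000) (38773 / 78125) = true := by decide +kernel

theorem sC228 : okSB (29 / 50) (15326697 / 100000000) (1930787 / 100000000) (997003 / 2000000) = true := by decide +kernel

theorem sC229 : okSB (233 / 400) (1541503 / 10000000) (486767 / 25000000) (625887 / 1250000) = true := by decide +kernel

theorem sC230 : okSB (117 / 200) (15503689 / 100000000) (392697 / 20000000) (5029187 / 10000000) = true := by decide +kernel

theorem sC231 : okSB (47 / 80) (15592679 / 100000000) (49501 / 2500000) (5051289 / 10000000) = true := by decide +kernel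

theorem sC232 : okSB (59 / 100) (7841001 / 50000000) (399347 / 20000000) (2536701 / 5000000) = true := by decide +kernel

theorem sC233 : okSB (237 / 400) (15771663 / 100000000) (201357 / 10000000) (5095527 / 10000000) = true := by decide +kernel

theorem sC234 : okSB (119 / 200) (3172333 / 20000000) (40611 / 2000000) (5117663 / 10000000) = true := by decide +kernel

theorem sC235 : okSB (239 / 400) (1595201 / 10000000) (1023837 / 50000000) (5139811 / 10000000) = true := by decide +kernel

theorem sC236 : okSB (3 / 5) (1002669 / 6250000) (1032473 / 50000000) (5161971 / 10000000) = true := by decide +kernel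

theorem sC237 : okSB (241 / 400) (16133749 / 100000000) (32537 / 1562500) (5184141 / 10000000) = true := by decide +kernel

theorem sC238 : okSB (121 / 200) (16225149 / 100000000) (104997 / 5000000) (1301581 / 2500000) = true := by decide +kernel

theorem sC239 : okSB (243 / 400) (16316909 / 100000000) (1058833 / 50000000) (5228519 / 10000000) = true := by decide +kernel

theorem sC240 : okSB (61 / 100) (16409031 / 100000000) (2135547 / 100000000) (5250727 / 10000000) = true := by decide +kernel

theorem sC241 : okSB (49 / 80) (206269 / 1250000) (430717 / 20000000) (1318237 / 2500000) = true := by decide +kernel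

theorem sC242 : okSB (123 / 200) (829719 / 5000000) (434357 / 20000000) (264759 / 500000) = true := by decide +kernel

theorem sC243 : okSB (247 / 400) (3337523 / 20000000) (1095073 / 50000000) (212697 / 400000) = true := by decide +kernel

theorem sC244 : okSB (31 / 50) (16781229 / 100000000) (2208671 / 100000000) (1067937 / 2000000) = true := by decide +kernel

theorem sC245 : okSB (249 / 400) (8437613 / 50000000) (556841 / 25000000) (1340489 / 2500000) = true := by decide +kernel

theorem sC246 : okSB (5 / 8) (16969611 / 100000000) (1123113 / 50000000) (5384241 / 10000000) = true := by decide +kernel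

theorem sC247 : okSB (251 / 400) (17064387 / 100000000) (2265259 / 100000000) (270327 / 500000) = true := by decide +kernel

theorem sC248 : okSB (63 / 100) (428989 / 2500000) (1142233 / 50000000) (5428853 / 10000000) = true := by decide +kernel

theorem sC249 : okSB (253 / 400) (8627567 / 50000000) (46077 / 2000000) (5451179 / 10000000) = true := by decide +kernel

theorem sC250 : okSB (127 / 200) (8675557 / 50000000) (1161707 / 50000000) (68419 / 125000) = true := by decide +kernel

theorem sC251 : okSB (51 / 80) (17447503 / 100000000) (2343159 / 100000000) (2747937 / 5000000) = true := by decide +kernel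

theorem loC3 : LoOn (polyC 0 (2087 / 10000) (69 / 1000) 0 (19 / 250) 2 3) (((49 / 100) : ℚ) : ℝ) (((16 / 25) : ℚ) : ℝ) := by
  refine LoOn.trans (lo_poly sC192 (y := (197 / 400)) (by decide +kernel)) ?_
  refine LoOn.trans (lo_poly sC193 (y := (99 / 200)) (by decide +kernel)) ?_
  refine LoOn.trans (lo_poly sC194 (y := (199 / 400)) (by decide +kernel)) ?_
  refine LoOn.trans (lo_poly sC195 (y := (1 / 2)) (by decide +kernel)) ?_
  refine LoOn.trans (lo_poly sC196 (y := (201 / 400)) (by decide +kernel)) ?_
  refine LoOn.trans (lo_poly sC197 (y := (101 / 200)) (by decide +kernel)) ?_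
  refine LoOn.trans (lo_poly sC198 (y := (203 / 400)) (by decide +kernel)) ?_
  refine LoOn.trans (lo_poly sC199 (y := (51 / 100)) (by decide +kernel)) ?_
  refine LoOn.trans (lo_poly sC200 (y := (41 / 80)) (by decide +kernel)) ?_
  refine LoOn.trans (lo_poly sC201 (y := (103 / 200)) (by decide +kernel)) ?_
  refine LoOn.trans (lo_poly sC202 (y := (207 / 400)) (by decide +kernel)) ?_
  refine LoOn.trans (lo_poly sC203 (y := (13 / 25)) (by decide +kernel)) ?_
  refine LoOn.trans (lo_poly sC204 (y := (209 / 400)) (by decide +kernel)) ?_
  refine LoOn.trans (lo_poly sC205 (y := (21 / 40)) (by decide +kernel)) ?_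
  refine LoOn.trans (lo_poly sC206 (y := (211 / 400)) (by decide +kernel)) ?_
  refine LoOn.trans (lo_poly sC207 (y := (53 / 100)) (by decide +kernel)) ?_
  refine LoOn.trans (lo_poly sC208 (y := (213 / 400)) (by decide +kernel)) ?_
  refine LoOn.trans (lo_poly sC209 (y := (107 / 200)) (by decide +kernel)) ?_
  refine LoOn.trans (lo_poly sC210 (y := (43 / 80)) (by decide +kernel)) ?_
  refine LoOn.trans (lo_poly sC211 (y := (27 / 50)) (by decide +kernel)) ?_
  refine LoOn.trans (lo_poly sC212 (y := (217 / 400)) (by decide +kernel)) ?_
  refine LoOn.trans (lo_poly sC213 (y := (109 / 200)) (by decide +kernel)) ?_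
  refine LoOn.trans (lo_poly sC214 (y := (219 / 400)) (by decide +kernel)) ?_
  refine LoOn.trans (lo_poly sC215 (y := (11 / 20)) (by decide +kernel)) ?_
  refine LoOn.trans (lo_poly sC216 (y := (221 / 400)) (by decide +kernel)) ?_
  refine LoOn.trans (lo_poly sC217 (y := (111 / 200)) (by decide +kernel)) ?_
  refine LoOn.trans (lo_poly sC218 (y := (223 / 400)) (by decide +kernel)) ?_
  refine LoOn.trans (lo_poly sC219 (y := (14 / 25)) (by decide +kernel)) ?_
  refine LoOn.trans (lo_poly sC220 (y := (9 / 16)) (by decide +kernel)) ?_
  refine LoOn.trans (lo_poly sC221 (y := (113 / 200)) (by decide +kernel)) ?_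
  refine LoOn.trans (lo_poly sC222 (y := (227 / 400)) (by decide +kernel)) ?_
  refine LoOn.trans (lo_poly sC223 (y := (57 / 100)) (by decide +kernel)) ?_
  refine LoOn.trans (lo_poly sC224 (y := (229 / 400)) (by decide +kernel)) ?_
  refine LoOn.trans (lo_poly sC225 (y := (23 / 40)) (by decide +kernel)) ?_
  refine LoOn.trans (lo_poly sC226 (y := (231 / 400)) (by decide +kernel)) ?_
  refine LoOn.trans (lo_poly sC227 (y := (29 / 50)) (by decide +kernel)) ?_
  refine LoOn.trans (lo_poly sC228 (y := (233 / 400)) (by decide +kernel)) ?_
  refine LoOn.trans (lo_poly sC229 (y := (117 / 200)) (by decide +kernel)) ?_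
  refine LoOn.trans (lo_poly sC230 (y := (47 / 80)) (by decide +kernel)) ?_
  refine LoOn.trans (lo_poly sC231 (y := (59 / 100)) (by decide +kernel)) ?_
  refine LoOn.trans (lo_poly sC232 (y := (237 / 400)) (by decide +kernel)) ?_
  refine LoOn.trans (lo_poly sC233 (y := (119 / 200)) (by decide +kernel)) ?_
  refine LoOn.trans (lo_poly sC234 (y := (239 / 400)) (by decide +kernel)) ?_
  refine LoOn.trans (lo_poly sC235 (y := (3 / 5)) (by decide +kernel)) ?_
  refine LoOn.trans (lo_poly sC236 (y := (241 / 400)) (by decide +kernel)) ?_
  refine LoOn.trans (lo_poly sC237 (y := (121 / 200)) (by decide +kernel)) ?_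
  refine LoOn.trans (lo_poly sC238 (y := (243 / 400)) (by decide +kernel)) ?_
  refine LoOn.trans (lo_poly sC239 (y := (61 / 100)) (by decide +kernel)) ?_
  refine LoOn.trans (lo_poly sC240 (y := (49 / 80)) (by decide +kernel)) ?_
  refine LoOn.trans (lo_poly sC241 (y := (123 / 200)) (by decide +kernel)) ?_
  refine LoOn.trans (lo_poly sC242 (y := (247 / 400)) (by decide +kernel)) ?_
  refine LoOn.trans (lo_poly sC243 (y := (31 / 50)) (by decide +kernel)) ?_
  refine LoOn.trans (lo_poly sC244 (y := (249 / 400)) (by decide +kernel)) ?_
  refine LoOn.trans (lo_poly sC245 (y := (5 / 8)) (by decide +kernel)) ?_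
  refine LoOn.trans (lo_poly sC246 (y := (251 / 400)) (by decide +kernel)) ?_
  refine LoOn.trans (lo_poly sC247 (y := (63 / 100)) (by decide +kernel)) ?_
  refine LoOn.trans (lo_poly sC248 (y := (253 / 400)) (by decide +kernel)) ?_
  refine LoOn.trans (lo_poly sC249 (y := (127 / 200)) (by decide +kernel)) ?_
  refine LoOn.trans (lo_poly sC250 (y := (51 / 80)) (by decide +kernel)) ?_
  exact lo_poly sC251 (y := (16 / 25)) (by decide +kernel)

end Pool.Agent.H99.LowerTail
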