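import Pool.Agent.H99.BndPoly

namespace Pool.Agent.H99.LowerTail

theorem sD0 : okSB (179 / 200) (31441141 / 100000000) (6531013 / 100000000) (3978409 / 5000000) = true := by decide +kernel

theorem sD1 : okSB (1791 / 2000) (7871083 / 25000000) (6548957 / 100000000) (7962251 / 10000000) = true := by decide +kernel

theorem sD2 : okSB (112 / 125) (31527663 / 100000000) (1313399 / 20000000) (1991923 / 2500000) = true := by decide +kernel

theorem sD3 : okSB (1793 / 2000) (15785567 / 50000000) (658513 / 10000000) (7973137 / 10000000) = true := by decide +kernel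

theorem sD4 : okSB (897 / 1000) (15807373 / 50000000) (3301681 / 50000000) (7978589 / 10000000) = true := by decide +kernel

theorem sD5 : okSB (359 / 400) (31658501 / 100000000) (1655423 / 25000000) (7984047 / 10000000) = true := by decide +kernel

theorem sD6 : okSB (449 / 500) (31702401 / 100000000) (3320061 / 50000000) (798951 / 1000000) = true := by decide +kernel

theorem sD7 : okSB (1797 / 2000) (6349289 / 20000000) (1664663 / 25000000) (7994979 / 10000000) = true := by decide +kernel

theorem sD8 : okSB (899 / 1000) (7947659 / 25000000) (3338641 / 50000000) (1600091 / 2000000) = true := by decide +kernel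

theorem sD9 : okSB (1799 / 2000) (1273399 / 4000000) (6696017 / 100000000) (500371 / 625000) = true := by decide +kernel

theorem sD10 : okSB (9 / 10) (15939731 / 50000000) (1678713 / 25000000) (250357 / 312500) = true := by decide +kernel

theorem sD11 : okSB (1801 / 2000) (319241 / 1000000) (210431 / 3125000) (4008459 / 5000000) = true := by decide +kernel

theorem sD12 : okSB (901 / 1000) (3196889 / 10000000) (6752837 / 100000000) (4011209 / 5000000) = true := by decide +kernel

theorem sD13 : okSB (1803 / 2000) (4001729 / 12500000) (1692997 / 25000000) (321117 / 400000) = true := by decide +kernel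

theorem sD14 : okSB (451 / 500) (32058929 / 100000000) (424453 / 6250000) (8033437 / 10000000) = true := by decide +kernel

theorem sD15 : okSB (361 / 400) (32104181 / 100000000) (1702653 / 25000000) (4019479 / 5000000) = true := by decide +kernel

theorem sD16 : okSB (903 / 1000) (32149591 / 100000000) (683009 / 10000000) (8044483 / 10000000) = true := by decide +kernel

theorem sD17 : okSB (1807 / 2000) (32195159 / 100000000) (85621 / 1250000) (4025007 / 5000000) = true := by decide +kernel

theorem sD18 : okSB (113 / 125) (16120443 / 50000000) (3434689 / 50000000) (8055553 / 10000000) = true := by decide +kernel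

theorem sD19 : okSB (1809 / 2000) (1291471 / 4000000) (688919 / 10000000) (8061099 / 10000000) = true := by decide +kernel

theorem sD20 : okSB (181 / 200) (32332827 / 100000000) (1727279 / 25000000) (8066651 / 10000000) = true := by decide +kernel

theorem sD21 : okSB (1811 / 2000) (32379043 / 100000000) (3464579 / 50000000) (807221 / 1000000) = true := by decide +kernel

theorem sD22 : okSB (453 / 500) (1297017 / 4000000) (3474657 / 50000000) (8077777 / 10000000) = true := by decide +kernel

theorem sD23 : okSB (1813 / 2000) (16235987 / 50000000) (696959 / 10000000) (8083349 / 10000000) = true := by decide +kernel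

theorem sD24 : okSB (907 / 1000) (8129673 / 25000000) (6989983 / 100000000) (8088929 / 10000000) = true := by decide +kernel

theorem sD25 : okSB (363 / 400) (1628279 / 5000000) (7010499 / 100000000) (1618903 / 2000000) = true := by decide +kernel

theorem sD26 : okSB (227 / 250) (32612641 / 100000000) (219723 / 3125000) (8100109 / 10000000) = true := by decide +kernel

theorem sD27 : okSB (1817 / 2000) (261279 / 800000) (3525947 / 50000000) (810571 / 1000000) = true := by decide +kernel

theorem sD28 : okSB (909 / 1000) (8176821 / 25000000) (7072777 / 100000000) (4055659 / 5000000) = true := by decide +kernel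

theorem sD29 : okSB (1819 / 2000) (3275487 / 10000000) (1418757 / 20000000) (4058467 / 5000000) = true := by decide +kernel

theorem sD30 : okSB (91 / 100) (6560527 / 20000000) (177873 / 2500000) (8122557 / 10000000) = true := by decide +kernel

theorem sD31 : okSB (1821 / 2000) (32850581 / 100000000) (7136187 / 100000000) (1625637 / 2000000) = true := by decide +kernel

theorem sD32 : okSB (911 / 1000) (8224677 / 25000000) (7157579 / 100000000) (127091 / 156250) = true := by decide +kernel

theorem sD33 : okSB (1823 / 2000) (1647351 / 5000000) (224347 / 3125000) (8139469 / 10000000) = true := by decide +kernel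

theorem sD34 : okSB (114 / 125) (32995517 / 100000000) (7200761 / 100000000) (4072561 / 5000000) = true := by decide +kernel

theorem sD35 : okSB (73 / 80) (16522101 / 50000000) (7222553 / 100000000) (4075391 / 5000000) = true := by decide +kernel

theorem sD36 : okSB (913 / 1000) (8273269 / 25000000) (22639 / 312500) (163129 / 200000) = true := by decide +kernel

theorem sD37 : okSB (1827 / 2000) (33142141 / 100000000) (3633271 / 50000000) (8162127 / 10000000) = true := by decide +kernel

theorem sD38 : okSB (457 / 500) (165957 / 500000) (1457749 / 20000000) (8167811 / 10000000) = true := by decide +kernel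

theorem sD39 : okSB (1829 / 2000) (16620427 / 50000000) (7311089 / 100000000) (8173503 / 10000000) = true := by decide +kernel

theorem sD40 : okSB (183 / 200) (6658101 / 20000000) (3666787 / 50000000) (8179203 / 10000000) = true := by decide +kernel

theorem sD41 : okSB (1831 / 2000) (8335089 / 25000000) (7356203 / 100000000) (8184911 / 10000000) = true := by decide +kernel

theorem sD42 : okSB (229 / 250) (4173801 / 12500000) (230593 / 3125000) (2047657 / 2500000) = true := by decide +kernel

theorem sD43 : okSB (1833 / 2000) (33440663 / 100000000) (3700949 / 50000000) (64034 / 78125) = true := by decide +kernel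

theorem sD44 : okSB (917 / 1000) (33491123 / 100000000) (7424967 / 100000000) (1640417 / 2000000) = true := by decide +kernel

theorem sD45 : okSB (367 / 400) (33541791 / 100000000) (1862047 / 25000000) (8207827 / 10000000) = true := by decide +kernel

theorem sD46 : okSB (459 / 500) (33592669 / 100000000) (186789 / 2500000) (8213577 / 10000000) = true := by decide +kernel

theorem sD47 : okSB (1837 / 2000) (33643759 / 100000000) (1499017 / 20000000) (8219337 / 10000000) = true := by decide +kernel

theorem sD48 : okSB (919 / 1000) (4211883 / 12500000) (7518769 / 100000000) (514069 / 625000) = true := by decide +kernel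

theorem sD49 : okSB (1839 / 2000) (6749317 / 20000000) (7542609 / 100000000) (8230881 / 10000000) = true := by decide +kernel

theorem sD50 : okSB (23 / 25) (8449581 / 25000000) (7566609 / 100000000) (4118333 / 5000000) = true := by decide +kernel

theorem sD51 : okSB (1841 / 2000) (16925143 / 50000000) (7590771 / 100000000) (8242461 / 10000000) = true := by decide +kernel

theorem sD52 : okSB (921 / 1000) (33902471 / 100000000) (951887 / 12500000) (1649653 / 2000000) = true := by decide +kernel

theorem sD53 : okSB (1843 / 2000) (16977441 / 50000000) (7639589 / 100000000) (8254077 / 10000000) = true := by decide +kernel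

theorem sD54 : okSB (461 / 500) (17003761 / 50000000) (7664249 / 100000000) (8259899 / 10000000) = true := by decide +kernel

theorem sD55 : okSB (369 / 400) (34060393 / 100000000) (7689077 / 100000000) (8265731 / 10000000) = true := by decide +kernel

theorem sD56 : okSB (923 / 1000) (34113499 / 100000000) (7714081 / 100000000) (8271571 / 10000000) = true := by decide +kernel

theorem sD57 : okSB (1847 / 2000) (854171 / 2500000) (1547851 / 20000000) (8277423 / 10000000) = true := by decide +kernel

theorem sD58 : okSB (231 / 250) (34220421 / 100000000) (776461 / 10000000) (4141641 / 5000000) = true := by decide +kernel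

theorem sD59 : okSB (1849 / 2000) (6854849 / 20000000) (7790141 / 100000000) (8289153 / 10000000) = true := by decide +kernel

theorem loD0 : LoOn (polyC (179 / 200) (17551 / 50000) (27 / 50) (19 / 5) 40000 2 6) (((179 / 200) : ℚ) : ℝ) (((37 / 40) : ℚ) : ℝ) := by
  refine LoOn.trans (lo_poly sD0 (y := (1791 / 2000)) (by decide +kernel)) ?_
  refine LoOn.trans (lo_poly sD1 (y := (112 / 125)) (by decide +kernel)) ?_
  refine LoOn.trans (lo_poly sD2 (y := (1793 / 2000)) (by decide +kernel)) ?_
  refine LoOn.trans (lo_poly sD3 (y := (897 / 1000)) (by decide +kernel)) ?_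
  refine LoOn.trans (lo_poly sD4 (y := (359 / 400)) (by decide +kernel)) ?_
  refine LoOn.trans (lo_poly sD5 (y := (449 / 500)) (by decide +kernel)) ?_
  refine LoOn.trans (lo_poly sD6 (y := (1797 / 2000)) (by decide +kernel)) ?_
  refine LoOn.trans (lo_poly sD7 (y := (899 / 1000)) (by decide +kernel)) ?_
  refine LoOn.trans (lo_poly sD8 (y := (1799 / 2000)) (by decide +kernel)) ?_
  refine LoOn.trans (lo_poly sD9 (y := (9 / 10)) (by decide +kernel)) ?_
  refine LoOn.trans (lo_poly sD10 (y := (1801 / 2000)) (by decide +kernel)) ?_
  refine LoOn.trans (lo_poly sD11 (y := (901 / 1000)) (by decide +kernel)) ?_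
  refine LoOn.trans (lo_poly sD12 (y := (1803 / 2000)) (by decide +kernel)) ?_
  refine LoOn.trans (lo_poly sD13 (y := (451 / 500)) (by decide +kernel)) ?_
  refine LoOn.trans (lo_poly sD14 (y := (361 / 400)) (by decide +kernel)) ?_
  refine LoOn.trans (lo_poly sD15 (y := (903 / 1000)) (by decide +kernel)) ?_
  refine LoOn.trans (lo_poly sD16 (y := (1807 / 2000)) (by decide +kernel)) ?_
  refine LoOn.trans (lo_poly sD17 (y := (113 / 125)) (by decide +kernel)) ?_
  refine LoOn.trans (lo_poly sD18 (y := (1809 / 2000)) (by decide +kernel)) ?_
  refine LoOn.trans (lo_poly sD19 (y := (181 / 200)) (by decide +kernel)) ?_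
  refine LoOn.trans (lo_poly sD20 (y := (1811 / 2000)) (by decide +kernel)) ?_
  refine LoOn.trans (lo_poly sD21 (y := (453 / 500)) (by decide +kernel)) ?_
  refine LoOn.trans (lo_poly sD22 (y := (1813 / 2000)) (by decide +kernel)) ?_
  refine LoOn.trans (lo_poly sD23 (y := (907 / 1000)) (by decide +kernel)) ?_
  refine LoOn.trans (lo_poly sD24 (y := (363 / 400)) (by decide +kernel)) ?_
  refine LoOn.trans (lo_poly sD25 (y := (227 / 250)) (by decide +kernel)) ?_
  refine LoOn.trans (lo_poly sD26 (y := (1817 / 2000)) (by decide +kernel)) ?_
  refine LoOn.trans (lo_poly sD27 (y := (909 / 1000)) (by decide +kernel)) ?_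
  refine LoOn.trans (lo_poly sD28 (y := (1819 / 2000)) (by decide +kernel)) ?_
  refine LoOn.trans (lo_poly sD29 (y := (91 / 100)) (by decide +kernel)) ?_
  refine LoOn.trans (lo_poly sD30 (y := (1821 / 2000)) (by decide +kernel)) ?_
  refine LoOn.trans (lo_poly sD31 (y := (911 / 1000)) (by decide +kernel)) ?_
  refine LoOn.trans (lo_poly sD32 (y := (1823 / 2000)) (by decide +kernel)) ?_
  refine LoOn.trans (lo_poly sD33 (y := (114 / 125)) (by decide +kernel)) ?_
  refine LoOn.trans (lo_poly sD34 (y := (73 / 80)) (by decide +kernel)) ?_
  refine LoOn.trans (lo_poly sD35 (y := (913 / 1000)) (by decide +kernel)) ?_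
  refine LoOn.trans (lo_poly sD36 (y := (1827 / 2000)) (by decide +kernel)) ?_
  refine LoOn.trans (lo_poly sD37 (y := (457 / 500)) (by decide +kernel)) ?_
  refine LoOn.trans (lo_poly sD38 (y := (1829 / 2000)) (by decide +kernel)) ?_
  refine LoOn.trans (lo_poly sD39 (y := (183 / 200)) (by decide +kernel)) ?_
  refine LoOn.trans (lo_poly sD40 (y := (1831 / 2000)) (by decide +kernel)) ?_
  refine LoOn.trans (lo_poly sD41 (y := (229 / 250)) (by decide +kernel)) ?_
  refine LoOn.trans (lo_poly sD42 (y := (1833 / 2000)) (by decide +kernel)) ?_
  refine LoOn.trans (lo_poly sD43 (y := (917 / 1000)) (by decide +kernel)) ?_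
  refine LoOn.trans (lo_poly sD44 (y := (367 / 400)) (by decide +kernel)) ?_
  refine LoOn.trans (lo_poly sD45 (y := (459 / 500)) (by decide +kernel)) ?_
  refine LoOn.trans (lo_poly sD46 (y := (1837 / 2000)) (by decide +kernel)) ?_
  refine LoOn.trans (lo_poly sD47 (y := (919 / 1000)) (by decide +kernel)) ?_
  refine LoOn.trans (lo_poly sD48 (y := (1839 / 2000)) (by decide +kernel)) ?_
  refine LoOn.trans (lo_poly sD49 (y := (23 / 25)) (by decide +kernel)) ?_
  refine LoOn.trans (lo_poly sD50 (y := (1841 / 2000)) (by decide +kernel)) ?_
  refine LoOn.trans (lo_poly sD51 (y := (921 / 1000)) (by decide +kernel)) ?_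
  refine LoOn.trans (lo_poly sD52 (y := (1843 / 2000)) (by decide +kernel)) ?_
  refine LoOn.trans (lo_poly sD53 (y := (461 / 500)) (by decide +kernel)) ?_
  refine LoOn.trans (lo_poly sD54 (y := (369 / 400)) (by decide +kernel)) ?_
  refine LoOn.trans (lo_poly sD55 (y := (923 / 1000)) (by decide +kernel)) ?_
  refine LoOn.trans (lo_poly sD56 (y := (1847 / 2000)) (by decide +kernel)) ?_
  refine LoOn.trans (lo_poly sD57 (y := (231 / 250)) (by decide +kernel)) ?_
  refine LoOn.trans (lo_poly sD58 (y := (1849 / 2000)) (by decide +kernel)) ?_
  exact lo_poly sD59 (y := (37 / 40)) (by decide +kernel)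

end Pool.Agent.H99.LowerTail
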