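import Pool.Agent.H99.BndPoly

namespace Pool.Agent.H99.LowerTail

theorem sD60 : okSB (37 / 40) (4291039 / 12500000) (1563171 / 20000000) (8295033 / 10000000) = true := by decide +kernel

theorem sD61 : okSB (1851 / 2000) (8595657 / 25000000) (7841753 / 100000000) (8300923 / 10000000) = true := by decide +kernel

theorem sD62 : okSB (463 / 500) (17218597 / 50000000) (1966959 / 25000000) (8306823 / 10000000) = true := by decide +kernel

theorem sD63 : okSB (1853 / 2000) (34492013 / 100000000) (7894107 / 100000000) (4156367 / 5000000) = true := by decide +kernel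

theorem sD64 : okSB (927 / 1000) (34547089 / 100000000) (792057 / 10000000) (1663731 / 2000000) = true := by decide +kernel

theorem sD65 : okSB (371 / 400) (1384097 / 4000000) (7947227 / 100000000) (4162293 / 5000000) = true := by decide +kernel

theorem sD66 : okSB (116 / 125) (34658023 / 100000000) (7974081 / 100000000) (260329 / 312500) = true := by decide +kernel

theorem sD67 : okSB (1857 / 2000) (1084809 / 3125000) (8001133 / 100000000) (8336481 / 10000000) = true := by decide +kernel

theorem sD68 : okSB (929 / 1000) (34770021 / 100000000) (1605677 / 20000000) (1668489 / 2000000) = true := by decide +kernel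

theorem sD69 : okSB (1859 / 2000) (34826427 / 100000000) (1611169 / 20000000) (8348419 / 10000000) = true := by decide +kernel

theorem sD70 : okSB (93 / 100) (8720777 / 25000000) (2020877 / 25000000) (4177203 / 5000000) = true := by decide +kernel

theorem sD71 : okSB (1861 / 2000) (34940069 / 100000000) (1622277 / 20000000) (8360403 / 10000000) = true := by decide +kernel

theorem sD72 : okSB (931 / 1000) (34997313 / 100000000) (325579 / 4000000) (8366411 / 10000000) = true := by decide +kernel

theorem sD73 : okSB (1863 / 2000) (35054843 / 100000000) (8167779 / 100000000) (523277 / 625000) = true := by decide +kernel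

theorem sD74 : okSB (233 / 250) (35112663 / 100000000) (1639261 / 20000000) (8378463 / 10000000) = true := by decide +kernel

theorem sD75 : okSB (373 / 400) (4396347 / 12500000) (8225051 / 100000000) (8384507 / 10000000) = true := by decide +kernel

theorem sD76 : okSB (933 / 1000) (35229187 / 100000000) (330161 / 4000000) (4195281 / 5000000) = true := by decide +kernel

theorem sD77 : okSB (1867 / 2000) (352879 / 1000000) (8283227 / 100000000) (839663 / 1000000) = true := by decide +kernel

theorem sD78 : okSB (467 / 500) (17673459 / 50000000) (4156331 / 50000000) (840271 / 1000000) = true := by decide +kernel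

theorem sD79 : okSB (1869 / 2000) (7081249 / 20000000) (4171167 / 50000000) (4204401 / 5000000) = true := by decide +kernel

theorem sD80 : okSB (187 / 200) (17732943 / 50000000) (2093061 / 25000000) (8414907 / 10000000) = true := by decide +kernel

theorem sD81 : okSB (1871 / 2000) (7105169 / 20000000) (8402397 / 100000000) (336841 / 400000) = true := by decide +kernel

theorem sD82 : okSB (117 / 125) (17793063 / 50000000) (8432797 / 100000000) (1685431 / 2000000) = true := by decide +kernel

theorem sD83 : okSB (1873 / 2000) (35646733 / 100000000) (8463449 / 100000000) (4216649 / 5000000) = true := by decide +kernel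

theorem sD84 : okSB (937 / 1000) (4463459 / 12500000) (4247177 / 50000000) (263733 / 312500) = true := by decide +kernel

theorem sD85 : okSB (15 / 16) (17884473 / 50000000) (8525519 / 100000000) (13513 / 16000) = true := by decide +kernel

theorem sD86 : okSB (469 / 500) (223941 / 625000) (1711389 / 20000000) (8451809 / 10000000) = true := by decide +kernel

theorem sD87 : okSB (1877 / 2000) (35892519 / 100000000) (8588637 / 100000000) (8458007 / 10000000) = true := by decide +kernel

theorem sD88 : okSB (939 / 1000) (8988707 / 25000000) (8620601 / 100000000) (8464219 / 10000000) = true := by decide +kernel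

theorem sD89 : okSB (1879 / 2000) (36017493 / 100000000) (216321 / 2500000) (1694089 / 2000000) = true := by decide +kernel

theorem sD90 : okSB (47 / 50) (36080517 / 100000000) (108567 / 1250000) (2119171 / 2500000) = true := by decide +kernel

theorem sD91 : okSB (1881 / 2000) (36143907 / 100000000) (4359081 / 50000000) (8482939 / 10000000) = true := by decide +kernel

theorem sD92 : okSB (941 / 1000) (9051917 / 25000000) (1750251 / 20000000) (1061151 / 1250000) = true := by decide +kernel

theorem sD93 : okSB (1883 / 2000) (7254361 / 20000000) (8784639 / 100000000) (8495493 / 10000000) = true := by decide +kernel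

theorem sD94 : okSB (471 / 500) (9084081 / 25000000) (4409163 / 50000000) (8501791 / 10000000) = true := by decide +kernel

theorem sD95 : okSB (377 / 400) (3640123 / 10000000) (8852311 / 100000000) (8508107 / 10000000) = true := by decide +kernel

theorem sD96 : okSB (943 / 1000) (36466531 / 100000000) (8886611 / 100000000) (2128609 / 2500000) = true := by decide +kernel

theorem sD97 : okSB (1887 / 2000) (36532231 / 100000000) (4460611 / 50000000) (4260391 / 5000000) = true := by decide +kernel

theorem sD98 : okSB (118 / 125) (36598337 / 100000000) (8956153 / 100000000) (1065893 / 1250000) = true := by decide +kernel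

theorem sD99 : okSB (1889 / 2000) (7332971 / 20000000) (561963 / 6250000) (8533523 / 10000000) = true := by decide +kernel

theorem sD100 : okSB (189 / 200) (2295737 / 6250000) (4513497 / 50000000) (4269959 / 5000000) = true := by decide +kernel

theorem sD101 : okSB (1891 / 2000) (7359831 / 20000000) (4531459 / 50000000) (854633 / 1000000) = true := by decide +kernel

theorem sD102 : okSB (473 / 500) (737339 / 2000000) (1819837 / 20000000) (4276379 / 5000000) = true := by decide +kernel

theorem sD103 : okSB (1893 / 2000) (2308449 / 6250000) (9135801 / 100000000) (2139801 / 2500000) = true := by decide +kernel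

theorem sD104 : okSB (947 / 1000) (7400773 / 20000000) (2293193 / 25000000) (8565667 / 10000000) = true := by decide +kernel

theorem sD105 : okSB (379 / 400) (37072999 / 100000000) (1151263 / 12500000) (8572149 / 10000000) = true := by decide +kernel

theorem sD106 : okSB (237 / 250) (7428519 / 20000000) (9247807 / 100000000) (8578647 / 10000000) = true := by decide +kernel

theorem sD107 : okSB (1897 / 2000) (37212661 / 100000000) (9285883 / 100000000) (4292583 / 5000000) = true := by decide +kernel

theorem sD108 : okSB (949 / 1000) (9320801 / 25000000) (9324343 / 100000000) (4295851 / 5000000) = true := by decide +kernel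

theorem sD109 : okSB (1899 / 2000) (37354233 / 100000000) (4681597 / 50000000) (8598257 / 10000000) = true := by decide +kernel

theorem sD110 : okSB (19 / 20) (7485151 / 20000000) (9402441 / 100000000) (268901 / 312500) = true := by decide +kernel

theorem sD111 : okSB (1901 / 2000) (37497781 / 100000000) (1888419 / 20000000) (4305713 / 5000000) = true := by decide +kernel

theorem sD112 : okSB (951 / 1000) (18785159 / 50000000) (4741081 / 50000000) (8618039 / 10000000) = true := by decide +kernel

theorem sD113 : okSB (1903 / 2000) (301147 / 800000) (1190331 / 12500000) (4312337 / 5000000) = true := by decide +kernel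

theorem sD114 : okSB (119 / 125) (9429241 / 25000000) (1912713 / 20000000) (863133 / 1000000) = true := by decide +kernel

theorem sD115 : okSB (381 / 400) (9447773 / 25000000) (9604923 / 100000000) (1727601 / 2000000) = true := by decide +kernel

theorem sD116 : okSB (953 / 1000) (3786577 / 10000000) (1205841 / 12500000) (4322351 / 5000000) = true := by decide +kernel

theorem sD117 : okSB (1907 / 2000) (37941009 / 100000000) (2422247 / 25000000) (4325711 / 5000000) = true := by decide +kernel

theorem sD118 : okSB (477 / 500) (19008409 / 50000000) (4865859 / 50000000) (4329081 / 5000000) = true := by decide +kernel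

theorem sD119 : okSB (1909 / 2000) (38093209 / 100000000) (9774923 / 100000000) (346597 / 400000) = true := by decide +kernel

theorem loD1 : LoOn (polyC (179 / 200) (17551 / 50000) (27 / 50) (19 / 5) 40000 2 6) (((37 / 40) : ℚ) : ℝ) (((191 / 200) : ℚ) : ℝ) := by
  refine LoOn.trans (lo_poly sD60 (y := (1851 / 2000)) (by decide +kernel)) ?_
  refine LoOn.trans (lo_poly sD61 (y := (463 / 500)) (by decide +kernel)) ?_
  refine LoOn.trans (lo_poly sD62 (y := (1853 / 2000)) (by decide +kernel)) ?_
  refine LoOn.trans (lo_poly sD63 (y := (927 / 1000)) (by decide +kernel)) ?_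
  refine LoOn.trans (lo_poly sD64 (y := (371 / 400)) (by decide +kernel)) ?_
  refine LoOn.trans (lo_poly sD65 (y := (116 / 125)) (by decide +kernel)) ?_
  refine LoOn.trans (lo_poly sD66 (y := (1857 / 2000)) (by decide +kernel)) ?_
  refine LoOn.trans (lo_poly sD67 (y := (929 / 1000)) (by decide +kernel)) ?_
  refine LoOn.trans (lo_poly sD68 (y := (1859 / 2000)) (by decide +kernel)) ?_
  refine LoOn.trans (lo_poly sD69 (y := (93 / 100)) (by decide +kernel)) ?_
  refine LoOn.trans (lo_poly sD70 (y := (1861 / 2000)) (by decide +kernel)) ?_
  refine LoOn.trans (lo_poly sD71 (y := (931 / 1000)) (by decide +kernel)) ?_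
  refine LoOn.trans (lo_poly sD72 (y := (1863 / 2000)) (by decide +kernel)) ?_
  refine LoOn.trans (lo_poly sD73 (y := (233 / 250)) (by decide +kernel)) ?_
  refine LoOn.trans (lo_poly sD74 (y := (373 / 400)) (by decide +kernel)) ?_
  refine LoOn.trans (lo_poly sD75 (y := (933 / 1000)) (by decide +kernel)) ?_
  refine LoOn.trans (lo_poly sD76 (y := (1867 / 2000)) (by decide +kernel)) ?_
  refine LoOn.trans (lo_poly sD77 (y := (467 / 500)) (by decide +kernel)) ?_
  refine LoOn.trans (lo_poly sD78 (y := (1869 / 2000)) (by decide +kernel)) ?_
  refine LoOn.trans (lo_poly sD79 (y := (187 / 200)) (by decide +kernel)) ?_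
  refine LoOn.trans (lo_poly sD80 (y := (1871 / 2000)) (by decide +kernel)) ?_
  refine LoOn.trans (lo_poly sD81 (y := (117 / 125)) (by decide +kernel)) ?_
  refine LoOn.trans (lo_poly sD82 (y := (1873 / 2000)) (by decide +kernel)) ?_
  refine LoOn.trans (lo_poly sD83 (y := (937 / 1000)) (by decide +kernel)) ?_
  refine LoOn.trans (lo_poly sD84 (y := (15 / 16)) (by decide +kernel)) ?_
  refine LoOn.trans (lo_poly sD85 (y := (469 / 500)) (by decide +kernel)) ?_
  refine LoOn.trans (lo_poly sD86 (y := (1877 / 2000)) (by decide +kernel)) ?_
  refine LoOn.trans (lo_poly sD87 (y := (939 / 1000)) (by decide +kernel)) ?_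
  refine LoOn.trans (lo_poly sD88 (y := (1879 / 2000)) (by decide +kernel)) ?_
  refine LoOn.trans (lo_poly sD89 (y := (47 / 50)) (by decide +kernel)) ?_
  refine LoOn.trans (lo_poly sD90 (y := (1881 / 2000)) (by decide +kernel)) ?_
  refine LoOn.trans (lo_poly sD91 (y := (941 / 1000)) (by decide +kernel)) ?_
  refine LoOn.trans (lo_poly sD92 (y := (1883 / 2000)) (by decide +kernel)) ?_
  refine LoOn.trans (lo_poly sD93 (y := (471 / 500)) (by decide +kernel)) ?_
  refine LoOn.trans (lo_poly sD94 (y := (377 / 400)) (by decide +kernel)) ?_
  refine LoOn.trans (lo_poly sD95 (y := (943 / 1000)) (by decide +kernel)) ?_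
  refine LoOn.trans (lo_poly sD96 (y := (1887 / 2000)) (by decide +kernel)) ?_
  refine LoOn.trans (lo_poly sD97 (y := (118 / 125)) (by decide +kernel)) ?_
  refine LoOn.trans (lo_poly sD98 (y := (1889 / 2000)) (by decide +kernel)) ?_
  refine LoOn.trans (lo_poly sD99 (y := (189 / 200)) (by decide +kernel)) ?_
  refine LoOn.trans (lo_poly sD100 (y := (1891 / 2000)) (by decide +kernel)) ?_
  refine LoOn.trans (lo_poly sD101 (y := (473 / 500)) (by decide +kernel)) ?_
  refine LoOn.trans (lo_poly sD102 (y := (1893 / 2000)) (by decide +kernel)) ?_
  refine LoOn.trans (lo_poly sD103 (y := (947 / 1000)) (by decide +kernel)) ?_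
  refine LoOn.trans (lo_poly sD104 (y := (379 / 400)) (by decide +kernel)) ?_
  refine LoOn.trans (lo_poly sD105 (y := (237 / 250)) (by decide +kernel)) ?_
  refine LoOn.trans (lo_poly sD106 (y := (1897 / 2000)) (by decide +kernel)) ?_
  refine LoOn.trans (lo_poly sD107 (y := (949 / 1000)) (by decide +kernel)) ?_
  refine LoOn.trans (lo_poly sD108 (y := (1899 / 2000)) (by decide +kernel)) ?_
  refine LoOn.trans (lo_poly sD109 (y := (19 / 20)) (by decide +kernel)) ?_
  refine LoOn.trans (lo_poly sD110 (y := (1901 / 2000)) (by decide +kernel)) ?_
  refine LoOn.trans (lo_poly sD111 (y := (951 / 1000)) (by decide +kernel)) ?_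
  refine LoOn.trans (lo_poly sD112 (y := (1903 / 2000)) (by decide +kernel)) ?_
  refine LoOn.trans (lo_poly sD113 (y := (119 / 125)) (by decide +kernel)) ?_
  refine LoOn.trans (lo_poly sD114 (y := (381 / 400)) (by decide +kernel)) ?_
  refine LoOn.trans (lo_poly sD115 (y := (953 / 1000)) (by decide +kernel)) ?_
  refine LoOn.trans (lo_poly sD116 (y := (1907 / 2000)) (by decide +kernel)) ?_
  refine LoOn.trans (lo_poly sD117 (y := (477 / 500)) (by decide +kernel)) ?_
  refine LoOn.trans (lo_poly sD118 (y := (1909 / 2000)) (by decide +kernel)) ?_
  exact lo_poly sD119 (y := (191 / 200)) (by decide +kernel)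

end Pool.Agent.H99.LowerTail
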