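import Pool.Agent.H99.BndPoly

namespace Pool.Agent.H99.LowerTail

theorem sD120 : okSB (191 / 200) (19085097 / 50000000) (4909307 / 50000000) (270991 / 312500) = true := by decide +kernel

theorem sD121 : okSB (1911 / 2000) (38247783 / 100000000) (9862801 / 100000000) (4339261 / 5000000) = true := by decide +kernel

theorem sD122 : okSB (239 / 250) (38325989 / 100000000) (9907501 / 100000000) (4342677 / 5000000) = true := by decide +kernel

theorem sD123 : okSB (1913 / 2000) (4800603 / 12500000) (2488179 / 25000000) (2173053 / 2500000) = true := by decide +kernel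

theorem sD124 : okSB (957 / 1000) (38484301 / 100000000) (9998461 / 100000000) (1739819 / 2000000) = true := by decide +kernel

theorem sD125 : okSB (383 / 400) (38564433 / 100000000) (5022377 / 50000000) (8706001 / 10000000) = true := by decide +kernel

theorem sD126 : okSB (479 / 500) (19322617 / 50000000) (10091599 / 100000000) (4356467 / 5000000) = true := by decide +kernel

theorem sD127 : okSB (1917 / 2000) (38726717 / 100000000) (2027803 / 20000000) (2179973 / 2500000) = true := by decide +kernel

theorem sD128 : okSB (959 / 1000) (38808897 / 100000000) (10187011 / 100000000) (8726877 / 10000000) = true := by decide +kernel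

theorem sD129 : okSB (1919 / 2000) (3889179 / 10000000) (10235601 / 100000000) (873389 / 1000000) = true := by decide +kernel

theorem sD130 : okSB (24 / 25) (3897541 / 10000000) (10284803 / 100000000) (8740929 / 10000000) = true := by decide +kernel

theorem sD131 : okSB (1921 / 2000) (19529887 / 50000000) (1033463 / 10000000) (8747997 / 10000000) = true := by decide +kernel

theorem sD132 : okSB (961 / 1000) (19572449 / 50000000) (2077019 / 20000000) (4377547 / 5000000) = true := by decide +kernel

theorem sD133 : okSB (1923 / 2000) (98077 / 250000) (2087243 / 20000000) (8762221 / 10000000) = true := by decide +kernel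

theorem sD134 : okSB (481 / 500) (19658749 / 50000000) (10488011 / 100000000) (274043 / 312500) = true := by decide +kernel

theorem sD135 : okSB (77 / 80) (39405009 / 100000000) (10540493 / 100000000) (2194141 / 2500000) = true := by decide +kernel

theorem sD136 : okSB (963 / 1000) (19746677 / 50000000) (2118737 / 20000000) (4391891 / 5000000) = true := by decide +kernel

theorem sD137 : okSB (1927 / 2000) (4947819 / 12500000) (10647603 / 100000000) (1098879 / 1250000) = true := by decide +kernel

theorem sD138 : okSB (241 / 250) (2479539 / 6250000) (1337783 / 12500000) (2199579 / 2500000) = true := by decide +kernel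

theorem sD139 : okSB (1929 / 2000) (39763591 / 100000000) (5378847 / 50000000) (68794 / 78125) = true := by decide +kernel

theorem sD140 : okSB (193 / 200) (1594219 / 4000000) (1081391 / 10000000) (4406491 / 5000000) = true := by decide +kernel

theorem sD141 : okSB (1931 / 2000) (39948301 / 100000000) (5435467 / 50000000) (8820367 / 10000000) = true := by decide +kernel

theorem sD142 : okSB (483 / 500) (40042091 / 100000000) (683049 / 6250000) (882779 / 1000000) = true := by decide +kernel

theorem sD143 : okSB (1933 / 2000) (5017109 / 12500000) (10987497 / 100000000) (8835247 / 10000000) = true := by decide +kernel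

theorem sD144 : okSB (967 / 1000) (40232669 / 100000000) (2761771 / 25000000) (1105343 / 1250000) = true := by decide +kernel

theorem sD145 : okSB (387 / 400) (40329509 / 100000000) (5553789 / 50000000) (4425139 / 5000000) = true := by decide +kernel

theorem sD146 : okSB (121 / 125) (20213711 / 50000000) (2233801 / 20000000) (2214463 / 2500000) = true := by decide +kernel

theorem sD147 : okSB (1937 / 2000) (40526437 / 100000000) (11231391 / 100000000) (8865467 / 10000000) = true := by decide +kernel

theorem sD148 : okSB (969 / 1000) (8125317 / 20000000) (705923 / 6250000) (8873123 / 10000000) = true := by decide +kernel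

theorem sD149 : okSB (1939 / 2000) (20363949 / 50000000) (5679583 / 50000000) (4440411 / 5000000) = true := by decide +kernel

theorem sD150 : okSB (97 / 100) (4083041 / 10000000) (1428077 / 12500000) (1777713 / 2000000) = true := by decide +kernel

theorem sD151 : okSB (1941 / 2000) (20467079 / 50000000) (5745579 / 50000000) (278011 / 312500) = true := by decide +kernel

theorem sD152 : okSB (971 / 1000) (41039177 / 100000000) (577941 / 5000000) (4452093 / 5000000) = true := by decide +kernel

theorem sD153 : okSB (1943 / 2000) (10286377 / 25000000) (2906911 / 25000000) (2228017 / 2500000) = true := by decide +kernel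

theorem sD154 : okSB (243 / 250) (4125319 / 10000000) (2924417 / 25000000) (4459999 / 5000000) = true := by decide +kernel

theorem sD155 : okSB (389 / 400) (10340567 / 25000000) (1471117 / 12500000) (4463989 / 5000000) = true := by decide +kernel

theorem sD156 : okSB (973 / 1000) (8294557 / 20000000) (11841489 / 100000000) (893601 / 1000000) = true := by decide +kernel

theorem sD157 : okSB (1947 / 2000) (41584791 / 100000000) (2978843 / 25000000) (8944097 / 10000000) = true := by decide +kernel

theorem sD158 : okSB (487 / 500) (20849167 / 50000000) (11990639 / 100000000) (8952237 / 10000000) = true := by decide +kernel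

theorem sD159 : okSB (1949 / 2000) (41813467 / 100000000) (2413467 / 20000000) (1792087 / 2000000) = true := by decide +kernel

theorem sD160 : okSB (39 / 40) (41930247 / 100000000) (12145519 / 100000000) (8968691 / 10000000) = true := by decide +kernel

theorem sD161 : okSB (1951 / 2000) (42048731 / 100000000) (6112623 / 50000000) (561063 / 625000) = true := by decide +kernel

theorem sD162 : okSB (122 / 125) (21084491 / 50000000) (12306577 / 100000000) (2246347 / 2500000) = true := by decide +kernel

theorem sD163 : okSB (1953 / 2000) (21145533 / 50000000) (12389581 / 100000000) (8993831 / 10000000) = true := by decide +kernel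

theorem sD164 : okSB (977 / 1000) (10603763 / 25000000) (12474321 / 100000000) (4501171 / 5000000) = true := by decide +kernel

theorem sD165 : okSB (391 / 400) (21270507 / 50000000) (6280437 / 50000000) (4505461 / 5000000) = true := by decide +kernel

theorem sD166 : okSB (489 / 500) (42669031 / 100000000) (3162329 / 25000000) (4509787 / 5000000) = true := by decide +kernel

theorem sD167 : okSB (1957 / 2000) (21399593 / 50000000) (12739733 / 100000000) (9028299 / 10000000) = true := by decide +kernel

theorem sD168 : okSB (979 / 1000) (42931569 / 100000000) (802013 / 6250000) (564819 / 625000) = true := by decide +kernel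

theorem sD169 : okSB (1959 / 2000) (21533137 / 50000000) (12926843 / 100000000) (9045987 / 10000000) = true := by decide +kernel

theorem loD2 : LoOn (polyC (179 / 200) (17551 / 50000) (27 / 50) (19 / 5) 40000 2 6) (((191 / 200) : ℚ) : ℝ) (((49 / 50) : ℚ) : ℝ) := by
  refine LoOn.trans (lo_poly sD120 (y := (1911 / 2000)) (by decide +kernel)) ?_
  refine LoOn.trans (lo_poly sD121 (y := (239 / 250)) (by decide +kernel)) ?_
  refine LoOn.trans (lo_poly sD122 (y := (1913 / 2000)) (by decide +kernel)) ?_
  refine LoOn.trans (lo_poly sD123 (y := (957 / 1000)) (by decide +kernel)) ?_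
  refine LoOn.trans (lo_poly sD124 (y := (383 / 400)) (by decide +kernel)) ?_
  refine LoOn.trans (lo_poly sD125 (y := (479 / 500)) (by decide +kernel)) ?_
  refine LoOn.trans (lo_poly sD126 (y := (1917 / 2000)) (by decide +kernel)) ?_
  refine LoOn.trans (lo_poly sD127 (y := (959 / 1000)) (by decide +kernel)) ?_
  refine LoOn.trans (lo_poly sD128 (y := (1919 / 2000)) (by decide +kernel)) ?_
  refine LoOn.trans (lo_poly sD129 (y := (24 / 25)) (by decide +kernel)) ?_
  refine LoOn.trans (lo_poly sD130 (y := (1921 / 2000)) (by decide +kernel)) ?_
  refine LoOn.trans (lo_poly sD131 (y := (961 / 1000)) (by decide +kernel)) ?_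
  refine LoOn.trans (lo_poly sD132 (y := (1923 / 2000)) (by decide +kernel)) ?_
  refine LoOn.trans (lo_poly sD133 (y := (481 / 500)) (by decide +kernel)) ?_
  refine LoOn.trans (lo_poly sD134 (y := (77 / 80)) (by decide +kernel)) ?_
  refine LoOn.trans (lo_poly sD135 (y := (963 / 1000)) (by decide +kernel)) ?_
  refine LoOn.trans (lo_poly sD136 (y := (1927 / 2000)) (by decide +kernel)) ?_
  refine LoOn.trans (lo_poly sD137 (y := (241 / 250)) (by decide +kernel)) ?_
  refine LoOn.trans (lo_poly sD138 (y := (1929 / 2000)) (by decide +kernel)) ?_
  refine LoOn.trans (lo_poly sD139 (y := (193 / 200)) (by decide +kernel)) ?_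
  refine LoOn.trans (lo_poly sD140 (y := (1931 / 2000)) (by decide +kernel)) ?_
  refine LoOn.trans (lo_poly sD141 (y := (483 / 500)) (by decide +kernel)) ?_
  refine LoOn.trans (lo_poly sD142 (y := (1933 / 2000)) (by decide +kernel)) ?_
  refine LoOn.trans (lo_poly sD143 (y := (967 / 1000)) (by decide +kernel)) ?_
  refine LoOn.trans (lo_poly sD144 (y := (387 / 400)) (by decide +kernel)) ?_
  refine LoOn.trans (lo_poly sD145 (y := (121 / 125)) (by decide +kernel)) ?_
  refine LoOn.trans (lo_poly sD146 (y := (1937 / 2000)) (by decide +kernel)) ?_
  refine LoOn.trans (lo_poly sD147 (y := (969 / 1000)) (by decide +kernel)) ?_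
  refine LoOn.trans (lo_poly sD148 (y := (1939 / 2000)) (by decide +kernel)) ?_
  refine LoOn.trans (lo_poly sD149 (y := (97 / 100)) (by decide +kernel)) ?_
  refine LoOn.trans (lo_poly sD150 (y := (1941 / 2000)) (by decide +kernel)) ?_
  refine LoOn.trans (lo_poly sD151 (y := (971 / 1000)) (by decide +kernel)) ?_
  refine LoOn.trans (lo_poly sD152 (y := (1943 / 2000)) (by decide +kernel)) ?_
  refine LoOn.trans (lo_poly sD153 (y := (243 / 250)) (by decide +kernel)) ?_
  refine LoOn.trans (lo_poly sD154 (y := (389 / 400)) (by decide +kernel)) ?_
  refine LoOn.trans (lo_poly sD155 (y := (973 / 1000)) (by decide +kernel)) ?_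
  refine LoOn.trans (lo_poly sD156 (y := (1947 / 2000)) (by decide +kernel)) ?_
  refine LoOn.trans (lo_poly sD157 (y := (487 / 500)) (by decide +kernel)) ?_
  refine LoOn.trans (lo_poly sD158 (y := (1949 / 2000)) (by decide +kernel)) ?_
  refine LoOn.trans (lo_poly sD159 (y := (39 / 40)) (by decide +kernel)) ?_
  refine LoOn.trans (lo_poly sD160 (y := (1951 / 2000)) (by decide +kernel)) ?_
  refine LoOn.trans (lo_poly sD161 (y := (122 / 125)) (by decide +kernel)) ?_
  refine LoOn.trans (lo_poly sD162 (y := (1953 / 2000)) (by decide +kernel)) ?_
  refine LoOn.trans (lo_poly sD163 (y := (977 / 1000)) (by decide +kernel)) ?_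
  refine LoOn.trans (lo_poly sD164 (y := (391 / 400)) (by decide +kernel)) ?_
  refine LoOn.trans (lo_poly sD165 (y := (489 / 500)) (by decide +kernel)) ?_
  refine LoOn.trans (lo_poly sD166 (y := (1957 / 2000)) (by decide +kernel)) ?_
  refine LoOn.trans (lo_poly sD167 (y := (979 / 1000)) (by decide +kernel)) ?_
  refine LoOn.trans (lo_poly sD168 (y := (1959 / 2000)) (by decide +kernel)) ?_
  exact lo_poly sD169 (y := (49 / 50)) (by decide +kernel)

end Pool.Agent.H99.LowerTail
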