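import Pool.Agent.H99.Bounds

namespace Pool.Agent.H99.LowerTail

/-- The bounding polynomials. -/
def polyR (x0 c0 c1 c2 c3 : ℝ) (n m : ℕ) (p : ℝ) : ℝ :=
  c0 + c1 * (p - x0) + c2 * (p - x0) ^ n + c3 * (p - x0) ^ m

/-- The bounding polynomials, rational version. -/
def polyQ (x0 c0 c1 c2 c3 : ℚ) (n m : ℕ) (p : ℚ) : ℚ :=
  c0 + c1 * (p - x0) + c2 * (p - x0) ^ n + c3 * (p - x0) ^ m

/-- The bounding polynomials as real functions with rational parameters. -/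
def polyC (x0 c0 c1 c2 c3 : ℚ) (n m : ℕ) (p : ℝ) : ℝ :=
  polyR x0 c0 c1 c2 c3 n m p

lemma polyQ_cast (x0 c0 c1 c2 c3 : ℚ) (n m : ℕ) (p : ℚ) :
    ((polyQ x0 c0 c1 c2 c3 n m p : ℚ) : ℝ) = polyR x0 c0 c1 c2 c3 n m p := by
  unfold polyQ polyR
  push_cast
  ring

lemma polyR_mono {x0 c0 c1 c2 c3 : ℝ} {n m : ℕ} (h1 : 0 < c1) (h2 : 0 ≤ c2) (h3 : 0 ≤ c3)
    {x y : ℝ} (hx : x0 ≤ x) (hxy : x < y) :
    polyR x0 c0 c1 c2 c3 n m x < polyR x0 c0 c1 c2 c3 n m y := by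
  unfold polyR
  have e1 := mul_lt_mul_of_pos_left (show x - x0 < y - x0 by linarith) h1
  have e2 := mul_le_mul_of_nonneg_left
    (pow_le_pow_left₀ (show 0 ≤ x - x0 by linarith) (show x - x0 ≤ y - x0 by linarith) n) h2
  have e3 := mul_le_mul_of_nonneg_left
    (pow_le_pow_left₀ (show 0 ≤ x - x0 by linarith) (show x - x0 ≤ y - x0 by linarith) m) h3
  linarith

lemma up_poly {x0 c0 c1 c2 c3 : ℚ} {n m : ℕ} {x p1 q1 C y z yr r0 : ℚ} {cs : List CData}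
    (h : okRS p1 q1 C y z yr r0 cs = true)
    (hU : (decide (0 ≤ x0) && decide (x0 ≤ x) && decide (0 < c1) && decide (0 ≤ c2) &&
      decide (0 ≤ c3) && decide (q1 / p1 ≤ polyQ x0 c0 c1 c2 c3 n m x)) = true) :
    UpOn (polyC x0 c0 c1 c2 c3 n m) x p1 := by
  simp only [Bool.and_eq_true, decide_eq_true_eq] at hU
  obtain ⟨⟨⟨⟨⟨g0, g1⟩, g2⟩, g3⟩, g4⟩, g5⟩ := hU
  refine upOn_of_okRS h (g0.trans g1) fun p hp1 _ => ?_
  unfold polyC
  have g5' : ((q1 / p1 : ℚ) : ℝ) ≤ polyR x0 c0 c1 c2 c3 n m x := by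
    rw [← polyQ_cast]
    exact_mod_cast g5
  exact g5'.trans_lt (polyR_mono (by exact_mod_cast g2) (by exact_mod_cast g3)
    (by exact_mod_cast g4) (by exact_mod_cast g1) hp1)

lemma lo_poly {x0 c0 c1 c2 c3 : ℚ} {n m : ℕ} {p0 q0 a b y : ℚ} (h : okSB p0 q0 a b = true)
    (hL : (decide (y < 1) && decide (x0 ≤ p0) && decide (0 < c1) && decide (0 ≤ c2) &&
      decide (0 ≤ c3) && decide (polyQ x0 c0 c1 c2 c3 n m y ≤ q0 / p0)) = true) :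
    LoOn (polyC x0 c0 c1 c2 c3 n m) p0 y := by
  simp only [Bool.and_eq_true, decide_eq_true_eq] at hL
  obtain ⟨⟨⟨⟨⟨g0, g1⟩, g2⟩, g3⟩, g4⟩, g5⟩ := hL
  refine loOn_of_okSB h g0 fun p hp1 hp2 => ?_
  unfold polyC
  have g5' : polyR x0 c0 c1 c2 c3 n m y ≤ ((q0 / p0 : ℚ) : ℝ) := by
    rw [← polyQ_cast]
    exact_mod_cast g5
  refine le_trans ?_ g5'
  rcases hp2.eq_or_lt with he | hlt
  · rw [he]
  · exact (polyR_mono (by exact_mod_cast g2) (by exact_mod_cast g3)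
      (by exact_mod_cast g4) (le_trans (by exact_mod_cast g1) hp1.le) hlt).le

lemma lo_poly_small {x0 c0 c1 c2 c3 : ℚ} {n m : ℕ} {y : ℚ}
    (hL : (decide (y < 1) && decide (x0 ≤ 0) && decide (0 < c1) && decide (0 ≤ c2) &&
      decide (0 ≤ c3) && decide (polyQ x0 c0 c1 c2 c3 n m y ≤ 419 / 2000)) = true) :
    LoOn (polyC x0 c0 c1 c2 c3 n m) ((0 : ℚ) : ℝ) y := by
  simp only [Bool.and_eq_true, decide_eq_true_eq] at hL
  obtain ⟨⟨⟨⟨⟨g0, g1⟩, g2⟩, g3⟩, g4⟩, g5⟩ := hL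
  push_cast
  refine loOn_small (by exact_mod_cast g0) fun p hp1 hp2 => ?_
  unfold polyC
  have g5' : polyR x0 c0 c1 c2 c3 n m y ≤ 419 / 2000 := by
    rw [← polyQ_cast]
    have : ((polyQ x0 c0 c1 c2 c3 n m y : ℚ) : ℝ) ≤ ((419 / 2000 : ℚ) : ℝ) := by exact_mod_cast g5
    simpa using this
  refine le_trans ?_ g5'
  rcases hp2.eq_or_lt with he | hlt
  · rw [he]
  · exact (polyR_mono (by exact_mod_cast g2) (by exact_mod_cast g3)
      (by exact_mod_cast g4) (le_trans (by exact_mod_cast g1) hp1.le) hlt).le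

end Pool.Agent.H99.LowerTail
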