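import Pool.Agent.H99.Exact

open MeasureTheory unitInterval Set

namespace Pool.Agent.H99.LowerTail

/-- `U p * p` is an upper bound for the replica symmetry threshold of the triangle, for all `p`
in `(x,y]`. -/
def UpOn (U : ℝ → ℝ) (x y : ℝ) : Prop :=
  ∀ p q : ℝ, x < p → p ≤ y → q ≤ p → U p * p ≤ q → IsUniqueMinimizer K3 p q

/-- `L p * p` is a lower bound for the replica symmetry threshold of the triangle, for all `p`
in `(x,y]`. -/
def LoOn (L : ℝ → ℝ) (x y : ℝ) : Prop :=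
  ∀ p q : ℝ, x < p → p ≤ y → 0 < q → q ≤ L p * p → ¬ IsMinimizer K3 p q

lemma UpOn.trans {U : ℝ → ℝ} {x y z : ℝ} (h1 : UpOn U x y) (h2 : UpOn U y z) : UpOn U x z := by
  intro p q hx hz hqp hU
  rcases le_or_gt p y with h | h
  · exact h1 p q hx h hqp hU
  · exact h2 p q h hz hqp hU

lemma LoOn.trans {L : ℝ → ℝ} {x y z : ℝ} (h1 : LoOn L x y) (h2 : LoOn L y z) : LoOn L x z := by
  intro p q hx hz hq0 hL
  rcases le_or_gt p y with h | h
  · exact h1 p q hx h hq0 hL
  · exact h2 p q h hz hq0 hL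

/-- A replica symmetric point `(p1,q1)` controls everything to its left. -/
lemma upOn_of_isMinimizer {U : ℝ → ℝ} {x p1 q1 : ℝ} (hx : 0 ≤ x) (hp1 : p1 < 1)
    (hq1 : 0 < q1) (hqp : q1 ≤ p1) (hU : ∀ p, x < p → p ≤ p1 → q1 / p1 < U p)
    (h : IsMinimizer K3 p1 q1) : UpOn U x p1 := by
  intro p q hxp hpp hqle hUq
  have hp0 : 0 < p := by linarith
  have hp10 : 0 < p1 := by linarith
  have hc0 : 0 < q1 / p1 := by positivity
  have hc1 : q1 / p1 ≤ 1 := (div_le_one hp10).2 hqp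
  have hlt : q1 / p1 * p < q := (mul_lt_mul_of_pos_right (hU p hxp hpp) hp0).trans_le hUq
  have hmin : IsMinimizer K3 p (q1 / p1 * p) := by
    rcases hpp.eq_or_lt with he | hlt'
    · rw [he, div_mul_cancel₀ _ hp10.ne']
      exact h
    · refine (unique_of_lt_p K3 hp0 hlt' hp1 hc0 hc1 ?_).1
      rw [div_mul_cancel₀ _ hp10.ne']
      exact h
  exact unique_of_lt K3 (by linarith) (by positivity) hlt hqle hmin

/-- A symmetry breaking point `(p0,q0)` controls everything to its right. -/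
lemma loOn_of_not_isMinimizer {L : ℝ → ℝ} {p0 q0 y : ℝ} (hp0 : 0 < p0) (hy : y < 1)
    (hq0 : 0 < q0) (hqp : q0 ≤ p0) (hL : ∀ p, p0 < p → p ≤ y → L p ≤ q0 / p0)
    (h : ¬ IsMinimizer K3 p0 q0) : LoOn L p0 y := by
  intro p q hxp hpy hq hLq hmin
  have hp : 0 < p := by linarith
  have hc0 : 0 < q0 / p0 := by positivity
  have hc1 : q0 / p0 ≤ 1 := (div_le_one hp0).2 hqp
  have hle : q ≤ q0 / p0 * p := hLq.trans (mul_le_mul_of_nonneg_right (hL p hxp hpy) hp.le)
  have hcp : q0 / p0 * p ≤ p := by nlinarith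
  have hmin' : IsMinimizer K3 p (q0 / p0 * p) := by
    rcases hle.eq_or_lt with he | hlt
    · rw [← he]; exact hmin
    · exact (unique_of_lt K3 (by linarith) hq hlt hcp hmin).1
  have h2 := (unique_of_lt_p K3 hp0 hxp (by linarith) hc0 hc1 hmin').1
  rw [div_mul_cancel₀ _ hp0.ne'] at h2
  exact h h2

lemma upOn_of_okRS {U : ℝ → ℝ} {x p1 q1 C y z yr r0 : ℚ} {cs : List CData}
    (h : okRS p1 q1 C y z yr r0 cs = true) (hx : 0 ≤ x)
    (hU : ∀ p : ℝ, (x : ℝ) < p → p ≤ p1 → ((q1 / p1 : ℚ) : ℝ) < U p) : UpOn U x p1 := by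
  have h0 := h
  simp only [okRS, Bool.and_eq_true, decide_eq_true_eq] at h0
  obtain ⟨⟨⟨⟨⟨⟨g1, g2⟩, g3⟩, -⟩, -⟩, -⟩, -⟩ := h0
  refine upOn_of_isMinimizer (by exact_mod_cast hx) (by exact_mod_cast g3) (by exact_mod_cast g1)
    (by exact_mod_cast g2.le) ?_ (okRS_sound h)
  intro p hp1 hp2
  have := hU p hp1 hp2
  push_cast at this
  exact this

lemma loOn_of_okSB {L : ℝ → ℝ} {p0 q0 a b y : ℚ} (h : okSB p0 q0 a b = true) (hy : y < 1)
    (hL : ∀ p : ℝ, (p0 : ℝ) < p → p ≤ y → L p ≤ ((q0 / p0 : ℚ) : ℝ)) : LoOn L p0 y := by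
  obtain ⟨g1, g2, g3, -, -, -, -, -⟩ := okSB_spec h
  have hp0 : 0 < p0 := g1.trans g2
  refine loOn_of_not_isMinimizer (by exact_mod_cast hp0) (by exact_mod_cast hy)
    (by exact_mod_cast g1) (by exact_mod_cast g2.le) ?_ (okSB_sound h)
  intro p hp1 hp2
  have := hL p hp1 hp2
  push_cast at this
  exact this

/-! ### Small `p` -/

lemma relEnt_scaled {p : ℝ} (hp0 : 0 < p) (x : ℝ) : relEnt p (p * x) =
    p * (x * Real.log x) + (1 - p * x) * Real.log ((1 - p * x) / (1 - p)) := by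
  unfold relEnt
  rw [mul_div_cancel_left₀ _ hp0.ne']
  ring

/-- Lower bound for `I_p(p x)`. -/
lemma relEnt_scaled_ge {p x : ℝ} (hp0 : 0 < p) (hp1 : p < 1) (hx1 : x ≤ 1) :
    p * (x * Real.log x - x + 1) ≤ relEnt p (p * x) := by
  rw [relEnt_scaled hp0 x]
  have hpx : 0 < 1 - p * x := by nlinarith
  have h1 : 0 < (1 - p * x) / (1 - p) := div_pos hpx (by linarith)
  have h2 := Real.one_sub_inv_le_log_of_pos h1
  rw [inv_div] at h2
  have h3 := mul_le_mul_of_nonneg_left h2 hpx.le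
  have e : (1 - p * x) * (1 - (1 - p) / (1 - p * x)) = p * (1 - x) := by
    field_simp
    ring
  rw [e] at h3
  linarith

/-- Upper bound for `I_p(p x)`. -/
lemma relEnt_scaled_le {p x : ℝ} (hp0 : 0 < p) (hp1 : p ≤ 1 / 2) (hx0 : 0 < x) (hx1 : x ≤ 1) :
    relEnt p (p * x) ≤ p * (x * Real.log x - x + 1) + 2 * p ^ 2 := by
  rw [relEnt_scaled hp0 x]
  have hpx : 0 < 1 - p * x := by nlinarith
  have hq : 0 < 1 - p := by linarith
  have h1 : 0 < (1 - p * x) / (1 - p) := div_pos hpx hq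
  have h2 := Real.log_le_sub_one_of_pos h1
  have h3 := mul_le_mul_of_nonneg_left h2 hpx.le
  have e : (1 - p * x) * ((1 - p * x) / (1 - p) - 1) = p * (1 - x) + p ^ 2 * (1 - x) ^ 2 / (1 - p) := by
    field_simp
    ring
  rw [e] at h3
  have h4 : p ^ 2 * (1 - x) ^ 2 / (1 - p) ≤ 2 * p ^ 2 := by
    rw [div_le_iff₀ hq]
    have : (1 - x) ^ 2 ≤ 1 := by nlinarith
    nlinarith [sq_nonneg p, mul_nonneg (sq_nonneg p) (sub_nonneg.2 this)]
  linarith

/-- Symmetry breaking at the ratio `0.2095`, for all `p`. -/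
lemma not_isMinimizer_small {p : ℝ} (hp0 : 0 < p) (hp1 : p < 1) :
    ¬ IsMinimizer K3 p (419 / 2000 * p) := by
  intro h
  set p' : ℝ := min (p / 2) (1 / 100000) with hp'
  have hp'0 : 0 < p' := lt_min (by linarith) (by norm_num)
  have hp'p : p' < p := (min_le_left _ _).trans_lt (by linarith)
  have hp's : p' ≤ 1 / 100000 := min_le_right _ _
  have h2 := (unique_of_lt_p K3 hp'0 hp'p hp1 (by norm_num) (by norm_num) h).1
  refine not_isMinimizer_of_twoBlock (a := p' * (17 / 1000)) (b := p' * (849 / 1000))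
    (by positivity) (by nlinarith) (by positivity) (by nlinarith) ?_ ?_ h2
  · have h3 : 0 < p' ^ 3 := by positivity
    nlinarith
  · have e1 := relEnt_scaled_le (x := 17 / 1000) hp'0 (by linarith) (by norm_num) (by norm_num)
    have e2 := relEnt_scaled_le (x := 849 / 1000) hp'0 (by linarith) (by norm_num) (by norm_num)
    have e3 := relEnt_scaled_ge (x := 419 / 2000) hp'0 (by linarith) (by norm_num)
    rw [mul_comm (419 / 2000 : ℝ) p']
    have l1 := le_lnHi (y := 17 / 1000) (by norm_num)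
    have l2 := le_lnHi (y := 849 / 1000) (by norm_num)
    have l3 := lnLo_le (y := 419 / 2000) (by norm_num)
    have k1 : lnHi (17 / 1000) ≤ -40745 / 10000 := by decide +kernel
    have k2 : lnHi (849 / 1000) ≤ -163695 / 1000000 := by decide +kernel
    have k3 : -156304 / 100000 ≤ lnLo (419 / 2000) := by decide +kernel
    have k1' : ((lnHi (17 / 1000) : ℚ) : ℝ) ≤ -40745 / 10000 := by exact_mod_cast k1
    have k2' : ((lnHi (849 / 1000) : ℚ) : ℝ) ≤ -163695 / 1000000 := by exact_mod_cast k2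
    have k3' : (-156304 / 100000 : ℝ) ≤ ((lnLo (419 / 2000) : ℚ) : ℝ) := by exact_mod_cast k3
    push_cast at l1 l2 l3
    have s1 : (17 / 1000 : ℝ) * Real.log (17 / 1000) ≤ 17 / 1000 * (-40745 / 10000) := by
      linarith
    have s2 : (849 / 1000 : ℝ) * Real.log (849 / 1000) ≤ 849 / 1000 * (-163695 / 1000000) := by
      linarith
    have s3 : (419 / 2000 : ℝ) * (-156304 / 100000) ≤ 419 / 2000 * Real.log (419 / 2000) := by
      linarith
    have s4 : p' * ((17 / 1000 : ℝ) * Real.log (17 / 1000) - 17 / 1000 + 1) +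
        p' * ((849 / 1000 : ℝ) * Real.log (849 / 1000) - 849 / 1000 + 1) + 4 * p' ^ 2 <
        2 * (p' * (419 / 2000 * Real.log (419 / 2000) - 419 / 2000 + 1)) := by
      have s5 : p' * ((17 / 1000 : ℝ) * Real.log (17 / 1000) +
          (849 / 1000 : ℝ) * Real.log (849 / 1000) - 2 * (419 / 2000 * Real.log (419 / 2000))) ≤
          p' * (17 / 1000 * (-40745 / 10000) + 849 / 1000 * (-163695 / 1000000) -
            2 * (419 / 2000 * (-156304 / 100000))) :=
        mul_le_mul_of_nonneg_left (by linarith) hp'0.le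
      nlinarith
    linarith

lemma loOn_small {L : ℝ → ℝ} {y : ℝ} (hy : y < 1) (hL : ∀ p, 0 < p → p ≤ y → L p ≤ 419 / 2000) :
    LoOn L 0 y := by
  intro p q hp0 hpy hq hLq hmin
  have hle : q ≤ 419 / 2000 * p := hLq.trans (mul_le_mul_of_nonneg_right (hL p hp0 hpy) hp0.le)
  refine not_isMinimizer_small hp0 (by linarith) ?_
  rcases hle.eq_or_lt with he | hlt
  · rw [← he]; exact hmin
  · exact (unique_of_lt K3 (by linarith) hq hlt (by linarith) hmin).1

end Pool.Agent.H99.LowerTail
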