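import Mathlib

open Finset

namespace Pool.Agent.H99.LowerTail

/-- Partial sums of the series of `artanh`. -/
def atSum (z : ℚ) : ℕ → ℚ
  | 0 => 0
  | n + 1 => atSum z n + z ^ (2 * n + 1) / (2 * n + 1)

/-- Rational bounds for `log m`, precise for `m` close to `1`. -/
def lnM (m : ℚ) : ℚ × ℚ :=
  let z := (m - 1) / (m + 1)
  let S := 2 * atSum z 7
  let E := 2 * (|z| ^ 15 / (1 - z ^ 2))
  (S - E, S + E)

/-- Rational bounds for `log y`; arguments are doubled until they exceed `2/3`. -/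
def lnB : ℕ → ℚ → ℚ × ℚ
  | 0, y => lnM y
  | k + 1, y =>
    if y < 2 / 3 then
      let r := lnB k (2 * y)
      (r.1 - 6931471808 / 10000000000, r.2 - 6931471803 / 10000000000)
    else lnM y

lemma atSum_cast (z : ℚ) (n : ℕ) :
    ((atSum z n : ℚ) : ℝ) = ∑ i ∈ range n, (z : ℝ) ^ (2 * i + 1) / (2 * i + 1) := by
  induction n with
  | zero => simp [atSum]
  | succ n ih =>
    rw [sum_range_succ, ← ih, atSum]
    push_cast
    ring

lemma lnM_sound {m : ℚ} (hm : 0 < m) :
    (((lnM m).1 : ℚ) : ℝ) ≤ Real.log m ∧ Real.log m ≤ (((lnM m).2 : ℚ) : ℝ) := by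
  set z : ℚ := (m - 1) / (m + 1) with hz
  have hm' : (0 : ℝ) < m := by exact_mod_cast hm
  have hzR : (z : ℝ) = (m - 1) / (m + 1) := by rw [hz]; push_cast; ring
  have hz1 : |(z : ℝ)| < 1 := by
    rw [hzR, abs_lt]
    constructor
    · rw [lt_div_iff₀ (by linarith)]
      linarith
    · rw [div_lt_iff₀ (by linarith)]
      linarith
  have h := Real.sum_range_sub_log_div_le hz1 7
  have e : (1 + (z : ℝ)) / (1 - z) = m := by
    rw [hzR]
    have : (m : ℝ) + 1 ≠ 0 := by linarith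
    field_simp
    ring
  rw [e, ← atSum_cast] at h
  have h2 := abs_le.1 h
  have e1 : (((lnM m).1 : ℚ) : ℝ) = 2 * (atSum z 7 : ℚ) - 2 * (|(z : ℝ)| ^ 15 / (1 - (z : ℝ) ^ 2)) := by
    simp only [lnM, ← hz]
    push_cast
    ring
  have e2 : (((lnM m).2 : ℚ) : ℝ) = 2 * (atSum z 7 : ℚ) + 2 * (|(z : ℝ)| ^ 15 / (1 - (z : ℝ) ^ 2)) := by
    simp only [lnM, ← hz]
    push_cast
    ring
  rw [e1, e2]
  norm_num at h2
  constructor <;> linarith [h2.1, h2.2]

lemma lnB_sound (k : ℕ) : ∀ {y : ℚ}, 0 < y →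
    (((lnB k y).1 : ℚ) : ℝ) ≤ Real.log y ∧ Real.log y ≤ (((lnB k y).2 : ℚ) : ℝ) := by
  induction k with
  | zero => exact fun hy => lnM_sound hy
  | succ k ih =>
    intro y hy
    unfold lnB
    split_ifs with h
    · have h1 := ih (y := 2 * y) (by linarith)
      have hy' : (0 : ℝ) < y := by exact_mod_cast hy
      have e : Real.log ((2 * y : ℚ) : ℝ) = Real.log 2 + Real.log y := by
        push_cast
        rw [Real.log_mul (by norm_num) hy'.ne']
      rw [e] at h1
      have h2 := Real.log_two_gt_d9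
      have h3 := Real.log_two_lt_d9
      push_cast
      constructor
      · linarith [h1.1]
      · linarith [h1.2]
    · exact lnM_sound hy

/-- Lower bound for the logarithm. -/
def lnLo (y : ℚ) : ℚ := (lnB 12 y).1
/-- Upper bound for the logarithm. -/
def lnHi (y : ℚ) : ℚ := (lnB 12 y).2

lemma lnLo_le {y : ℚ} (hy : 0 < y) : ((lnLo y : ℚ) : ℝ) ≤ Real.log y := (lnB_sound 12 hy).1
lemma le_lnHi {y : ℚ} (hy : 0 < y) : Real.log y ≤ ((lnHi y : ℚ) : ℝ) := (lnB_sound 12 hy).2

example : (lnLo (21613/1000000) > -3835/1000) = true := by decide +kernel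
example : lnHi (21613/1000000) < -3834/1000 := by decide +kernel

end Pool.Agent.H99.LowerTail
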