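import Pool.Agent.H99.Region
import Pool.Agent.H99.LogBound

open MeasureTheory unitInterval Set

namespace Pool.Agent.H99.LowerTail

/-- lower bound for `relEnt p w` -/
def relLo (p w : ℚ) : ℚ := w * lnLo w + (1 - w) * lnLo (1 - w) - w * lnHi p - (1 - w) * lnHi (1 - p)
/-- upper bound for `relEnt p w` -/
def relHi (p w : ℚ) : ℚ := w * lnHi w + (1 - w) * lnHi (1 - w) - w * lnLo p - (1 - w) * lnLo (1 - p)
/-- lower bound for `lfun p w` -/
def lfLo (p w : ℚ) : ℚ := lnLo (1 - w) - lnHi (1 - p) - lnHi w + lnLo p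
/-- upper bound for `lfun p w` -/
def lfHi (p w : ℚ) : ℚ := lnHi (1 - w) - lnLo (1 - p) - lnLo w + lnHi p

lemma one_sub_pos_q {p : ℚ} (hp1 : p < 1) : 0 < 1 - p := by linarith

lemma relLo_le {p w : ℚ} (hp0 : 0 < p) (hp1 : p < 1) (hw0 : 0 < w) (hw1 : w < 1) :
    ((relLo p w : ℚ) : ℝ) ≤ relEnt p w := by
  have hp0' : (0 : ℝ) < p := by exact_mod_cast hp0
  have hp1' : (p : ℝ) < 1 := by exact_mod_cast hp1
  have hw0' : (0 : ℝ) < w := by exact_mod_cast hw0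
  have hw1' : (w : ℝ) < 1 := by exact_mod_cast hw1
  rw [relEnt_eq hp0' hp1']
  have a1 := lnLo_le hw0
  have a2 := lnLo_le (one_sub_pos_q hw1)
  have a3 := le_lnHi hp0
  have a4 := le_lnHi (one_sub_pos_q hp1)
  push_cast at a2 a4
  have b1 := mul_le_mul_of_nonneg_left a1 hw0'.le
  have b2 := mul_le_mul_of_nonneg_left a2 (by linarith : (0 : ℝ) ≤ 1 - w)
  have b3 := mul_le_mul_of_nonneg_left a3 hw0'.le
  have b4 := mul_le_mul_of_nonneg_left a4 (by linarith : (0 : ℝ) ≤ 1 - w)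
  unfold relLo
  push_cast
  linarith

lemma le_relHi {p w : ℚ} (hp0 : 0 < p) (hp1 : p < 1) (hw0 : 0 < w) (hw1 : w < 1) :
    relEnt p w ≤ ((relHi p w : ℚ) : ℝ) := by
  have hp0' : (0 : ℝ) < p := by exact_mod_cast hp0
  have hp1' : (p : ℝ) < 1 := by exact_mod_cast hp1
  have hw0' : (0 : ℝ) < w := by exact_mod_cast hw0
  have hw1' : (w : ℝ) < 1 := by exact_mod_cast hw1
  rw [relEnt_eq hp0' hp1']
  have a1 := le_lnHi hw0
  have a2 := le_lnHi (one_sub_pos_q hw1)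
  have a3 := lnLo_le hp0
  have a4 := lnLo_le (one_sub_pos_q hp1)
  push_cast at a2 a4
  have b1 := mul_le_mul_of_nonneg_left a1 hw0'.le
  have b2 := mul_le_mul_of_nonneg_left a2 (by linarith : (0 : ℝ) ≤ 1 - w)
  have b3 := mul_le_mul_of_nonneg_left a3 hw0'.le
  have b4 := mul_le_mul_of_nonneg_left a4 (by linarith : (0 : ℝ) ≤ 1 - w)
  unfold relHi
  push_cast
  linarith

lemma lfun_eq {p w : ℝ} (hp0 : 0 < p) (hp1 : p < 1) (hw0 : 0 < w) (hw1 : w < 1) :
    lfun p w = Real.log (1 - w) - Real.log (1 - p) - Real.log w + Real.log p := by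
  unfold lfun
  rw [Real.log_div (by linarith) (by linarith), Real.log_div hw0.ne' hp0.ne']
  ring

lemma lfun_bounds {p w : ℚ} (hp0 : 0 < p) (hp1 : p < 1) (hw0 : 0 < w) (hw1 : w < 1) :
    ((lfLo p w : ℚ) : ℝ) ≤ lfun p w ∧ lfun p w ≤ ((lfHi p w : ℚ) : ℝ) := by
  have hp0' : (0 : ℝ) < p := by exact_mod_cast hp0
  have hp1' : (p : ℝ) < 1 := by exact_mod_cast hp1
  have hw0' : (0 : ℝ) < w := by exact_mod_cast hw0
  have hw1' : (w : ℝ) < 1 := by exact_mod_cast hw1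
  rw [lfun_eq hp0' hp1' hw0' hw1']
  have a1 := lnLo_le hw0
  have a2 := lnLo_le (one_sub_pos_q hw1)
  have a3 := le_lnHi hp0
  have a4 := le_lnHi (one_sub_pos_q hp1)
  have c1 := le_lnHi hw0
  have c2 := le_lnHi (one_sub_pos_q hw1)
  have c3 := lnLo_le hp0
  have c4 := lnLo_le (one_sub_pos_q hp1)
  push_cast at a2 a4 c2 c4
  unfold lfLo lfHi
  push_cast
  constructor <;> linarith

/-- lower bound for `gfun` -/
def gLo (p A B C s w : ℚ) : ℚ := relLo p w - (A + B * w + C * (w - s) ^ 2)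

lemma gLo_le {p A B C s w : ℚ} (hp0 : 0 < p) (hp1 : p < 1) (hw0 : 0 < w) (hw1 : w < 1) :
    ((gLo p A B C s w : ℚ) : ℝ) ≤ gfun p A B C s w := by
  have := relLo_le hp0 hp1 hw0 hw1
  unfold gLo gfun
  push_cast
  linarith

/-- upper bound for `|gder|` -/
def gdHi (p B C s w : ℚ) : ℚ :=
  max (lfHi p w + (B + 2 * C * (w - s))) (-lfLo p w - (B + 2 * C * (w - s)))

lemma gder_abs_le {p B C s w : ℚ} (hp0 : 0 < p) (hp1 : p < 1) (hw0 : 0 < w) (hw1 : w < 1) :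
    |gder p B C s w| ≤ ((gdHi p B C s w : ℚ) : ℝ) := by
  have h := lfun_bounds hp0 hp1 hw0 hw1
  unfold gder gdHi
  push_cast
  rw [abs_le]
  constructor
  · have := le_max_left ((lfHi p w : ℝ) + (B + 2 * C * (w - s)))
      (-(lfLo p w : ℝ) - (B + 2 * C * (w - s)))
    linarith [h.2]
  · have := le_max_right ((lfHi p w : ℝ) + (B + 2 * C * (w - s)))
      (-(lfLo p w : ℝ) - (B + 2 * C * (w - s)))
    linarith [h.1]

/-- Check that `relEnt p` is at least `A + B w + C (w - s)²` on `[l,r]`. -/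
def okMin (p A B C s l r x y : ℚ) : Bool :=
  decide (0 ≤ l) && decide (r < 1) && decide (l < x) && decide (x ≤ y) && decide (y ≤ r) &&
  ((decide (y = r) && (decide (C ≤ 2) || (decide (r ≤ 1 / 2) &&
    decide (2 * C * (r * (1 - r)) ≤ 1)))) ||
   (decide (2 * C * (x * (1 - x)) ≤ 1) && decide (y ≤ 1 / 2) &&
    decide (1 ≤ 2 * C * (y * (1 - y))) &&
    (decide (r ≤ 1 / 2) || decide (1 ≤ 2 * C * (r * (1 - r)))) &&
    decide (0 ≤ gLo p A B C s r))) &&
  decide (gdHi p B C s x * (y - l) ≤ gLo p A B C s x)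

lemma okMin_sound {p A B C s l r x y : ℚ} (hp0 : 0 < p) (hp1 : p < 1)
    (h : okMin p A B C s l r x y = true) {w : ℝ} (hlw : l ≤ w) (hwr : w ≤ r) :
    0 ≤ gfun p A B C s w := by
  simp only [okMin, Bool.and_eq_true, Bool.or_eq_true, decide_eq_true_eq] at h
  obtain ⟨⟨⟨⟨⟨⟨h1, h2⟩, h3⟩, h4⟩, h5⟩, h6⟩, h7⟩ := h
  have hp0' : (0 : ℝ) < p := by exact_mod_cast hp0
  have hp1' : (p : ℝ) < 1 := by exact_mod_cast hp1
  have hx0 : 0 < x := by linarith
  have hx1 : x < 1 := by linarith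
  have hr0 : 0 < r := by linarith
  refine gfun_nonneg (x := (x : ℝ)) (y := (y : ℝ)) (l := (l : ℝ)) (r := (r : ℝ)) hp0' hp1'
    (by exact_mod_cast h1) (by exact_mod_cast h2)
    (by exact_mod_cast h3) (by exact_mod_cast h4) (by exact_mod_cast h5) ?_ ?_ hlw hwr
  · rcases h6 with ⟨h8, h9⟩ | ⟨⟨⟨⟨h8, h9⟩, h10⟩, h11⟩, h12⟩
    · left
      refine ⟨by exact_mod_cast h8, ?_⟩
      rcases h9 with h9 | ⟨h9, h10⟩
      · left
        exact_mod_cast h9
      · right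
        constructor
        · have : ((r : ℚ) : ℝ) ≤ ((1 / 2 : ℚ) : ℝ) := by exact_mod_cast h9
          simpa using this
        · exact_mod_cast h10
    · right
      refine ⟨by exact_mod_cast h8, ?_, by exact_mod_cast h10, ?_, ?_⟩
      · have : ((y : ℚ) : ℝ) ≤ ((1 / 2 : ℚ) : ℝ) := by exact_mod_cast h9
        simpa using this
      · rcases h11 with h11 | h11
        · left
          have : ((r : ℚ) : ℝ) ≤ ((1 / 2 : ℚ) : ℝ) := by exact_mod_cast h11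
          simpa using this
        · right
          exact_mod_cast h11
      · have h13 : (0 : ℝ) ≤ ((gLo p A B C s r : ℚ) : ℝ) := by exact_mod_cast h12
        exact h13.trans (gLo_le hp0 hp1 hr0 h2)
  · have h13 : ((gdHi p B C s x : ℚ) : ℝ) * ((y : ℝ) - l) ≤ ((gLo p A B C s x : ℚ) : ℝ) := by
      exact_mod_cast h7
    have h14 := gder_abs_le (B := B) (C := C) (s := s) hp0 hp1 hx0 hx1
    have h15 : (0 : ℝ) ≤ (y : ℝ) - l := by
      have : (l : ℝ) ≤ y := by exact_mod_cast (h3.le.trans h4)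
      linarith
    exact (mul_le_mul_of_nonneg_right h14 h15).trans
      (h13.trans (gLo_le hp0 hp1 hx0 hx1))

/-- Check that `relEnt p` is at least `A + B w + C (w - s)²` on `[l,r]`; version with a touching
point `x ≥ 1/2`. -/
def okMinR (p A B C s l r x yl yr : ℚ) : Bool :=
  decide (0 < l) && decide (r < 1) && decide (x ≤ r) && decide (1 / 2 ≤ x) && decide (l ≤ yl) &&
  decide (yl ≤ 1 / 2) && decide (yr ≤ x) && decide (1 ≤ 2 * C * (yl * (1 - yl))) &&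
  decide (1 ≤ 2 * C * (yr * (1 - yr))) && decide (2 * C * (x * (1 - x)) ≤ 1) &&
  decide (gdHi p B C s l * (yl - l) ≤ gLo p A B C s l) &&
  decide (gdHi p B C s x * (r - yr) ≤ gLo p A B C s x)

lemma half_le_cast {x : ℚ} (h : 1 / 2 ≤ x) : (1 / 2 : ℝ) ≤ x := by
  have : ((1 / 2 : ℚ) : ℝ) ≤ ((x : ℚ) : ℝ) := by exact_mod_cast h
  simpa using this

lemma cast_le_half {x : ℚ} (h : x ≤ 1 / 2) : (x : ℝ) ≤ 1 / 2 := by
  have : ((x : ℚ) : ℝ) ≤ ((1 / 2 : ℚ) : ℝ) := by exact_mod_cast h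
  simpa using this

lemma okMinR_sound {p A B C s l r x yl yr : ℚ} (hp0 : 0 < p) (hp1 : p < 1)
    (h : okMinR p A B C s l r x yl yr = true) {w : ℝ} (hlw : l ≤ w) (hwr : w ≤ r) :
    0 ≤ gfun p A B C s w := by
  simp only [okMinR, Bool.and_eq_true, decide_eq_true_eq] at h
  obtain ⟨⟨⟨⟨⟨⟨⟨⟨⟨⟨⟨h1, h2⟩, h3⟩, h4⟩, h5⟩, h6⟩, h7⟩, h8⟩, h9⟩, h10⟩, h11⟩, h12⟩ := h
  have hp0' : (0 : ℝ) < p := by exact_mod_cast hp0
  have hp1' : (p : ℝ) < 1 := by exact_mod_cast hp1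
  have hx0 : 0 < x := by linarith
  have hx1 : x < 1 := by linarith
  have hl1 : l < 1 := by linarith
  have hyl : (0 : ℝ) ≤ (yl : ℝ) - l := by
    have : (l : ℝ) ≤ yl := by exact_mod_cast h5
    linarith
  have hyr : (0 : ℝ) ≤ (r : ℝ) - yr := by
    have : (yr : ℝ) ≤ r := by exact_mod_cast (h7.trans h3)
    linarith
  refine gfun_nonneg_right (x := (x : ℝ)) (yl := (yl : ℝ)) (yr := (yr : ℝ)) (l := (l : ℝ))
    (r := (r : ℝ)) hp0' hp1' (by exact_mod_cast h1) (by exact_mod_cast h2) (by exact_mod_cast h3)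
    (half_le_cast h4) (by exact_mod_cast h5) (cast_le_half h6) (by exact_mod_cast h7)
    (by exact_mod_cast h8) (by exact_mod_cast h9) (by exact_mod_cast h10) ?_ ?_ hlw hwr
  · have h13 : ((gdHi p B C s l : ℚ) : ℝ) * ((yl : ℝ) - l) ≤ ((gLo p A B C s l : ℚ) : ℝ) := by
      exact_mod_cast h11
    have h14 := gder_abs_le (B := B) (C := C) (s := s) hp0 hp1 h1 hl1
    exact (mul_le_mul_of_nonneg_right h14 hyl).trans (h13.trans (gLo_le hp0 hp1 h1 hl1))
  · have h13 : ((gdHi p B C s x : ℚ) : ℝ) * ((r : ℝ) - yr) ≤ ((gLo p A B C s x : ℚ) : ℝ) := by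
      exact_mod_cast h12
    have h14 := gder_abs_le (B := B) (C := C) (s := s) hp0 hp1 hx0 hx1
    exact (mul_le_mul_of_nonneg_right h14 hyr).trans (h13.trans (gLo_le hp0 hp1 hx0 hx1))

/-- A cubic with nonnegative Bernstein coefficients. -/
lemma cubic_bernstein {c3 c2 c1 c0 l r δ : ℝ} (hlr : l < r) (hl : l ≤ δ) (hr : δ ≤ r)
    (h0 : 0 ≤ c3 * l ^ 3 - c2 * l ^ 2 + c1 * l - c0)
    (h1 : 0 ≤ (c3 * l ^ 3 - c2 * l ^ 2 + c1 * l - c0) +
      (3 * c3 * l ^ 2 - 2 * c2 * l + c1) * ((r - l) / 3))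
    (h2 : 0 ≤ (c3 * r ^ 3 - c2 * r ^ 2 + c1 * r - c0) -
      (3 * c3 * r ^ 2 - 2 * c2 * r + c1) * ((r - l) / 3))
    (h3 : 0 ≤ c3 * r ^ 3 - c2 * r ^ 2 + c1 * r - c0) :
    0 ≤ c3 * δ ^ 3 - c2 * δ ^ 2 + c1 * δ - c0 := by
  have e : (r - l) ^ 3 * (c3 * δ ^ 3 - c2 * δ ^ 2 + c1 * δ - c0) =
      (c3 * l ^ 3 - c2 * l ^ 2 + c1 * l - c0) * (r - δ) ^ 3 +
      3 * ((c3 * l ^ 3 - c2 * l ^ 2 + c1 * l - c0) +
      (3 * c3 * l ^ 2 - 2 * c2 * l + c1) * ((r - l) / 3)) * ((δ - l) * (r - δ) ^ 2) +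
      3 * ((c3 * r ^ 3 - c2 * r ^ 2 + c1 * r - c0) -
      (3 * c3 * r ^ 2 - 2 * c2 * r + c1) * ((r - l) / 3)) * ((δ - l) ^ 2 * (r - δ)) +
      (c3 * r ^ 3 - c2 * r ^ 2 + c1 * r - c0) * (δ - l) ^ 3 := by ring
  have h4 : 0 ≤ δ - l := by linarith
  have h5 : 0 ≤ r - δ := by linarith
  have h6 : 0 ≤ (r - l) ^ 3 * (c3 * δ ^ 3 - c2 * δ ^ 2 + c1 * δ - c0) := by
    rw [e]
    positivity
  have h7 : 0 < (r - l) ^ 3 := pow_pos (by linarith) 3
  exact nonneg_of_mul_nonneg_right h6 h7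

/-- Check that a cubic is nonnegative on `[l,r]`. -/
def okCubic (c3 c2 c1 c0 l r d : ℚ) : Bool :=
  (decide (0 ≤ c3) && decide (0 ≤ c3 * l + 2 * c3 * d - c2) &&
  decide (0 ≤ (c3 * d ^ 3 - c2 * d ^ 2 + c1 * d - c0) +
    (3 * c3 * d ^ 2 - 2 * c2 * d + c1) * (l - d)) &&
  decide (0 ≤ (c3 * d ^ 3 - c2 * d ^ 2 + c1 * d - c0) +
    (3 * c3 * d ^ 2 - 2 * c2 * d + c1) * (r - d))) ||
  (decide (l < r) && decide (0 ≤ c3 * l ^ 3 - c2 * l ^ 2 + c1 * l - c0) &&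
  decide (0 ≤ (c3 * l ^ 3 - c2 * l ^ 2 + c1 * l - c0) +
      (3 * c3 * l ^ 2 - 2 * c2 * l + c1) * ((r - l) / 3)) &&
  decide (0 ≤ (c3 * r ^ 3 - c2 * r ^ 2 + c1 * r - c0) -
      (3 * c3 * r ^ 2 - 2 * c2 * r + c1) * ((r - l) / 3)) &&
  decide (0 ≤ c3 * r ^ 3 - c2 * r ^ 2 + c1 * r - c0))

lemma okCubic_sound {c3 c2 c1 c0 l r d : ℚ} (h : okCubic c3 c2 c1 c0 l r d = true) {δ : ℝ}
    (hl : l ≤ δ) (hr : δ ≤ r) :
    0 ≤ (c3 : ℝ) * δ ^ 3 - c2 * δ ^ 2 + c1 * δ - c0 := by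
  simp only [okCubic, Bool.and_eq_true, Bool.or_eq_true, decide_eq_true_eq] at h
  rcases h with ⟨⟨⟨h1, h2⟩, h3⟩, h4⟩ | ⟨⟨⟨⟨h0, h1⟩, h2⟩, h3⟩, h4⟩
  · exact cubic_nonneg (l := (l : ℝ)) (r := (r : ℝ)) (d := (d : ℝ)) hl hr (by exact_mod_cast h1)
      (by exact_mod_cast h2) (by exact_mod_cast h3) (by exact_mod_cast h4)
  · exact cubic_bernstein (l := (l : ℝ)) (r := (r : ℝ)) (by exact_mod_cast h0) hl hr
      (by exact_mod_cast h1) (by exact_mod_cast h2) (by exact_mod_cast h3) (by exact_mod_cast h4)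

/-- Check that a cubic is nonnegative on `[l,r]`, which is cut into segments. The list contains
the right ends of the segments with the points of tangency. -/
def okCubics (c3 c2 c1 c0 : ℚ) : ℚ → ℚ → List (ℚ × ℚ) → Bool
  | l, r, [] => decide (r ≤ l)
  | l, r, e :: es => okCubic c3 c2 c1 c0 l e.1 e.2 && okCubics c3 c2 c1 c0 e.1 r es

lemma okCubics_sound {c3 c2 c1 c0 : ℚ} (es : List (ℚ × ℚ)) : ∀ {l r : ℚ},
    okCubics c3 c2 c1 c0 l r es = true → ∀ {δ : ℝ}, l < δ → δ ≤ r →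
    0 ≤ (c3 : ℝ) * δ ^ 3 - c2 * δ ^ 2 + c1 * δ - c0 := by
  induction es with
  | nil =>
    intro l r h δ hl hr
    simp only [okCubics, decide_eq_true_eq] at h
    have : ((r : ℚ) : ℝ) ≤ l := by exact_mod_cast h
    linarith
  | cons e es ih =>
    intro l r h δ hl hr
    simp only [okCubics, Bool.and_eq_true] at h
    rcases le_or_gt δ e.1 with h1 | h1
    · exact okCubic_sound h.1 hl.le h1
    · exact ih h.2 h1 hr

/-- Data of one certificate. -/
structure CData where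
  /-- level -/
  s : ℚ
  /-- minorant -/
  A : ℚ
  /-- minorant -/
  B : ℚ
  /-- minorant -/
  C1 : ℚ
  /-- minorant -/
  C2 : ℚ
  /-- touching point in `[0,s]` -/
  xa : ℚ
  /-- end of convexity in `[0,s]` -/
  ya : ℚ
  /-- touching point in `[s,p]` -/
  xb : ℚ
  /-- end of convexity in `[s,p]` -/
  yb : ℚ
  /-- end of concavity in `[s,p]` -/
  yr : ℚ
  /-- range -/
  l : ℚ
  /-- range -/
  r : ℚ
  /-- segments for the first cubic -/
  e1 : List (ℚ × ℚ)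
  /-- segments for the second cubic -/
  e2 : List (ℚ × ℚ)

/-- Check one certificate. -/
def okCert (p q Iq : ℚ) (c : CData) : Bool :=
  decide (0 < c.s) && decide (c.s ≤ p) && decide (0 < c.C1) && decide (0 < c.l) &&
  okMin p c.A c.B c.C2 c.s 0 c.s c.xa c.ya &&
  (okMin p c.A c.B c.C1 c.s c.s p c.xb c.yb || okMinR p c.A c.B c.C1 c.s c.s p c.xb c.yb c.yr) &&
  okCubics (c.C2 - c.C1 * (70711 / 100000) / (212133 / 100000))
    ((212133 / 100000) * c.B ^ 2 / (12 * c.s * c.C1)) (c.A + c.B * c.s / 2 - Iq)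
    (c.C1 / (212133 / 100000) * (q ^ 3 - c.s ^ 3 / 4)) c.l c.r c.e1 &&
  okCubics (c.C2 - c.C1 * 1 / (182844 / 100000))
    ((182844 / 100000) * c.B ^ 2 / (12 * c.s * c.C1)) (c.A + c.B * c.s / 2 - Iq)
    (c.C1 / (182844 / 100000) * (q ^ 3 - c.s ^ 3 / 4)) c.l c.r c.e2

lemma okCert_sound {p q Iq : ℚ} {c : CData} (hp0 : 0 < p) (hp1 : p < 1)
    (hIq : relEnt p q ≤ Iq) (h : okCert p q Iq c = true) : Cov p q c.s c.l c.r := by
  simp only [okCert, Bool.and_eq_true, decide_eq_true_eq] at h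
  obtain ⟨⟨⟨⟨⟨⟨⟨h1, h2⟩, h3⟩, h4⟩, h5⟩, h6⟩, h7⟩, h8⟩ := h
  have hp0' : (0 : ℝ) < p := by exact_mod_cast hp0
  have hp1' : (p : ℝ) < 1 := by exact_mod_cast hp1
  refine cov_cert (A := (c.A : ℝ)) (B := (c.B : ℝ)) (C1 := (c.C1 : ℝ)) (C2 := (c.C2 : ℝ))
    (Iq := (Iq : ℝ)) hp0' hp1'
    (by exact_mod_cast h1) (by exact_mod_cast h3) (by exact_mod_cast h4) ?_ hIq ?_ ?_
  · intro w hw0 hwp
    rcases le_total w c.s with h | h
    · rw [max_eq_right (by linarith : w - c.s ≤ 0), max_eq_left (by linarith : 0 ≤ c.s - w)]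
      have h9 := okMin_sound (w := w) hp0 hp1 h5 (by simpa using hw0) h
      unfold gfun at h9
      nlinarith
    · rw [max_eq_left (by linarith : 0 ≤ w - c.s), max_eq_right (by linarith : c.s - w ≤ 0)]
      have h9 : 0 ≤ gfun p c.A c.B c.C1 c.s w := by
        rw [Bool.or_eq_true] at h6
        rcases h6 with h6 | h6
        · exact okMin_sound (w := w) hp0 hp1 h6 h hwp
        · exact okMinR_sound (w := w) hp0 hp1 h6 h hwp
      unfold gfun at h9
      nlinarith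
  · intro δ hl hr
    have h9 := okCubics_sound _ h7 hl hr
    push_cast at h9
    norm_num at h9 ⊢
    exact h9
  · intro δ hl hr
    have h9 := okCubics_sound _ h8 hl hr
    push_cast at h9
    norm_num at h9 ⊢
    exact h9

/-- Check a chain of certificates. -/
def okChain (p q Iq : ℚ) : ℚ → ℚ → List CData → Bool
  | s, m, [] => decide (0 ≤ s) && decide (s ≤ m)
  | s, m, c :: cs => okCert p q Iq c &&
      (if s ≤ c.s then decide (c.l ≤ m) else decide (c.l ≤ m - (s - c.s))) &&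
      okChain p q Iq c.s c.r cs

lemma okChain_sound {p q Iq : ℚ} (hp0 : 0 < p) (hp1 : p < 1) (hIq : relEnt p q ≤ Iq)
    (cs : List CData) : ∀ s m : ℚ, okChain p q Iq s m cs = true → Upto p q s m →
    IsMinimizer K3 p q := by
  have hp0' : (0 : ℝ) < p := by exact_mod_cast hp0
  have hp1' : (p : ℝ) < 1 := by exact_mod_cast hp1
  induction cs with
  | nil =>
    intro s m h hU
    simp only [okChain, Bool.and_eq_true, decide_eq_true_eq] at h
    exact hU.isMinimizer hp0' hp1' (by exact_mod_cast h.1) (by exact_mod_cast h.2)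
  | cons c cs ih =>
    intro s m h hU
    simp only [okChain, Bool.and_eq_true] at h
    obtain ⟨⟨h1, h2⟩, h3⟩ := h
    have hc := okCert_sound hp0 hp1 hIq h1
    refine ih c.s c.r h3 ?_
    split_ifs at h2 with h4
    · rw [decide_eq_true_eq] at h2
      exact (hU.up (by exact_mod_cast h4)).step (by exact_mod_cast h2) hc
    · rw [decide_eq_true_eq] at h2
      push Not at h4
      refine (hU.down (s' := (c.s : ℝ)) (by exact_mod_cast h4.le)).step ?_ hc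
      have : ((c.l : ℚ) : ℝ) ≤ ((m - (s - c.s) : ℚ) : ℝ) := by exact_mod_cast h2
      push_cast at this
      exact this

/-- Check that `relEnt q w ≥ C (w - q)²` on `[0,p]`. -/
def okFirst (p q C y x yr : ℚ) : Bool :=
  decide (C ≤ 2) ||
  (decide (q ≤ y) && decide (y ≤ p) && decide (2 * C * (q * (1 - q)) ≤ 1) && decide (y ≤ 1 / 2) &&
    decide (1 ≤ 2 * C * (y * (1 - y))) &&
    (((decide (p ≤ 1 / 2) || decide (1 ≤ 2 * C * (p * (1 - p)))) &&
      decide (0 ≤ gLo q 0 0 C q p)) ||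
     (decide (1 / 2 ≤ p) && decide (0 ≤ gLo q 0 0 C q (1 / 2)) &&
      okMinR q 0 0 C q (1 / 2) p x (1 / 2) yr)))

lemma gfun_self {q C : ℝ} (hq0 : 0 < q) (hq1 : q < 1) : gfun q 0 0 C q q = 0 := by
  unfold gfun
  rw [relEnt_self hq0 hq1]
  ring

lemma gder_self {q C : ℝ} (hq0 : 0 < q) (hq1 : q < 1) : gder q 0 C q q = 0 := by
  unfold gder
  rw [lfun_self hq0 hq1]
  ring

lemma okFirst_sound {p q C y x yr : ℚ} (hq0 : 0 < q) (hqp : q < p) (hp1 : p < 1)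
    (h : okFirst p q C y x yr = true) {w : ℝ} (hw0 : 0 ≤ w) (hwp : w ≤ p) :
    0 ≤ gfun q 0 0 C q w := by
  have hp0 : 0 < p := hq0.trans hqp
  have hq1 : q < 1 := hqp.trans hp1
  have hp0' : (0 : ℝ) < p := by exact_mod_cast hp0
  have hp1' : (p : ℝ) < 1 := by exact_mod_cast hp1
  have hq0' : (0 : ℝ) < q := by exact_mod_cast hq0
  have hqp' : (q : ℝ) < p := by exact_mod_cast hqp
  have hq1' : (q : ℝ) < 1 := by exact_mod_cast hq1
  simp only [okFirst, Bool.and_eq_true, Bool.or_eq_true, decide_eq_true_eq] at h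
  rcases h with h | ⟨⟨⟨⟨⟨h1, h2⟩, h3⟩, h4⟩, h5⟩, h6⟩
  · refine gfun_nonneg (x := (q : ℝ)) (y := (p : ℝ)) (l := 0) (r := (p : ℝ)) hq0' hq1'
      le_rfl hp1' hq0' hqp'.le le_rfl (Or.inl ⟨rfl, Or.inl (by exact_mod_cast h)⟩) ?_ hw0 hwp
    rw [gfun_self hq0' hq1', gder_self hq0' hq1']
    simp
  · rcases h6 with ⟨h6, h7⟩ | ⟨⟨h6, h7⟩, h8⟩
    · have h9 : (0 : ℝ) ≤ gfun q 0 0 C q p := by
        have h13 : (0 : ℝ) ≤ ((gLo q 0 0 C q p : ℚ) : ℝ) := by exact_mod_cast h7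
        have h14 := gLo_le (A := 0) (B := 0) (C := C) (s := q) hq0 hq1 hp0 hp1
        push_cast at h14
        exact h13.trans h14
      refine gfun_nonneg (x := (q : ℝ)) (y := (y : ℝ)) (l := 0) (r := (p : ℝ)) hq0' hq1'
        le_rfl hp1' hq0' (by exact_mod_cast h1) (by exact_mod_cast h2)
        (Or.inr ⟨by exact_mod_cast h3, cast_le_half h4, by exact_mod_cast h5,
          h6.imp cast_le_half (fun h => by exact_mod_cast h), h9⟩) ?_ hw0 hwp
      rw [gfun_self hq0' hq1', gder_self hq0' hq1']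
      simp
    · have h9 : (0 : ℝ) ≤ gfun q 0 0 C q (1 / 2) := by
        have h13 : (0 : ℝ) ≤ ((gLo q 0 0 C q (1 / 2) : ℚ) : ℝ) := by exact_mod_cast h7
        have h14 := gLo_le (A := 0) (B := 0) (C := C) (s := q) (w := 1 / 2) hq0 hq1 (by norm_num)
          (by norm_num)
        push_cast at h14
        exact h13.trans h14
      rcases le_total w (1 / 2) with hw | hw
      · refine gfun_nonneg (x := (q : ℝ)) (y := (y : ℝ)) (l := 0) (r := 1 / 2) hq0' hq1'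
          le_rfl (by norm_num) hq0' (by exact_mod_cast h1) (cast_le_half h4)
          (Or.inr ⟨by exact_mod_cast h3, cast_le_half h4, by exact_mod_cast h5,
            Or.inl le_rfl, h9⟩) ?_ hw0 hw
        rw [gfun_self hq0' hq1', gder_self hq0' hq1']
        simp
      · have h10 := okMinR_sound (w := w) hq0 hq1 h8 (by simpa using hw) hwp
        simpa using h10

/-- Check that `(p,q)` is a replica symmetric point for `K₃`. -/
def okRS (p q C y x yr r0 : ℚ) (cs : List CData) : Bool :=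
  decide (0 < q) && decide (q < p) && decide (p < 1) && okFirst p q C y x yr &&
  decide (70711 / 100000 * lfHi p q * r0 ≤ C * q ^ 2) && decide (2 * lfHi p q * r0 ≤ 3 * q) &&
  okChain p q (relHi p q) q r0 cs

theorem okRS_sound {p q C y x yr r0 : ℚ} {cs : List CData}
    (h : okRS p q C y x yr r0 cs = true) : IsMinimizer K3 p q := by
  simp only [okRS, Bool.and_eq_true, decide_eq_true_eq] at h
  obtain ⟨⟨⟨⟨⟨⟨h1, h2⟩, h3⟩, h4⟩, h7⟩, h8⟩, h9⟩ := h
  have hp0 : 0 < p := h1.trans h2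
  have hq1 : q < 1 := h2.trans h3
  have hp0' : (0 : ℝ) < p := by exact_mod_cast hp0
  have hp1' : (p : ℝ) < 1 := by exact_mod_cast h3
  have hq0' : (0 : ℝ) < q := by exact_mod_cast h1
  have hqp' : (q : ℝ) < p := by exact_mod_cast h2
  refine okChain_sound hp0 h3 (le_relHi hp0 h3 h1 hq1) cs q r0 h9 ?_
  refine upto_rs (C1 := (C : ℝ)) hq0' hqp' hp1' (lfun_bounds hp0 h3 h1 hq1).2
    (fun w hw0 hwp => okFirst_sound h1 h2 h3 h4 hw0 hwp) ?_ ?_
  · have : ((70711 / 100000 * lfHi p q * r0 : ℚ) : ℝ) ≤ ((C * q ^ 2 : ℚ) : ℝ) := by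
      exact_mod_cast h7
    push_cast at this
    norm_num at this ⊢
    exact this
  · have : ((2 * lfHi p q * r0 : ℚ) : ℝ) ≤ ((3 * q : ℚ) : ℝ) := by exact_mod_cast h8
    push_cast at this
    exact this

/-- Check that `(p,q)` is a symmetry breaking point for `K₃`, with the two-block graphon. -/
def okSB (p q a b : ℚ) : Bool :=
  decide (0 < q) && decide (q < p) && decide (p < 1) && decide (0 < a) && decide (a ≤ b) &&
  decide (b < 1) && decide (a ^ 3 + 3 * a * b ^ 2 ≤ 4 * q ^ 3) &&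
  decide (relHi p a + relHi p b < 2 * relLo p q)

end Pool.Agent.H99.LowerTail
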