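import Pool.Agent.H99.Tight
import Pool.Agent.H99.Checker

open MeasureTheory unitInterval Set

namespace Pool.Agent.H99.LowerTail

/-! ### Certificates that are valid on a box of points `(p,q)` -/

lemma lfun_sub {p p' x : ℝ} (hp0 : 0 < p) (hp1 : p < 1) (hp'0 : 0 < p') (hp'1 : p' < 1)
    (hx0 : 0 < x) (hx1 : x < 1) : lfun p' x = lfun p x + lfun p' p := by
  rw [lfun_eq hp'0 hp'1 hx0 hx1, lfun_eq hp0 hp1 hx0 hx1, lfun_eq hp'0 hp'1 hp0 hp1]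
  ring

lemma lfun_nonneg {p x : ℝ} (hp1 : p < 1) (hx : 0 < x) (hxp : x ≤ p) : 0 ≤ lfun p x := by
  rcases hxp.eq_or_lt with rfl | h
  · rw [lfun_self hx hp1]
  · exact (lfun_pos hp1 hx h).le

lemma lfun_anti {p x y : ℝ} (hp0 : 0 < p) (hp1 : p < 1) (hx : 0 < x) (hxy : x ≤ y)
    (hy : y < 1) : lfun p y ≤ lfun p x := by
  rcases hxy.eq_or_lt with rfl | h
  · rfl
  · exact (lfun_strictAnti hp0 hp1 hx h hy).le

lemma lfun_mono_left {p p' x : ℝ} (hp0 : 0 < p) (hpp : p ≤ p') (hp'1 : p' < 1)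
    (hx0 : 0 < x) (hx1 : x < 1) : lfun p x ≤ lfun p' x := by
  rw [lfun_sub hp0 (hpp.trans_lt hp'1) (hp0.trans_le hpp) hp'1 hx0 hx1]
  linarith [lfun_nonneg hp'1 hp0 hpp]

/-- Shifting the minorant of `I_{p'}` to `I_p`. -/
lemma relEnt_shift {p p' : ℝ} (hp0 : 0 < p) (hp1 : p < 1) (hp'0 : 0 < p') (hp'1 : p' < 1)
    (w : ℝ) : relEnt p w = relEnt p' w + lfun p' p * w + Real.log ((1 - p') / (1 - p)) := by
  rw [relEnt_eq hp0 hp1, relEnt_eq hp'0 hp'1, lfun_eq hp'0 hp'1 hp0 hp1,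
    Real.log_div (by linarith) (by linarith)]
  ring

/-- Convexity of `I_p`. -/
lemma relEnt_chord {p q0 q1 q : ℝ} (hp0 : 0 < p) (hp1 : p < 1) (hq0 : 0 < q0) (h0 : q0 ≤ q)
    (h1 : q ≤ q1) (hq1 : q1 < 1) :
    (q1 - q0) * relEnt p q ≤ (q1 - q) * relEnt p q0 + (q - q0) * relEnt p q1 := by
  have hqpos : 0 < q := hq0.trans_le h0
  have hqlt : q < 1 := h1.trans_lt hq1
  have e0 := relEnt_bregman hp0 hp1 hqpos hqlt q0
  have e1 := relEnt_bregman hp0 hp1 hqpos hqlt q1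
  have n0 := relEnt_nonneg hqpos hqlt hq0.le (by linarith : q0 ≤ 1)
  have n1 := relEnt_nonneg hqpos hqlt (by linarith : 0 ≤ q1) hq1.le
  have m0 := mul_nonneg (by linarith : 0 ≤ q1 - q) n0
  have m1 := mul_nonneg (by linarith : 0 ≤ q - q0) n1
  rw [e0, e1]
  nlinarith

/-- The first certificate with the constant of the refined Pinsker inequality. -/
lemma upto_rs_box {p q q0 q1 r J : ℝ} (hq0 : 0 < q0) (h0 : q0 ≤ q) (h1 : q ≤ q1)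
    (hq1 : q1 ≤ 1 / 2) (hqp : q < p) (hp1 : p < 1)
    (hJ : lfun p q ≤ J) (hc : 0.70711 * J * r ≤ (2 + 8 / 3 * (1 / 2 - q1) ^ 2) * q0 ^ 2)
    (hc2 : 2 * J * r ≤ 3 * q0) : Upto p q q r := by
  have hq : 0 < q := hq0.trans_le h0
  refine upto_rs (C1 := 2 + 8 / 3 * (1 / 2 - q1) ^ 2) (J := J) hq hqp hp1 hJ ?_ ?_ ?_
  · intro w hw0 hwp
    unfold gfun
    have h2 := relEnt_refined (b := q) (w := w) hq (by linarith) hw0 (by linarith)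
    have h3 : (1 / 2 - q1) ^ 2 ≤ (q - 1 / 2) ^ 2 := by nlinarith
    have h4 := mul_le_mul_of_nonneg_right h3 (sq_nonneg (w - q))
    nlinarith
  · refine hc.trans (mul_le_mul_of_nonneg_left ?_ (by positivity))
    exact pow_le_pow_left₀ hq0.le h0 2
  · linarith

/-- Interpolation between the vertices of a box. -/
lemma interp {A B s I0 I1 δ c3 k2 k0 dm q0 q1 Δ q Jq : ℝ} (hδ : 0 < δ) (hk2 : 0 ≤ k2)
    (hk0 : 0 ≤ k0) (hΔ0 : 0 ≤ Δ) (hΔ1 : Δ ≤ dm) (hdm : 0 < dm) (hq01 : q0 < q1) (hq0 : 0 ≤ q0)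
    (h0 : q0 ≤ q) (h1 : q ≤ q1)
    (hI : (q1 - q0) * Jq ≤ (q1 - q) * I0 + (q - q0) * I1)
    (v00 : 0 ≤ c3 * δ ^ 3 - k2 * (B + 0) ^ 2 * δ ^ 2 +
      (A + (B + 0) * s / 2 - I0 - 0 * q0) * δ - k0 * (q0 ^ 3 - s ^ 3 / 4))
    (v01 : 0 ≤ c3 * δ ^ 3 - k2 * (B + 0) ^ 2 * δ ^ 2 +
      (A + (B + 0) * s / 2 - I1 - 0 * q1) * δ - k0 * (q1 ^ 3 - s ^ 3 / 4))
    (v10 : 0 ≤ c3 * δ ^ 3 - k2 * (B + dm) ^ 2 * δ ^ 2 +
      (A + (B + dm) * s / 2 - I0 - dm * q0) * δ - k0 * (q0 ^ 3 - s ^ 3 / 4))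
    (v11 : 0 ≤ c3 * δ ^ 3 - k2 * (B + dm) ^ 2 * δ ^ 2 +
      (A + (B + dm) * s / 2 - I1 - dm * q1) * δ - k0 * (q1 ^ 3 - s ^ 3 / 4)) :
    0 ≤ c3 * δ ^ 3 - k2 * (B + Δ) ^ 2 * δ ^ 2 +
      (A + (B + Δ) * s / 2 - Jq - Δ * q) * δ - k0 * (q ^ 3 - s ^ 3 / 4) := by
  have key : ∀ J t : ℝ, 0 ≤ c3 * δ ^ 3 - k2 * (B + 0) ^ 2 * δ ^ 2 +
      (A + (B + 0) * s / 2 - J - 0 * t) * δ - k0 * (t ^ 3 - s ^ 3 / 4) →
      0 ≤ c3 * δ ^ 3 - k2 * (B + dm) ^ 2 * δ ^ 2 +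
      (A + (B + dm) * s / 2 - J - dm * t) * δ - k0 * (t ^ 3 - s ^ 3 / 4) →
      0 ≤ c3 * δ ^ 3 - k2 * (B + Δ) ^ 2 * δ ^ 2 +
      (A + (B + Δ) * s / 2 - J - Δ * t) * δ - k0 * (t ^ 3 - s ^ 3 / 4) := by
    intro J t w0 w1
    have e : dm * (c3 * δ ^ 3 - k2 * (B + Δ) ^ 2 * δ ^ 2 +
        (A + (B + Δ) * s / 2 - J - Δ * t) * δ - k0 * (t ^ 3 - s ^ 3 / 4)) =
        (dm - Δ) * (c3 * δ ^ 3 - k2 * (B + 0) ^ 2 * δ ^ 2 +
        (A + (B + 0) * s / 2 - J - 0 * t) * δ - k0 * (t ^ 3 - s ^ 3 / 4)) +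
        Δ * (c3 * δ ^ 3 - k2 * (B + dm) ^ 2 * δ ^ 2 +
        (A + (B + dm) * s / 2 - J - dm * t) * δ - k0 * (t ^ 3 - s ^ 3 / 4)) +
        k2 * δ ^ 2 * (Δ * dm * (dm - Δ)) := by ring
    have h2 : 0 ≤ k2 * δ ^ 2 * (Δ * dm * (dm - Δ)) :=
      mul_nonneg (by positivity) (mul_nonneg (mul_nonneg hΔ0 hdm.le) (by linarith))
    have h3 : 0 ≤ dm * (c3 * δ ^ 3 - k2 * (B + Δ) ^ 2 * δ ^ 2 +
        (A + (B + Δ) * s / 2 - J - Δ * t) * δ - k0 * (t ^ 3 - s ^ 3 / 4)) := by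
      rw [e]
      have h4 := mul_nonneg (by linarith : 0 ≤ dm - Δ) w0
      have h5 := mul_nonneg hΔ0 w1
      linarith
    exact nonneg_of_mul_nonneg_right h3 hdm
  have f0 := key I0 q0 v00 v10
  have f1 := key I1 q1 v01 v11
  have hqq : 0 < q1 - q0 := by linarith
  have e : (q1 - q0) * (c3 * δ ^ 3 - k2 * (B + Δ) ^ 2 * δ ^ 2 +
      (A + (B + Δ) * s / 2 - Jq - Δ * q) * δ - k0 * (q ^ 3 - s ^ 3 / 4)) =
      (q1 - q) * (c3 * δ ^ 3 - k2 * (B + Δ) ^ 2 * δ ^ 2 +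
      (A + (B + Δ) * s / 2 - I0 - Δ * q0) * δ - k0 * (q0 ^ 3 - s ^ 3 / 4)) +
      (q - q0) * (c3 * δ ^ 3 - k2 * (B + Δ) ^ 2 * δ ^ 2 +
      (A + (B + Δ) * s / 2 - I1 - Δ * q1) * δ - k0 * (q1 ^ 3 - s ^ 3 / 4)) +
      δ * ((q1 - q) * I0 + (q - q0) * I1 - (q1 - q0) * Jq) +
      k0 * ((q1 - q) * (q - q0) * (q1 - q0) * (q0 + q + q1)) := by ring
  have h2 : 0 ≤ k0 * ((q1 - q) * (q - q0) * (q1 - q0) * (q0 + q + q1)) :=
    mul_nonneg hk0 (mul_nonneg (mul_nonneg (mul_nonneg (by linarith) (by linarith)) hqq.le)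
      (by linarith))
  have h3 : 0 ≤ (q1 - q0) * (c3 * δ ^ 3 - k2 * (B + Δ) ^ 2 * δ ^ 2 +
      (A + (B + Δ) * s / 2 - Jq - Δ * q) * δ - k0 * (q ^ 3 - s ^ 3 / 4)) := by
    rw [e]
    have h4 := mul_nonneg (by linarith : 0 ≤ q1 - q) f0
    have h5 := mul_nonneg (by linarith : 0 ≤ q - q0) f1
    have h6 := mul_nonneg hδ.le (by linarith : 0 ≤ (q1 - q) * I0 + (q - q0) * I1 - (q1 - q0) * Jq)
    linarith
  exact nonneg_of_mul_nonneg_right h3 hqq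

/-- Check one cubic at a vertex of the box. -/
def cubV (k η : ℚ) (c : CData) (D Jq q : ℚ) (es : List (ℚ × ℚ)) : Bool :=
  okCubics (c.C2 - c.C1 * η / k) (k / (12 * c.s * c.C1) * (c.B + D) ^ 2)
    (c.A + (c.B + D) * c.s / 2 - Jq - D * q) (c.C1 / k * (q ^ 3 - c.s ^ 3 / 4)) c.l c.r es

/-- Segments for the eight cubics. -/
structure ESegs where
  /-- segments -/
  a0 : List (ℚ × ℚ)
  /-- segments -/
  a1 : List (ℚ × ℚ)
  /-- segments -/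
  a2 : List (ℚ × ℚ)
  /-- segments -/
  a3 : List (ℚ × ℚ)
  /-- segments -/
  b0 : List (ℚ × ℚ)
  /-- segments -/
  b1 : List (ℚ × ℚ)
  /-- segments -/
  b2 : List (ℚ × ℚ)
  /-- segments -/
  b3 : List (ℚ × ℚ)

/-- Check the certificate for a box. -/
def okBox (p0 p1 q0 q1 dm J I0 I1 r0 : ℚ) (c : CData) (e : ESegs) : Bool :=
  decide (0 < p0) && decide (p0 ≤ p1) && decide (p1 < 1) && decide (0 < q0) && decide (q0 < q1) &&
  decide (q1 < p0) && decide (q1 ≤ 1 / 2) && decide (0 ≤ r0) && decide (0 < dm) &&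
  decide (lfHi p1 q0 ≤ J) && decide (relHi p1 q0 ≤ I0) && decide (relHi p1 q1 ≤ I1) &&
  decide (lfHi p1 p0 ≤ dm) &&
  decide (70711 / 100000 * J * r0 ≤ (2 + 8 / 3 * (1 / 2 - q1) ^ 2) * q0 ^ 2) &&
  decide (2 * J * r0 ≤ 3 * q0) &&
  decide (0 < c.s) && decide (0 < c.C1) && decide (0 < c.l) && decide (c.l ≤ r0) &&
  decide (c.l + q1 ≤ r0 + c.s) &&
  okMin p1 c.A c.B c.C2 c.s 0 c.s c.xa c.ya &&
  (okMin p1 c.A c.B c.C1 c.s c.s p1 c.xb c.yb || okMinR p1 c.A c.B c.C1 c.s c.s p1 c.xb c.yb c.yr) &&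
  cubV (212133 / 100000) (70711 / 100000) c 0 I0 q0 e.a0 &&
  cubV (212133 / 100000) (70711 / 100000) c 0 I1 q1 e.a1 &&
  cubV (212133 / 100000) (70711 / 100000) c dm I0 q0 e.a2 &&
  cubV (212133 / 100000) (70711 / 100000) c dm I1 q1 e.a3 &&
  cubV (182844 / 100000) 1 c 0 I0 q0 e.b0 &&
  cubV (182844 / 100000) 1 c 0 I1 q1 e.b1 &&
  cubV (182844 / 100000) 1 c dm I0 q0 e.b2 &&
  cubV (182844 / 100000) 1 c dm I1 q1 e.b3

lemma okBox_sound {p0 p1 q0 q1 dm J I0 I1 r0 : ℚ} {c : CData} {e : ESegs}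
    (h : okBox p0 p1 q0 q1 dm J I0 I1 r0 c e = true) {p q : ℝ} (hp0 : p0 ≤ p) (hp1 : p ≤ p1)
    (hq0 : q0 ≤ q) (hq1 : q ≤ q1) : Upto p q c.s c.r := by
  simp only [okBox, Bool.and_eq_true, decide_eq_true_eq] at h
  obtain ⟨⟨⟨⟨⟨⟨⟨⟨⟨⟨⟨⟨⟨⟨⟨⟨⟨⟨⟨⟨⟨⟨⟨⟨⟨⟨⟨⟨⟨g1, g2⟩, g3⟩, g4⟩, g5⟩, g6⟩, g7⟩, g8⟩, g9⟩, g10⟩, g11⟩,
    g12⟩, g13⟩, g14⟩, g15⟩, g16⟩, g17⟩, g18⟩, g19⟩, g20⟩, g21⟩, g22⟩, va0⟩, va1⟩, va2⟩, va3⟩,
    vb0⟩, vb1⟩, vb2⟩, vb3⟩ := h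
  have p0pos : (0 : ℝ) < p0 := by exact_mod_cast g1
  have p1lt : (p1 : ℝ) < 1 := by exact_mod_cast g3
  have q0pos : (0 : ℝ) < q0 := by exact_mod_cast g4
  have q01 : (q0 : ℝ) < q1 := by exact_mod_cast g5
  have q1p0 : (q1 : ℝ) < p0 := by exact_mod_cast g6
  have q1half : (q1 : ℝ) ≤ 1 / 2 := cast_le_half g7
  have r0nn : (0 : ℝ) ≤ r0 := by exact_mod_cast g8
  have dmpos : (0 : ℝ) < dm := by exact_mod_cast g9
  have hp0' : 0 < p := by linarith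
  have hp1' : p < 1 := by linarith
  have p1pos : (0 : ℝ) < p1 := by linarith
  have p1posQ : (0 : ℚ) < p1 := g1.trans_le g2
  have p0ltQ : p0 < 1 := g2.trans_lt g3
  have q0ltQ : q0 < 1 := by linarith
  have q1ltQ : q1 < 1 := by linarith
  have q1posQ : 0 < q1 := by linarith
  have hqpos : 0 < q := by linarith
  have hqlt : q < 1 := by linarith
  -- bounds
  have hJ : lfun p q ≤ J := by
    have h1 : lfun p q ≤ lfun p1 q := lfun_mono_left hp0' hp1 p1lt hqpos hqlt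
    have h2 : lfun p1 q ≤ lfun p1 q0 := lfun_anti p1pos p1lt q0pos hq0 hqlt
    have h3 := (lfun_bounds p1posQ g3 g4 q0ltQ).2
    have h4 : ((lfHi p1 q0 : ℚ) : ℝ) ≤ J := by exact_mod_cast g10
    linarith
  have hI0 : relEnt p1 q0 ≤ I0 := by
    have h3 := le_relHi p1posQ g3 g4 q0ltQ
    have h4 : ((relHi p1 q0 : ℚ) : ℝ) ≤ I0 := by exact_mod_cast g11
    linarith
  have hI1 : relEnt p1 q1 ≤ I1 := by
    have h3 := le_relHi p1posQ g3 q1posQ q1ltQ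
    have h4 : ((relHi p1 q1 : ℚ) : ℝ) ≤ I1 := by exact_mod_cast g12
    linarith
  have hD1 : lfun p1 p ≤ dm := by
    have h1 : lfun p1 p ≤ lfun p1 p0 := lfun_anti p1pos p1lt p0pos hp0 hp1'
    have h3 := (lfun_bounds p1posQ g3 g1 p0ltQ).2
    have h4 : ((lfHi p1 p0 : ℚ) : ℝ) ≤ dm := by exact_mod_cast g13
    linarith
  have hD0 : 0 ≤ lfun p1 p := lfun_nonneg p1lt hp0' hp1
  have hup : Upto p q q r0 := by
    refine upto_rs_box (q0 := (q0 : ℝ)) (q1 := (q1 : ℝ)) (J := (J : ℝ)) q0pos hq0 hq1 q1half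
      (by linarith) hp1' hJ ?_ ?_
    · have : ((70711 / 100000 * J * r0 : ℚ) : ℝ) ≤
          (((2 + 8 / 3 * (1 / 2 - q1) ^ 2) * q0 ^ 2 : ℚ) : ℝ) := by exact_mod_cast g14
      push_cast at this
      norm_num at this ⊢
      exact this
    · have : ((2 * J * r0 : ℚ) : ℝ) ≤ ((3 * q0 : ℚ) : ℝ) := by exact_mod_cast g15
      push_cast at this
      exact this
  have hl1 : (c.l : ℝ) ≤ r0 := by exact_mod_cast g19
  have hl2 : (c.l : ℝ) + q1 ≤ r0 + c.s := by exact_mod_cast g20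
  have hmove : Upto p q c.s (max (c.l : ℝ) 0) := by
    have hlpos : (0 : ℝ) < c.l := by exact_mod_cast g18
    rw [max_eq_left hlpos.le]
    rcases le_total q c.s with hs | hs
    · intro W hWp ht hm
      exact hup.up hs W hWp ht (hm.trans hl1)
    · intro W hWp ht hm
      refine hup.down hs W hWp ht (hm.trans ?_)
      linarith
  have hlpos : (0 : ℝ) < c.l := by exact_mod_cast g18
  rw [max_eq_left hlpos.le] at hmove
  refine hmove.step le_rfl ?_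
  have spos : (0 : ℝ) < c.s := by exact_mod_cast g16
  have C1pos : (0 : ℝ) < c.C1 := by exact_mod_cast g17
  set K := Real.log ((1 - (p1 : ℝ)) / (1 - p)) with hK
  set Δ := lfun p1 p with hΔ
  have hchord := relEnt_chord (p := (p1 : ℝ)) (q0 := (q0 : ℝ)) (q1 := (q1 : ℝ)) (q := q) p1pos p1lt
    q0pos hq0 hq1 (by exact_mod_cast q1ltQ)
  have hchord' : ((q1 : ℝ) - q0) * relEnt p1 q ≤ (q1 - q) * I0 + (q - q0) * I1 := by
    have h1 := mul_le_mul_of_nonneg_left hI0 (by linarith : 0 ≤ (q1 : ℝ) - q)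
    have h2 := mul_le_mul_of_nonneg_left hI1 (by linarith : 0 ≤ q - (q0 : ℝ))
    linarith
  refine cov_cert (A := (c.A : ℝ) + K) (B := (c.B : ℝ) + Δ) (C1 := (c.C1 : ℝ)) (C2 := (c.C2 : ℝ))
    (Iq := relEnt p q) hp0' hp1' spos C1pos hlpos ?_ le_rfl ?_ ?_
  · intro w hw0 hwp
    rw [relEnt_shift hp0' hp1' p1pos p1lt w, ← hΔ, ← hK]
    have hwp1 : w ≤ p1 := hwp.trans hp1
    rcases le_total w c.s with h | h
    · rw [max_eq_right (by linarith : w - c.s ≤ 0), max_eq_left (by linarith : 0 ≤ c.s - w)]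
      have h9 := okMin_sound (w := w) p1posQ g3 g21 (by simpa using hw0) h
      unfold gfun at h9
      nlinarith
    · rw [max_eq_left (by linarith : 0 ≤ w - c.s), max_eq_right (by linarith : c.s - w ≤ 0)]
      have h9 : 0 ≤ gfun p1 c.A c.B c.C1 c.s w := by
        rw [Bool.or_eq_true] at g22
        rcases g22 with g22 | g22
        · exact okMin_sound (w := w) p1posQ g3 g22 h hwp1
        · exact okMinR_sound (w := w) p1posQ g3 g22 h hwp1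
      unfold gfun at h9
      nlinarith
  · intro δ hl hr
    have hδ : 0 < δ := hlpos.trans hl
    have w0 := okCubics_sound _ va0 hl hr
    have w1 := okCubics_sound _ va1 hl hr
    have w2 := okCubics_sound _ va2 hl hr
    have w3 := okCubics_sound _ va3 hl hr
    push_cast at w0 w1 w2 w3
    have h5 := interp (A := (c.A : ℝ)) (B := (c.B : ℝ)) (s := (c.s : ℝ)) (I0 := (I0 : ℝ))
      (I1 := (I1 : ℝ)) (δ := δ) (c3 := (c.C2 : ℝ) - c.C1 * (70711 / 100000) / (212133 / 100000))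
      (k2 := 212133 / 100000 / (12 * c.s * c.C1)) (k0 := (c.C1 : ℝ) / (212133 / 100000))
      (dm := (dm : ℝ)) (q0 := (q0 : ℝ)) (q1 := (q1 : ℝ)) (Δ := Δ) (q := q) (Jq := relEnt p1 q)
      hδ (by positivity) (by positivity) hD0 hD1 dmpos q01 q0pos.le hq0 hq1 hchord' w0 w1 w2 w3
    rw [relEnt_shift hp0' hp1' p1pos p1lt q, ← hΔ, ← hK]
    refine h5.trans (le_of_eq ?_)
    norm_num
    ring
  · intro δ hl hr
    have hδ : 0 < δ := hlpos.trans hl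
    have w0 := okCubics_sound _ vb0 hl hr
    have w1 := okCubics_sound _ vb1 hl hr
    have w2 := okCubics_sound _ vb2 hl hr
    have w3 := okCubics_sound _ vb3 hl hr
    push_cast at w0 w1 w2 w3
    have h5 := interp (A := (c.A : ℝ)) (B := (c.B : ℝ)) (s := (c.s : ℝ)) (I0 := (I0 : ℝ))
      (I1 := (I1 : ℝ)) (δ := δ) (c3 := (c.C2 : ℝ) - c.C1 * 1 / (182844 / 100000))
      (k2 := 182844 / 100000 / (12 * c.s * c.C1)) (k0 := (c.C1 : ℝ) / (182844 / 100000))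
      (dm := (dm : ℝ)) (q0 := (q0 : ℝ)) (q1 := (q1 : ℝ)) (Δ := Δ) (q := q) (Jq := relEnt p1 q)
      hδ (by positivity) (by positivity) hD0 hD1 dmpos q01 q0pos.le hq0 hq1 hchord' w0 w1 w2 w3
    rw [relEnt_shift hp0' hp1' p1pos p1lt q, ← hΔ, ← hK]
    refine h5.trans (le_of_eq ?_)
    norm_num
    ring

end Pool.Agent.H99.LowerTail
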