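import Pool.Agent.H99.K3

open MeasureTheory unitInterval Set

namespace Pool.Agent.H99.LowerTail

/-- The sign of the half of `[0,1]` in which `x` lies. -/
noncomputable def sgn (x : I) : ℝ := if (x : ℝ) ≤ 1 / 2 then 1 else -1

lemma sgn_sq (x : I) : sgn x * sgn x = 1 := by
  unfold sgn
  split_ifs <;> norm_num

lemma measurable_sgn : Measurable sgn := by
  unfold sgn
  exact Measurable.ite (measurableSet_le measurable_subtype_coe measurable_const)
    measurable_const measurable_const

lemma abs_sgn_le (x : I) : |sgn x| ≤ 1 := by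
  unfold sgn
  split_ifs <;> norm_num

lemma integral_sgn : ∫ x : I, sgn x = 0 := by
  have hS : MeasurableSet (Set.Iic (⟨1 / 2, by norm_num, by norm_num⟩ : I)) := measurableSet_Iic
  have e : ∀ x : I, sgn x = 2 * (Set.Iic (⟨1 / 2, by norm_num, by norm_num⟩ : I)).indicator
      (fun _ => (1 : ℝ)) x - 1 := by
    intro x
    unfold sgn
    by_cases h : (x : ℝ) ≤ 1 / 2
    · have hx : x ∈ Set.Iic (⟨1 / 2, by norm_num, by norm_num⟩ : I) := h
      rw [if_pos h, indicator_of_mem hx]
      norm_num
    · have hx : x ∉ Set.Iic (⟨1 / 2, by norm_num, by norm_num⟩ : I) := h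
      rw [if_neg h, indicator_of_notMem hx]
      norm_num
  simp only [e]
  rw [integral_sub ((((integrable_const (1 : ℝ)).indicator hS)).const_mul 2) (integrable_const _),
    integral_const_mul, integral_indicator_const _ hS]
  rw [Measure.real, unitInterval.volume_Iic]
  norm_num

/-- The two-block graphon with value `a` inside the blocks and `b` between them. -/
noncomputable def twoBlock (a b : ℝ) (ha0 : 0 ≤ a) (ha1 : a ≤ 1) (hb0 : 0 ≤ b) (hb1 : b ≤ 1) :
    Graphon where
  toFun x y := if sgn x = sgn y then a else b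
  measurable' := by
    refine Measurable.ite ?_ measurable_const measurable_const
    exact measurableSet_eq_fun (measurable_sgn.comp measurable_fst)
      (measurable_sgn.comp measurable_snd)
  symm' x y := by
    by_cases h : sgn x = sgn y
    · rw [if_pos h, if_pos h.symm]
    · rw [if_neg h, if_neg (Ne.symm h)]
  nonneg' x y := by split_ifs <;> assumption
  le_one' x y := by split_ifs <;> assumption

lemma sgn_mul (x y : I) : sgn x * sgn y = if sgn x = sgn y then 1 else -1 := by
  unfold sgn
  split_ifs <;> norm_num at *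

lemma twoBlock_apply {a b : ℝ} (ha0 : 0 ≤ a) (ha1 : a ≤ 1) (hb0 : 0 ≤ b) (hb1 : b ≤ 1) (x y : I) :
    twoBlock a b ha0 ha1 hb0 hb1 x y = (a + b) / 2 - (b - a) / 2 * (sgn x * sgn y) := by
  rw [sgn_mul]
  show (if sgn x = sgn y then a else b) = _
  split_ifs <;> ring

lemma isKer_sgn : IsKer (fun x y => sgn x * sgn y) :=
  ⟨(measurable_sgn.comp measurable_fst).mul (measurable_sgn.comp measurable_snd),
    fun x y => mul_comm _ _, 1, fun x y => by
      rw [abs_mul]
      exact mul_le_one₀ (abs_sgn_le x) (abs_nonneg _) (abs_sgn_le y)⟩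

lemma tri_twoBlock {a b : ℝ} (ha0 : 0 ≤ a) (ha1 : a ≤ 1) (hb0 : 0 ≤ b) (hb1 : b ≤ 1) :
    tri (twoBlock a b ha0 ha1 hb0 hb1) (twoBlock a b ha0 ha1 hb0 hb1)
      (twoBlock a b ha0 ha1 hb0 hb1) = (a ^ 3 + 3 * a * b ^ 2) / 4 := by
  have e : ((twoBlock a b ha0 ha1 hb0 hb1 : Graphon) : I → I → ℝ) =
      fun x y => (fun _ _ => (a + b) / 2) x y - (b - a) / 2 * (fun x y => sgn x * sgn y) x y := by
    funext x y
    exact twoBlock_apply ha0 ha1 hb0 hb1 x y
  rw [e, tri_expand (isKer_const _) isKer_sgn]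
  set m := (a + b) / 2 with hm
  have t0 : tri (fun _ _ => m) (fun _ _ => m) (fun _ _ => m) = m ^ 3 := by
    simp [tri]
    ring
  have t1 : tri (fun _ _ => m) (fun _ _ => m) (fun x y => sgn x * sgn y) = 0 := by
    unfold tri
    have h : ∀ p : (I × I) × I, m * m * (sgn p.1.2 * sgn p.1.1) =
        (fun q : I × I => (m * m * sgn q.1) * sgn q.2) p.1 * (fun _ : I => (1 : ℝ)) p.2 := by
      intro p
      ring
    simp only [h]
    refine (integral_prod_mul (μ := (volume : Measure (I × I))) (ν := (volume : Measure I))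
      (fun q : I × I => (m * m * sgn q.1) * sgn q.2) (fun _ : I => (1 : ℝ))).trans ?_
    rw [show (volume : Measure (I × I)) = (volume : Measure I).prod volume from rfl,
      integral_prod_mul (fun x : I => m * m * sgn x) (fun y : I => sgn y), integral_sgn]
    ring
  have t2 : tri (fun _ _ => m) (fun x y => sgn x * sgn y) (fun x y => sgn x * sgn y) = 0 := by
    unfold tri
    have h : ∀ p : (I × I) × I, m * (sgn p.2 * sgn p.1.2) * (sgn p.1.2 * sgn p.1.1) =
        (fun q : I × I => m * sgn q.1) p.1 * (fun z : I => sgn z) p.2 := by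
      intro p
      have := sgn_sq p.1.2
      simp only
      linear_combination (m * sgn p.2 * sgn p.1.1) * this
    simp only [h]
    refine (integral_prod_mul (μ := (volume : Measure (I × I))) (ν := (volume : Measure I))
      (fun q : I × I => m * sgn q.1) (fun z : I => sgn z)).trans ?_
    rw [integral_sgn, mul_zero]
  have t3 : tri (fun x y => sgn x * sgn y) (fun x y => sgn x * sgn y)
      (fun x y => sgn x * sgn y) = 1 := by
    unfold tri
    have h : ∀ p : (I × I) × I, sgn p.1.1 * sgn p.2 * (sgn p.2 * sgn p.1.2) *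
        (sgn p.1.2 * sgn p.1.1) = 1 := by
      intro p
      have h1 := sgn_sq p.1.1
      have h2 := sgn_sq p.2
      have h3 := sgn_sq p.1.2
      calc sgn p.1.1 * sgn p.2 * (sgn p.2 * sgn p.1.2) * (sgn p.1.2 * sgn p.1.1) =
          (sgn p.1.1 * sgn p.1.1) * (sgn p.2 * sgn p.2) * (sgn p.1.2 * sgn p.1.2) := by ring
        _ = 1 := by rw [h1, h2, h3]; ring
    simp only [h]
    simp
  rw [t0, t1, t2, t3, hm]
  ring

lemma cost_twoBlock {p a b : ℝ} (ha0 : 0 ≤ a) (ha1 : a ≤ 1) (hb0 : 0 ≤ b) (hb1 : b ≤ 1) :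
    cost p (twoBlock a b ha0 ha1 hb0 hb1) = (relEnt p a + relEnt p b) / 2 := by
  unfold cost
  have h : ∀ z : I × I, relEnt p (twoBlock a b ha0 ha1 hb0 hb1 z.1 z.2) =
      (relEnt p a + relEnt p b) / 2 - (relEnt p b - relEnt p a) / 2 * (sgn z.1 * sgn z.2) := by
    intro z
    rw [sgn_mul]
    show relEnt p (if sgn z.1 = sgn z.2 then a else b) = _
    split_ifs <;> ring
  simp only [h]
  rw [integral_sub (integrable_const _) (isKer_sgn.integrable.const_mul _), integral_const_mul,
    show (volume : Measure (I × I)) = (volume : Measure I).prod volume from rfl,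
    integral_prod_mul (fun x : I => sgn x) (fun y : I => sgn y), integral_sgn]
  simp

/-- Symmetry breaking by a two-block graphon. -/
lemma not_isMinimizer_of_twoBlock {p q a b : ℝ} (ha0 : 0 ≤ a) (ha1 : a ≤ 1) (hb0 : 0 ≤ b)
    (hb1 : b ≤ 1) (ht : a ^ 3 + 3 * a * b ^ 2 ≤ 4 * q ^ 3)
    (hc : relEnt p a + relEnt p b < 2 * relEnt p q) : ¬ IsMinimizer K3 p q := by
  intro h
  have h1 := h (twoBlock a b ha0 ha1 hb0 hb1) (by
    rw [homDensity_K3, numEdges_K3, tri_twoBlock]
    linarith)
  rw [cost_twoBlock] at h1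
  linarith

end Pool.Agent.H99.LowerTail
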