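import Pool.Agent.H99.LeafReal
import Pool.Agent.H99.TwoBlock

open MeasureTheory unitInterval Set

namespace Pool.Agent.H99.LowerTail

/-- The scalar inequality saying that two-block graphons do not beat the constant graphon. -/
def TB (p q : ℝ) : Prop :=
  ∀ a b : ℝ, 0 ≤ a → a ≤ 1 → 0 ≤ b → b ≤ 1 → a ^ 3 + 3 * a * b ^ 2 ≤ 4 * q ^ 3 →
    2 * relEnt p q ≤ relEnt p a + relEnt p b

/-! ### Existence of a critical two-block graphon -/

/-- the second parameter of the two-block graphon with first parameter `a` -/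
noncomputable def bfun (q a : ℝ) : ℝ := Real.sqrt ((4 * q ^ 3 - a ^ 3) / (3 * a))

lemma bfun_eq {q a : ℝ} (ha : 0 < a) (h : a ^ 3 ≤ 4 * q ^ 3) :
    a ^ 3 + 3 * a * bfun q a ^ 2 = 4 * q ^ 3 := by
  unfold bfun
  rw [Real.sq_sqrt (div_nonneg (by linarith) (by linarith))]
  field_simp
  ring

lemma le_bfun {q a b : ℝ} (ha : 0 < a) (h : a ^ 3 + 3 * a * b ^ 2 ≤ 4 * q ^ 3) :
    b ≤ bfun q a := by
  unfold bfun
  refine Real.le_sqrt_of_sq_le ?_
  rw [le_div_iff₀ (by linarith)]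
  linarith

lemma bfun_le {q a b : ℝ} (ha : 0 < a) (hb : 0 ≤ b) (h : 4 * q ^ 3 ≤ a ^ 3 + 3 * a * b ^ 2) :
    bfun q a ≤ b := by
  unfold bfun
  rw [Real.sqrt_le_left hb, div_le_iff₀ (by linarith)]
  linarith

lemma continuousOn_bfun {q : ℝ} : ContinuousOn (bfun q) (Ioi 0) := by
  unfold bfun
  refine ContinuousOn.sqrt (ContinuousOn.div (by fun_prop) (by fun_prop) ?_)
  intro a ha
  have : 0 < a := ha
  positivity

lemma continuousOn_lfun {p : ℝ} (hp0 : 0 < p) (hp1 : p < 1) : ContinuousOn (lfun p) (Ioo 0 1) :=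
  fun _ hx => (hasDerivAt_lfun hp0 hp1 hx.1 hx.2).continuousAt.continuousWithinAt

/-- Existence of a critical point. -/
lemma exists_crit {p q a1 a2 b0 b1 b10 b21 : ℝ} (hp0 : 0 < p) (hp1 : p < 1) (ha1 : 0 < a1)
    (ha12 : a1 ≤ a2) (ha2b0 : a2 < b0) (hb1p : b1 ≤ p) (hb21p : b21 ≤ p) (hb10 : a1 < b10)
    (k1 : a1 ^ 3 + 3 * a1 * b10 ^ 2 ≤ 4 * q ^ 3)
    (k2 : 4 * q ^ 3 ≤ a1 ^ 3 + 3 * a1 * b1 ^ 2)
    (k3 : 4 * q ^ 3 ≤ a2 ^ 3 + 3 * a2 * b21 ^ 2)
    (k4 : a2 ^ 3 + 3 * a2 * b0 ^ 2 ≤ 4 * q ^ 3) (hb1' : 0 ≤ b1) (hb21' : 0 ≤ b21)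
    (m1 : lfun p b10 * (b1 - a1) ^ 2 ≤ 2 * a1 * b10 * lfun b10 a1)
    (m2 : 2 * a2 * b21 * lfun b21 a2 ≤ lfun p b21 * (b0 - a2) ^ 2) :
    ∃ a b, a1 ≤ a ∧ a ≤ a2 ∧ b0 ≤ b ∧ b ≤ b1 ∧ a ^ 3 + 3 * a * b ^ 2 = 4 * q ^ 3 ∧
      lfun p b * (b - a) ^ 2 = 2 * a * b * lfun b a := by
  have ha2 : 0 < a2 := by linarith
  have hb0 : 0 < b0 := by linarith
  have ha23 : a2 ^ 3 ≤ 4 * q ^ 3 := by
    have : 0 ≤ 3 * a2 * b0 ^ 2 := by positivity
    linarith
  -- bounds for b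
  have hbl : ∀ a, a1 ≤ a → a ≤ a2 → b0 ≤ bfun q a := by
    intro a h1 h2
    refine le_bfun (by linarith) (le_trans ?_ k4)
    have h3 : a ^ 3 ≤ a2 ^ 3 := pow_le_pow_left₀ (by linarith) h2 3
    have h4 : a * b0 ^ 2 ≤ a2 * b0 ^ 2 := mul_le_mul_of_nonneg_right h2 (sq_nonneg _)
    linarith
  have hbu : ∀ a, a1 ≤ a → a ≤ a2 → bfun q a ≤ b1 := by
    intro a h1 h2
    refine bfun_le (by linarith) hb1' (k2.trans ?_)
    have h3 : a1 ^ 3 ≤ a ^ 3 := pow_le_pow_left₀ ha1.le h1 3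
    have h4 : a1 * b1 ^ 2 ≤ a * b1 ^ 2 := mul_le_mul_of_nonneg_right h1 (sq_nonneg _)
    linarith
  set G : ℝ → ℝ := fun a => lfun p (bfun q a) * (bfun q a - a) ^ 2 -
    2 * a * bfun q a * (lfun p a - lfun p (bfun q a)) with hG
  have hcont : ContinuousOn G (Icc a1 a2) := by
    have c1 : ContinuousOn (bfun q) (Icc a1 a2) :=
      continuousOn_bfun.mono fun x hx => (show (0:ℝ) < x by linarith [hx.1])
    have c2 : ContinuousOn (fun a => lfun p (bfun q a)) (Icc a1 a2) :=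
      (continuousOn_lfun hp0 hp1).comp c1 fun x hx =>
        ⟨by linarith [hbl x hx.1 hx.2], by linarith [hbu x hx.1 hx.2]⟩
    have c3 : ContinuousOn (lfun p) (Icc a1 a2) :=
      (continuousOn_lfun hp0 hp1).mono fun x hx =>
        ⟨by linarith [hx.1], by linarith [hx.2, hbl x hx.1 hx.2, hbu x hx.1 hx.2]⟩
    have c4 : ContinuousOn (fun a : ℝ => a) (Icc a1 a2) := continuousOn_id
    exact (c2.mul ((c1.sub c4).pow 2)).sub (((continuousOn_const.mul c4).mul c1).mul (c3.sub c2))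
  have hsw : ∀ a b, 0 < a → a < b → b < 1 → lfun p a - lfun p b = lfun b a := by
    intro a b h0 h1 h2
    rw [lfun_add h0 (by linarith) (by linarith : 0 < b) h2 hp0 hp1]
    ring
  have hG1 : G a1 ≤ 0 := by
    have hb := hbl a1 le_rfl ha12
    have hb' := hbu a1 le_rfl ha12
    have hb10' : b10 ≤ bfun q a1 := le_bfun ha1 k1
    set b := bfun q a1 with hbdef
    have e : G a1 = lfun p b * (b - a1) ^ 2 - 2 * a1 * b * lfun b a1 := by
      rw [hG]
      simp only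
      rw [hsw a1 b ha1 (by linarith) (by linarith)]
    rw [e]
    have h1 : lfun p b ≤ lfun p b10 := lfun_anti hp0 hp1 (by linarith) hb10' (by linarith)
    have h2 : 0 ≤ lfun p b := lfun_nonneg hp1 (by linarith) (by linarith)
    have h3 : lfun b10 a1 ≤ lfun b a1 :=
      lfun_mono ha1 le_rfl hb10 hb10' (by linarith)
    have h4 : 0 ≤ lfun b10 a1 := lfun_nonneg (by linarith) ha1 hb10.le
    have h5 : lfun p b * (b - a1) ^ 2 ≤ lfun p b10 * (b1 - a1) ^ 2 :=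
      mul_le_mul h1 (pow_le_pow_left₀ (by linarith) (by linarith) 2) (sq_nonneg _)
        (h2.trans h1)
    have h6 : 2 * a1 * b10 * lfun b10 a1 ≤ 2 * a1 * b * lfun b a1 :=
      mul_le_mul (mul_le_mul_of_nonneg_left hb10' (by linarith)) h3 h4
        (mul_nonneg (by linarith) (by linarith))
    linarith
  have hG2 : 0 ≤ G a2 := by
    have hb := hbl a2 ha12 le_rfl
    have hb' := hbu a2 ha12 le_rfl
    have hb21'' : bfun q a2 ≤ b21 := bfun_le ha2 hb21' k3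
    set b := bfun q a2 with hbdef
    have e : G a2 = lfun p b * (b - a2) ^ 2 - 2 * a2 * b * lfun b a2 := by
      rw [hG]
      simp only
      rw [hsw a2 b ha2 (by linarith) (by linarith)]
    rw [e]
    have h1 : lfun p b21 ≤ lfun p b := lfun_anti hp0 hp1 (by linarith) hb21'' (by linarith)
    have h2 : 0 ≤ lfun p b21 := lfun_nonneg hp1 (by linarith) hb21p
    have h3 : lfun b a2 ≤ lfun b21 a2 :=
      lfun_mono ha2 le_rfl (by linarith) hb21'' (by linarith)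
    have h4 : 0 ≤ lfun b a2 := lfun_nonneg (by linarith) ha2 (by linarith)
    have h5 : lfun p b21 * (b0 - a2) ^ 2 ≤ lfun p b * (b - a2) ^ 2 :=
      mul_le_mul h1 (pow_le_pow_left₀ (by linarith) (by linarith) 2) (sq_nonneg _)
        (h2.trans h1)
    have h6 : 2 * a2 * b * lfun b a2 ≤ 2 * a2 * b21 * lfun b21 a2 :=
      mul_le_mul (mul_le_mul_of_nonneg_left hb21'' (by linarith)) h3 h4
        (mul_nonneg (by linarith) hb21')
    linarith
  obtain ⟨a, ha, hGa⟩ := intermediate_value_Icc ha12 hcont ⟨hG1, hG2⟩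
  refine ⟨a, bfun q a, ha.1, ha.2, hbl a ha.1 ha.2, hbu a ha.1 ha.2, ?_, ?_⟩
  · refine bfun_eq (by linarith [ha.1]) (le_trans ?_ ha23)
    exact pow_le_pow_left₀ (by linarith [ha.1]) ha.2 3
  · have hb := hbl a ha.1 ha.2
    have hb' := hbu a ha.1 ha.2
    have h1 : G a = 0 := hGa
    rw [hG] at h1
    simp only at h1
    rw [hsw a (bfun q a) (by linarith [ha.1]) (by linarith [ha.2]) (by linarith)] at h1
    linarith

/-- Existence of the parameter `τ`. -/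
lemma exists_tau {a b a1 a2 b0 b1 t0 t1 L : ℝ} (ha1 : 0 < a1) (ha1a : a1 ≤ a) (haa2 : a ≤ a2)
    (ha2b0 : a2 < b0) (hb0b : b0 ≤ b) (hbb1 : b ≤ b1) (hb11 : b1 < 1) (hb0h : 1 / 2 ≤ b0)
    (ha2h : a2 ≤ 1 / 2) (ht0 : 0 < t0) (ht01 : t0 ≤ t1) (ht1 : t1 ≤ 1 / 2)
    (hL : lfun b1 a1 ≤ L)
    (g1 : t1 * (3 / 2 - t1) * L * (b0 * (1 - b0)) ≤ (1 - t1 * (3 / 2 - t1)) * (b0 - a2))
    (g2 : (1 - t0 * (3 / 2 - t0)) * L * (a2 * (1 - a2)) ≤ t0 * (3 / 2 - t0) * (b0 - a2))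
    (e1 : relEnt b1 a2 ≤ t1 * (3 / 2 - t1) * lfun b1 a2 * (b1 - a2))
    (e0 : t0 * (3 / 2 - t0) * lfun b0 a1 * (b0 - a1) ≤ relEnt b0 a1) :
    ∃ τ, t0 ≤ τ ∧ τ ≤ t1 ∧ relEnt b a = τ * (3 / 2 - τ) * lfun b a * (b - a) := by
  set c0 := t0 * (3 / 2 - t0) with hc0
  set c1 := t1 * (3 / 2 - t1) with hc1
  have hc0pos : 0 < c0 := mul_pos ht0 (by linarith)
  have hc01 : c0 ≤ c1 := by rw [hc0, hc1]; nlinarith
  have hc1le : c1 ≤ 1 / 2 := by rw [hc1]; nlinarith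
  have hL0 : 0 ≤ L := (lfun_nonneg hb11 ha1 (by linarith)).trans hL
  have hb0pos : 0 < b0 := by linarith
  have hM : ∀ x, b0 ≤ x → x ≤ b1 → x * (1 - x) ≤ b0 * (1 - b0) :=
    fun x h1 _ => aux_par' h1 hb0h
  have hN : ∀ x, a1 ≤ x → x ≤ a2 → x * (1 - x) ≤ a2 * (1 - a2) :=
    fun x _ h2 => aux_par h2 ha2h
  have hD0 : 0 < b0 - a2 := by linarith
  have hM0 : 0 ≤ b0 * (1 - b0) := mul_nonneg (by linarith) (by linarith)
  have hN0 : 0 ≤ a2 * (1 - a2) := mul_nonneg (by linarith) (by linarith)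
  -- gradient conditions for both constants
  have g1' : c0 * L * (b0 * (1 - b0)) ≤ (1 - c0) * (b0 - a2) := by
    have h1 : c0 * L * (b0 * (1 - b0)) ≤ c1 * L * (b0 * (1 - b0)) :=
      mul_le_mul_of_nonneg_right (mul_le_mul_of_nonneg_right hc01 hL0) hM0
    have h2 : (1 - c1) * (b0 - a2) ≤ (1 - c0) * (b0 - a2) :=
      mul_le_mul_of_nonneg_right (by linarith) hD0.le
    linarith
  have g2' : (1 - c1) * L * (a2 * (1 - a2)) ≤ c1 * (b0 - a2) := by
    have h1 : (1 - c1) * L * (a2 * (1 - a2)) ≤ (1 - c0) * L * (a2 * (1 - a2)) :=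
      mul_le_mul_of_nonneg_right (mul_le_mul_of_nonneg_right (by linarith) hL0) hN0
    have h2 : c0 * (b0 - a2) ≤ c1 * (b0 - a2) :=
      mul_le_mul_of_nonneg_right hc01 hD0.le
    linarith
  have hΛ1 : lfun b1 a ≤ L :=
    (lfun_anti (by linarith) hb11 ha1 ha1a (by linarith)).trans hL
  have hΛ : lfun b a ≤ L := (lfun_mono_left (by linarith) hbb1 hb11 (by linarith)
    (by linarith)).trans hΛ1
  -- upper bound
  have up : relEnt b a ≤ c1 * lfun b a * (b - a) := by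
    have h1 : Gc c1 a b1 ≤ Gc c1 a b := by
      refine Gc_anti_b (L := L) (M := b0 * (1 - b0)) (by linarith) (by linarith) (by linarith)
        (by linarith) hbb1 hb11 hΛ1 (fun x h1 h2 => hM x (by linarith) h2) ?_
      have : (1 - c1) * (b0 - a2) ≤ (1 - c1) * (b - a) :=
        mul_le_mul_of_nonneg_left (by linarith) (by linarith)
      linarith
    have h2 : Gc c1 a2 b1 ≤ Gc c1 a b1 := by
      refine Gc_anti_a (L := L) (M := a2 * (1 - a2)) (by linarith) (by linarith) (by linarith)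
        haa2 (by linarith) hb11 hΛ1 (fun x h1 h2 => hN x (by linarith) h2) ?_
      have : c1 * (b0 - a2) ≤ c1 * (b1 - a2) :=
        mul_le_mul_of_nonneg_left (by linarith) (by linarith)
      linarith
    have h3 : 0 ≤ Gc c1 a2 b1 := by
      unfold Gc
      linarith
    have h4 : 0 ≤ Gc c1 a b := by linarith
    unfold Gc at h4
    linarith
  have lo : c0 * lfun b a * (b - a) ≤ relEnt b a := by
    have h1 : Gc c0 a b ≤ Gc c0 a b0 := by
      refine Gc_anti_b (L := L) (M := b0 * (1 - b0)) (by linarith) (by linarith) (by linarith)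
        (by linarith) hb0b (by linarith) hΛ (fun x h1 h2 => hM x h1 (by linarith)) ?_
      have : (1 - c0) * (b0 - a2) ≤ (1 - c0) * (b0 - a) :=
        mul_le_mul_of_nonneg_left (by linarith) (by linarith)
      linarith
    have h2 : Gc c0 a b0 ≤ Gc c0 a1 b0 := by
      have hL2 : lfun b0 a1 ≤ L := (lfun_mono_left hb0pos (by linarith) hb11 ha1
        (by linarith)).trans hL
      refine Gc_anti_a (L := L) (M := a2 * (1 - a2)) (by linarith) (by linarith) ha1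
        ha1a (by linarith) (by linarith) hL2 (fun x h1 h2 => hN x h1 (by linarith)) ?_
      have : c0 * (b0 - a2) ≤ c0 * (b0 - a) :=
        mul_le_mul_of_nonneg_left (by linarith) (by linarith)
      linarith
    have h3 : Gc c0 a1 b0 ≤ 0 := by
      unfold Gc
      linarith
    have h4 : Gc c0 a b ≤ 0 := by linarith
    unfold Gc at h4
    linarith
  have hcont : ContinuousOn (fun t : ℝ => t * (3 / 2 - t) * lfun b a * (b - a)) (Icc t0 t1) := by
    fun_prop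
  obtain ⟨τ, hτ, he⟩ := intermediate_value_Icc ht01 hcont ⟨lo, up⟩
  exact ⟨τ, hτ.1, hτ.2, he.symm⟩

end Pool.Agent.H99.LowerTail
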