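import Pool.Agent.H99.Cell

open MeasureTheory unitInterval Set

namespace Pool.Agent.H99.LowerTail

/-- Data for the tight certificates on a box. -/
structure LData where
  /-- box -/
  a1 : ℚ
  /-- box -/
  a2 : ℚ
  /-- box -/
  b0 : ℚ
  /-- box -/
  b1 : ℚ
  /-- corner -/
  b10 : ℚ
  /-- corner -/
  b21 : ℚ
  /-- bound for `τ` -/
  t0 : ℚ
  /-- bound for `τ` -/
  t1 : ℚ
  /-- bound for `logit b1 - logit a1` -/
  L : ℚ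
  /-- start of the coverage -/
  lt : ℚ
  /-- segments -/
  es : List (ℚ × ℚ)

/-- worst case of the quantity `u` -/
def LData.u1 (d : LData) : ℚ :=
  (d.a2 / (d.b0 - d.a2) + d.t1) * (1 + d.a2 / (d.b0 - d.a2) - d.t0) ^ 2

/-- Check of the data of a leaf. -/
def okLeaf (p0 p1 q0 q1 s r : ℚ) (d : LData) : Bool :=
  decide (0 < p0) && decide (p1 < 1) && decide (0 < q0) &&
  decide (0 < d.a1) && decide (d.a1 ≤ d.a2) && decide (d.a2 < d.b0) && decide (1 / 2 ≤ d.b0) &&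
  decide (d.b0 ≤ d.b1) && decide (d.b1 ≤ p0) && decide (d.b21 ≤ p0) && decide (0 ≤ d.b21) &&
  decide (d.a1 < d.b10) && decide (d.b10 ≤ d.b1) && decide (d.a2 < d.b21) &&
  decide (d.a1 ^ 3 + 3 * d.a1 * d.b10 ^ 2 ≤ 4 * q0 ^ 3) &&
  decide (4 * q1 ^ 3 ≤ d.a1 ^ 3 + 3 * d.a1 * d.b1 ^ 2) &&
  decide (4 * q1 ^ 3 ≤ d.a2 ^ 3 + 3 * d.a2 * d.b21 ^ 2) &&
  decide (d.a2 ^ 3 + 3 * d.a2 * d.b0 ^ 2 ≤ 4 * q0 ^ 3) &&
  decide (lfHi p1 d.b10 * (d.b1 - d.a1) ^ 2 ≤ 2 * d.a1 * d.b10 * lfLo d.b10 d.a1) &&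
  decide (2 * d.a2 * d.b21 * lfHi d.b21 d.a2 ≤ lfLo p0 d.b21 * (d.b0 - d.a2) ^ 2) &&
  decide (0 < d.t0) && decide (d.t0 ≤ d.t1) && decide (d.t1 ≤ 1 / 2) &&
  decide (lfHi d.b1 d.a1 ≤ d.L) &&
  decide (d.t1 * (3 / 2 - d.t1) * d.L * (d.b0 * (1 - d.b0)) ≤
    (1 - d.t1 * (3 / 2 - d.t1)) * (d.b0 - d.a2)) &&
  decide ((1 - d.t0 * (3 / 2 - d.t0)) * d.L * (d.a2 * (1 - d.a2)) ≤
    d.t0 * (3 / 2 - d.t0) * (d.b0 - d.a2)) &&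
  decide (relHi d.b1 d.a2 ≤ d.t1 * (3 / 2 - d.t1) * lfLo d.b1 d.a2 * (d.b1 - d.a2)) &&
  decide (d.t0 * (3 / 2 - d.t0) * lfHi d.b0 d.a1 * (d.b0 - d.a1) ≤ relLo d.b0 d.a1) &&
  decide (d.a2 + d.t1 * (d.b1 - d.a2) ≤ 1 / 2) &&
  decide (d.L * (d.t0 ^ 2 + (1 - d.t0) ^ 2) * (d.a2 * (1 - d.a2)) ≤ d.t0 * (d.b0 - d.a2)) &&
  decide (d.L * d.t1 * (d.b1 - d.a1) * (1 / 2 - d.t0 * (1 - d.t0)) ≤
    relLo d.a2 (d.a2 + d.t0 * (d.b0 - d.a2))) &&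
  ((decide (d.t1 ≤ 2 * (d.b1 * (1 - d.b1))) && decide (2 * (d.a2 * (1 - d.a2)) ≤ d.t1) &&
    decide (d.t1 * lfHi d.b0 d.a1 ≤
      2 * (d.b0 - d.a1) + 8 / 3 * (d.b0 - 1 / 2) ^ 2 * (d.b0 - d.a2))) ||
    decide (d.L * d.t1 ≤ (d.b0 - d.a2) * (2 + 8 / 3 * (d.b0 - 1 / 2) ^ 2))) &&
  decide (0 < d.lt) &&
  decide (141422 / 100000 * (d.a2 ^ 3 + 3 * d.a2 * d.b1 ^ 2 -
    (d.a1 + d.t0 * (d.b0 - d.a1)) ^ 3) ≤
    d.lt * ((d.b0 - d.a2) ^ 2 * (d.t1 ^ 2 + 3 * (1 - d.t1) ^ 2))) &&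
  decide (d.lt ≤ r) && decide (d.lt + s ≤ r + (d.a1 + d.t0 * (d.b0 - d.a1))) &&
  decide (37 / 200 ≤ d.u1) &&
  okCubics (1 / 2 - d.t1 + d.t1 ^ 2 * (1 - 1 / (182844 / 100000))) (182844 / 100000 / 3 * d.u1)
    (d.t0 * d.u1 - d.t0 ^ 2 * (d.t0 ^ 2 + 3 * (1 - d.t0) ^ 2) / 4)
    ((3 * d.u1 * d.t1 ^ 2 - d.t1 ^ 3 * (d.t1 ^ 2 + 3 * (1 - d.t1) ^ 2)) /
      (4 * (182844 / 100000)))
    (d.lt / (d.b1 - d.a1)) (d.a2 / (d.b0 - d.a2) + d.t1) d.es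

lemma okLeaf_sound {p0 p1 q0 q1 s r : ℚ} {d : LData} (h : okLeaf p0 p1 q0 q1 s r d = true)
    {p q : ℝ} (hp0 : p0 ≤ p) (hp1 : p ≤ p1) (hq0 : q0 ≤ q) (hq1 : q ≤ q1) (hU : Upto p q s r)
    (hTB : TB p q) : IsMinimizer K3 p q := by
  simp only [okLeaf, Bool.and_eq_true, decide_eq_true_eq] at h
  obtain ⟨⟨⟨⟨⟨⟨⟨⟨⟨⟨⟨⟨⟨⟨⟨⟨⟨⟨⟨⟨⟨⟨⟨⟨⟨⟨⟨⟨⟨⟨⟨⟨⟨⟨⟨⟨⟨g1, g2⟩, g3⟩, g4⟩, g5⟩, g6⟩, g7⟩, g8⟩, g9⟩, g10⟩,
    g11⟩, g12⟩, g13⟩, g14⟩, g15⟩, g16⟩, g17⟩, g18⟩, g19⟩, g20⟩, g21⟩, g22⟩, g23⟩, g24⟩, g25⟩,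
    g26⟩, g27⟩, g28⟩, g29⟩, g30⟩, g31⟩, g32⟩, g33⟩, g34⟩, g35⟩, g36⟩, g37⟩, g38⟩ := h
  -- rational facts
  have a1pos : (0 : ℚ) < d.a1 := g4
  have b1lt : d.b1 < 1 := by
    have : (p0 : ℝ) ≤ p1 := hp0.trans hp1
    have : p0 ≤ p1 := by exact_mod_cast this
    linarith
  have b21lt : d.b21 < 1 := by
    have : (p0 : ℝ) ≤ p1 := hp0.trans hp1
    have : p0 ≤ p1 := by exact_mod_cast this
    linarith
  have p0lt : p0 < 1 := by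
    have : (p0 : ℝ) ≤ p1 := hp0.trans hp1
    have : p0 ≤ p1 := by exact_mod_cast this
    linarith
  have a2pos : (0 : ℚ) < d.a2 := by linarith
  have b0pos : (0 : ℚ) < d.b0 := by linarith
  have b1pos : (0 : ℚ) < d.b1 := by linarith
  have b10pos : (0 : ℚ) < d.b10 := by linarith
  have b21pos : (0 : ℚ) < d.b21 := by linarith
  have p1pos : (0 : ℚ) < p1 := by
    have : (p0 : ℝ) ≤ p1 := hp0.trans hp1
    have : p0 ≤ p1 := by exact_mod_cast this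
    linarith
  have a1lt : d.a1 < 1 := by linarith
  have a2lt : d.a2 < 1 := by linarith
  have b0lt : d.b0 < 1 := by linarith
  have b10lt : d.b10 < 1 := by linarith
  -- casts
  have k4 : (0 : ℝ) < d.a1 := by exact_mod_cast g4
  have k5 : (d.a1 : ℝ) ≤ d.a2 := by exact_mod_cast g5
  have k6 : (d.a2 : ℝ) < d.b0 := by exact_mod_cast g6
  have k7 : (1 / 2 : ℝ) ≤ d.b0 := half_le_cast g7
  have k8 : (d.b0 : ℝ) ≤ d.b1 := by exact_mod_cast g8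
  have k9 : (d.b1 : ℝ) ≤ p0 := by exact_mod_cast g9
  have k10 : (d.b21 : ℝ) ≤ p0 := by exact_mod_cast g10
  have k11 : (0 : ℝ) ≤ d.b21 := by exact_mod_cast g11
  have k12 : (d.a1 : ℝ) < d.b10 := by exact_mod_cast g12
  have k2 : (p1 : ℝ) < 1 := by exact_mod_cast g2
  have k1 : (0 : ℝ) < p0 := by exact_mod_cast g1
  have k3 : (0 : ℝ) < q0 := by exact_mod_cast g3
  have hp0' : 0 < p := by linarith
  have hp1' : p < 1 := by linarith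
  have hq3lo : (4 : ℝ) * q0 ^ 3 ≤ 4 * q ^ 3 := by
    have := pow_le_pow_left₀ k3.le hq0 3
    linarith
  have hq3hi : (4 : ℝ) * q ^ 3 ≤ 4 * q1 ^ 3 := by
    have := pow_le_pow_left₀ (by linarith : 0 ≤ q) hq1 3
    linarith
  have k15 : (d.a1 : ℝ) ^ 3 + 3 * d.a1 * d.b10 ^ 2 ≤ 4 * q0 ^ 3 := by exact_mod_cast g15
  have k16 : (4 : ℝ) * q1 ^ 3 ≤ d.a1 ^ 3 + 3 * d.a1 * d.b1 ^ 2 := by exact_mod_cast g16
  have k17 : (4 : ℝ) * q1 ^ 3 ≤ d.a2 ^ 3 + 3 * d.a2 * d.b21 ^ 2 := by exact_mod_cast g17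
  have k18 : (d.a2 : ℝ) ^ 3 + 3 * d.a2 * d.b0 ^ 2 ≤ 4 * q0 ^ 3 := by exact_mod_cast g18
  have m1 : lfun p d.b10 * (d.b1 - d.a1) ^ 2 ≤ 2 * d.a1 * d.b10 * lfun d.b10 d.a1 := by
    have h1 : lfun p d.b10 ≤ lfun p1 d.b10 :=
      lfun_mono_left hp0' hp1 k2 (by exact_mod_cast b10pos) (by exact_mod_cast b10lt)
    have h2 := (lfun_bounds (w := d.b10) p1pos g2 b10pos b10lt).2
    have h3 := (lfun_bounds (p := d.b10) (w := d.a1) b10pos b10lt a1pos a1lt).1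
    have h4 : ((lfHi p1 d.b10 * (d.b1 - d.a1) ^ 2 : ℚ) : ℝ) ≤
        ((2 * d.a1 * d.b10 * lfLo d.b10 d.a1 : ℚ) : ℝ) := by exact_mod_cast g19
    push_cast at h4
    have h5 : lfun p d.b10 * ((d.b1 : ℝ) - d.a1) ^ 2 ≤
        ((lfHi p1 d.b10 : ℚ) : ℝ) * ((d.b1 : ℝ) - d.a1) ^ 2 :=
      mul_le_mul_of_nonneg_right (h1.trans h2) (sq_nonneg _)
    have h6 : 2 * (d.a1 : ℝ) * d.b10 * ((lfLo d.b10 d.a1 : ℚ) : ℝ) ≤
        2 * (d.a1 : ℝ) * d.b10 * lfun d.b10 d.a1 :=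
      mul_le_mul_of_nonneg_left h3 (mul_nonneg (by linarith) (by linarith))
    linarith
  have m2 : 2 * d.a2 * d.b21 * lfun d.b21 d.a2 ≤ lfun p d.b21 * (d.b0 - d.a2) ^ 2 := by
    have h1 : lfun p0 d.b21 ≤ lfun p d.b21 :=
      lfun_mono_left k1 hp0 hp1' (by exact_mod_cast b21pos) (by exact_mod_cast b21lt)
    have h2 := (lfun_bounds (w := d.b21) g1 p0lt b21pos b21lt).1
    have h3 := (lfun_bounds (p := d.b21) (w := d.a2) b21pos b21lt a2pos a2lt).2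
    have h4 : ((2 * d.a2 * d.b21 * lfHi d.b21 d.a2 : ℚ) : ℝ) ≤
        ((lfLo p0 d.b21 * (d.b0 - d.a2) ^ 2 : ℚ) : ℝ) := by exact_mod_cast g20
    push_cast at h4
    have h5 : ((lfLo p0 d.b21 : ℚ) : ℝ) * ((d.b0 : ℝ) - d.a2) ^ 2 ≤
        lfun p d.b21 * ((d.b0 : ℝ) - d.a2) ^ 2 :=
      mul_le_mul_of_nonneg_right (h2.trans h1) (sq_nonneg _)
    have h6 : 2 * (d.a2 : ℝ) * d.b21 * lfun d.b21 d.a2 ≤
        2 * (d.a2 : ℝ) * d.b21 * ((lfHi d.b21 d.a2 : ℚ) : ℝ) :=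
      mul_le_mul_of_nonneg_left h3 (mul_nonneg (by linarith) (by linarith))
    linarith
  obtain ⟨a, b, ha1a, haa2, hb0b, hbb1, hcub, hE⟩ := exists_crit (a1 := (d.a1 : ℝ))
    (a2 := (d.a2 : ℝ)) (b0 := (d.b0 : ℝ)) (b1 := (d.b1 : ℝ)) (b10 := (d.b10 : ℝ))
    (b21 := (d.b21 : ℝ)) hp0' hp1' k4 k5 k6 (by linarith) (by linarith) k12
    (k15.trans hq3lo) (hq3hi.trans k16) (hq3hi.trans k17) (k18.trans hq3lo) (by linarith) k11 m1 m2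
  have k21 : (0 : ℝ) < d.t0 := by exact_mod_cast g21
  have k22 : (d.t0 : ℝ) ≤ d.t1 := by exact_mod_cast g22
  have k23 : (d.t1 : ℝ) ≤ 1 / 2 := cast_le_half g23
  have hL : lfun d.b1 d.a1 ≤ d.L := by
    have h2 := (lfun_bounds (p := d.b1) (w := d.a1) b1pos b1lt a1pos a1lt).2
    have h4 : ((lfHi d.b1 d.a1 : ℚ) : ℝ) ≤ d.L := by exact_mod_cast g24
    linarith
  have k29 : (d.a2 : ℝ) + d.t1 * (d.b1 - d.a2) ≤ 1 / 2 := by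
    have := cast_le_half g29
    push_cast at this
    exact this
  have ha2h : (d.a2 : ℝ) ≤ 1 / 2 := by
    have : 0 ≤ (d.t1 : ℝ) * (d.b1 - d.a2) := mul_nonneg (by linarith) (by linarith)
    linarith
  have k25 : (d.t1 : ℝ) * (3 / 2 - d.t1) * d.L * (d.b0 * (1 - d.b0)) ≤
      (1 - d.t1 * (3 / 2 - d.t1)) * (d.b0 - d.a2) := by
    have : ((d.t1 * (3 / 2 - d.t1) * d.L * (d.b0 * (1 - d.b0)) : ℚ) : ℝ) ≤
      (((1 - d.t1 * (3 / 2 - d.t1)) * (d.b0 - d.a2) : ℚ) : ℝ) := by exact_mod_cast g25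
    push_cast at this
    exact this
  have k26 : (1 - (d.t0 : ℝ) * (3 / 2 - d.t0)) * d.L * (d.a2 * (1 - d.a2)) ≤
      d.t0 * (3 / 2 - d.t0) * (d.b0 - d.a2) := by
    have : (((1 - d.t0 * (3 / 2 - d.t0)) * d.L * (d.a2 * (1 - d.a2)) : ℚ) : ℝ) ≤
      ((d.t0 * (3 / 2 - d.t0) * (d.b0 - d.a2) : ℚ) : ℝ) := by exact_mod_cast g26
    push_cast at this
    exact this
  have c1nn : (0 : ℝ) ≤ d.t1 * (3 / 2 - d.t1) := mul_nonneg (by linarith) (by linarith)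
  have c0nn : (0 : ℝ) ≤ d.t0 * (3 / 2 - d.t0) := mul_nonneg (by linarith) (by linarith)
  have k27 : relEnt d.b1 d.a2 ≤ d.t1 * (3 / 2 - d.t1) * lfun d.b1 d.a2 * (d.b1 - d.a2) := by
    have h1 := le_relHi (p := d.b1) (w := d.a2) b1pos b1lt a2pos a2lt
    have h2 := (lfun_bounds (p := d.b1) (w := d.a2) b1pos b1lt a2pos a2lt).1
    have h3 : ((relHi d.b1 d.a2 : ℚ) : ℝ) ≤
        ((d.t1 * (3 / 2 - d.t1) * lfLo d.b1 d.a2 * (d.b1 - d.a2) : ℚ) : ℝ) := by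
      exact_mod_cast g27
    push_cast at h3
    have h4 : (d.t1 : ℝ) * (3 / 2 - d.t1) * ((lfLo d.b1 d.a2 : ℚ) : ℝ) * (d.b1 - d.a2) ≤
        d.t1 * (3 / 2 - d.t1) * lfun d.b1 d.a2 * (d.b1 - d.a2) :=
      mul_le_mul_of_nonneg_right (mul_le_mul_of_nonneg_left h2 c1nn) (by linarith)
    linarith
  have k28 : (d.t0 : ℝ) * (3 / 2 - d.t0) * lfun d.b0 d.a1 * (d.b0 - d.a1) ≤ relEnt d.b0 d.a1 := by
    have h1 := relLo_le (p := d.b0) (w := d.a1) b0pos b0lt a1pos a1lt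
    have h2 := (lfun_bounds (p := d.b0) (w := d.a1) b0pos b0lt a1pos a1lt).2
    have h3 : ((d.t0 * (3 / 2 - d.t0) * lfHi d.b0 d.a1 * (d.b0 - d.a1) : ℚ) : ℝ) ≤
        ((relLo d.b0 d.a1 : ℚ) : ℝ) := by
      exact_mod_cast g28
    push_cast at h3
    have h4 : (d.t0 : ℝ) * (3 / 2 - d.t0) * lfun d.b0 d.a1 * (d.b0 - d.a1) ≤
        d.t0 * (3 / 2 - d.t0) * ((lfHi d.b0 d.a1 : ℚ) : ℝ) * (d.b0 - d.a1) :=
      mul_le_mul_of_nonneg_right (mul_le_mul_of_nonneg_left h2 c0nn) (by linarith)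
    linarith
  obtain ⟨τ, hτ0, hτ1, hT0⟩ := exists_tau (t0 := (d.t0 : ℝ)) (t1 := (d.t1 : ℝ)) (L := (d.L : ℝ))
    k4 ha1a haa2 k6 hb0b hbb1 (by exact_mod_cast b1lt) k7 ha2h k21 k22 k23 hL k25 k26 k27 k28
  have k30 : (d.L : ℝ) * (d.t0 ^ 2 + (1 - d.t0) ^ 2) * (d.a2 * (1 - d.a2)) ≤
      d.t0 * (d.b0 - d.a2) := by
    have : ((d.L * (d.t0 ^ 2 + (1 - d.t0) ^ 2) * (d.a2 * (1 - d.a2)) : ℚ) : ℝ) ≤
      ((d.t0 * (d.b0 - d.a2) : ℚ) : ℝ) := by exact_mod_cast g30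
    push_cast at this
    exact this
  have k31 : (d.L : ℝ) * d.t1 * (d.b1 - d.a1) * (1 / 2 - d.t0 * (1 - d.t0)) ≤
      relEnt d.a2 (d.a2 + d.t0 * (d.b0 - d.a2)) := by
    have w0 : 0 < d.a2 + d.t0 * (d.b0 - d.a2) := by
      have : 0 < d.t0 * (d.b0 - d.a2) := mul_pos g21 (by linarith)
      linarith
    have w1 : d.a2 + d.t0 * (d.b0 - d.a2) < 1 := by
      have : d.t0 * (d.b0 - d.a2) ≤ 1 / 2 * (d.b0 - d.a2) :=
        mul_le_mul_of_nonneg_right (g22.trans g23) (by linarith)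
      linarith
    have h1 := relLo_le (p := d.a2) (w := d.a2 + d.t0 * (d.b0 - d.a2)) a2pos a2lt w0 w1
    have h3 : ((d.L * d.t1 * (d.b1 - d.a1) * (1 / 2 - d.t0 * (1 - d.t0)) : ℚ) : ℝ) ≤
        ((relLo d.a2 (d.a2 + d.t0 * (d.b0 - d.a2)) : ℚ) : ℝ) := by exact_mod_cast g31
    push_cast at h1 h3
    linarith
  have k32 : ((d.t1 : ℝ) ≤ 2 * (d.b1 * (1 - d.b1)) ∧ 2 * ((d.a2 : ℝ) * (1 - d.a2)) ≤ d.t1 ∧
      d.t1 * lfun d.b0 d.a1 ≤ 2 * (d.b0 - d.a1) + 8 / 3 * (d.b0 - 1 / 2) ^ 2 * (d.b0 - d.a2)) ∨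
      (d.L : ℝ) * d.t1 ≤ (d.b0 - d.a2) * (2 + 8 / 3 * (d.b0 - 1 / 2) ^ 2) := by
    rw [Bool.or_eq_true, Bool.and_eq_true, Bool.and_eq_true, decide_eq_true_eq, decide_eq_true_eq,
      decide_eq_true_eq, decide_eq_true_eq] at g32
    rcases g32 with ⟨⟨h1, h2⟩, h3⟩ | h1
    · left
      refine ⟨by exact_mod_cast h1, by exact_mod_cast h2, ?_⟩
      have h4 : ((d.t1 * lfHi d.b0 d.a1 : ℚ) : ℝ) ≤
          ((2 * (d.b0 - d.a1) + 8 / 3 * (d.b0 - 1 / 2) ^ 2 * (d.b0 - d.a2) : ℚ) : ℝ) := by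
        exact_mod_cast h3
      have h5 := (lfun_bounds (p := d.b0) (w := d.a1) b0pos b0lt a1pos a1lt).2
      push_cast at h4
      have h6 : (d.t1 : ℝ) * lfun d.b0 d.a1 ≤ d.t1 * ((lfHi d.b0 d.a1 : ℚ) : ℝ) :=
        mul_le_mul_of_nonneg_left h5 (by linarith)
      linarith
    · right
      have h4 : ((d.L * d.t1 : ℚ) : ℝ) ≤
          (((d.b0 - d.a2) * (2 + 8 / 3 * (d.b0 - 1 / 2) ^ 2) : ℚ) : ℝ) := by
        exact_mod_cast h1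
      push_cast at h4
      exact h4
  have k33 : (0 : ℝ) < d.lt := by exact_mod_cast g33
  have k34 : 1.41422 * ((d.a2 : ℝ) ^ 3 + 3 * d.a2 * d.b1 ^ 2 -
      (d.a1 + d.t0 * (d.b0 - d.a1)) ^ 3) ≤
      d.lt * ((d.b0 - d.a2) ^ 2 * (d.t1 ^ 2 + 3 * (1 - d.t1) ^ 2)) := by
    have : ((141422 / 100000 * (d.a2 ^ 3 + 3 * d.a2 * d.b1 ^ 2 -
      (d.a1 + d.t0 * (d.b0 - d.a1)) ^ 3) : ℚ) : ℝ) ≤
      ((d.lt * ((d.b0 - d.a2) ^ 2 * (d.t1 ^ 2 + 3 * (1 - d.t1) ^ 2)) : ℚ) : ℝ) := by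
      exact_mod_cast g34
    push_cast at this
    norm_num at this ⊢
    exact this
  have k37 : (37 / 200 : ℝ) ≤ (d.u1 : ℚ) := by
    have : ((37 / 200 : ℚ) : ℝ) ≤ ((d.u1 : ℚ) : ℝ) := by exact_mod_cast g37
    push_cast at this
    exact this
  have hu : ((d.u1 : ℚ) : ℝ) = ((d.a2 : ℝ) / (d.b0 - d.a2) + d.t1) *
      (1 + d.a2 / (d.b0 - d.a2) - d.t0) ^ 2 := by
    unfold LData.u1
    push_cast
    ring
  have hcov : Cov p q (a + τ * (b - a)) d.lt (a + τ * (b - a)) := by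
    refine leaf_real (L := (d.L : ℝ)) (u1 := ((d.u1 : ℚ) : ℝ)) hp0' hp1' k4 ha1a haa2 k6 hb0b hbb1
      (by exact_mod_cast b1lt) k7 (by linarith) hcub hE hT0
      (hTB a b (by linarith) (by linarith) (by linarith) (by linarith) hcub.le) k21 hτ0 hτ1 k23
      hL k29 k30 k31 k32 k33 k34 hu k37 ?_
    intro x hx1 hx2
    have h1 := okCubics_sound _ g38 (δ := x) (by push_cast; exact hx1) (by push_cast; exact hx2)
    push_cast at h1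
    norm_num at h1 ⊢
    exact h1
  have hs_ge : (d.a1 : ℝ) + d.t0 * (d.b0 - d.a1) ≤ a + τ * (b - a) := by
    have hτpos : 0 < τ := by linarith
    have h1 : a + τ * (b - a) = (1 - τ) * a + τ * b := by ring
    have h2 := mul_le_mul_of_nonneg_left ha1a (by linarith : 0 ≤ 1 - τ)
    have h3 := mul_le_mul_of_nonneg_left hb0b hτpos.le
    have h4 : (d.t0 : ℝ) * (d.b0 - d.a1) ≤ τ * (d.b0 - d.a1) :=
      mul_le_mul_of_nonneg_right hτ0 (by linarith)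
    linarith
  have k35 : (d.lt : ℝ) ≤ r := by exact_mod_cast g35
  have k36 : (d.lt : ℝ) + s ≤ r + (d.a1 + d.t0 * (d.b0 - d.a1)) := by
    have : ((d.lt + s : ℚ) : ℝ) ≤ ((r + (d.a1 + d.t0 * (d.b0 - d.a1)) : ℚ) : ℝ) := by
      exact_mod_cast g36
    push_cast at this
    exact this
  have hU2 : Upto p q (a + τ * (b - a)) d.lt := by
    intro W hWp ht hm
    rcases le_total (s : ℝ) (a + τ * (b - a)) with h | h
    · exact hU.up h W hWp ht (hm.trans k35)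
    · refine hU.down h W hWp ht (hm.trans ?_)
      linarith
  have hU3 := hU2.step le_rfl hcov
  have hspos : 0 ≤ a + τ * (b - a) := by
    have : 0 ≤ (d.t0 : ℝ) * (d.b0 - d.a1) := mul_nonneg k21.le (by linarith)
    linarith
  exact hU3.isMinimizer hp0' hp1' hspos le_rfl

end Pool.Agent.H99.LowerTail
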