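import Pool.Agent.H99.K3

open MeasureTheory unitInterval Set

namespace Pool.Agent.H99.LowerTail

lemma sqrt_two_div_two_le : Real.sqrt 2 / 2 ≤ 0.70711 := by
  have h : Real.sqrt 2 ≤ 1.41422 := by
    rw [Real.sqrt_le_left (by norm_num)]
    norm_num
  linarith

lemma two_sqrt_two_le : 2 * Real.sqrt 2 ≤ 2.82844 := by
  have h : Real.sqrt 2 ≤ 1.41422 := by
    rw [Real.sqrt_le_left (by norm_num)]
    norm_num
  linarith

/-- `W ≤ p` everywhere, few triangles, and `l < ‖(s - W)_+‖ ≤ r` force a cost of at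
least `I_p(q)`. -/
def Cov (p q s l r : ℝ) : Prop :=
  ∀ W : Graphon, (∀ x y, W x y ≤ p) → tri W W W ≤ q ^ 3 → l < Real.sqrt (d2 W s) →
    Real.sqrt (d2 W s) ≤ r → relEnt p q ≤ cost p W

/-- Integration of a pointwise minorant. -/
lemma cost_ge {p s A B C1 C2 : ℝ} (hp0 : 0 < p) (hp1 : p < 1) (W : Graphon)
    (hWp : ∀ x y, W x y ≤ p)
    (hmin : ∀ w, 0 ≤ w → w ≤ p →
      A + B * w + C1 * (max (w - s) 0) ^ 2 + C2 * (max (s - w) 0) ^ 2 ≤ relEnt p w) :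
    A + B * (s + xm W s) + C1 * n2 W s + C2 * d2 W s ≤ cost p W := by
  have kN := isKer_up W.isKer s
  have kD := isKer_dn W.isKer s
  have i1 : Integrable (fun q : I × I => A + B * W q.1 q.2) :=
    (integrable_const _).add (W.isKer.integrable.const_mul _)
  have i2 : Integrable (fun q : I × I => C1 * up W s q.1 q.2 ^ 2) := kN.integrable_sq.const_mul _
  have i3 : Integrable (fun q : I × I => C2 * dn W s q.1 q.2 ^ 2) := kD.integrable_sq.const_mul _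
  have e1 : ∫ q : I × I, (A + B * W q.1 q.2) = A + B * (s + xm W s) := by
    rw [integral_add (integrable_const _) (W.isKer.integrable.const_mul _), integral_const_mul]
    simp [xm]
  have e2 : ∫ q : I × I, (A + B * W q.1 q.2 + C1 * up W s q.1 q.2 ^ 2 +
      C2 * dn W s q.1 q.2 ^ 2) = A + B * (s + xm W s) + C1 * n2 W s + C2 * d2 W s := by
    rw [integral_add (f := fun q : I × I => A + B * W q.1 q.2 + C1 * up W s q.1 q.2 ^ 2)
      (i1.add i2) i3, integral_add i1 i2, e1, integral_const_mul, integral_const_mul]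
    rfl
  rw [← e2]
  refine integral_mono ((i1.add i2).add i3)
    (integrable_comp (continuous_relEnt hp0 hp1) W) fun q => ?_
  exact hmin _ (W.nonneg' _ _) (hWp _ _)

/-- Chord version of the Hilbert-Schmidt bound, valid if `‖N‖ ≤ ‖D‖`. -/
lemma tri_ge_chord {W : I → I → ℝ} (hW : IsKer W) {s : ℝ} (hs : 0 ≤ s)
    (hnd : n2 W s ≤ d2 W s) :
    s ^ 3 + 3 * s ^ 2 * xm W s + 3 * s * xm W s ^ 2 -
      (1.82844 * Real.sqrt (d2 W s) * n2 W s + Real.sqrt (d2 W s) ^ 3) ≤ tri W W W := by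
  have h := tri_ge_hs hW hs
  have hN := n2_nonneg W s
  have hD := d2_nonneg W s
  set δ := Real.sqrt (d2 W s) with hδ
  have hδ0 : 0 ≤ δ := Real.sqrt_nonneg _
  have hδ2 : δ ^ 2 = d2 W s := Real.sq_sqrt hD
  set R := Real.sqrt (n2 W s + d2 W s) with hR
  have hR2 : R ^ 2 = n2 W s + d2 W s := Real.sq_sqrt (by linarith)
  have hδR : δ ≤ R := Real.sqrt_le_sqrt (by linarith)
  have hRc : R ≤ Real.sqrt 2 * δ := by
    rw [hδ, ← Real.sqrt_mul (by norm_num)]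
    exact Real.sqrt_le_sqrt (by linarith)
  set c := Real.sqrt 2 with hc
  have hc2 : c ^ 2 = 2 := Real.sq_sqrt (by norm_num)
  have hc1 : c ≤ 1.41422 := by
    rw [hc, Real.sqrt_le_left (by norm_num)]
    norm_num
  have h1 : (R - δ) * (R - c * δ) * (R + (2 - c) * δ) ≤ 0 := by
    have a1 : 0 ≤ R - δ := by linarith
    have a2 : R - c * δ ≤ 0 := by linarith
    have a3 : 0 ≤ R + (2 - c) * δ := by
      have : 0 ≤ (2 - c) * δ := mul_nonneg (by linarith) hδ0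
      linarith
    have a4 : (R - δ) * (R - c * δ) ≤ 0 := mul_nonpos_of_nonneg_of_nonpos a1 a2
    exact mul_nonpos_of_nonpos_of_nonneg a4 a3
  have h2 : R ^ 3 ≤ δ ^ 3 + (2 * c - 1) * δ * (R ^ 2 - δ ^ 2) := by
    have e : (R - δ) * (R - c * δ) * (R + (2 - c) * δ) =
        R ^ 3 - δ ^ 3 - (2 * c - 1) * δ * (R ^ 2 - δ ^ 2) +
        (c ^ 2 - 2) * (R * δ ^ 2 - δ ^ 3) := by ring
    rw [hc2, sub_self, zero_mul, add_zero] at e
    linarith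
  have e3 : R ^ 2 - δ ^ 2 = n2 W s := by rw [hR2, hδ2]; ring
  rw [e3] at h2
  have h4 : (2 * c - 1) * δ * n2 W s ≤ 1.82844 * δ * n2 W s := by
    have : (2 * c - 1) * (δ * n2 W s) ≤ 1.82844 * (δ * n2 W s) :=
      mul_le_mul_of_nonneg_right (by linarith) (mul_nonneg hδ0 hN)
    linarith
  linarith

/-- The algebraic part of a certificate. -/
lemma alg_cert {s q A B C1 C2 Iq κ η δ N x : ℝ} (hs : 0 < s) (hC1 : 0 < C1) (hκ : 0 < κ)
    (hδ : 0 < δ)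
    (hcon : s ^ 3 + 3 * s ^ 2 * x + 3 * s * x ^ 2 - (κ * δ * N + η * δ ^ 3) ≤ q ^ 3)
    (hP : 0 ≤ (C2 - C1 * η / κ) * δ ^ 3 - κ * B ^ 2 / (12 * s * C1) * δ ^ 2 +
      (A + B * s / 2 - Iq) * δ - C1 / κ * (q ^ 3 - s ^ 3 / 4)) :
    Iq ≤ A + B * (s + x) + C1 * N + C2 * δ ^ 2 := by
  set μ := C1 / (κ * δ) with hμ
  have hμ0 : 0 < μ := by positivity
  have h1 : μ * (s ^ 3 + 3 * s ^ 2 * x + 3 * s * x ^ 2 - q ^ 3) ≤
      C1 * N + C1 * η / κ * δ ^ 2 := by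
    have h2 : s ^ 3 + 3 * s ^ 2 * x + 3 * s * x ^ 2 - q ^ 3 ≤ κ * δ * N + η * δ ^ 3 := by
      linarith
    have h3 := mul_le_mul_of_nonneg_left h2 hμ0.le
    have e : μ * (κ * δ * N + η * δ ^ 3) = C1 * N + C1 * η / κ * δ ^ 2 := by
      rw [hμ]
      field_simp
    rw [e] at h3
    exact h3
  have key : A + B * (s + x) - Iq + μ * (s ^ 3 + 3 * s ^ 2 * x + 3 * s * x ^ 2 - q ^ 3) +
      (C2 - C1 * η / κ) * δ ^ 2 = ((C2 - C1 * η / κ) * δ ^ 3 - κ * B ^ 2 / (12 * s * C1) * δ ^ 2 +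
      (A + B * s / 2 - Iq) * δ - C1 / κ * (q ^ 3 - s ^ 3 / 4)) / δ +
      3 * s * μ * (x + (B + 3 * s ^ 2 * μ) / (6 * s * μ)) ^ 2 := by
    rw [hμ]
    field_simp
    ring
  have h4 : 0 ≤ ((C2 - C1 * η / κ) * δ ^ 3 - κ * B ^ 2 / (12 * s * C1) * δ ^ 2 +
      (A + B * s / 2 - Iq) * δ - C1 / κ * (q ^ 3 - s ^ 3 / 4)) / δ := div_nonneg hP hδ.le
  have h5 : 0 ≤ 3 * s * μ * (x + (B + 3 * s ^ 2 * μ) / (6 * s * μ)) ^ 2 := by positivity
  linarith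

/-- A cubic is nonnegative on an interval. -/
lemma cubic_nonneg {c3 c2 c1 c0 l r d δ : ℝ} (hl : l ≤ δ) (hr : δ ≤ r) (hc3 : 0 ≤ c3)
    (h1 : 0 ≤ c3 * l + 2 * c3 * d - c2)
    (h2 : 0 ≤ (c3 * d ^ 3 - c2 * d ^ 2 + c1 * d - c0) + (3 * c3 * d ^ 2 - 2 * c2 * d + c1) * (l - d))
    (h3 : 0 ≤ (c3 * d ^ 3 - c2 * d ^ 2 + c1 * d - c0) + (3 * c3 * d ^ 2 - 2 * c2 * d + c1) * (r - d)) :
    0 ≤ c3 * δ ^ 3 - c2 * δ ^ 2 + c1 * δ - c0 := by
  have e : c3 * δ ^ 3 - c2 * δ ^ 2 + c1 * δ - c0 = (δ - d) ^ 2 * (c3 * δ + 2 * c3 * d - c2) +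
      ((c3 * d ^ 3 - c2 * d ^ 2 + c1 * d - c0) + (3 * c3 * d ^ 2 - 2 * c2 * d + c1) * (δ - d)) := by
    ring
  rw [e]
  have h4 : 0 ≤ c3 * δ + 2 * c3 * d - c2 := by nlinarith
  have h5 : 0 ≤ (c3 * d ^ 3 - c2 * d ^ 2 + c1 * d - c0) +
      (3 * c3 * d ^ 2 - 2 * c2 * d + c1) * (δ - d) := by
    rcases le_total 0 (3 * c3 * d ^ 2 - 2 * c2 * d + c1) with h | h
    · nlinarith
    · nlinarith
  positivity

/-- Certificates of the second kind. -/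
lemma cov_cert {p q s A B C1 C2 Iq l r : ℝ} (hp0 : 0 < p) (hp1 : p < 1) (hs : 0 < s)
    (hC1 : 0 < C1) (hl : 0 < l)
    (hmin : ∀ w, 0 ≤ w → w ≤ p →
      A + B * w + C1 * (max (w - s) 0) ^ 2 + C2 * (max (s - w) 0) ^ 2 ≤ relEnt p w)
    (hIq : relEnt p q ≤ Iq)
    (hP1 : ∀ δ, l < δ → δ ≤ r → 0 ≤ (C2 - C1 * 0.70711 / 2.12133) * δ ^ 3 -
      2.12133 * B ^ 2 / (12 * s * C1) * δ ^ 2 +
      (A + B * s / 2 - Iq) * δ - C1 / 2.12133 * (q ^ 3 - s ^ 3 / 4))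
    (hP2 : ∀ δ, l < δ → δ ≤ r → 0 ≤ (C2 - C1 * 1 / 1.82844) * δ ^ 3 -
      1.82844 * B ^ 2 / (12 * s * C1) * δ ^ 2 +
      (A + B * s / 2 - Iq) * δ - C1 / 1.82844 * (q ^ 3 - s ^ 3 / 4)) :
    Cov p q s l r := by
  intro W hWp ht hl' hr'
  refine hIq.trans ?_
  have hcost := cost_ge hp0 hp1 W hWp hmin
  refine le_trans ?_ hcost
  set δ := Real.sqrt (d2 W s) with hδ
  have hδ0 : 0 < δ := hl.trans hl'
  have hδ2 : δ ^ 2 = d2 W s := Real.sq_sqrt (d2_nonneg W s)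
  rw [← hδ2]
  have hN := n2_nonneg W s
  rcases le_total (d2 W s) (n2 W s) with h | h
  · have hT := tri_ge_sharp W.isKer hs.le h
    rw [← hδ, ← hδ2] at hT
    refine alg_cert (κ := 2.12133) (η := 0.70711) hs hC1 (by norm_num) hδ0 ?_ (hP1 δ hl' hr')
    have h6 : Real.sqrt 2 / 2 * δ * (3 * n2 W s + δ ^ 2) ≤
        0.70711 * δ * (3 * n2 W s + δ ^ 2) := by
      have := sqrt_two_div_two_le
      have h7 : 0 ≤ δ * (3 * n2 W s + δ ^ 2) := by positivity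
      nlinarith
    linarith
  · have hT := tri_ge_chord W.isKer hs.le h
    refine alg_cert (κ := 1.82844) (η := 1) hs hC1 (by norm_num) hδ0 ?_ (hP2 δ hl' hr')
    linarith

end Pool.Agent.H99.LowerTail
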