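import Pool.Agent.H99.Cell

open MeasureTheory unitInterval Set

namespace Pool.Agent.H99.LowerTail

/-- Strict version of `TB`, away from the constant graphon. -/
def TBs (p q : ℝ) : Prop :=
  ∀ a b : ℝ, 0 ≤ a → a ≤ 1 → 0 ≤ b → b ≤ 1 → a ^ 3 + 3 * a * b ^ 2 ≤ 4 * q ^ 3 →
    ¬ (a = q ∧ b = q) → 2 * relEnt p q < relEnt p a + relEnt p b

lemma relEnt_min_le {p x : ℝ} (hp0 : 0 < p) (hp1 : p < 1) (hx1 : x ≤ 1) :
    relEnt p (min x p) ≤ relEnt p x := by
  rcases le_total x p with h | h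
  · rw [min_eq_left h]
  · rw [min_eq_right h, relEnt_self hp0 hp1]
    exact relEnt_nonneg hp0 hp1 (by linarith) hx1

lemma relEnt_min_lt {p x : ℝ} (hp0 : 0 < p) (hp1 : p < 1) (h : p < x) (hx1 : x ≤ 1) :
    relEnt p (min x p) < relEnt p x := by
  rw [min_eq_right h.le, relEnt_self hp0 hp1]
  exact relEnt_pos hp0 hp1 (by linarith) hx1 h.ne'

/-- The two-block inequality propagates to larger `q`, strictly. -/
lemma TB.strict_of_lt {p q q' : ℝ} (hp1 : p < 1) (hq0 : 0 < q) (hqq : q < q')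
    (hqp : q' ≤ p) (h : TB p q) : TBs p q' := by
  have hp0 : 0 < p := by linarith
  intro a b ha0 ha1 hb0 hb1 hab hne
  rcases hqp.eq_or_lt with rfl | hlt
  · rw [relEnt_self hp0 hp1]
    have h1 := relEnt_nonneg hp0 hp1 ha0 ha1
    have h2 := relEnt_nonneg hp0 hp1 hb0 hb1
    by_cases ha : a = q'
    · have hb : b ≠ q' := fun hb => hne ⟨ha, hb⟩
      have := relEnt_pos hp0 hp1 hb0 hb1 hb
      linarith
    · have := relEnt_pos hp0 hp1 ha0 ha1 ha
      linarith
  · have hq'0 : 0 < q' := by linarith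
    have hθ0 : 0 < q / q' := by positivity
    have hθ1 : q / q' < 1 := (div_lt_one hq'0).2 hqq
    obtain ⟨κ, hκ, hk⟩ := relEnt_scale_lt (p := p) (p' := p) (q := q') (θ := q / q') hp0 le_rfl hp1
      hq'0 hlt hθ0 hθ1 (by
        have : 0 < p * (1 - p) := mul_pos hp0 (by linarith)
        nlinarith)
    have e : q / q' * q' = q := by field_simp
    rw [e] at hk
    set θ := q / q' with hθ
    -- truncation
    have hA0 : 0 ≤ min a p := le_min ha0 hp0.le
    have hB0 : 0 ≤ min b p := le_min hb0 hp0.le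
    have hAp : min a p ≤ p := min_le_right _ _
    have hBp : min b p ≤ p := min_le_right _ _
    have hA1 : θ * min a p ≤ 1 := by nlinarith
    have hB1 : θ * min b p ≤ 1 := by nlinarith
    have hfe : (θ * min a p) ^ 3 + 3 * (θ * min a p) * (θ * min b p) ^ 2 ≤ 4 * q ^ 3 := by
      have h1 : min a p ^ 3 ≤ a ^ 3 := pow_le_pow_left₀ hA0 (min_le_left _ _) 3
      have h2 : min a p * min b p ^ 2 ≤ a * b ^ 2 :=
        mul_le_mul (min_le_left _ _) (pow_le_pow_left₀ hB0 (min_le_left _ _) 2) (sq_nonneg _) ha0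
      have h3 : min a p ^ 3 + 3 * (min a p * min b p ^ 2) ≤ 4 * q' ^ 3 := by linarith
      have h4 := mul_le_mul_of_nonneg_left h3 (pow_nonneg hθ0.le 3)
      have e2 : θ ^ 3 * (4 * q' ^ 3) = 4 * q ^ 3 := by
        rw [← e]; ring
      rw [e2] at h4
      linarith
    have hTB := h (θ * min a p) (θ * min b p) (by positivity) hA1 (by positivity) hB1 hfe
    have hle : ∀ v, 0 ≤ v → v ≤ p →
        relEnt p (θ * v) - relEnt p q ≤ κ * (relEnt p v - relEnt p q') := by
      intro v hv0 hvp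
      by_cases hv : v = q'
      · rw [hv, e]; simp
      · exact (hk v hv0 hvp hv).le
    have hsum : 2 * relEnt p q' ≤ relEnt p (min a p) + relEnt p (min b p) := by
      have h1 := hle _ hA0 hAp
      have h2 := hle _ hB0 hBp
      have h3 : 0 ≤ κ * (relEnt p (min a p) + relEnt p (min b p) - 2 * relEnt p q') := by
        linarith
      have := nonneg_of_mul_nonneg_right h3 hκ
      linarith
    have hmA := relEnt_min_le hp0 hp1 ha1
    have hmB := relEnt_min_le hp0 hp1 hb1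
    -- strictness
    by_cases hA : min a p = q'
    · by_cases hB : min b p = q'
      · -- then a = q' and b = q'
        exfalso
        apply hne
        constructor
        · rcases min_choice a p with h1 | h1
          · rw [h1] at hA; exact hA
          · rw [h1] at hA; linarith
        · rcases min_choice b p with h1 | h1
          · rw [h1] at hB; exact hB
          · rw [h1] at hB; linarith
      · have h1 := hle _ hA0 hAp
        have h2 := hk _ hB0 hBp hB
        have h3 : 0 < κ * (relEnt p (min a p) + relEnt p (min b p) - 2 * relEnt p q') := by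
          linarith
        have := (mul_pos_iff_of_pos_left hκ).1 h3
        linarith
    · have h1 := hk _ hA0 hAp hA
      have h2 := hle _ hB0 hBp
      have h3 : 0 < κ * (relEnt p (min a p) + relEnt p (min b p) - 2 * relEnt p q') := by
        linarith
      have := (mul_pos_iff_of_pos_left hκ).1 h3
      linarith

lemma TBs.tb {p q : ℝ} (h : TBs p q) : TB p q := by
  intro a b ha0 ha1 hb0 hb1 hab
  by_cases hne : a = q ∧ b = q
  · rw [hne.1, hne.2]; linarith
  · exact (h a b ha0 ha1 hb0 hb1 hab hne).le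

/-- A two-block witness at `(p0,q0)` excludes all `p ≥ p0`, `q ≤ q0`. -/
lemma not_TB_of_witness {p0 p q0 q a b : ℝ} (hp00 : 0 < p0) (hpp : p0 ≤ p) (hp1 : p < 1)
    (hq0 : 0 < q) (hqq : q ≤ q0) (hq0p : q0 ≤ p0) (ha0 : 0 ≤ a) (ha1 : a ≤ 1) (hb0 : 0 ≤ b)
    (hb1 : b ≤ 1) (hab : a ^ 3 + 3 * a * b ^ 2 ≤ 4 * q0 ^ 3) (hsum : 2 * q0 ≤ a + b)
    (hw : relEnt p0 a + relEnt p0 b < 2 * relEnt p0 q0) : ¬ TB p q := by
  intro hTB
  have hp0 : 0 < p := by linarith
  have hTB' : TB p q0 := by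
    rcases hqq.eq_or_lt with rfl | h
    · exact hTB
    · exact (hTB.strict_of_lt hp1 hq0 h (by linarith)).tb
  have h1 := hTB' a b ha0 ha1 hb0 hb1 hab
  rw [relEnt_shift hp0 hp1 hp00 (by linarith) a, relEnt_shift hp0 hp1 hp00 (by linarith) b,
    relEnt_shift hp0 hp1 hp00 (by linarith) q0] at h1
  have h2 : lfun p0 p ≤ 0 := by
    rcases hpp.eq_or_lt with rfl | h
    · rw [lfun_self hp00 hp1]
    · rw [← lfun_self hp00 (by linarith)]
      exact lfun_anti hp00 (by linarith) hp00 hpp hp1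
  nlinarith

/-- Near the constant graphon, the two-block inequality always holds. -/
lemma local_TB {p q a b : ℝ} (hp1 : p < 1) (hq0 : 0 < q) (hqp : q < p)
    (ha0 : 0 ≤ a) (ha1 : a ≤ 1) (hb0 : 0 ≤ b) (hb1 : b ≤ 1)
    (hab : a ^ 3 + 3 * a * b ^ 2 ≤ 4 * q ^ 3) (hd : (b - a) * lfun p q ≤ 12 * q ^ 2) :
    2 * relEnt p q ≤ relEnt p a + relEnt p b := by
  have hp0 : 0 < p := by linarith
  have hq1 : q < 1 := by linarith
  have hJ : 0 < lfun p q := lfun_pos hp1 hq0 hqp
  rw [relEnt_bregman hp0 hp1 hq0 hq1 a, relEnt_bregman hp0 hp1 hq0 hq1 b]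
  have h1 := relEnt_pinsker hq0 hq1 ha0 ha1
  have h2 := relEnt_pinsker hq0 hq1 hb0 hb1
  set J := lfun p q
  set m := (a + b) / 2 with hm
  set d := (b - a) / 2 with hd'
  have ea : a = m - d := by rw [hm, hd']; ring
  have eb : b = m + d := by rw [hm, hd']; ring
  have hmd : m ^ 3 - d ^ 3 ≤ q ^ 3 := by
    have e : a ^ 3 + 3 * a * b ^ 2 = 4 * (m ^ 3 - d ^ 3) := by rw [ea, eb]; ring
    linarith
  have hsq : (a - q) ^ 2 + (b - q) ^ 2 = 2 * (m - q) ^ 2 + 2 * d ^ 2 := by rw [ea, eb]; ring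
  have hsum : a + b - 2 * q = 2 * (m - q) := by rw [ea, eb]; ring
  have hdJ : d * J ≤ 6 * q ^ 2 := by rw [hd']; linarith
  have hkey : 2 * (m - q) * J ≤ 4 * d ^ 2 + 4 * (m - q) ^ 2 := by
    rcases le_total m q with h | h
    · have : 2 * (m - q) * J ≤ 0 := mul_nonpos_of_nonpos_of_nonneg (by linarith) hJ.le
      have : 0 ≤ 4 * d ^ 2 + 4 * (m - q) ^ 2 := by positivity
      linarith
    · have h3 : 3 * q ^ 2 * (m - q) ≤ d ^ 3 := by nlinarith [sq_nonneg (m - q)]
      have hd0 : 0 ≤ d := by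
        by_contra hneg
        push Not at hneg
        have : d ^ 3 < 0 := by
          have : d ^ 3 = d * d ^ 2 := by ring
          rw [this]
          exact mul_neg_of_neg_of_pos hneg (by nlinarith)
        have : 0 ≤ 3 * q ^ 2 * (m - q) := mul_nonneg (by positivity) (by linarith)
        linarith
      have h4 : 3 * q ^ 2 * (m - q) * J ≤ d ^ 3 * J := mul_le_mul_of_nonneg_right h3 hJ.le
      have h5 : d ^ 3 * J ≤ 6 * q ^ 2 * d ^ 2 := by
        have := mul_le_mul_of_nonneg_left hdJ (sq_nonneg d)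
        nlinarith
      have h6 : 3 * q ^ 2 * (2 * (m - q) * J) ≤ 3 * q ^ 2 * (4 * d ^ 2) := by linarith
      have h7 : 2 * (m - q) * J ≤ 4 * d ^ 2 := le_of_mul_le_mul_left h6 (by positivity)
      have : 0 ≤ 4 * (m - q) ^ 2 := by positivity
      linarith
  have e2 : relEnt p q - J * (a - q) + relEnt q a + (relEnt p q - J * (b - q) + relEnt q b) =
      2 * relEnt p q - 2 * (m - q) * J + relEnt q a + relEnt q b := by rw [ea, eb]; ring
  rw [e2]
  linarith

/-- Openness of the strict two-block region. -/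
lemma TBs.exists_lt {p q : ℝ} (hp1 : p < 1) (hq0 : 0 < q) (hqp : q ≤ p) (h : TBs p q) :
    ∃ q', 0 < q' ∧ q' < q ∧ TB p q' := by
  by_contra hcon
  push Not at hcon
  have hp0 : 0 < p := by linarith
  set qn : ℕ → ℝ := fun n => q * (1 - 1 / ((n : ℝ) + 2)) with hqn
  have hfr : ∀ n : ℕ, 0 < 1 / ((n : ℝ) + 2) ∧ 1 / ((n : ℝ) + 2) ≤ 1 / 2 := by
    intro n
    have hn : (0 : ℝ) ≤ n := Nat.cast_nonneg n
    refine ⟨by positivity, ?_⟩
    exact one_div_le_one_div_of_le (by norm_num) (by linarith)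
  have hqn0 : ∀ n, 0 < qn n := fun n => mul_pos hq0 (by linarith [(hfr n).2])
  have hqn1 : ∀ n, qn n < q := fun n => by
    have := mul_pos hq0 (hfr n).1
    show q * (1 - 1 / ((n : ℝ) + 2)) < q
    linarith
  have hqn2 : ∀ n, q / 2 ≤ qn n := fun n => by
    have := mul_le_mul_of_nonneg_left (hfr n).2 hq0.le
    show q / 2 ≤ q * (1 - 1 / ((n : ℝ) + 2))
    linarith
  have hex : ∀ n, ∃ z : ℝ × ℝ, z ∈ (Icc (0:ℝ) 1 ×ˢ Icc (0:ℝ) 1) ∧
      z.1 ^ 3 + 3 * z.1 * z.2 ^ 2 ≤ 4 * qn n ^ 3 ∧ relEnt p z.1 + relEnt p z.2 < 2 * relEnt p (qn n) := by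
    intro n
    have h1 := hcon (qn n) (hqn0 n) (hqn1 n)
    unfold TB at h1
    push Not at h1
    obtain ⟨a, b, ha0, ha1, hb0, hb1, hab, hlt⟩ := h1
    exact ⟨(a, b), ⟨⟨ha0, ha1⟩, ⟨hb0, hb1⟩⟩, hab, hlt⟩
  choose z hz hz1 hz2 using hex
  have hcomp : IsCompact (Icc (0:ℝ) 1 ×ˢ Icc (0:ℝ) 1) := isCompact_Icc.prod isCompact_Icc
  obtain ⟨w, hw, φ, hφ, hlim⟩ := hcomp.tendsto_subseq hz
  have hqlim : Filter.Tendsto (fun n => qn (φ n)) Filter.atTop (nhds q) := by
    have h1 : Filter.Tendsto (fun n : ℕ => 1 / ((n : ℝ) + 2)) Filter.atTop (nhds 0) := by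
      have h2 := tendsto_one_div_add_atTop_nhds_zero_nat (𝕜 := ℝ)
      have h3 : Filter.Tendsto (fun n : ℕ => n + 1) Filter.atTop Filter.atTop :=
        Filter.tendsto_add_atTop_nat 1
      have h4 := h2.comp h3
      refine h4.congr fun n => ?_
      simp only [Function.comp]
      push_cast
      ring
    have h2 : Filter.Tendsto qn Filter.atTop (nhds (q * (1 - 0))) :=
      (tendsto_const_nhds).mul (tendsto_const_nhds.sub h1)
    have h3 : q * (1 - 0) = q := by ring
    rw [h3] at h2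
    exact h2.comp hφ.tendsto_atTop
  have l1 : Filter.Tendsto (fun n => (z (φ n)).1) Filter.atTop (nhds w.1) :=
    (continuous_fst.tendsto w).comp hlim
  have l2 : Filter.Tendsto (fun n => (z (φ n)).2) Filter.atTop (nhds w.2) :=
    (continuous_snd.tendsto w).comp hlim
  have cR := continuous_relEnt hp0 hp1
  have f1 : w.1 ^ 3 + 3 * w.1 * w.2 ^ 2 ≤ 4 * q ^ 3 :=
    le_of_tendsto_of_tendsto' ((l1.pow 3).add ((l1.const_mul 3).mul (l2.pow 2)))
      ((hqlim.pow 3).const_mul 4) (fun n => hz1 (φ n))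
  have f2 : relEnt p w.1 + relEnt p w.2 ≤ 2 * relEnt p q :=
    le_of_tendsto_of_tendsto' (((cR.tendsto _).comp l1).add ((cR.tendsto _).comp l2))
      (((cR.tendsto _).comp hqlim).const_mul 2) (fun n => (hz2 (φ n)).le)
  have f3 : 12 * (q / 2) ^ 2 ≤ (w.2 - w.1) * lfun p (q / 2) := by
    refine ge_of_tendsto' ((l2.sub l1).mul_const (lfun p (q / 2))) (fun n => ?_)
    by_contra hlt
    push Not at hlt
    have hJn : lfun p (qn (φ n)) ≤ lfun p (q / 2) :=
      lfun_anti hp0 hp1 (by linarith) (hqn2 _) (by linarith [hqn1 (φ n)])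
    have hJ0 : 0 < lfun p (qn (φ n)) := lfun_pos hp1 (hqn0 _) (by linarith [hqn1 (φ n)])
    have hzn := hz (φ n)
    have h5 := local_TB hp1 (hqn0 (φ n)) (by linarith [hqn1 (φ n)]) hzn.1.1 hzn.1.2 hzn.2.1
      hzn.2.2 (hz1 (φ n)) (by
        have h6 : (q / 2) ^ 2 ≤ qn (φ n) ^ 2 := pow_le_pow_left₀ (by linarith) (hqn2 _) 2
        rcases le_total 0 ((z (φ n)).2 - (z (φ n)).1) with h7 | h7
        · have := mul_le_mul_of_nonneg_left hJn h7
          linarith
        · have := mul_nonpos_of_nonpos_of_nonneg h7 hJ0.le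
          have : 0 ≤ 12 * qn (φ n) ^ 2 := by positivity
          linarith)
    linarith [hz2 (φ n)]
  have hne : ¬ (w.1 = q ∧ w.2 = q) := by
    rintro ⟨e1, e2⟩
    rw [e1, e2, sub_self, zero_mul] at f3
    have : 0 < 12 * (q / 2) ^ 2 := by positivity
    linarith
  have := h w.1 w.2 hw.1.1 hw.1.2 hw.2.1 hw.2.2 f1 hne
  linarith

end Pool.Agent.H99.LowerTail
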