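import Pool.Agent.H99.CellCheck
import Pool.Agent.H99.TBFacts

open MeasureTheory unitInterval Set

namespace Pool.Agent.H99.LowerTail

lemma okSB_spec {p q a b : ℚ} (h : okSB p q a b = true) :
    0 < q ∧ q < p ∧ p < 1 ∧ 0 < a ∧ a ≤ b ∧ b < 1 ∧
    (a : ℝ) ^ 3 + 3 * a * b ^ 2 ≤ 4 * q ^ 3 ∧ relEnt p a + relEnt p b < 2 * relEnt p q := by
  simp only [okSB, Bool.and_eq_true, decide_eq_true_eq] at h
  obtain ⟨⟨⟨⟨⟨⟨⟨h1, h2⟩, h3⟩, h4⟩, h5⟩, h6⟩, h7⟩, h8⟩ := h
  have hp0 : 0 < p := h1.trans h2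
  refine ⟨h1, h2, h3, h4, h5, h6, by exact_mod_cast h7, ?_⟩
  have e1 := le_relHi hp0 h3 h4 (h5.trans_lt h6)
  have e2 := le_relHi hp0 h3 (h4.trans_le h5) h6
  have e3 := relLo_le hp0 h3 h1 (h2.trans h3)
  have e4 : ((relHi p a + relHi p b : ℚ) : ℝ) < ((2 * relLo p q : ℚ) : ℝ) := by exact_mod_cast h8
  push_cast at e4
  linarith

theorem okSB_sound {p q a b : ℚ} (h : okSB p q a b = true) : ¬ IsMinimizer K3 p q := by
  obtain ⟨h1, h2, h3, h4, h5, h6, h7, h8⟩ := okSB_spec h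
  refine not_isMinimizer_of_twoBlock (a := (a : ℝ)) (b := (b : ℝ)) ?_ ?_ ?_ ?_ h7 h8
  · exact_mod_cast h4.le
  · exact_mod_cast (h5.trans h6.le)
  · exact_mod_cast (h4.le.trans h5)
  · exact_mod_cast h6.le

/-- All the data for a cell `[p0,p1]`. -/
structure CellD where
  /-- right end of the cell -/
  p1 : ℚ
  /-- lower end for `q` -/
  q0 : ℚ
  /-- upper end for `q` -/
  q1 : ℚ
  /-- two-block witness -/
  wa : ℚ
  /-- two-block witness -/
  wb : ℚ
  /-- last certificate for the replica symmetric point `(p1,q1)` -/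
  t : CData
  /-- data for the box -/
  dm : ℚ
  /-- data for the box -/
  J : ℚ
  /-- data for the box -/
  I0 : ℚ
  /-- data for the box -/
  I1 : ℚ
  /-- data for the box -/
  R0 : ℚ
  /-- data for the box -/
  c : CData
  /-- data for the box -/
  e : ESegs
  /-- data for the leaf -/
  d : LData

/-- Check a cell. -/
def okCell (p0 : ℚ) (D : CellD) : Bool :=
  okSB p0 D.q0 D.wa D.wb && decide (2 * D.q0 ≤ D.wa + D.wb) &&
  okBox p0 D.p1 D.q0 D.q1 D.dm D.J D.I0 D.I1 D.R0 D.c D.e &&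
  okChain D.p1 D.q1 D.I1 D.c.s D.c.r [D.t] &&
  okLeaf p0 D.p1 D.q0 D.q1 D.c.s D.c.r D.d

/-- On `[p0,p1]`, the two-block inequality implies replica symmetry. -/
def GoodOn (p0 p1 : ℝ) : Prop :=
  ∀ p q : ℝ, p0 ≤ p → p ≤ p1 → 0 < q → q ≤ p → TB p q → IsMinimizer K3 p q

lemma okBox_spec {p0 p1 q0 q1 dm J I0 I1 r0 : ℚ} {c : CData} {e : ESegs}
    (h : okBox p0 p1 q0 q1 dm J I0 I1 r0 c e = true) :
    0 < p0 ∧ p0 ≤ p1 ∧ p1 < 1 ∧ 0 < q0 ∧ q0 < q1 ∧ q1 < p0 ∧ relHi p1 q1 ≤ I1 := by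
  simp only [okBox, Bool.and_eq_true, decide_eq_true_eq] at h
  obtain ⟨⟨⟨⟨⟨⟨⟨⟨⟨⟨⟨⟨⟨⟨⟨⟨⟨⟨⟨⟨⟨⟨⟨⟨⟨⟨⟨⟨⟨g1, g2⟩, g3⟩, g4⟩, g5⟩, g6⟩, -⟩, -⟩, -⟩, -⟩, -⟩,
    g12⟩, -⟩, -⟩, -⟩, -⟩, -⟩, -⟩, -⟩, -⟩, -⟩, -⟩, -⟩, -⟩, -⟩, -⟩, -⟩, -⟩, -⟩, -⟩ := h
  exact ⟨g1, g2, g3, g4, g5, g6, g12⟩

lemma okCell_sound {p0 : ℚ} {D : CellD} (h : okCell p0 D = true) : GoodOn p0 D.p1 := by
  simp only [okCell, Bool.and_eq_true, decide_eq_true_eq] at h
  obtain ⟨⟨⟨⟨h1, h2⟩, h4⟩, h3⟩, h5⟩ := h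
  intro p q hp0 hp1 hq0 hqp hTB
  obtain ⟨s1, s2, s3, s4, s5, s6, s7, s8⟩ := okSB_spec h1
  obtain ⟨g1, g2, g3, g4, g5, g6, g12⟩ := okBox_spec h4
  have p1posQ : 0 < D.p1 := g1.trans_le g2
  have q1posQ : 0 < D.q1 := g4.trans g5
  have q1ltQ : D.q1 < 1 := by linarith
  have hRS : IsMinimizer K3 D.p1 D.q1 := by
    refine okChain_sound p1posQ g3 ?_ _ _ _ h3 (okBox_sound h4 ?_ le_rfl ?_ le_rfl)
    · have e1 := le_relHi p1posQ g3 q1posQ q1ltQ
      have e2 : ((relHi D.p1 D.q1 : ℚ) : ℝ) ≤ D.I1 := by exact_mod_cast g12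
      linarith
    · exact_mod_cast g2
    · exact_mod_cast g5.le
  have hp1lt : (D.p1 : ℝ) < 1 := by exact_mod_cast g3
  have hq1pos : (0 : ℝ) < D.q1 := by exact_mod_cast q1posQ
  have hq1p1 : (D.q1 : ℝ) < D.p1 := by exact_mod_cast g6.trans_le g2
  have p0pos : (0 : ℝ) < p0 := by exact_mod_cast s1.trans s2
  have p0lt : (p0 : ℝ) < 1 := by exact_mod_cast s3
  have hp : 0 < p := by linarith
  have p1pos : (0 : ℝ) < D.p1 := by linarith
  rcases le_or_gt (D.q1 / D.p1 * p) q with hc | hc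
  · -- replica symmetry from the certificate at `(p1,q1)`
    have hmin : IsMinimizer K3 p (D.q1 / D.p1 * p) := by
      rcases hp1.eq_or_lt with he | hlt
      · rw [he, div_mul_cancel₀ _ p1pos.ne']
        exact hRS
      · refine (unique_of_lt_p K3 hp hlt hp1lt (by positivity)
          ((div_le_one p1pos).2 hq1p1.le) ?_).1
        rw [div_mul_cancel₀ _ p1pos.ne']
        exact hRS
    rcases hc.eq_or_lt with he | hlt
    · rw [← he]; exact hmin
    · exact (unique_of_lt K3 (by linarith) (by positivity) hlt hqp hmin).1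
  · -- the box
    have hq1' : q ≤ D.q1 := by
      have : (D.q1 : ℝ) / D.p1 * p ≤ D.q1 / D.p1 * D.p1 :=
        mul_le_mul_of_nonneg_left hp1 (by positivity)
      rw [div_mul_cancel₀ _ p1pos.ne'] at this
      linarith
    have hq0' : (D.q0 : ℝ) ≤ q := by
      by_contra hlt
      push Not at hlt
      refine not_TB_of_witness (p0 := (p0 : ℝ)) (p := p) (q0 := (D.q0 : ℝ)) (q := q)
        (a := (D.wa : ℝ)) (b := (D.wb : ℝ)) p0pos hp0 (by linarith) hq0 hlt.le ?_ ?_ ?_ ?_ ?_ s7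
        ?_ s8 hTB
      · exact_mod_cast s2.le
      · exact_mod_cast s4.le
      · exact_mod_cast (s5.trans s6.le)
      · exact_mod_cast (s4.le.trans s5)
      · exact_mod_cast s6.le
      · exact_mod_cast h2
    exact okLeaf_sound h5 hp0 hp1 hq0' hq1' (okBox_sound h4 hp0 hp1 hq0' hq1') hTB

lemma GoodOn.trans {a b c : ℝ} (h1 : GoodOn a b) (h2 : GoodOn b c) : GoodOn a c := by
  intro p q hp0 hp1 hq0 hqp hTB
  rcases le_total p b with h | h
  · exact h1 p q hp0 h hq0 hqp hTB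
  · exact h2 p q h hp1 hq0 hqp hTB

/-- Replica symmetry implies the two-block inequality. -/
lemma TB_of_isMinimizer {p q : ℝ} (h : IsMinimizer K3 p q) : TB p q := by
  intro a b ha0 ha1 hb0 hb1 hab
  by_contra hlt
  push Not at hlt
  exact not_isMinimizer_of_twoBlock ha0 ha1 hb0 hb1 hab hlt h

lemma TBs_of_isUniqueMinimizer {p q : ℝ} (h : IsUniqueMinimizer K3 p q) : TBs p q := by
  intro a b ha0 ha1 hb0 hb1 hab hne
  have h1 := TB_of_isMinimizer h.1 a b ha0 ha1 hb0 hb1 hab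
  refine lt_of_le_of_ne h1 fun he => hne ?_
  have h2 := h.2 (twoBlock a b ha0 ha1 hb0 hb1) (by
    rw [homDensity_K3, numEdges_K3, tri_twoBlock]
    linarith) (by
    rw [cost_twoBlock]
    linarith)
  -- the two-block graphon is constant
  have h3 : ∫ z : I × I, twoBlock a b ha0 ha1 hb0 hb1 z.1 z.2 = q := by
    rw [integral_congr_ae h2]
    simp
  have h4 : ∫ z : I × I, (sgn z.1 * sgn z.2) * twoBlock a b ha0 ha1 hb0 hb1 z.1 z.2 = 0 := by
    have e : (fun z : I × I => (sgn z.1 * sgn z.2) * twoBlock a b ha0 ha1 hb0 hb1 z.1 z.2) =ᵐ[volume]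
        (fun z : I × I => q * (sgn z.1 * sgn z.2)) := by
      filter_upwards [h2] with z hz
      rw [hz]; ring
    rw [integral_congr_ae e, integral_const_mul,
      show (volume : Measure (I × I)) = (volume : Measure I).prod volume from rfl,
      integral_prod_mul (fun x : I => sgn x) (fun y : I => sgn y), integral_sgn]
    simp
  have hs0 : ∫ z : I × I, sgn z.1 * sgn z.2 = 0 := by
    rw [show (volume : Measure (I × I)) = (volume : Measure I).prod volume from rfl,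
      integral_prod_mul (fun x : I => sgn x) (fun y : I => sgn y), integral_sgn]
    simp
  have h5 : (a + b) / 2 = q := by
    rw [← h3]
    simp only [twoBlock_apply]
    rw [integral_sub (integrable_const _) (isKer_sgn.integrable.const_mul _), integral_const_mul,
      hs0]
    simp
  have h6 : (b - a) / 2 = 0 := by
    have e : ∀ z : I × I, (sgn z.1 * sgn z.2) * twoBlock a b ha0 ha1 hb0 hb1 z.1 z.2 =
        (a + b) / 2 * (sgn z.1 * sgn z.2) - (b - a) / 2 := by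
      intro z
      rw [twoBlock_apply]
      have e1 := sgn_sq z.1
      have e2 := sgn_sq z.2
      have e3 : (sgn z.1 * sgn z.2) * (sgn z.1 * sgn z.2) = 1 := by
        calc (sgn z.1 * sgn z.2) * (sgn z.1 * sgn z.2) =
            (sgn z.1 * sgn z.1) * (sgn z.2 * sgn z.2) := by ring
          _ = 1 := by rw [e1, e2]; ring
      linear_combination (-(b - a) / 2) * e3
    simp only [e] at h4
    rw [integral_sub (isKer_sgn.integrable.const_mul _) (integrable_const _), integral_const_mul,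
      hs0] at h4
    simp at h4
    linarith
  constructor <;> linarith

/-- The phase diagram on an interval on which the two-block inequality implies replica
symmetry. -/
lemma diagram_of_good {p : ℝ} (hp1 : p < 1)
    (h : ∀ q, 0 < q → q ≤ p → TB p q → IsMinimizer K3 p q) {q : ℝ} (hq0 : 0 < q) (hqp : q ≤ p) :
    (IsMinimizer K3 p q ↔ TB p q) ∧ (IsUniqueMinimizer K3 p q ↔ TBs p q) := by
  refine ⟨⟨TB_of_isMinimizer, h q hq0 hqp⟩, TBs_of_isUniqueMinimizer, fun hs => ?_⟩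
  obtain ⟨q', hq'0, hq'q, hTB⟩ := hs.exists_lt hp1 hq0 hqp
  exact unique_of_lt K3 hp1 hq'0 hq'q hqp (h q' hq'0 (by linarith) hTB)

end Pool.Agent.H99.LowerTail
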