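import Pool.Agent.H99.RelEnt

open MeasureTheory unitInterval Set

namespace Pool.Agent.H99.LowerTail

/-- The truncation `min (W, p)`. -/
noncomputable def trunc (W : Graphon) (p : ℝ) (hp0 : 0 ≤ p) : Graphon where
  toFun x y := min (W x y) p
  measurable' := W.measurable'.min measurable_const
  symm' x y := by rw [W.symm' x y]
  nonneg' x y := le_min (W.nonneg' x y) hp0
  le_one' x y := (min_le_left _ _).trans (W.le_one' x y)

/-- The scaled graphon `θ W`. -/
noncomputable def scale (W : Graphon) (θ : ℝ) (h0 : 0 ≤ θ) (h1 : ∀ x y, θ * W x y ≤ 1) :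
    Graphon where
  toFun x y := θ * W x y
  measurable' := W.measurable'.const_mul θ
  symm' x y := by rw [W.symm' x y]
  nonneg' x y := mul_nonneg h0 (W.nonneg' x y)
  le_one' := h1

section
variable {V : Type}

lemma edgeVal_nonneg (W : Graphon) (x : V → I) (e : Sym2 V) : 0 ≤ edgeVal W x e := by
  induction e using Sym2.ind with
  | _ i j => exact W.nonneg' _ _

lemma edgeVal_le_one (W : Graphon) (x : V → I) (e : Sym2 V) : edgeVal W x e ≤ 1 := by
  induction e using Sym2.ind with
  | _ i j => exact W.le_one' _ _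

lemma edgeVal_scale (W : Graphon) (θ : ℝ) (h0 : 0 ≤ θ) (h1 : ∀ x y, θ * W x y ≤ 1)
    (x : V → I) (e : Sym2 V) : edgeVal (scale W θ h0 h1) x e = θ * edgeVal W x e := by
  induction e using Sym2.ind with
  | _ i j => rfl

lemma edgeVal_mono {U W : Graphon} (h : ∀ x y, U x y ≤ W x y) (x : V → I) (e : Sym2 V) :
    edgeVal U x e ≤ edgeVal W x e := by
  induction e using Sym2.ind with
  | _ i j => exact h _ _

lemma measurable_edgeVal (W : Graphon) (e : Sym2 V) :
    Measurable (fun x : V → I => edgeVal W x e) := by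
  induction e using Sym2.ind with
  | _ i j =>
    have h : Measurable (fun x : V → I => (x i, x j)) :=
      (measurable_pi_apply i).prodMk (measurable_pi_apply j)
    exact Measurable.comp (g := fun z : I × I => W z.1 z.2) W.measurable' h

variable [Fintype V] (H : SimpleGraph V)

open Classical in
lemma integrable_prod_edgeVal (W : Graphon) :
    Integrable (fun x : V → I => ∏ e ∈ H.edgeFinset, edgeVal W x e) := by
  have hm : Measurable (fun x : V → I => ∏ e ∈ H.edgeFinset, edgeVal W x e) :=
    Finset.measurable_prod _ fun e _ => measurable_edgeVal W e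
  refine Integrable.of_bound hm.aestronglyMeasurable 1 (Filter.Eventually.of_forall fun x => ?_)
  rw [Real.norm_eq_abs, abs_of_nonneg (Finset.prod_nonneg fun e _ => edgeVal_nonneg W x e)]
  exact Finset.prod_le_one (fun e _ => edgeVal_nonneg W x e) (fun e _ => edgeVal_le_one W x e)

lemma homDensity_mono {U W : Graphon} (h : ∀ x y, U x y ≤ W x y) :
    homDensity H U ≤ homDensity H W := by
  unfold homDensity
  refine integral_mono (integrable_prod_edgeVal H U) (integrable_prod_edgeVal H W) fun x => ?_
  exact Finset.prod_le_prod (fun e _ => edgeVal_nonneg U x e) (fun e _ => edgeVal_mono h x e)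

lemma homDensity_scale (W : Graphon) (θ : ℝ) (h0 : 0 ≤ θ) (h1 : ∀ x y, θ * W x y ≤ 1) :
    homDensity H (scale W θ h0 h1) = θ ^ numEdges H * homDensity H W := by
  unfold homDensity numEdges
  rw [← integral_const_mul]
  refine integral_congr_ae (Filter.Eventually.of_forall fun x => ?_)
  simp only [edgeVal_scale, Finset.prod_mul_distrib, Finset.prod_const]

end

/-- A continuous function of a graphon is integrable. -/
lemma integrable_comp {f : ℝ → ℝ} (hf : Continuous f) (W : Graphon) :
    Integrable (fun z : I × I => f (W z.1 z.2)) := by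
  obtain ⟨C, hC⟩ := isCompact_Icc.exists_bound_of_continuousOn (hf.continuousOn (s := Icc 0 1))
  refine Integrable.of_bound (hf.measurable.comp W.measurable').aestronglyMeasurable C
    (Filter.Eventually.of_forall fun z => ?_)
  exact hC _ ⟨W.nonneg' _ _, W.le_one' _ _⟩

/-- Truncation does not increase the cost. -/
lemma cost_trunc_le {p : ℝ} (hp0 : 0 < p) (hp1 : p < 1) (W : Graphon) :
    cost p (trunc W p hp0.le) ≤ cost p W := by
  unfold cost
  refine integral_mono (integrable_comp (continuous_relEnt hp0 hp1) _)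
    (integrable_comp (continuous_relEnt hp0 hp1) _) fun z => ?_
  show relEnt p (min (W z.1 z.2) p) ≤ relEnt p (W z.1 z.2)
  rcases le_total (W z.1 z.2) p with h | h
  · rw [min_eq_left h]
  · rw [min_eq_right h, relEnt_self hp0 hp1]
    exact relEnt_nonneg hp0 hp1 (W.nonneg' _ _) (W.le_one' _ _)

/-- If `f ≤ g` pointwise with equality only where `U = c`, then `∫ f ≤ ∫ g`, and equality forces
`U = c` almost everywhere. -/
lemma ae_eq_of_integral_eq {f g : I × I → ℝ} (hf : Integrable f) (hg : Integrable g)
    {U : I × I → ℝ} {c : ℝ} (hle : ∀ z, f z ≤ g z) (hlt : ∀ z, U z ≠ c → f z < g z)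
    (heq : ∫ z, g z ≤ ∫ z, f z) : ∀ᵐ z, U z = c := by
  have h0 : 0 ≤ fun z => g z - f z := fun z => sub_nonneg.2 (hle z)
  have hint : Integrable (fun z => g z - f z) := hg.sub hf
  have h1 : ∫ z, (g z - f z) = 0 := by
    refine le_antisymm ?_ (integral_nonneg h0)
    rw [integral_sub hg hf]
    linarith
  have h2 := (integral_eq_zero_iff_of_nonneg h0 hint).1 h1
  filter_upwards [h2] with z hz
  by_contra hne
  have h3 := hlt z hne
  simp only [Pi.zero_apply] at hz
  linarith

section
variable {V : Type} [Fintype V] (H : SimpleGraph V)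

/-- At `q = p` the constant graphon is the unique minimizer. -/
lemma isUniqueMinimizer_self {p : ℝ} (hp0 : 0 < p) (hp1 : p < 1) : IsUniqueMinimizer H p p := by
  have hnn : ∀ W : Graphon, ∀ z : I × I, 0 ≤ relEnt p (W z.1 z.2) := fun W z =>
    relEnt_nonneg hp0 hp1 (W.nonneg' _ _) (W.le_one' _ _)
  refine ⟨fun W _ => ?_, fun W _ hc => ?_⟩
  · rw [relEnt_self hp0 hp1]
    exact integral_nonneg (hnn W)
  · rw [relEnt_self hp0 hp1] at hc
    refine ae_eq_of_integral_eq (f := fun _ => 0) (g := fun z : I × I => relEnt p (W z.1 z.2))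
      (integrable_const 0) (integrable_comp (continuous_relEnt hp0 hp1) _)
      (U := fun z : I × I => W z.1 z.2) (hnn W) ?_ ?_
    · intro z hz
      exact relEnt_pos hp0 hp1 (W.nonneg' _ _) (W.le_one' _ _) hz
    · simp only [integral_zero]
      exact hc.le

/-- General transfer: suppose `(p', q')` is replica symmetric, `λ p ≤ p'`-scaling maps feasible
graphons for `q` to feasible graphons for `q'`, and the pointwise comparison inequality holds.
Then `(p, q)` is replica symmetric with unique minimizer. -/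
lemma transfer {p p' q q' θ κ : ℝ} (hp0 : 0 < p) (hp1 : p < 1) (hp'0 : 0 < p') (hp'1 : p' < 1)
    (hqp : q < p) (hθ0 : 0 < θ) (hθp : θ * p ≤ 1) (hκ : 0 < κ)
    (hq' : q' = θ * q)
    (hpt : ∀ v, 0 ≤ v → v ≤ p → v ≠ q →
      relEnt p' (θ * v) - relEnt p' q' < κ * (relEnt p v - relEnt p q))
    (hmin : IsMinimizer H p' q') : IsUniqueMinimizer H p q := by
  have hcomp : ∀ W : Graphon, homDensity H W ≤ q ^ numEdges H →
      relEnt p q ≤ cost p W ∧ (cost p W = relEnt p q → ∀ᵐ z : I × I, W z.1 z.2 = q) := by
    intro W hW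
    set U := trunc W p hp0.le with hU
    have hUp : ∀ x y, U x y ≤ p := fun x y => min_le_right _ _
    have hU1 : ∀ x y, θ * U x y ≤ 1 := fun x y =>
      (mul_le_mul_of_nonneg_left (hUp x y) hθ0.le).trans hθp
    set S := scale U θ hθ0.le hU1 with hS
    have hUden : homDensity H U ≤ q ^ numEdges H :=
      (homDensity_mono H fun x y => min_le_left _ _).trans hW
    have hSden : homDensity H S ≤ q' ^ numEdges H := by
      rw [hS, homDensity_scale, hq', mul_pow]
      exact mul_le_mul_of_nonneg_left hUden (pow_nonneg hθ0.le _)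
    have h1 := hmin S hSden
    -- pointwise comparison
    have hle : ∀ z : I × I, relEnt p' (S z.1 z.2) - relEnt p' q' ≤
        κ * (relEnt p (U z.1 z.2) - relEnt p q) := by
      intro z
      by_cases hz : U z.1 z.2 = q
      · have e : S z.1 z.2 = q' := by
          show θ * U z.1 z.2 = q'
          rw [hz, hq']
        rw [e, hz, sub_self, sub_self, mul_zero]
      · exact (hpt _ (U.nonneg' _ _) (hUp _ _) hz).le
    have hlt : ∀ z : I × I, U z.1 z.2 ≠ q → relEnt p' (S z.1 z.2) - relEnt p' q' <
        κ * (relEnt p (U z.1 z.2) - relEnt p q) := by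
      intro z hz
      exact hpt _ (U.nonneg' _ _) (hUp _ _) hz
    have hif : Integrable (fun z : I × I => relEnt p' (S z.1 z.2) - relEnt p' q') :=
      (integrable_comp (continuous_relEnt hp'0 hp'1) S).sub (integrable_const _)
    have hig : Integrable (fun z : I × I => κ * (relEnt p (U z.1 z.2) - relEnt p q)) :=
      ((integrable_comp (continuous_relEnt hp0 hp1) U).sub (integrable_const _)).const_mul κ
    have ef : ∫ z : I × I, (relEnt p' (S z.1 z.2) - relEnt p' q') = cost p' S - relEnt p' q' := by
      rw [integral_sub (integrable_comp (continuous_relEnt hp'0 hp'1) S) (integrable_const _)]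
      simp [cost]
    have eg : ∫ z : I × I, (κ * (relEnt p (U z.1 z.2) - relEnt p q)) =
        κ * (cost p U - relEnt p q) := by
      rw [integral_const_mul,
        integral_sub (integrable_comp (continuous_relEnt hp0 hp1) U) (integrable_const _)]
      simp [cost]
    have hmono := integral_mono hif hig hle
    rw [ef, eg] at hmono
    have h2 : 0 ≤ κ * (cost p U - relEnt p q) := by linarith
    have h3 : relEnt p q ≤ cost p U := by
      have := nonneg_of_mul_nonneg_right h2 hκ
      linarith
    have h4 : cost p U ≤ cost p W := cost_trunc_le hp0 hp1 W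
    refine ⟨h3.trans h4, fun hc => ?_⟩
    have h5 : cost p U = relEnt p q := le_antisymm (h4.trans hc.le) h3
    have h6 := ae_eq_of_integral_eq hif hig (U := fun z : I × I => U z.1 z.2) hle hlt (by
      rw [ef, eg, h5]
      linarith)
    filter_upwards [h6] with z hz
    have hz' : min (W z.1 z.2) p = q := hz
    rcases min_choice (W z.1 z.2) p with h | h
    · rw [h] at hz'
      exact hz'
    · rw [h] at hz'
      exact absurd hz' hqp.ne'
  exact ⟨fun W hW => (hcomp W hW).1, fun W hW => (hcomp W hW).2⟩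

/-- Propagation of replica symmetry to larger `p` and `q`. -/
lemma unique_of_scale {p p' q q' : ℝ} (hp'0 : 0 < p') (hpp : p' ≤ p) (hp1 : p < 1) (hq'0 : 0 < q')
    (hqq' : q' < q) (hqp : q ≤ p) (hθ : q' * (p * (1 - p')) ≤ q * (p' * (1 - p)))
    (h : IsMinimizer H p' q') : IsUniqueMinimizer H p q := by
  have hp0 : 0 < p := by linarith
  rcases hqp.eq_or_lt with rfl | hlt
  · exact isUniqueMinimizer_self H hp0 hp1
  have hq0 : 0 < q := hq'0.trans hqq'
  have hθ0 : 0 < q' / q := by positivity
  have hθ1 : q' / q < 1 := (div_lt_one hq0).2 hqq'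
  have hθ' : q' / q * (p * (1 - p')) ≤ p' * (1 - p) := by
    rw [div_mul_eq_mul_div, div_le_iff₀ hq0]
    linarith
  obtain ⟨κ, hκ, hk⟩ := relEnt_scale_lt hp'0 hpp hp1 hq0 hlt hθ0 hθ1 hθ'
  have e : q' / q * q = q' := by field_simp
  refine transfer H hp0 hp1 hp'0 (by linarith) hlt hθ0 ?_ hκ e.symm ?_ h
  · nlinarith
  · rw [e] at hk
    exact hk

/-- Monotonicity in `q`. -/
lemma unique_of_lt {p q q' : ℝ} (hp1 : p < 1) (hq0 : 0 < q) (hqq' : q < q') (hq'p : q' ≤ p)
    (h : IsMinimizer H p q) : IsUniqueMinimizer H p q' := by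
  have hp0 : 0 < p := by linarith
  refine unique_of_scale H hp0 le_rfl hp1 hq0 hqq' hq'p ?_ h
  have : 0 < p * (1 - p) := mul_pos hp0 (by linarith)
  nlinarith

/-- Monotonicity in `p`. -/
lemma unique_of_lt_p {p p' c : ℝ} (hp0 : 0 < p) (hpp : p < p') (hp'1 : p' < 1) (hc0 : 0 < c)
    (hc1 : c ≤ 1) (h : IsMinimizer H p' (c * p')) : IsUniqueMinimizer H p (c * p) := by
  have hp1 : p < 1 := by linarith
  have hp'0 : 0 < p' := by linarith
  rcases hc1.eq_or_lt with rfl | hlt
  · rw [one_mul]
    exact isUniqueMinimizer_self H hp0 hp1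
  obtain ⟨κ, hκ, hk⟩ := relEnt_change_lt hp0 hpp hp'1 hc0 hlt
  refine transfer H (θ := p' / p) hp0 hp1 hp'0 hp'1 (by nlinarith) (by positivity) ?_ hκ ?_ ?_ h
  · rw [div_mul_cancel₀ _ hp0.ne']
    exact hp'1.le
  · field_simp
  · intro v hv0 hvp hne
    have h1 := hk (v / p) (by positivity) ((div_le_one hp0).2 hvp) (by
      intro h
      rw [div_eq_iff hp0.ne'] at h
      exact hne h)
    have e1 : p' * (v / p) = p' / p * v := by ring
    have e2 : p * (v / p) = v := by field_simp
    rw [e1, e2, mul_comm p' c, mul_comm p c] at h1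
    exact h1

/-- Closedness of the replica symmetric region from above. -/
lemma isMinimizer_of_forall_gt {p q : ℝ} (hq0 : 0 < q) (hqp : q < p) (hp1 : p < 1)
    (h : ∀ q', q < q' → q' ≤ p → IsMinimizer H p q') : IsMinimizer H p q := by
  intro W hW
  have hp0 : 0 < p := by linarith
  have hcont : Filter.Tendsto (relEnt p) (nhdsWithin q (Ioi q)) (nhds (relEnt p q)) :=
    ((continuous_relEnt hp0 hp1).tendsto q).mono_left nhdsWithin_le_nhds
  refine le_of_tendsto hcont ?_
  have hmem : Ioo q p ∈ nhdsWithin q (Ioi q) := Ioo_mem_nhdsGT hqp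
  filter_upwards [hmem] with q' hq'
  refine h q' hq'.1 hq'.2.le W (hW.trans ?_)
  exact pow_le_pow_left₀ hq0.le hq'.1.le _

end

end Pool.Agent.H99.LowerTail
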