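import Pool.Agent.H99.TriBound
import Pool.Agent.H99.LowerTailBasic

open MeasureTheory unitInterval Set

namespace Pool.Agent.H99.LowerTail

/-- The triangle. -/
abbrev K3 : SimpleGraph (Fin 3) := ⊤

lemma edgeFinset_K3 (h : Fintype (⊤ : SimpleGraph (Fin 3)).edgeSet) :
    @SimpleGraph.edgeFinset _ (⊤ : SimpleGraph (Fin 3)) h = {s(0, 2), s(2, 1), s(1, 0)} := by
  ext e
  rw [SimpleGraph.mem_edgeFinset]
  induction e using Sym2.ind with
  | _ i j =>
    simp only [SimpleGraph.mem_edgeSet, SimpleGraph.top_adj, Finset.mem_insert,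
      Finset.mem_singleton, Sym2.eq_iff]
    fin_cases i <;> fin_cases j <;> simp

lemma numEdges_K3 : numEdges (⊤ : SimpleGraph (Fin 3)) = 3 := by
  unfold numEdges
  rw [edgeFinset_K3]
  rfl

lemma prod_K3 (W : Graphon) (x : Fin 3 → I) :
    ∏ e ∈ ({s(0, 2), s(2, 1), s(1, 0)} : Finset (Sym2 (Fin 3))), edgeVal W x e =
      W (x 0) (x 2) * W (x 2) (x 1) * W (x 1) (x 0) := by
  rw [Finset.prod_insert (by decide), Finset.prod_insert (by decide), Finset.prod_singleton]
  simp only [edgeVal, Sym2.lift_mk]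
  ring

/-- The reindexing `(Fin 3 → I) ≃ (I × I) × I`. -/
noncomputable def e3 : (Fin 3 → I) ≃ᵐ (I × I) × I :=
  (MeasurableEquiv.piFinSuccAbove (fun _ : Fin 3 => I) 2).trans
    ((MeasurableEquiv.prodCongr (MeasurableEquiv.refl I) MeasurableEquiv.finTwoArrow).trans
      MeasurableEquiv.prodComm)

lemma e3_apply (x : Fin 3 → I) : e3 x = ((x 0, x 1), x 2) := rfl

lemma measurePreserving_e3 : MeasurePreserving e3 := by
  have h1 : MeasurePreserving (MeasurableEquiv.piFinSuccAbove (fun _ : Fin 3 => I) 2) :=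
    volume_preserving_piFinSuccAbove (fun _ : Fin 3 => I) 2
  have h2 : MeasurePreserving (MeasurableEquiv.finTwoArrow : (Fin 2 → I) ≃ᵐ I × I) :=
    volume_preserving_finTwoArrow I
  have h3 : MeasurePreserving (MeasurableEquiv.prodCongr (MeasurableEquiv.refl I)
      (MeasurableEquiv.finTwoArrow : (Fin 2 → I) ≃ᵐ I × I)) :=
    (MeasurePreserving.id volume).prod h2
  have h4 : MeasurePreserving (Prod.swap : I × (I × I) → (I × I) × I) :=
    Measure.measurePreserving_swap
  exact h4.comp (h3.comp h1)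

lemma homDensity_K3 (W : Graphon) : homDensity (⊤ : SimpleGraph (Fin 3)) W = tri W W W := by
  unfold homDensity tri
  rw [← measurePreserving_e3.integral_comp'
    (fun p : (I × I) × I => W p.1.1 p.2 * W p.2 p.1.2 * W p.1.2 p.1.1)]
  refine integral_congr_ae (Filter.Eventually.of_forall fun x => ?_)
  simp only [e3_apply]
  rw [edgeFinset_K3, prod_K3]

end Pool.Agent.H99.LowerTail
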