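import Pool.Agent.H99.LowerTailDefs

open MeasureTheory unitInterval Set

namespace Pool.Agent.H99.LowerTail

/-- Bounded measurable symmetric kernels. -/
structure IsKer (F : I → I → ℝ) : Prop where
  meas : Measurable (fun z : I × I => F z.1 z.2)
  symm : ∀ x y, F x y = F y x
  bdd : ∃ C : ℝ, ∀ x y, |F x y| ≤ C

lemma Graphon.isKer (W : Graphon) : IsKer W :=
  ⟨W.measurable', W.symm', 1, fun x y => by
    rw [abs_of_nonneg (W.nonneg' x y)]; exact W.le_one' x y⟩

lemma IsKer.comp {F : I → I → ℝ} (hF : IsKer F) {φ : ℝ → ℝ} (hφ : Continuous φ) :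
    IsKer (fun x y => φ (F x y)) := by
  obtain ⟨C, hC⟩ := hF.bdd
  refine ⟨hφ.measurable.comp hF.meas, fun x y => by rw [hF.symm x y], ?_⟩
  obtain ⟨K, hK⟩ := isCompact_Icc.exists_bound_of_continuousOn (hφ.continuousOn (s := Icc (-C) C))
  exact ⟨K, fun x y => hK _ (abs_le.1 (hC x y))⟩

lemma IsKer.const_mul {F : I → I → ℝ} (hF : IsKer F) (c : ℝ) :
    IsKer (fun x y => c * F x y) := hF.comp (continuous_const.mul continuous_id)

lemma IsKer.sub {F G : I → I → ℝ} (hF : IsKer F) (hG : IsKer G) :
    IsKer (fun x y => F x y - G x y) := by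
  obtain ⟨C, hC⟩ := hF.bdd
  obtain ⟨C', hC'⟩ := hG.bdd
  refine ⟨hF.meas.sub hG.meas, fun x y => by rw [hF.symm x y, hG.symm x y], C + C', fun x y => ?_⟩
  exact (abs_sub _ _).trans (add_le_add (hC x y) (hC' x y))

lemma isKer_const (c : ℝ) : IsKer (fun _ _ => c) :=
  ⟨measurable_const, fun _ _ => rfl, |c|, fun _ _ => le_rfl⟩

/-- Integrability of bounded measurable functions on a probability space. -/
lemma integrable_bdd {α : Type} [MeasurableSpace α] {μ : Measure α} [IsFiniteMeasure μ]
    {f : α → ℝ} (hm : Measurable f) {C : ℝ} (hC : ∀ x, |f x| ≤ C) : Integrable f μ :=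
  Integrable.of_bound hm.aestronglyMeasurable C (Filter.Eventually.of_forall hC)

lemma IsKer.integrable {F : I → I → ℝ} (hF : IsKer F) :
    Integrable (fun z : I × I => F z.1 z.2) := by
  obtain ⟨C, hC⟩ := hF.bdd
  exact integrable_bdd hF.meas (fun z => hC z.1 z.2)

lemma IsKer.integrable_sq {F : I → I → ℝ} (hF : IsKer F) :
    Integrable (fun z : I × I => F z.1 z.2 ^ 2) :=
  (hF.comp (φ := fun x => x ^ 2) (by fun_prop)).integrable

/-- Cauchy-Schwarz. -/
lemma cauchy_schwarz {α : Type} [MeasurableSpace α] {μ : Measure α} {f g : α → ℝ}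
    (hf : Integrable (fun x => f x ^ 2) μ) (hg : Integrable (fun x => g x ^ 2) μ)
    (hfg : Integrable (fun x => f x * g x) μ) :
    (∫ x, f x * g x ∂μ) ^ 2 ≤ (∫ x, f x ^ 2 ∂μ) * ∫ x, g x ^ 2 ∂μ := by
  have h : ∀ c : ℝ, 0 ≤ (∫ x, g x ^ 2 ∂μ) * (c * c) + (-2 * ∫ x, f x * g x ∂μ) * c +
      ∫ x, f x ^ 2 ∂μ := by
    intro c
    have e : (∫ x, g x ^ 2 ∂μ) * (c * c) + (-2 * ∫ x, f x * g x ∂μ) * c + ∫ x, f x ^ 2 ∂μ =
        ∫ x, (f x - c * g x) ^ 2 ∂μ := by
      have e1 : ∀ x, (f x - c * g x) ^ 2 = f x ^ 2 - 2 * c * (f x * g x) + c ^ 2 * g x ^ 2 := by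
        intro x; ring
      simp only [e1]
      rw [integral_add (f := fun x => f x ^ 2 - 2 * c * (f x * g x))
        (g := fun x => c ^ 2 * g x ^ 2) (hf.sub (hfg.const_mul (2 * c))) (hg.const_mul (c ^ 2)),
        integral_sub hf (hfg.const_mul (2 * c)), integral_const_mul, integral_const_mul]
      ring
    rw [e]
    exact integral_nonneg fun x => sq_nonneg _
  have h2 := discrim_le_zero h
  rw [discrim] at h2
  nlinarith

/-- The trilinear form. -/
noncomputable def tri (F G H : I → I → ℝ) : ℝ :=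
  ∫ p : (I × I) × I, F p.1.1 p.2 * G p.2 p.1.2 * H p.1.2 p.1.1

lemma meas_tri {F G H : I → I → ℝ} (hF : IsKer F) (hG : IsKer G) (hH : IsKer H) :
    Measurable (fun p : (I × I) × I => F p.1.1 p.2 * G p.2 p.1.2 * H p.1.2 p.1.1) := by
  have h1 : Measurable (fun p : (I × I) × I => F p.1.1 p.2) :=
    Measurable.comp (g := fun z : I × I => F z.1 z.2) (f := fun p : (I × I) × I => (p.1.1, p.2))
      hF.meas (by fun_prop)
  have h2 : Measurable (fun p : (I × I) × I => G p.2 p.1.2) :=
    Measurable.comp (g := fun z : I × I => G z.1 z.2) (f := fun p : (I × I) × I => (p.2, p.1.2))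
      hG.meas (by fun_prop)
  have h3 : Measurable (fun p : (I × I) × I => H p.1.2 p.1.1) :=
    Measurable.comp (g := fun z : I × I => H z.1 z.2) (f := fun p : (I × I) × I => (p.1.2, p.1.1))
      hH.meas (by fun_prop)
  exact (h1.mul h2).mul h3

lemma integrable_tri {F G H : I → I → ℝ} (hF : IsKer F) (hG : IsKer G) (hH : IsKer H) :
    Integrable (fun p : (I × I) × I => F p.1.1 p.2 * G p.2 p.1.2 * H p.1.2 p.1.1) := by
  obtain ⟨C1, h1⟩ := hF.bdd
  obtain ⟨C2, h2⟩ := hG.bdd
  obtain ⟨C3, h3⟩ := hH.bdd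
  refine integrable_bdd (meas_tri hF hG hH) (C := C1 * C2 * C3) fun p => ?_
  rw [abs_mul, abs_mul]
  have a1 := h1 p.1.1 p.2
  have a2 := h2 p.2 p.1.2
  have a3 := h3 p.1.2 p.1.1
  have b1 := abs_nonneg (F p.1.1 p.2)
  have b2 := abs_nonneg (G p.2 p.1.2)
  have b3 := abs_nonneg (H p.1.2 p.1.1)
  exact mul_le_mul (mul_le_mul a1 a2 b2 (b1.trans a1)) a3 b3
    (mul_nonneg (b1.trans a1) (b2.trans a2))

/-- The cyclic rotation of the three coordinates. -/
noncomputable def rot : (I × I) × I ≃ᵐ (I × I) × I :=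
  MeasurableEquiv.prodComm.trans MeasurableEquiv.prodAssoc.symm

lemma rot_apply (p : (I × I) × I) : rot p = ((p.2, p.1.1), p.1.2) := rfl

lemma measurePreserving_rot : MeasurePreserving rot := by
  have h1 : MeasurePreserving (Prod.swap : (I × I) × I → I × (I × I)) :=
    Measure.measurePreserving_swap
  have h2 : MeasurePreserving (MeasurableEquiv.prodAssoc.symm : I × (I × I) → (I × I) × I) :=
    (measurePreserving_prodAssoc volume volume volume).symm
  exact h2.comp h1

/-- The reflection. -/
noncomputable def refl3 : (I × I) × I ≃ᵐ (I × I) × I :=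
  MeasurableEquiv.prodCongr MeasurableEquiv.prodComm (MeasurableEquiv.refl I)

lemma refl3_apply (p : (I × I) × I) : refl3 p = ((p.1.2, p.1.1), p.2) := rfl

lemma measurePreserving_refl3 : MeasurePreserving refl3 := by
  have h1 : MeasurePreserving (Prod.swap : I × I → I × I) :=
    Measure.measurePreserving_swap
  exact h1.prod (MeasurePreserving.id volume)

/-- Cyclic permutations. -/
lemma tri_cycle {F G H : I → I → ℝ} (hF : IsKer F) (hG : IsKer G) (hH : IsKer H) :
    tri F G H = tri H F G := by
  unfold tri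
  rw [← measurePreserving_rot.integral_comp'
    (fun p : (I × I) × I => F p.1.1 p.2 * G p.2 p.1.2 * H p.1.2 p.1.1)]
  refine integral_congr_ae (Filter.Eventually.of_forall fun p => ?_)
  simp only [rot_apply]
  rw [hF.symm, hG.symm, hH.symm]
  ring

lemma tri_swap {F G H : I → I → ℝ} (hF : IsKer F) (hG : IsKer G) (hH : IsKer H) :
    tri F G H = tri G F H := by
  unfold tri
  rw [← measurePreserving_refl3.integral_comp'
    (fun p : (I × I) × I => F p.1.1 p.2 * G p.2 p.1.2 * H p.1.2 p.1.1)]
  refine integral_congr_ae (Filter.Eventually.of_forall fun p => ?_)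
  simp only [refl3_apply]
  rw [hF.symm, hG.symm, hH.symm]
  ring

/-- The composition kernel. -/
noncomputable def compK (F G : I → I → ℝ) (q : I × I) : ℝ := ∫ y, F q.1 y * G y q.2

lemma meas_compK {F G : I → I → ℝ} (hF : IsKer F) (hG : IsKer G) : Measurable (compK F G) := by
  have h1 : Measurable (fun p : (I × I) × I => F p.1.1 p.2) :=
    Measurable.comp (g := fun z : I × I => F z.1 z.2) (f := fun p : (I × I) × I => (p.1.1, p.2))
      hF.meas (by fun_prop)
  have h2 : Measurable (fun p : (I × I) × I => G p.2 p.1.2) :=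
    Measurable.comp (g := fun z : I × I => G z.1 z.2) (f := fun p : (I × I) × I => (p.2, p.1.2))
      hG.meas (by fun_prop)
  exact ((h1.mul h2).stronglyMeasurable.integral_prod_right (ν := (volume : Measure I))).measurable

lemma abs_integral_le_of_bdd {α : Type} [MeasurableSpace α] {μ : Measure α}
    [IsProbabilityMeasure μ] {f : α → ℝ} {C : ℝ} (hC : ∀ x, |f x| ≤ C) : |∫ x, f x ∂μ| ≤ C := by
  have h := norm_integral_le_of_norm_le_const (μ := μ) (f := f) (C := C)
    (Filter.Eventually.of_forall fun x => by rw [Real.norm_eq_abs]; exact hC x)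
  simpa using h

lemma bdd_compK {F G : I → I → ℝ} (hF : IsKer F) (hG : IsKer G) :
    ∃ C : ℝ, ∀ q, |compK F G q| ≤ C := by
  obtain ⟨C1, h1⟩ := hF.bdd
  obtain ⟨C2, h2⟩ := hG.bdd
  refine ⟨C1 * C2, fun q => abs_integral_le_of_bdd fun y => ?_⟩
  rw [abs_mul]
  have a1 := h1 q.1 y
  exact mul_le_mul a1 (h2 y q.2) (abs_nonneg _) ((abs_nonneg _).trans a1)

lemma tri_eq_compK {F G H : I → I → ℝ} (hF : IsKer F) (hG : IsKer G) (hH : IsKer H) :
    tri F G H = ∫ q : I × I, H q.1 q.2 * compK F G q := by
  unfold tri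
  have h := integral_prod (μ := (volume : Measure (I × I))) (ν := (volume : Measure I))
    (fun p : (I × I) × I => F p.1.1 p.2 * G p.2 p.1.2 * H p.1.2 p.1.1) (integrable_tri hF hG hH)
  rw [show (volume : Measure ((I × I) × I)) = (volume : Measure (I × I)).prod volume from rfl, h]
  refine integral_congr_ae (Filter.Eventually.of_forall fun q => ?_)
  simp only [compK]
  rw [integral_mul_const, hH.symm]
  ring

/-- The row sums of squares. -/
noncomputable def rowSq (F : I → I → ℝ) (x : I) : ℝ := ∫ y, F x y ^ 2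

lemma IsKer.row_integrable {F : I → I → ℝ} (hF : IsKer F) (x : I) :
    Integrable (fun y => F x y) := by
  obtain ⟨C, hC⟩ := hF.bdd
  refine integrable_bdd ?_ (hC x)
  exact Measurable.comp (g := fun z : I × I => F z.1 z.2) (f := fun y : I => (x, y)) hF.meas
    (by fun_prop)

lemma IsKer.sq {F : I → I → ℝ} (hF : IsKer F) : IsKer (fun x y => F x y ^ 2) :=
  hF.comp (φ := fun x => x ^ 2) (by fun_prop)

lemma meas_row {F : I → I → ℝ} (hF : IsKer F) : Measurable (fun x => ∫ y, F x y) :=
  (hF.meas.stronglyMeasurable.integral_prod_right (ν := (volume : Measure I))).measurable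

lemma bdd_row {F : I → I → ℝ} (hF : IsKer F) : ∃ C : ℝ, ∀ x, |∫ y, F x y| ≤ C := by
  obtain ⟨C, hC⟩ := hF.bdd
  exact ⟨C, fun x => abs_integral_le_of_bdd fun y => hC x y⟩

lemma meas_rowSq {F : I → I → ℝ} (hF : IsKer F) : Measurable (rowSq F) := meas_row hF.sq

lemma rowSq_nonneg (F : I → I → ℝ) (x : I) : 0 ≤ rowSq F x :=
  integral_nonneg fun y => sq_nonneg _

lemma integral_row {F : I → I → ℝ} (hF : IsKer F) :
    ∫ x, ∫ y, F x y = ∫ q : I × I, F q.1 q.2 :=
  (integral_prod (μ := (volume : Measure I)) (ν := (volume : Measure I))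
    (fun q : I × I => F q.1 q.2) hF.integrable).symm

lemma integral_rowSq {F : I → I → ℝ} (hF : IsKer F) :
    ∫ x, rowSq F x = ∫ q : I × I, F q.1 q.2 ^ 2 := integral_row hF.sq

lemma rowSq_integrable {F : I → I → ℝ} (hF : IsKer F) : Integrable (rowSq F) := by
  obtain ⟨C, hC⟩ := bdd_row hF.sq
  exact integrable_bdd (meas_rowSq hF) hC

lemma compK_sq_le {F G : I → I → ℝ} (hF : IsKer F) (hG : IsKer G) (q : I × I) :
    compK F G q ^ 2 ≤ rowSq F q.1 * rowSq G q.2 := by
  have h1 := hF.sq.row_integrable q.1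
  have h2 := hG.sq.row_integrable q.2
  have e : ∀ y, G y q.2 = G q.2 y := fun y => hG.symm _ _
  have h3 : Integrable (fun y => F q.1 y * G q.2 y) := by
    obtain ⟨C1, c1⟩ := hF.bdd
    obtain ⟨C2, c2⟩ := hG.bdd
    refine integrable_bdd (C := C1 * C2) ?_ ?_
    · have m1 : Measurable fun y => F q.1 y :=
        Measurable.comp (g := fun z : I × I => F z.1 z.2) (f := fun y : I => (q.1, y)) hF.meas
          (by fun_prop)
      have m2 : Measurable fun y => G q.2 y :=
        Measurable.comp (g := fun z : I × I => G z.1 z.2) (f := fun y : I => (q.2, y)) hG.meas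
          (by fun_prop)
      exact m1.mul m2
    · intro y
      rw [abs_mul]
      have a1 := c1 q.1 y
      exact mul_le_mul a1 (c2 q.2 y) (abs_nonneg _) ((abs_nonneg _).trans a1)
  have h := cauchy_schwarz h1 h2 h3
  unfold compK rowSq
  simp only [e]
  exact h

lemma compK_sq_integrable {F G : I → I → ℝ} (hF : IsKer F) (hG : IsKer G) :
    Integrable (fun q => compK F G q ^ 2) := by
  obtain ⟨C, hC⟩ := bdd_compK hF hG
  refine integrable_bdd ((meas_compK hF hG).pow_const 2) (C := C ^ 2) fun q => ?_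
  rw [abs_pow]
  exact pow_le_pow_left₀ (abs_nonneg _) (hC q) 2

lemma mul_compK_integrable {F G H : I → I → ℝ} (hF : IsKer F) (hG : IsKer G) (hH : IsKer H) :
    Integrable (fun q : I × I => H q.1 q.2 * compK F G q) := by
  obtain ⟨C1, c1⟩ := bdd_compK hF hG
  obtain ⟨C2, c2⟩ := hH.bdd
  refine integrable_bdd (hH.meas.mul (meas_compK hF hG)) (C := C2 * C1) fun q => ?_
  rw [abs_mul]
  have a1 := c2 q.1 q.2
  exact mul_le_mul a1 (c1 q) (abs_nonneg _) ((abs_nonneg _).trans a1)

/-- Hilbert-Schmidt bound. -/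
lemma tri_sq_le {F : I → I → ℝ} (hF : IsKer F) :
    tri F F F ^ 2 ≤ (∫ q : I × I, F q.1 q.2 ^ 2) ^ 3 := by
  rw [tri_eq_compK hF hF hF]
  have h1 := cauchy_schwarz hF.integrable_sq (compK_sq_integrable hF hF)
    (mul_compK_integrable hF hF hF)
  have hint : Integrable (fun q : I × I => rowSq F q.1 * rowSq F q.2) :=
    (rowSq_integrable hF).mul_prod (rowSq_integrable hF)
  have h2 : ∫ q, compK F F q ^ 2 ≤ ∫ q : I × I, rowSq F q.1 * rowSq F q.2 :=
    integral_mono (compK_sq_integrable hF hF) hint fun q => compK_sq_le hF hF q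
  have h3 : ∫ q : I × I, rowSq F q.1 * rowSq F q.2 = (∫ x, rowSq F x) * ∫ x, rowSq F x :=
    integral_prod_mul (μ := (volume : Measure I)) (ν := (volume : Measure I)) (rowSq F) (rowSq F)
  rw [h3, integral_rowSq hF] at h2
  have h4 : 0 ≤ ∫ q : I × I, F q.1 q.2 ^ 2 := integral_nonneg fun q => sq_nonneg _
  nlinarith

open Classical in
/-- Half of the square mass of a symmetric kernel crosses any cut, at most. -/
lemma cut_le {F : I → I → ℝ} (hF : IsKer F) {E : Set I} (hE : MeasurableSet E) :
    ∫ q : I × I, (if q.1 ∈ E then 0 else 1) * ((if q.2 ∈ E then 1 else 0) * F q.1 q.2 ^ 2) ≤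
      (∫ q : I × I, F q.1 q.2 ^ 2) / 2 := by
  set f : I × I → ℝ := fun q => (if q.1 ∈ E then 0 else 1) *
    ((if q.2 ∈ E then 1 else 0) * F q.1 q.2 ^ 2) with hf
  have hm : Measurable f := by
    have m1 : Measurable (fun q : I × I => (if q.1 ∈ E then (0 : ℝ) else 1)) :=
      Measurable.ite (measurable_fst hE) measurable_const measurable_const
    have m2 : Measurable (fun q : I × I => (if q.2 ∈ E then (1 : ℝ) else 0)) :=
      Measurable.ite (measurable_snd hE) measurable_const measurable_const
    exact m1.mul (m2.mul (hF.meas.pow_const 2))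
  have hle : ∀ q, f q + f q.swap ≤ F q.1 q.2 ^ 2 := by
    intro q
    have h0 := sq_nonneg (F q.1 q.2)
    simp only [hf, Prod.fst_swap, Prod.snd_swap, hF.symm q.2 q.1]
    by_cases h1 : q.1 ∈ E <;> by_cases h2 : q.2 ∈ E <;> simp [h1, h2, h0]
  have h0 : ∀ q, 0 ≤ f q := by
    intro q
    simp only [hf]
    by_cases h1 : q.1 ∈ E <;> by_cases h2 : q.2 ∈ E <;> simp [h1, h2, sq_nonneg]
  have hint : Integrable f := by
    refine hF.integrable_sq.mono' hm.aestronglyMeasurable (Filter.Eventually.of_forall fun q => ?_)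
    rw [Real.norm_eq_abs, abs_of_nonneg (h0 q)]
    linarith [hle q, h0 q.swap]
  have hswap : ∫ q : I × I, f q.swap = ∫ q, f q :=
    (Measure.measurePreserving_swap (μ := (volume : Measure I)) (ν := (volume : Measure I))).integral_comp'
      (f := MeasurableEquiv.prodComm) f
  have hint2 : Integrable (fun q : I × I => f q.swap) :=
    (Measure.measurePreserving_swap (μ := (volume : Measure I))
      (ν := (volume : Measure I))).integrable_comp_of_integrable hint
  have h := integral_mono (f := fun q : I × I => f q + f q.swap) (hint.add hint2)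
    hF.integrable_sq hle
  have e : ∫ q : I × I, (f q + f q.swap) = (∫ q, f q) + ∫ q : I × I, f q.swap :=
    integral_add hint hint2
  rw [e, hswap] at h
  linarith

open Classical in
/-- The key inequality: the codegree mass on non-edges. -/
lemma key_L {F : I → I → ℝ} (hF : IsKer F) :
    ∫ q : I × I, (if F q.1 q.2 = 0 then 1 else 0) * compK F F q ^ 2 ≤
      (∫ q : I × I, F q.1 q.2 ^ 2) ^ 2 / 2 := by
  have hE : ∀ z : I, MeasurableSet {y : I | F y z ≠ 0} := by
    intro z
    have m : Measurable fun y => F y z :=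
      Measurable.comp (g := fun z : I × I => F z.1 z.2) (f := fun y : I => (y, z)) hF.meas
        (by fun_prop)
    exact (measurableSet_eq_fun m measurable_const).compl
  have hN : MeasurableSet {q : I × I | F q.1 q.2 = 0} :=
    measurableSet_eq_fun hF.meas measurable_const
  -- the auxiliary function
  set a : I × I → ℝ := fun q => ∫ y, (if F y q.2 ≠ 0 then 1 else 0) * F q.1 y ^ 2 with ha
  have ma : Measurable a := by
    have m1 : Measurable (fun p : (I × I) × I => F p.1.1 p.2 ^ 2) :=
      (Measurable.comp (g := fun z : I × I => F z.1 z.2)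
        (f := fun p : (I × I) × I => (p.1.1, p.2)) hF.meas (by fun_prop)).pow_const 2
    have m2 : Measurable (fun p : (I × I) × I => (if F p.2 p.1.2 ≠ 0 then (1 : ℝ) else 0)) := by
      refine Measurable.ite ?_ measurable_const measurable_const
      have m3 : Measurable (fun p : (I × I) × I => F p.2 p.1.2) :=
        Measurable.comp (g := fun z : I × I => F z.1 z.2)
          (f := fun p : (I × I) × I => (p.2, p.1.2)) hF.meas (by fun_prop)
      exact (measurableSet_eq_fun m3 measurable_const).compl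
    exact ((m2.mul m1).stronglyMeasurable.integral_prod_right
      (ν := (volume : Measure I))).measurable
  obtain ⟨C, hC⟩ := hF.bdd
  have hC0 : 0 ≤ C := (abs_nonneg _).trans (hC 0 0)
  have hFsq : ∀ x y, F x y ^ 2 ≤ C ^ 2 := fun x y => by
    rw [← sq_abs]
    exact pow_le_pow_left₀ (abs_nonneg _) (hC x y) 2
  have a0 : ∀ q, 0 ≤ a q := fun q => integral_nonneg fun y => by
    by_cases h : F y q.2 = 0 <;> simp [h, sq_nonneg]
  have aC : ∀ q, |a q| ≤ C ^ 2 := fun q => abs_integral_le_of_bdd fun y => by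
    by_cases h : F y q.2 = 0
    · simp only [h, ne_eq, not_true_eq_false, if_false, zero_mul, abs_zero]
      positivity
    · simp only [h, ne_eq, not_false_eq_true, if_true, one_mul]
      rw [abs_of_nonneg (sq_nonneg _)]
      exact hFsq _ _
  have rC : ∀ x, |rowSq F x| ≤ C ^ 2 := fun x => abs_integral_le_of_bdd fun y => by
    rw [abs_of_nonneg (sq_nonneg _)]
    exact hFsq _ _
  -- pointwise Cauchy-Schwarz
  have hpt : ∀ q, compK F F q ^ 2 ≤ a q * rowSq F q.2 := by
    intro q
    have mF1 : Measurable fun y => F q.1 y :=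
      Measurable.comp (g := fun z : I × I => F z.1 z.2) (f := fun y : I => (q.1, y)) hF.meas
        (by fun_prop)
    have mF2 : Measurable fun y => F y q.2 :=
      Measurable.comp (g := fun z : I × I => F z.1 z.2) (f := fun y : I => (y, q.2)) hF.meas
        (by fun_prop)
    have mI : Measurable fun y => (if F y q.2 ≠ 0 then (1 : ℝ) else 0) :=
      Measurable.ite (hE q.2) measurable_const measurable_const
    set f : I → ℝ := fun y => (if F y q.2 ≠ 0 then 1 else 0) * F q.1 y with hf
    set g : I → ℝ := fun y => F y q.2 with hg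
    have e1 : ∀ y, f y ^ 2 = (if F y q.2 ≠ 0 then 1 else 0) * F q.1 y ^ 2 := by
      intro y
      by_cases h : F y q.2 = 0 <;> simp [hf, h]
    have e2 : ∀ y, f y * g y = F q.1 y * F y q.2 := by
      intro y
      by_cases h : F y q.2 = 0 <;> simp [hf, hg, h]
    have b1 : ∀ y, |f y| ≤ C := by
      intro y
      by_cases h : F y q.2 = 0
      · simp [hf, h, hC0]
      · simp only [hf, h, ne_eq, not_false_eq_true, if_true, one_mul]
        exact hC _ _
    have b2 : ∀ y, |g y| ≤ C := fun y => hC _ _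
    have mf : Measurable f := mI.mul mF1
    have i1 : Integrable (fun y => f y ^ 2) := integrable_bdd (mf.pow_const 2) (C := C ^ 2)
      fun y => by rw [abs_pow]; exact pow_le_pow_left₀ (abs_nonneg _) (b1 y) 2
    have i2 : Integrable (fun y => g y ^ 2) := integrable_bdd (mF2.pow_const 2) (C := C ^ 2)
      fun y => by rw [abs_pow]; exact pow_le_pow_left₀ (abs_nonneg _) (b2 y) 2
    have i3 : Integrable (fun y => f y * g y) := integrable_bdd (mf.mul mF2) (C := C * C)
      fun y => by rw [abs_mul]; exact mul_le_mul (b1 y) (b2 y) (abs_nonneg _) hC0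
    have h := cauchy_schwarz i1 i2 i3
    have e3 : ∫ y, f y * g y = compK F F q := by
      unfold compK
      exact integral_congr_ae (Filter.Eventually.of_forall e2)
    have e4 : ∫ y, f y ^ 2 = a q := integral_congr_ae (Filter.Eventually.of_forall e1)
    have e5 : ∫ y, g y ^ 2 = rowSq F q.2 := by
      unfold rowSq
      refine integral_congr_ae (Filter.Eventually.of_forall fun y => ?_)
      simp only [hg, hF.symm y q.2]
    rw [e3, e4, e5] at h
    exact h
  -- integrate
  set b : I × I → ℝ := fun q => (if F q.1 q.2 = 0 then 1 else 0) * (a q * rowSq F q.2) with hb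
  have mind : Measurable (fun q : I × I => (if F q.1 q.2 = 0 then (1 : ℝ) else 0)) :=
    Measurable.ite hN measurable_const measurable_const
  have mr : Measurable (rowSq F) := meas_rowSq hF
  have mb : Measurable b := mind.mul (ma.mul (mr.comp measurable_snd))
  have hbC : ∀ q, |b q| ≤ C ^ 2 * C ^ 2 := by
    intro q
    have h1 := mul_le_mul (aC q) (rC q.2) (abs_nonneg _) (by positivity)
    by_cases h : F q.1 q.2 = 0
    · simp only [hb, h, if_true, one_mul, abs_mul]
      exact h1
    · simp only [hb, h, if_false, zero_mul, abs_zero]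
      positivity
  have ib : Integrable b := integrable_bdd mb hbC
  have ic : Integrable (fun q : I × I => (if F q.1 q.2 = 0 then 1 else 0) * compK F F q ^ 2) := by
    obtain ⟨K, hK⟩ := bdd_compK hF hF
    refine integrable_bdd (mind.mul ((meas_compK hF hF).pow_const 2)) (C := K ^ 2) fun q => ?_
    have h2 : compK F F q ^ 2 ≤ K ^ 2 := by
      rw [← sq_abs]
      exact pow_le_pow_left₀ (abs_nonneg _) (hK q) 2
    by_cases h : F q.1 q.2 = 0
    · simp only [h, if_true, one_mul, abs_pow, sq_abs]
      exact h2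
    · simp only [h, if_false, zero_mul, abs_zero]
      positivity
  have hle : ∫ q : I × I, (if F q.1 q.2 = 0 then 1 else 0) * compK F F q ^ 2 ≤ ∫ q, b q := by
    refine integral_mono ic ib fun q => ?_
    by_cases h : F q.1 q.2 = 0
    · simp only [hb, h, if_true, one_mul]
      exact hpt q
    · simp [hb, h]
  have hfub : ∫ q, b q = ∫ z, ∫ x, b (x, z) :=
    integral_prod_symm (μ := (volume : Measure I)) (ν := (volume : Measure I)) b ib
  have hinner : ∀ z, ∫ x, b (x, z) ≤ rowSq F z * ((∫ q : I × I, F q.1 q.2 ^ 2) / 2) := by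
    intro z
    have h1 := cut_le hF (hE z)
    have h2 : ∫ x, b (x, z) = rowSq F z * ∫ q : I × I, (if q.1 ∈ {y : I | F y z ≠ 0} then 0 else 1) *
        ((if q.2 ∈ {y : I | F y z ≠ 0} then 1 else 0) * F q.1 q.2 ^ 2) := by
      have m1 : Measurable (fun q : I × I => (if q.1 ∈ {y : I | F y z ≠ 0} then (0 : ℝ) else 1)) :=
        Measurable.ite (measurable_fst (hE z)) measurable_const measurable_const
      have m2 : Measurable (fun q : I × I => (if q.2 ∈ {y : I | F y z ≠ 0} then (1 : ℝ) else 0)) :=
        Measurable.ite (measurable_snd (hE z)) measurable_const measurable_const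
      have i4 : Integrable (fun q : I × I => (if q.1 ∈ {y : I | F y z ≠ 0} then (0 : ℝ) else 1) *
          ((if q.2 ∈ {y : I | F y z ≠ 0} then 1 else 0) * F q.1 q.2 ^ 2)) := by
        refine integrable_bdd (m1.mul (m2.mul (hF.meas.pow_const 2))) (C := C ^ 2) fun q => ?_
        have h3 := hFsq q.1 q.2
        by_cases h4 : F q.1 z = 0 <;> by_cases h5 : F q.2 z = 0 <;>
          simp [h4, h5, h3, hC0]
      rw [show (volume : Measure (I × I)) = (volume : Measure I).prod volume from rfl,
        integral_prod (μ := (volume : Measure I)) (ν := (volume : Measure I)) _ i4,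
        ← integral_const_mul]
      refine integral_congr_ae (Filter.Eventually.of_forall fun x => ?_)
      simp only [hb, ha, Set.mem_ofPred_eq]
      by_cases h4 : F x z = 0
      · simp only [h4, if_true, ne_eq, not_true_eq_false, if_false, one_mul]
        ring
      · simp [h4]
    rw [h2]
    refine mul_le_mul_of_nonneg_left (le_trans (le_of_eq ?_) h1) (rowSq_nonneg F z)
    refine integral_congr_ae (Filter.Eventually.of_forall fun q => ?_)
    by_cases h4 : F q.1 z = 0 <;> by_cases h5 : F q.2 z = 0 <;> simp [h4, h5]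
  have ib2 : Integrable (fun z => ∫ x, b (x, z)) := ib.integral_prod_right
  have h3 : ∫ z, ∫ x, b (x, z) ≤ ∫ z, rowSq F z * ((∫ q : I × I, F q.1 q.2 ^ 2) / 2) :=
    integral_mono ib2 ((rowSq_integrable hF).mul_const _) hinner
  rw [integral_mul_const, integral_rowSq hF] at h3
  rw [hfub] at hle
  calc _ ≤ _ := hle
    _ ≤ _ := h3
    _ = _ := by ring

lemma tri_mixed_sq_le {N D : I → I → ℝ} (hN : IsKer N) (hD : IsKer D)
    (hdisj : ∀ x y, N x y ≠ 0 → D x y = 0) :
    tri N N D ^ 2 ≤ (∫ q : I × I, D q.1 q.2 ^ 2) * ((∫ q : I × I, N q.1 q.2 ^ 2) ^ 2 / 2) := by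
  classical
  have mind : Measurable (fun q : I × I => (if N q.1 q.2 = 0 then (1 : ℝ) else 0)) :=
    Measurable.ite (measurableSet_eq_fun hN.meas measurable_const) measurable_const
      measurable_const
  set g : I × I → ℝ := fun q => (if N q.1 q.2 = 0 then 1 else 0) * compK N N q with hg
  have e1 : ∀ q, D q.1 q.2 * compK N N q = D q.1 q.2 * g q := by
    intro q
    by_cases h : N q.1 q.2 = 0
    · simp [hg, h]
    · simp [hdisj _ _ h]
  have e2 : ∀ q, g q ^ 2 = (if N q.1 q.2 = 0 then 1 else 0) * compK N N q ^ 2 := by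
    intro q
    by_cases h : N q.1 q.2 = 0 <;> simp [hg, h]
  obtain ⟨K, hK⟩ := bdd_compK hN hN
  have mg : Measurable g := mind.mul (meas_compK hN hN)
  have bg : ∀ q, |g q| ≤ K := by
    intro q
    have hK0 : 0 ≤ K := (abs_nonneg _).trans (hK q)
    by_cases h : N q.1 q.2 = 0
    · simp only [hg, h, if_true, one_mul]
      exact hK q
    · simp [hg, h, hK0]
  have i1 : Integrable (fun q => g q ^ 2) := integrable_bdd (mg.pow_const 2) (C := K ^ 2)
    fun q => by rw [abs_pow]; exact pow_le_pow_left₀ (abs_nonneg _) (bg q) 2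
  have i2 : Integrable (fun q : I × I => D q.1 q.2 * g q) := by
    have h := mul_compK_integrable hN hN hD
    exact h.congr (Filter.Eventually.of_forall e1)
  have h := cauchy_schwarz hD.integrable_sq i1 i2
  have h2 := key_L hN
  rw [tri_eq_compK hN hN hD]
  have e3 : ∫ q : I × I, D q.1 q.2 * compK N N q = ∫ q : I × I, D q.1 q.2 * g q :=
    integral_congr_ae (Filter.Eventually.of_forall e1)
  have e4 : ∫ q, g q ^ 2 = ∫ q : I × I, (if N q.1 q.2 = 0 then 1 else 0) * compK N N q ^ 2 :=
    integral_congr_ae (Filter.Eventually.of_forall e2)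
  rw [e3]
  rw [e4] at h
  refine h.trans (mul_le_mul_of_nonneg_left h2 (integral_nonneg fun q => sq_nonneg _))

/-- Linearity in the first argument. -/
lemma tri_sub_mul {F F' G H : I → I → ℝ} (hF : IsKer F) (hF' : IsKer F') (hG : IsKer G)
    (hH : IsKer H) (c : ℝ) :
    tri (fun x y => F x y - c * F' x y) G H = tri F G H - c * tri F' G H := by
  unfold tri
  rw [← integral_const_mul, ← integral_sub (integrable_tri hF hG hH)
    ((integrable_tri hF' hG hH).const_mul c)]
  refine integral_congr_ae (Filter.Eventually.of_forall fun p => ?_)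
  simp only
  ring

lemma tri_expand {N D : I → I → ℝ} (hN : IsKer N) (hD : IsKer D) (c : ℝ) :
    tri (fun x y => N x y - c * D x y) (fun x y => N x y - c * D x y)
      (fun x y => N x y - c * D x y) =
      tri N N N - 3 * c * tri N N D + 3 * c ^ 2 * tri N D D - c ^ 3 * tri D D D := by
  have hX : IsKer (fun x y => N x y - c * D x y) := hN.sub (hD.const_mul c)
  set X : I → I → ℝ := fun x y => N x y - c * D x y with hXdef
  have e1 : ∀ {G H : I → I → ℝ}, IsKer G → IsKer H → tri X G H = tri N G H - c * tri D G H :=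
    fun hG hH => tri_sub_mul hN hD hG hH c
  have s1 : tri N D N = tri N N D := tri_cycle hN hD hN
  have s2 : tri D N N = tri N N D := (tri_cycle hN hN hD).symm
  have s3 : tri D D N = tri N D D := tri_cycle hD hD hN
  have s4 : tri D N D = tri N D D := (tri_cycle hD hN hD).trans s3
  have f1 : tri N X X = tri X N X := tri_cycle hN hX hX
  have f2 : tri D X X = tri X D X := tri_cycle hD hX hX
  have f3 : tri N N X = tri X N N := tri_cycle hN hN hX
  have f4 : tri D N X = tri X D N := tri_cycle hD hN hX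
  have f5 : tri N D X = tri X N D := tri_cycle hN hD hX
  have f6 : tri D D X = tri X D D := tri_cycle hD hD hX
  rw [e1 hX hX, f1, f2, e1 hN hX, e1 hD hX, f3, f4, f5, f6, e1 hN hN, e1 hD hN, e1 hN hD, e1 hD hD,
    s1, s2, s3, s4]
  ring

lemma tri_nonneg {F G H : I → I → ℝ} (hF : ∀ x y, 0 ≤ F x y) (hG : ∀ x y, 0 ≤ G x y)
    (hH : ∀ x y, 0 ≤ H x y) : 0 ≤ tri F G H :=
  integral_nonneg fun _ => mul_nonneg (mul_nonneg (hF _ _) (hG _ _)) (hH _ _)

lemma tri_one : tri (fun _ _ => 1) (fun _ _ => 1) (fun _ _ => 1) = 1 := by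
  simp [tri]

lemma tri_one_one {X : I → I → ℝ} (hX : IsKer X) :
    tri X (fun _ _ => 1) (fun _ _ => 1) = ∫ q : I × I, X q.1 q.2 := by
  rw [tri_eq_compK hX (isKer_const 1) (isKer_const 1)]
  have h1 : ∀ q : I × I, (1 : ℝ) * compK X (fun _ _ => 1) q = ∫ y, X q.1 y := by
    intro q
    simp [compK]
  simp only [h1]
  have h2 : Integrable (fun q : I × I => ∫ y, X q.1 y) := by
    obtain ⟨C, hC⟩ := bdd_row hX
    exact integrable_bdd ((meas_row hX).comp measurable_fst) (fun q => hC q.1)
  rw [show (volume : Measure (I × I)) = (volume : Measure I).prod volume from rfl,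
    integral_prod (μ := (volume : Measure I)) (ν := (volume : Measure I)) _ h2]
  simp only [integral_const, probReal_univ, one_smul]
  exact integral_row hX

lemma tri_one_right {X : I → I → ℝ} (hX : IsKer X) :
    (∫ q : I × I, X q.1 q.2) ^ 2 ≤ tri X (fun _ _ => 1) X := by
  rw [tri_eq_compK hX (isKer_const 1) hX]
  obtain ⟨C, hC⟩ := bdd_row hX
  obtain ⟨C', hC'⟩ := hX.bdd
  have h1 : ∀ q : I × I, X q.1 q.2 * compK X (fun _ _ => 1) q = X q.1 q.2 * ∫ y, X q.1 y := by
    intro q
    simp [compK]
  simp only [h1]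
  have h2 : Integrable (fun q : I × I => X q.1 q.2 * ∫ y, X q.1 y) := by
    refine integrable_bdd (hX.meas.mul ((meas_row hX).comp measurable_fst)) (C := C' * C)
      fun q => ?_
    rw [abs_mul]
    have a1 := hC' q.1 q.2
    exact mul_le_mul a1 (hC q.1) (abs_nonneg _) ((abs_nonneg _).trans a1)
  have i1 : Integrable (fun x : I => (∫ y, X x y) ^ 2) :=
    integrable_bdd ((meas_row hX).pow_const 2) (C := C ^ 2)
      fun q => by rw [abs_pow]; exact pow_le_pow_left₀ (abs_nonneg _) (hC q) 2
  have i2 : Integrable (fun x : I => (∫ y, X x y) * 1) := by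
    simp only [mul_one]
    exact integrable_bdd (meas_row hX) hC
  have h3 := cauchy_schwarz (g := fun _ => (1 : ℝ)) i1 (by simp) i2
  simp only [mul_one, one_pow, integral_const, probReal_univ, one_smul] at h3
  rw [show (volume : Measure (I × I)) = (volume : Measure I).prod volume from rfl,
    integral_prod (μ := (volume : Measure I)) (ν := (volume : Measure I)) _ h2]
  have e : ∀ x, ∫ z, X x z * ∫ y, X x y = (∫ y, X x y) ^ 2 := by
    intro x
    rw [integral_mul_const]
    ring
  simp only [e]
  have h4 := integral_row hX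
  rw [show (volume : Measure (I × I)) = (volume : Measure I).prod volume from rfl] at h4
  rw [← h4]
  exact h3

end Pool.Agent.H99.LowerTail
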