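import Pool.Agent.H99.Box

open MeasureTheory unitInterval Set

namespace Pool.Agent.H99.LowerTail

/-! ### Estimates for `lfun b a = logit b - logit a` -/

lemma lfun_swap {a b : ℝ} (ha0 : 0 < a) (ha1 : a < 1) (hb0 : 0 < b) (hb1 : b < 1) :
    lfun b a = -lfun a b := by
  rw [lfun_eq hb0 hb1 ha0 ha1, lfun_eq ha0 ha1 hb0 hb1]
  ring

lemma lfun_mvt {x y : ℝ} (hx : 0 < x) (hxy : x < y) (hy : y < 1) :
    ∃ u ∈ Ioo x y, lfun y x = (y - x) * (1 / (u * (1 - u))) := by
  have hx1 : x < 1 := by linarith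
  have hy0 : 0 < y := by linarith
  obtain ⟨u, hu, hd⟩ := exists_hasDerivAt_eq_slope (fun t => -lfun y t)
    (fun t => 1 / (t * (1 - t))) hxy
    (by
      intro t ht
      have ht0 : 0 < t := by linarith [ht.1]
      have ht1 : t < 1 := by linarith [ht.2]
      exact (hasDerivAt_lfun hy0 hy ht0 ht1).neg.continuousAt.continuousWithinAt)
    (by
      intro t ht
      have ht0 : 0 < t := by linarith [ht.1]
      have ht1 : t < 1 := by linarith [ht.2]
      exact (hasDerivAt_lfun hy0 hy ht0 ht1).neg.congr_deriv (by ring))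
  refine ⟨u, hu, ?_⟩
  rw [lfun_self hy0 hy] at hd
  have h1 : 0 < y - x := by linarith
  rw [eq_div_iff h1.ne'] at hd
  linarith

lemma lfun_le_of {x y m : ℝ} (hx : 0 < x) (hxy : x ≤ y) (hy : y < 1)
    (hm : ∀ u, x ≤ u → u ≤ y → m ≤ u * (1 - u)) : m * lfun y x ≤ y - x := by
  rcases hxy.eq_or_lt with rfl | h
  · rw [lfun_self hx hy]; simp
  · obtain ⟨u, hu, e⟩ := lfun_mvt hx h hy
    have hu0 : 0 < u := hx.trans hu.1
    have hu1 : u < 1 := hu.2.trans hy
    have h1 := hm u hu.1.le hu.2.le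
    have h2 : 0 < u * (1 - u) := mul_pos hu0 (by linarith)
    rw [e]
    have h3 : m * (1 / (u * (1 - u))) ≤ 1 := by
      rw [mul_one_div, div_le_one h2]
      exact h1
    nlinarith

lemma le_lfun_of {x y m : ℝ} (hx : 0 < x) (hxy : x ≤ y) (hy : y < 1)
    (hm : ∀ u, x ≤ u → u ≤ y → u * (1 - u) ≤ m) : y - x ≤ m * lfun y x := by
  rcases hxy.eq_or_lt with rfl | h
  · rw [lfun_self hx hy]; simp
  · obtain ⟨u, hu, e⟩ := lfun_mvt hx h hy
    have hu0 : 0 < u := hx.trans hu.1
    have hu1 : u < 1 := hu.2.trans hy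
    have h1 := hm u hu.1.le hu.2.le
    have h2 : 0 < u * (1 - u) := mul_pos hu0 (by linarith)
    rw [e]
    have h3 : 1 ≤ m * (1 / (u * (1 - u))) := by
      rw [mul_one_div, one_le_div h2]
      exact h1
    nlinarith

lemma lfun_add {x y z : ℝ} (hx0 : 0 < x) (hx1 : x < 1) (hy0 : 0 < y) (hy1 : y < 1) (hz0 : 0 < z)
    (hz1 : z < 1) : lfun z x = lfun z y + lfun y x := by
  rw [lfun_eq hz0 hz1 hx0 hx1, lfun_eq hz0 hz1 hy0 hy1, lfun_eq hy0 hy1 hx0 hx1]
  ring

/-- Monotonicity of `lfun b a` in both arguments. -/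
lemma lfun_mono {a a' b b' : ℝ} (ha : 0 < a) (haa : a ≤ a') (hab : a' < b) (hbb : b ≤ b')
    (hb1 : b' < 1) : lfun b a' ≤ lfun b' a := by
  have ha' : 0 < a' := by linarith
  have hb0 : 0 < b := by linarith
  have h1 : lfun b a' ≤ lfun b a := lfun_anti hb0 (by linarith) ha haa (by linarith)
  have h2 : lfun b a ≤ lfun b' a := lfun_mono_left hb0 hbb hb1 ha (by linarith)
  linarith

/-! ### The function `c (logit b - logit a) (b - a) - I_b(a)` -/

/-- auxiliary function, to bound the parameter `τ` -/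
noncomputable def Gc (c a b : ℝ) : ℝ := c * lfun b a * (b - a) - relEnt b a

lemma hasDerivAt_Gc_a {c a b : ℝ} (ha0 : 0 < a) (ha1 : a < 1) (hb0 : 0 < b) (hb1 : b < 1) :
    HasDerivAt (fun a => Gc c a b) ((1 - c) * lfun b a - c * (b - a) * (1 / (a * (1 - a)))) a := by
  have h1 := hasDerivAt_lfun hb0 hb1 ha0 ha1
  have h2 := hasDerivAt_relEnt hb0 hb1 ha0 ha1
  have h3 : HasDerivAt (fun a : ℝ => b - a) (-1) a := by
    simpa using (hasDerivAt_id a).const_sub b
  have h4 := ((h1.const_mul c).mul h3).sub h2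
  refine h4.congr_deriv ?_
  ring

lemma hasDerivAt_lfun_left {a b : ℝ} (ha0 : 0 < a) (ha1 : a < 1) (hb0 : 0 < b) (hb1 : b < 1) :
    HasDerivAt (fun b => lfun b a) (1 / (b * (1 - b))) b := by
  have h1 := (hasDerivAt_lfun ha0 ha1 hb0 hb1).neg
  have h2 : (fun b => lfun b a) =ᶠ[nhds b] (fun b => -lfun a b) := by
    filter_upwards [Ioo_mem_nhds hb0 hb1] with t ht
    exact lfun_swap ha0 ha1 ht.1 ht.2
  refine (h1.congr_of_eventuallyEq h2).congr_deriv ?_
  ring

lemma hasDerivAt_relEnt_left {a b : ℝ} (hb0 : 0 < b) (hb1 : b < 1) :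
    HasDerivAt (fun b => relEnt b a) ((b - a) * (1 / (b * (1 - b)))) b := by
  have h0 : HasDerivAt (fun b : ℝ => 1 - b) (-1) b := by
    simpa using (hasDerivAt_id b).const_sub 1
  have h1 : HasDerivAt (fun b : ℝ => a * Real.log a + (1 - a) * Real.log (1 - a) -
      a * Real.log b - (1 - a) * Real.log (1 - b))
      (-(a * (1 / b)) - (1 - a) * (-1 / (1 - b))) b := by
    have h2 := ((hasDerivAt_id b).log hb0.ne').const_mul a
    have h3 := (h0.log (by linarith : (1 - b) ≠ 0)).const_mul (1 - a)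
    have h4 := ((hasDerivAt_const b (a * Real.log a + (1 - a) * Real.log (1 - a))).sub h2).sub h3
    refine h4.congr_deriv ?_
    simp
  have h2 : (fun b => relEnt b a) =ᶠ[nhds b] (fun b : ℝ => a * Real.log a +
      (1 - a) * Real.log (1 - a) - a * Real.log b - (1 - a) * Real.log (1 - b)) := by
    filter_upwards [Ioo_mem_nhds hb0 hb1] with t ht
    exact relEnt_eq ht.1 ht.2 a
  refine (h1.congr_of_eventuallyEq h2).congr_deriv ?_
  have h3 : (1 - b) ≠ 0 := by linarith
  field_simp
  ring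

lemma hasDerivAt_Gc_b {c a b : ℝ} (ha0 : 0 < a) (ha1 : a < 1) (hb0 : 0 < b) (hb1 : b < 1) :
    HasDerivAt (fun b => Gc c a b) (c * lfun b a - (1 - c) * ((b - a) * (1 / (b * (1 - b))))) b := by
  have h1 := hasDerivAt_lfun_left ha0 ha1 hb0 hb1
  have h2 := hasDerivAt_relEnt_left (a := a) hb0 hb1
  have h3 : HasDerivAt (fun b : ℝ => b - a) 1 b := (hasDerivAt_id b).sub_const a
  have h4 := ((h1.const_mul c).mul h3).sub h2
  refine h4.congr_deriv ?_
  ring

lemma Gc_anti_b {c a b b' L M : ℝ} (hc0 : 0 ≤ c) (hc1 : c ≤ 1) (ha0 : 0 < a) (hab : a < b)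
    (hbb : b ≤ b') (hb1 : b' < 1) (hL : lfun b' a ≤ L)
    (hM : ∀ x, b ≤ x → x ≤ b' → x * (1 - x) ≤ M) (h : c * L * M ≤ (1 - c) * (b - a)) :
    Gc c a b' ≤ Gc c a b := by
  have hL0 : 0 ≤ L := (lfun_nonneg hb1 ha0 (by linarith)).trans hL
  have hM0 : 0 ≤ M := le_trans (mul_nonneg (by linarith) (by linarith)) (hM b le_rfl hbb)
  have hanti : AntitoneOn (fun b => Gc c a b) (Icc b b') := by
    refine antitoneOn_of_deriv_nonpos (convex_Icc b b') ?_ ?_ ?_
    · intro y hy
      exact (hasDerivAt_Gc_b ha0 (by linarith) (by linarith [hy.1])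
        (by linarith [hy.2])).continuousAt.continuousWithinAt
    · intro y hy
      rw [interior_Icc] at hy
      exact (hasDerivAt_Gc_b ha0 (by linarith) (by linarith [hy.1])
        (by linarith [hy.2])).differentiableAt.differentiableWithinAt
    · intro y hy
      rw [interior_Icc] at hy
      have hy0 : 0 < y := by linarith [hy.1]
      have hy1 : y < 1 := by linarith [hy.2]
      rw [(hasDerivAt_Gc_b ha0 (by linarith) hy0 hy1).deriv]
      have h1 : lfun y a ≤ L :=
        (lfun_mono_left hy0 hy.2.le hb1 ha0 (by linarith)).trans hL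
      have h2 := hM y hy.1.le hy.2.le
      have h3 : 0 < y * (1 - y) := mul_pos hy0 (by linarith)
      have h4 : c * lfun y a * (y * (1 - y)) ≤ (1 - c) * (y - a) := by
        calc c * lfun y a * (y * (1 - y)) ≤ c * L * M :=
              mul_le_mul (mul_le_mul_of_nonneg_left h1 hc0) h2 h3.le (by positivity)
          _ ≤ (1 - c) * (b - a) := h
          _ ≤ (1 - c) * (y - a) := mul_le_mul_of_nonneg_left (by linarith [hy.1]) (by linarith)
      have h5 : c * lfun y a ≤ (1 - c) * (y - a) / (y * (1 - y)) := by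
        rw [le_div_iff₀ h3]
        exact h4
      have h6 : (1 - c) * (y - a) / (y * (1 - y)) = (1 - c) * ((y - a) * (1 / (y * (1 - y)))) := by
        ring
      linarith
  exact hanti ⟨le_rfl, hbb⟩ ⟨hbb, le_rfl⟩ hbb

lemma Gc_anti_a {c a a' b L M : ℝ} (hc0 : 0 ≤ c) (hc1 : c ≤ 1) (ha0 : 0 < a) (haa : a ≤ a')
    (hab : a' < b) (hb1 : b < 1) (hL : lfun b a ≤ L)
    (hM : ∀ x, a ≤ x → x ≤ a' → x * (1 - x) ≤ M) (h : (1 - c) * L * M ≤ c * (b - a')) :
    Gc c a' b ≤ Gc c a b := by
  have hb0 : 0 < b := by linarith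
  have hL0 : 0 ≤ L := (lfun_nonneg hb1 ha0 (by linarith)).trans hL
  have hM0 : 0 ≤ M := le_trans (mul_nonneg (by linarith) (by linarith)) (hM a le_rfl haa)
  have hanti : AntitoneOn (fun a => Gc c a b) (Icc a a') := by
    refine antitoneOn_of_deriv_nonpos (convex_Icc a a') ?_ ?_ ?_
    · intro y hy
      exact (hasDerivAt_Gc_a (by linarith [hy.1]) (by linarith [hy.2]) hb0
        hb1).continuousAt.continuousWithinAt
    · intro y hy
      rw [interior_Icc] at hy
      exact (hasDerivAt_Gc_a (by linarith [hy.1]) (by linarith [hy.2]) hb0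
        hb1).differentiableAt.differentiableWithinAt
    · intro y hy
      rw [interior_Icc] at hy
      have hy0 : 0 < y := by linarith [hy.1]
      have hy1 : y < 1 := by linarith [hy.2]
      rw [(hasDerivAt_Gc_a hy0 hy1 hb0 hb1).deriv]
      have h1 : lfun b y ≤ L := (lfun_anti hb0 hb1 ha0 hy.1.le hy1).trans hL
      have h2 := hM y hy.1.le hy.2.le
      have h3 : 0 < y * (1 - y) := mul_pos hy0 (by linarith)
      have h4 : (1 - c) * lfun b y * (y * (1 - y)) ≤ c * (b - y) := by
        calc (1 - c) * lfun b y * (y * (1 - y)) ≤ (1 - c) * L * M :=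
              mul_le_mul (mul_le_mul_of_nonneg_left h1 (by linarith)) h2 h3.le
                (mul_nonneg (by linarith) hL0)
          _ ≤ c * (b - a') := h
          _ ≤ c * (b - y) := mul_le_mul_of_nonneg_left (by linarith [hy.2]) hc0
      have h5 : (1 - c) * lfun b y ≤ c * (b - y) / (y * (1 - y)) := by
        rw [le_div_iff₀ h3]
        exact h4
      have h6 : c * (b - y) / (y * (1 - y)) = c * (b - y) * (1 / (y * (1 - y))) := by
        ring
      linarith
  exact hanti ⟨le_rfl, haa⟩ ⟨haa, le_rfl⟩ haa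

/-! ### Translation of the relative entropy -/

lemma relEnt_translate {a a' x : ℝ} (ha0 : 0 < a) (haa : a ≤ a') (hx : 0 ≤ x)
    (hs : a' + x ≤ 1 / 2) : relEnt a' (a' + x) ≤ relEnt a (a + x) := by
  rcases hx.eq_or_lt with rfl | hx0
  · rw [add_zero, add_zero, relEnt_self (by linarith) (by linarith),
      relEnt_self ha0 (by linarith)]
  have hd : ∀ t, 0 < t → t + x ≤ 1 / 2 → HasDerivAt (fun t => relEnt t (t + x))
      (lfun (t + x) t - x * (1 / (t * (1 - t)))) t := by
    intro t ht0 htx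
    have ht1 : t < 1 := by linarith
    have k1 : HasDerivAt (fun t : ℝ => t + x) 1 t := (hasDerivAt_id t).add_const x
    have k2 : HasDerivAt (fun t : ℝ => 1 - (t + x)) (-1) t := by
      simpa using k1.const_sub 1
    have k3 : HasDerivAt (fun t : ℝ => 1 - t) (-1) t := by
      simpa using (hasDerivAt_id t).const_sub 1
    have h1 : HasDerivAt (fun t : ℝ => (t + x) * Real.log (t + x))
        ((Real.log (t + x) + 1) * 1) t :=
      HasDerivAt.comp (h₂ := fun y : ℝ => y * Real.log y) t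
        (Real.hasDerivAt_mul_log (show (t + x) ≠ 0 by linarith)) k1
    have h2 : HasDerivAt (fun t : ℝ => (1 - (t + x)) * Real.log (1 - (t + x)))
        ((Real.log (1 - (t + x)) + 1) * (-1)) t :=
      HasDerivAt.comp (h₂ := fun y : ℝ => y * Real.log y) t
        (Real.hasDerivAt_mul_log (show (1 - (t + x)) ≠ 0 by linarith)) k2
    have h3 := k1.mul ((hasDerivAt_id t).log ht0.ne')
    have h4 := k2.mul (k3.log (by linarith : (1 - t) ≠ 0))
    have h5 := ((h1.add h2).sub h3).sub h4
    have h6 : (fun t => relEnt t (t + x)) =ᶠ[nhds t] (fun t : ℝ => (t + x) * Real.log (t + x) +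
        (1 - (t + x)) * Real.log (1 - (t + x)) - (t + x) * Real.log t -
        (1 - (t + x)) * Real.log (1 - t)) := by
      filter_upwards [Ioo_mem_nhds ht0 ht1] with u hu
      exact relEnt_eq hu.1 hu.2 (u + x)
    refine (h5.congr_of_eventuallyEq h6).congr_deriv ?_
    rw [lfun_eq (by linarith) (by linarith) ht0 ht1]
    have h7 : (1 - t) ≠ 0 := by linarith
    simp only [id]
    field_simp
    ring
  have hanti : AntitoneOn (fun t => relEnt t (t + x)) (Icc a a') := by
    refine antitoneOn_of_deriv_nonpos (convex_Icc a a') ?_ ?_ ?_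
    · intro y hy
      exact (hd y (by linarith [hy.1]) (by linarith [hy.2])).continuousAt.continuousWithinAt
    · intro y hy
      rw [interior_Icc] at hy
      exact (hd y (by linarith [hy.1])
        (by linarith [hy.2])).differentiableAt.differentiableWithinAt
    · intro y hy
      rw [interior_Icc] at hy
      have hy0 : 0 < y := by linarith [hy.1]
      have hyx : y + x ≤ 1 / 2 := by linarith [hy.2]
      rw [(hd y hy0 hyx).deriv]
      have h1 : y * (1 - y) * lfun (y + x) y ≤ y + x - y := by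
        refine lfun_le_of hy0 (by linarith) (by linarith) ?_
        intro u hu1 hu2
        nlinarith
      have h2 : 0 < y * (1 - y) := mul_pos hy0 (by linarith)
      have h3 : lfun (y + x) y ≤ x / (y * (1 - y)) := by
        rw [le_div_iff₀ h2]
        linarith
      have h4 : x / (y * (1 - y)) = x * (1 / (y * (1 - y))) := by ring
      linarith
  exact hanti ⟨le_rfl, haa⟩ ⟨haa, le_rfl⟩ haa

lemma relEnt_mono_right {p x y : ℝ} (hp0 : 0 < p) (hp1 : p < 1) (hpx : p ≤ x) (hxy : x ≤ y)
    (hy : y < 1) : relEnt p x ≤ relEnt p y := by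
  have hx0 : 0 < x := by linarith
  rw [relEnt_bregman hp0 hp1 hx0 (by linarith) y]
  have h1 := relEnt_nonneg hx0 (by linarith) (by linarith : 0 ≤ y) hy.le
  have h2 : lfun p x ≤ 0 := by
    rw [← lfun_self hp0 hp1]
    exact lfun_anti hp0 hp1 hp0 hpx (by linarith)
  nlinarith

end Pool.Agent.H99.LowerTail
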