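import Pool.Agent.H99.Leaf

open MeasureTheory unitInterval Set

namespace Pool.Agent.H99.LowerTail

lemma poly_W {t u : ℝ} (ht1 : t ≤ 1 / 2) (hu1 : u ≤ 1 / 2) :
    3 * (t + u) - 6 * (t ^ 2 + t * u + u ^ 2) + 4 * (t ^ 3 + t ^ 2 * u + t * u ^ 2 + u ^ 3) ≤
      37 / 50 := by
  nlinarith [mul_nonneg (by linarith : 0 ≤ 1 / 2 - t) (by linarith : 0 ≤ 1 / 2 - u),
    sq_nonneg (t - u), sq_nonneg (t + u - 1 / 2),
    mul_nonneg (by linarith : 0 ≤ 1 - t - u) (sq_nonneg (t - u))]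

lemma quartic_aux {y : ℝ} (h0 : 1 / 2 ≤ y) (h1 : y ≤ 1) :
    3 * y ^ 2 - 6 * y ^ 3 + 4 * y ^ 4 + (y / 2 - 1 / 4) * (y ^ 2 - 3 * (1 - 2 * y) ^ 2) ≤ 3 * (37 / 200) * y := by
  nlinarith [sq_nonneg (y ^ 2 - 29 / 20 * y + 1 / 2), sq_nonneg (y - 7 / 10), sq_nonneg (y - 2/3), mul_nonneg (by linarith : 0 ≤ y - 1 / 2) (sq_nonneg (y - 7 / 10)), mul_nonneg (by linarith : 0 ≤ 1 - y) (sq_nonneg (y - 7 / 10)), mul_nonneg (by linarith : 0 ≤ y - 1 / 2) (by linarith : 0 ≤ 1 - y)]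

lemma poly_V {t u : ℝ} (ht0 : 0 ≤ t) (ht1 : t ≤ 1 / 2) (hu0 : 0 ≤ u) (hu1 : u ≤ 1 / 2) :
    3 * (t ^ 2 + t * u + u ^ 2) - 6 * (t ^ 3 + t ^ 2 * u + t * u ^ 2 + u ^ 3) +
      4 * (t ^ 4 + t ^ 3 * u + t ^ 2 * u ^ 2 + t * u ^ 3 + u ^ 4) ≤ 3 * (37 / 200) * (t + u) := by
  obtain ⟨y, hy⟩ : ∃ y, y = t + u := ⟨_, rfl⟩
  obtain ⟨w, hw⟩ : ∃ w, w = t * u := ⟨_, rfl⟩
  have e : 3 * (t ^ 2 + t * u + u ^ 2) - 6 * (t ^ 3 + t ^ 2 * u + t * u ^ 2 + u ^ 3) +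
      4 * (t ^ 4 + t ^ 3 * u + t ^ 2 * u ^ 2 + t * u ^ 3 + u ^ 4) =
      3 * y ^ 2 - 6 * y ^ 3 + 4 * y ^ 4 - 3 * w * (1 - 2 * y) ^ 2 + 4 * w ^ 2 := by
    rw [hy, hw]; ring
  rw [e, ← hy]
  have hy0 : 0 ≤ y := by linarith
  have hy1 : y ≤ 1 := by linarith
  have hw0 : 0 ≤ w := by rw [hw]; positivity
  have hw1 : w ≤ y ^ 2 / 4 := by rw [hw, hy]; nlinarith [sq_nonneg (t - u)]
  have hw2 : y / 2 - 1 / 4 ≤ w := by rw [hw, hy]; nlinarith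
  have h1 : 4 * w ^ 2 ≤ y ^ 2 * w := by nlinarith
  have h2 : 3 * y ^ 2 - 6 * y ^ 3 + 4 * y ^ 4 - 3 * w * (1 - 2 * y) ^ 2 + 4 * w ^ 2 ≤
      3 * y ^ 2 - 6 * y ^ 3 + 4 * y ^ 4 + w * (y ^ 2 - 3 * (1 - 2 * y) ^ 2) := by linarith
  refine h2.trans ?_
  rcases le_total 0 (y ^ 2 - 3 * (1 - 2 * y) ^ 2) with h | h
  · have h3 := mul_le_mul_of_nonneg_right hw1 h
    have h4 : 0 ≤ y * ((y - 3 / 5) ^ 2 * (3 / 2 - 5 / 4 * y)) :=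
      mul_nonneg hy0 (mul_nonneg (sq_nonneg _) (by linarith))
    nlinarith
  · rcases le_total y (1 / 2) with h' | h'
    · have h4 : w * (y ^ 2 - 3 * (1 - 2 * y) ^ 2) ≤ 0 := mul_nonpos_of_nonneg_of_nonpos hw0 h
      have h5 : 0 ≤ y * (1 - 2 * y) ^ 3 := mul_nonneg hy0 (pow_nonneg (by linarith) 3)
      nlinarith
    · have h4 : w * (y ^ 2 - 3 * (1 - 2 * y) ^ 2) ≤ (y / 2 - 1 / 4) * (y ^ 2 - 3 * (1 - 2 * y) ^ 2) :=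
        mul_le_mul_of_nonpos_right hw2 h
      have h5 := quartic_aux h' hy1
      linarith

/-- the normalized chord cubic is bounded below by the cubic with the worst coefficients -/
lemma norm_cubic {τ t0 t1 x α α1 u1 : ℝ} (hx : 0 ≤ x) (ht0 : 0 < t0) (hτ0 : t0 ≤ τ) (hτ1 : τ ≤ t1)
    (ht1 : t1 ≤ 1 / 2) (hα : 0 ≤ α) (hα1 : α ≤ α1) (hu : u1 = (α1 + t1) * (1 + α1 - t0) ^ 2)
    (hu2 : 37 / 200 ≤ u1)
    (h : 0 ≤ (1 / 2 - t1 + t1 ^ 2 * (1 - 1 / 1.82844)) * x ^ 3 - 1.82844 / 3 * u1 * x ^ 2 +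
      (t0 * u1 - t0 ^ 2 * (t0 ^ 2 + 3 * (1 - t0) ^ 2) / 4) * x -
      (3 * u1 * t1 ^ 2 - t1 ^ 3 * (t1 ^ 2 + 3 * (1 - t1) ^ 2)) / (4 * 1.82844)) :
    0 ≤ ((τ ^ 2 + (1 - τ) ^ 2) / 2 - τ ^ 2 / 1.82844) * x ^ 3 -
      1.82844 / 3 * ((α + τ) * (1 + α - τ) ^ 2) * x ^ 2 +
      (τ * ((α + τ) * (1 + α - τ) ^ 2) - τ ^ 2 * (1 - τ) ^ 2 / 2 -
        τ ^ 2 * (τ ^ 2 + (1 - τ) ^ 2) / 4) * x -
      τ ^ 2 / (4 * 1.82844) * (3 * ((α + τ) * (1 + α - τ) ^ 2) - τ * (τ ^ 2 + 3 * (1 - τ) ^ 2)) := by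
  set u := (α + τ) * (1 + α - τ) ^ 2 with hudef
  have huu : u ≤ u1 := by
    rw [hudef, hu]
    refine mul_le_mul (by linarith) (pow_le_pow_left₀ (by linarith) (by linarith) 2)
      (sq_nonneg _) (by linarith)
  have d1 : 0 ≤ (u1 - u) * (1.82844 / 3 * (x - 3 * τ / (2 * 1.82844)) ^ 2) :=
    mul_nonneg (by linarith) (by positivity)
  have d2 : 0 ≤ ((t1 - τ) * (1 - (t1 + τ) * (1 - 1 / 1.82844))) * x ^ 3 := by
    refine mul_nonneg (mul_nonneg (by linarith) ?_) (by positivity)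
    have : (t1 + τ) * (1 - 1 / 1.82844) ≤ 1 * 1 :=
      mul_le_mul (by linarith) (by norm_num) (by norm_num) (by norm_num)
    linarith
  have hW := poly_W (t := τ) (u := t0) (by linarith) (by linarith)
  have d3 : 0 ≤ (τ - t0) * (u1 - 1 / 4 * (3 * (τ + t0) - 6 * (τ ^ 2 + τ * t0 + t0 ^ 2) +
      4 * (τ ^ 3 + τ ^ 2 * t0 + τ * t0 ^ 2 + t0 ^ 3))) * x :=
    mul_nonneg (mul_nonneg (by linarith) (by linarith)) hx
  have hV := poly_V (t := t1) (u := τ) (by linarith) (by linarith) (by linarith) (by linarith)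
  have d4 : 0 ≤ (t1 - τ) * (3 * u1 * (t1 + τ) - (3 * (t1 ^ 2 + t1 * τ + τ ^ 2) -
      6 * (t1 ^ 3 + t1 ^ 2 * τ + t1 * τ ^ 2 + τ ^ 3) +
      4 * (t1 ^ 4 + t1 ^ 3 * τ + t1 ^ 2 * τ ^ 2 + t1 * τ ^ 3 + τ ^ 4))) / (4 * 1.82844) := by
    refine div_nonneg (mul_nonneg (by linarith) ?_) (by norm_num)
    have : 3 * (37 / 200) * (t1 + τ) ≤ 3 * u1 * (t1 + τ) :=
      mul_le_mul_of_nonneg_right (by linarith) (by linarith)
    linarith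
  have e : ((τ ^ 2 + (1 - τ) ^ 2) / 2 - τ ^ 2 / 1.82844) * x ^ 3 -
      1.82844 / 3 * u * x ^ 2 +
      (τ * u - τ ^ 2 * (1 - τ) ^ 2 / 2 - τ ^ 2 * (τ ^ 2 + (1 - τ) ^ 2) / 4) * x -
      τ ^ 2 / (4 * 1.82844) * (3 * u - τ * (τ ^ 2 + 3 * (1 - τ) ^ 2)) =
      ((1 / 2 - t1 + t1 ^ 2 * (1 - 1 / 1.82844)) * x ^ 3 - 1.82844 / 3 * u1 * x ^ 2 +
      (t0 * u1 - t0 ^ 2 * (t0 ^ 2 + 3 * (1 - t0) ^ 2) / 4) * x -
      (3 * u1 * t1 ^ 2 - t1 ^ 3 * (t1 ^ 2 + 3 * (1 - t1) ^ 2)) / (4 * 1.82844)) +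
      (u1 - u) * (1.82844 / 3 * (x - 3 * τ / (2 * 1.82844)) ^ 2) +
      ((t1 - τ) * (1 - (t1 + τ) * (1 - 1 / 1.82844))) * x ^ 3 +
      (τ - t0) * (u1 - 1 / 4 * (3 * (τ + t0) - 6 * (τ ^ 2 + τ * t0 + t0 ^ 2) +
      4 * (τ ^ 3 + τ ^ 2 * t0 + τ * t0 ^ 2 + t0 ^ 3))) * x +
      (t1 - τ) * (3 * u1 * (t1 + τ) - (3 * (t1 ^ 2 + t1 * τ + τ ^ 2) -
      6 * (t1 ^ 3 + t1 ^ 2 * τ + t1 * τ ^ 2 + τ ^ 3) +
      4 * (t1 ^ 4 + t1 ^ 3 * τ + t1 ^ 2 * τ ^ 2 + t1 * τ ^ 3 + τ ^ 4))) / (4 * 1.82844) := by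
    ring
  rw [e]
  linarith

/-- the chord cubic in normalized variables -/
lemma unnorm_cubic {a b τ D δ : ℝ} (hb : b = a + D) (hD : 0 < D)
    (h : 0 ≤ ((τ ^ 2 + (1 - τ) ^ 2) / 2 - τ ^ 2 / 1.82844) * (δ / D) ^ 3 -
      1.82844 / 3 * ((a / D + τ) * (1 + a / D - τ) ^ 2) * (δ / D) ^ 2 +
      (τ * ((a / D + τ) * (1 + a / D - τ) ^ 2) - τ ^ 2 * (1 - τ) ^ 2 / 2 -
        τ ^ 2 * (τ ^ 2 + (1 - τ) ^ 2) / 4) * (δ / D) -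
      τ ^ 2 / (4 * 1.82844) * (3 * ((a / D + τ) * (1 + a / D - τ) ^ 2) -
        τ * (τ ^ 2 + 3 * (1 - τ) ^ 2))) :
    0 ≤ ((τ ^ 2 + (1 - τ) ^ 2) / 2 - τ ^ 2 / 1.82844) * D ^ 2 * δ ^ 3 -
        1.82844 / 3 * (a + τ * D) * (a + b - (a + τ * D)) ^ 2 * δ ^ 2 +
        (τ * (a + τ * D) * (a + b - (a + τ * D)) ^ 2 * D -
          τ ^ 2 * (1 - τ) ^ 2 * D ^ 4 / 2 -
          τ ^ 2 * (τ ^ 2 + (1 - τ) ^ 2) * D ^ 4 / 4) * δ -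
        τ ^ 2 * D ^ 2 / (4 * 1.82844) *
          (a ^ 3 + 3 * a * b ^ 2 - (a + τ * D) ^ 3) := by
  have h2 := mul_nonneg (pow_pos hD 5).le h
  refine h2.trans (le_of_eq ?_)
  rw [hb]
  field_simp
  ring


lemma aux_sq {t u : ℝ} (h : t ≤ u) (hu : u ≤ 1 / 2) :
    u ^ 2 + (1 - u) ^ 2 ≤ t ^ 2 + (1 - t) ^ 2 := by
  nlinarith

lemma aux_T {t u : ℝ} (h : t ≤ u) (hu : u ≤ 1 / 2) :
    u ^ 2 + 3 * (1 - u) ^ 2 ≤ t ^ 2 + 3 * (1 - t) ^ 2 := by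
  nlinarith

lemma aux_half {t u : ℝ} (h : t ≤ u) (hu : u ≤ 1 / 2) :
    1 / 2 - u * (1 - u) ≤ 1 / 2 - t * (1 - t) := by
  nlinarith

lemma aux_half_nonneg {u : ℝ} : 0 ≤ 1 / 2 - u * (1 - u) := by
  nlinarith [sq_nonneg (u - 1 / 2)]

lemma aux_par {t u : ℝ} (h : t ≤ u) (hu : u ≤ 1 / 2) : t * (1 - t) ≤ u * (1 - u) := by
  nlinarith

lemma aux_par' {t u : ℝ} (h : t ≤ u) (ht : 1 / 2 ≤ t) : u * (1 - u) ≤ t * (1 - t) := by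
  nlinarith

/-- The tight certificate, with all the conditions replaced by their worst cases on a box. -/
lemma leaf_real {p q a b τ a1 a2 b0 b1 t0 t1 L lt u1 : ℝ} (hp0 : 0 < p) (hp1 : p < 1)
    (ha1 : 0 < a1) (ha1a : a1 ≤ a) (haa2 : a ≤ a2) (ha2b0 : a2 < b0) (hb0b : b0 ≤ b)
    (hbb1 : b ≤ b1) (hb11 : b1 < 1) (hb0h : 1 / 2 ≤ b0) (hbp : b ≤ p)
    (hq : a ^ 3 + 3 * a * b ^ 2 = 4 * q ^ 3)
    (hE : lfun p b * (b - a) ^ 2 = 2 * a * b * lfun b a)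
    (hT0 : relEnt b a = τ * (3 / 2 - τ) * lfun b a * (b - a))
    (hTB : 2 * relEnt p q ≤ relEnt p a + relEnt p b)
    (ht0 : 0 < t0) (hτ0 : t0 ≤ τ) (hτ1 : τ ≤ t1) (ht1 : t1 ≤ 1 / 2)
    (hL : lfun b1 a1 ≤ L)
    (c7 : a2 + t1 * (b1 - a2) ≤ 1 / 2)
    (c8 : L * (t0 ^ 2 + (1 - t0) ^ 2) * (a2 * (1 - a2)) ≤ t0 * (b0 - a2))
    (c9 : L * t1 * (b1 - a1) * (1 / 2 - t0 * (1 - t0)) ≤ relEnt a2 (a2 + t0 * (b0 - a2)))
    (c10 : (t1 ≤ 2 * (b1 * (1 - b1)) ∧ 2 * (a2 * (1 - a2)) ≤ t1 ∧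
      t1 * lfun b0 a1 ≤ 2 * (b0 - a1) + 8 / 3 * (b0 - 1 / 2) ^ 2 * (b0 - a2)) ∨
      L * t1 ≤ (b0 - a2) * (2 + 8 / 3 * (b0 - 1 / 2) ^ 2))
    (hlt : 0 < lt)
    (c11 : 1.41422 * (a2 ^ 3 + 3 * a2 * b1 ^ 2 - (a1 + t0 * (b0 - a1)) ^ 3) ≤
      lt * ((b0 - a2) ^ 2 * (t1 ^ 2 + 3 * (1 - t1) ^ 2)))
    (hu : u1 = (a2 / (b0 - a2) + t1) * (1 + a2 / (b0 - a2) - t0) ^ 2)
    (hu2 : 37 / 200 ≤ u1)
    (c12 : ∀ x, lt / (b1 - a1) < x → x ≤ a2 / (b0 - a2) + t1 →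
      0 ≤ (1 / 2 - t1 + t1 ^ 2 * (1 - 1 / 1.82844)) * x ^ 3 - 1.82844 / 3 * u1 * x ^ 2 +
      (t0 * u1 - t0 ^ 2 * (t0 ^ 2 + 3 * (1 - t0) ^ 2) / 4) * x -
      (3 * u1 * t1 ^ 2 - t1 ^ 3 * (t1 ^ 2 + 3 * (1 - t1) ^ 2)) / (4 * 1.82844)) :
    Cov p q (a + τ * (b - a)) lt (a + τ * (b - a)) := by
  have ha0 : 0 < a := by linarith
  have hb0 : 0 < b := by linarith
  have hab : a < b := by linarith
  have ha_1 : a < 1 := by linarith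
  have hb_1 : b < 1 := by linarith
  have hΛ : lfun p a - lfun p b = lfun b a := by
    rw [lfun_add ha0 ha_1 hb0 hb_1 hp0 hp1]; ring
  have hD0 : 0 < b0 - a2 := by linarith
  have hD : 0 < b - a := by linarith
  have hDlo : b0 - a2 ≤ b - a := by linarith
  have hDhi : b - a ≤ b1 - a1 := by linarith
  have ha2h : a2 ≤ 1 / 2 := by
    have : 0 ≤ t1 * (b1 - a2) := mul_nonneg (by linarith) (by linarith)
    linarith
  have hτpos : 0 < τ := by linarith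
  have hΛL : lfun b a ≤ L := (lfun_mono ha1 ha1a hab hbb1 hb11).trans hL
  have hΛ0 : 0 ≤ lfun b a := lfun_nonneg hb_1 ha0 hab.le
  have hL0 : 0 ≤ L := hΛ0.trans hΛL
  have haa : a * (1 - a) ≤ a2 * (1 - a2) := aux_par haa2 ha2h
  have haa0 : 0 ≤ a * (1 - a) := mul_nonneg ha0.le (by linarith)
  have hτhalf : τ ≤ 1 / 2 := by linarith
  have hs_le : a + τ * (b - a) ≤ a2 + t1 * (b1 - a2) := by
    have h1 : a + τ * (b - a) = (1 - τ) * a + τ * b := by ring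
    have h2 : (1 - τ) * a + τ * b ≤ (1 - τ) * a2 + τ * b1 := by
      have := mul_le_mul_of_nonneg_left haa2 (by linarith : 0 ≤ 1 - τ)
      have := mul_le_mul_of_nonneg_left hbb1 hτpos.le
      linarith
    have h3 : (1 - τ) * a2 + τ * b1 = a2 + τ * (b1 - a2) := by ring
    have h4 : τ * (b1 - a2) ≤ t1 * (b1 - a2) := mul_le_mul_of_nonneg_right hτ1 (by linarith)
    linarith
  have hs_ge : a1 + t0 * (b0 - a1) ≤ a + τ * (b - a) := by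
    have h1 : a + τ * (b - a) = (1 - τ) * a + τ * b := by ring
    have h2 : (1 - τ) * a1 + τ * b0 ≤ (1 - τ) * a + τ * b := by
      have := mul_le_mul_of_nonneg_left ha1a (by linarith : 0 ≤ 1 - τ)
      have := mul_le_mul_of_nonneg_left hb0b hτpos.le
      linarith
    have h3 : (1 - τ) * a1 + τ * b0 = a1 + τ * (b0 - a1) := by ring
    have h4 : t0 * (b0 - a1) ≤ τ * (b0 - a1) := mul_le_mul_of_nonneg_right hτ0 (by linarith)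
    linarith
  have hsh : a + τ * (b - a) ≤ 1 / 2 := hs_le.trans c7
  have hτD : t0 * (b0 - a2) ≤ τ * (b - a) := mul_le_mul hτ0 hDlo hD0.le hτpos.le
  have hτ2 : τ ^ 2 + (1 - τ) ^ 2 ≤ t0 ^ 2 + (1 - t0) ^ 2 := aux_sq hτ0 hτhalf
  have hT2 : t1 ^ 2 + 3 * (1 - t1) ^ 2 ≤ τ ^ 2 + 3 * (1 - τ) ^ 2 := aux_T hτ1 ht1
  refine tight_cov hp0 hp1 ha0 hab hbp hq (by rw [hΛ]; exact hE) (by rw [hΛ]; exact hT0) hTB hτpos
    hτhalf hsh ?_ ?_ ?_ hlt ?_ ?_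
  · -- h1
    rw [hΛ]
    have h1 : lfun b a * (τ ^ 2 + (1 - τ) ^ 2) ≤ L * (t0 ^ 2 + (1 - t0) ^ 2) :=
      mul_le_mul hΛL hτ2 (by positivity) hL0
    have h2 : lfun b a * (τ ^ 2 + (1 - τ) ^ 2) * (a * (1 - a)) ≤
        L * (t0 ^ 2 + (1 - t0) ^ 2) * (a2 * (1 - a2)) :=
      mul_le_mul h1 haa haa0 (by positivity)
    linarith
  · -- h2
    rw [hΛ]
    have h1 : relEnt a2 (a2 + t0 * (b0 - a2)) ≤ relEnt a (a + t0 * (b0 - a2)) := by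
      refine relEnt_translate ha0 haa2 (mul_nonneg ht0.le hD0.le) ?_
      have : t0 * (b0 - a2) ≤ t1 * (b1 - a2) :=
        mul_le_mul (by linarith) (by linarith) hD0.le (by linarith)
      linarith
    have h2 : relEnt a (a + t0 * (b0 - a2)) ≤ relEnt a (a + τ * (b - a)) := by
      refine relEnt_mono_right ha0 ha_1 ?_ (by linarith) (by linarith)
      have : 0 ≤ t0 * (b0 - a2) := mul_nonneg ht0.le hD0.le
      linarith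
    have h3 : lfun b a * τ * (b - a) ≤ L * t1 * (b1 - a1) :=
      mul_le_mul (mul_le_mul hΛL hτ1 hτpos.le hL0) hDhi hD.le
        (mul_nonneg hL0 (by linarith))
    have h4 : 1 / 2 - τ * (1 - τ) ≤ 1 / 2 - t0 * (1 - t0) := aux_half hτ0 hτhalf
    have h5 : 0 ≤ 1 / 2 - τ * (1 - τ) := aux_half_nonneg
    have h6 : lfun b a * τ * (b - a) * (1 / 2 - τ * (1 - τ)) ≤
        L * t1 * (b1 - a1) * (1 / 2 - t0 * (1 - t0)) :=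
      mul_le_mul h3 h4 h5 (mul_nonneg (mul_nonneg hL0 (by linarith)) (by linarith))
    linarith
  · -- h3
    rw [hΛ]
    have hsq : (b0 - 1 / 2) ^ 2 ≤ (b - 1 / 2) ^ 2 :=
      pow_le_pow_left₀ (by linarith) (by linarith) 2
    rcases c10 with ⟨d1, d2, d3⟩ | d
    · have e1 : lfun b a = lfun b b0 + lfun b0 a1 - lfun a a1 := by
        rw [lfun_add ha0 ha_1 (by linarith : 0 < b0) (by linarith) hb0 hb_1,
          lfun_add ha1 (by linarith) ha0 ha_1 (by linarith : 0 < b0) (by linarith)]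
        ring
      have h1 : t1 / 2 * lfun b b0 ≤ b - b0 := by
        refine lfun_le_of (by linarith) hb0b hb_1 ?_
        intro u hu1 hu2
        have k1 := aux_par' (hu2.trans hbb1) (hb0h.trans hu1)
        linarith
      have h2 : a - a1 ≤ t1 / 2 * lfun a a1 := by
        refine le_lfun_of ha1 ha1a ha_1 ?_
        intro u hu1 hu2
        have k1 := aux_par (hu2.trans haa2) ha2h
        linarith
      have h3 : t1 * lfun b a ≤ 2 * (b - a) + 8 / 3 * (b0 - 1 / 2) ^ 2 * (b0 - a2) := by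
        rw [e1]
        linarith
      have h4 : lfun b a * τ ≤ t1 * lfun b a := by
        have := mul_le_mul_of_nonneg_left hτ1 hΛ0
        linarith
      have h5 : 8 / 3 * (b0 - 1 / 2) ^ 2 * (b0 - a2) ≤ 8 / 3 * (b - 1 / 2) ^ 2 * (b - a) :=
        mul_le_mul (by linarith) hDlo hD0.le (by positivity)
      linarith
    · have h1 : lfun b a * τ ≤ L * t1 := mul_le_mul hΛL hτ1 hτpos.le hL0
      have h2 : (b0 - a2) * (2 + 8 / 3 * (b0 - 1 / 2) ^ 2) ≤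
          (b - a) * (2 + 8 / 3 * (b - 1 / 2) ^ 2) :=
        mul_le_mul hDlo (by linarith) (by positivity) hD.le
      linarith
  · -- h4
    have hs0 : 0 ≤ a1 + t0 * (b0 - a1) := by
      have : 0 ≤ t0 * (b0 - a1) := mul_nonneg ht0.le (by linarith)
      linarith
    have h1 : (a1 + t0 * (b0 - a1)) ^ 3 ≤ (a + τ * (b - a)) ^ 3 :=
      pow_le_pow_left₀ hs0 hs_ge 3
    have h2 : a ^ 3 ≤ a2 ^ 3 := pow_le_pow_left₀ ha0.le haa2 3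
    have h3 : a * b ^ 2 ≤ a2 * b1 ^ 2 :=
      mul_le_mul haa2 (pow_le_pow_left₀ hb0.le hbb1 2) (sq_nonneg _) (by linarith)
    have h4 : (b0 - a2) ^ 2 * (t1 ^ 2 + 3 * (1 - t1) ^ 2) ≤
        (b - a) ^ 2 * (τ ^ 2 + 3 * (1 - τ) ^ 2) :=
      mul_le_mul (pow_le_pow_left₀ hD0.le hDlo 2) hT2 (by positivity) (by positivity)
    have h5 := mul_le_mul_of_nonneg_left h4 hlt.le
    linarith
  · -- h5
    intro δ hδ1 hδ2
    refine unnorm_cubic (by ring) hD ?_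
    have hx1 : lt / (b1 - a1) < δ / (b - a) := by
      rw [div_lt_div_iff₀ (by linarith) hD]
      have k1 : lt * (b - a) ≤ lt * (b1 - a1) := mul_le_mul_of_nonneg_left hDhi hlt.le
      have k2 : lt * (b1 - a1) < δ * (b1 - a1) :=
        mul_lt_mul_of_pos_right hδ1 (by linarith)
      linarith
    have hx2 : δ / (b - a) ≤ a2 / (b0 - a2) + t1 := by
      have h1 : δ / (b - a) ≤ a / (b - a) + τ := by
        rw [div_le_iff₀ hD, add_mul, div_mul_cancel₀ _ hD.ne']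
        linarith
      have h2 : a / (b - a) ≤ a2 / (b0 - a2) :=
        div_le_div₀ (by linarith) haa2 hD0 hDlo
      linarith
    have hδ0 : 0 < δ := hlt.trans hδ1
    refine norm_cubic (t0 := t0) (t1 := t1) (α1 := a2 / (b0 - a2)) (u1 := u1) (by positivity) ht0
      hτ0 hτ1 ht1 (by positivity) (div_le_div₀ (by linarith) haa2 hD0 hDlo) hu hu2
      (c12 _ hx1 hx2)

end Pool.Agent.H99.LowerTail
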