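import Mathlib

open MeasureTheory unitInterval

namespace Pool.Agent.H99.LowerTail

/-- A graphon: a symmetric measurable function on the unit square with values in `[0,1]`. -/
structure Graphon where
  /-- the underlying function -/
  toFun : I → I → ℝ
  measurable' : Measurable (fun z : I × I => toFun z.1 z.2)
  symm' : ∀ x y, toFun x y = toFun y x
  nonneg' : ∀ x y, 0 ≤ toFun x y
  le_one' : ∀ x y, toFun x y ≤ 1

instance : CoeFun Graphon fun _ => I → I → ℝ := ⟨Graphon.toFun⟩

/-- The value of a graphon on an unordered pair of vertices placed at the points `x i`. -/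
def edgeVal {V : Type} (W : Graphon) (x : V → I) : Sym2 V → ℝ :=
  Sym2.lift ⟨fun i j => W (x i) (x j), fun i j => W.symm' (x i) (x j)⟩

open Classical in
/-- The density `t(H, W)`: the integral over all placements `x : V → [0,1]` of the vertices of `H`
of the product over the edges `ij` of `H` of `W (x i) (x j)`. -/
noncomputable def homDensity {V : Type} [Fintype V] (H : SimpleGraph V) (W : Graphon) : ℝ :=
  ∫ x : V → I, ∏ e ∈ H.edgeFinset, edgeVal W x e

open Classical in
/-- The number of edges of `H`. -/
noncomputable def numEdges {V : Type} [Fintype V] (H : SimpleGraph V) : ℕ := H.edgeFinset.card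

/-- The relative entropy function
`I_p(x) = x log (x/p) + (1-x) log ((1-x)/(1-p))` (with `0 log 0 = 0`). -/
noncomputable def relEnt (p x : ℝ) : ℝ :=
  x * Real.log (x / p) + (1 - x) * Real.log ((1 - x) / (1 - p))

/-- The cost `E[I_p(W)]` of a graphon. -/
noncomputable def cost (p : ℝ) (W : Graphon) : ℝ := ∫ z : I × I, relEnt p (W z.1 z.2)

/-- The constant graphon `q` is a minimizer of the lower tail variational problem
`inf { E[I_p(W)] : t(H, W) ≤ q ^ e(H) }`: every feasible graphon costs at least `I_p(q)`. -/
def IsMinimizer {V : Type} [Fintype V] (H : SimpleGraph V) (p q : ℝ) : Prop :=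
  ∀ W : Graphon, homDensity H W ≤ q ^ numEdges H → relEnt p q ≤ cost p W

/-- The constant graphon `q` is the unique minimizer of the lower tail variational problem, up to
changing graphons on null sets. -/
def IsUniqueMinimizer {V : Type} [Fintype V] (H : SimpleGraph V) (p q : ℝ) : Prop :=
  IsMinimizer H p q ∧ ∀ W : Graphon, homDensity H W ≤ q ^ numEdges H → cost p W = relEnt p q →
    ∀ᵐ z : I × I, W z.1 z.2 = q

end Pool.Agent.H99.LowerTail
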