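import Pool.Agent.H99.LowerTailDefs

open MeasureTheory unitInterval Set

namespace Pool.Agent.H99.LowerTail

lemma relEnt_eq {p : ℝ} (hp0 : 0 < p) (hp1 : p < 1) (x : ℝ) :
    relEnt p x = x * Real.log x + (1 - x) * Real.log (1 - x) - x * Real.log p -
      (1 - x) * Real.log (1 - p) := by
  unfold relEnt
  have h1 : x * Real.log (x / p) = x * Real.log x - x * Real.log p := by
    rcases eq_or_ne x 0 with rfl | hx
    · simp
    · rw [Real.log_div hx hp0.ne']
      ring
  have h2 : (1 - x) * Real.log ((1 - x) / (1 - p)) =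
      (1 - x) * Real.log (1 - x) - (1 - x) * Real.log (1 - p) := by
    rcases eq_or_ne (1 - x) 0 with hx | hx
    · rw [hx]; simp
    · rw [Real.log_div hx (by linarith)]
      ring
  rw [h1, h2]
  ring

lemma continuous_relEnt {p : ℝ} (hp0 : 0 < p) (hp1 : p < 1) : Continuous (relEnt p) := by
  have h : relEnt p = fun x => x * Real.log x + (1 - x) * Real.log (1 - x) - x * Real.log p -
      (1 - x) * Real.log (1 - p) := funext fun x => relEnt_eq hp0 hp1 x
  rw [h]
  have h1 : Continuous fun x : ℝ => x * Real.log x := Real.continuous_mul_log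
  have h2 : Continuous fun x : ℝ => (1 - x) * Real.log (1 - x) :=
    h1.comp (continuous_const.sub continuous_id)
  fun_prop

lemma relEnt_self {p : ℝ} (hp0 : 0 < p) (hp1 : p < 1) : relEnt p p = 0 := by
  unfold relEnt
  rw [div_self hp0.ne', div_self (by linarith)]
  simp

/-- Gibbs' inequality. -/
lemma relEnt_pos {p x : ℝ} (hp0 : 0 < p) (hp1 : p < 1) (hx0 : 0 ≤ x) (hx1 : x ≤ 1)
    (hne : x ≠ p) : 0 < relEnt p x := by
  have hp' : 0 < 1 - p := by linarith
  have h1 : x / p - 1 < (x / p) * Real.log (x / p) := by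
    refine Real.self_sub_one_lt_mul_log (by positivity) ?_
    intro h
    exact hne ((div_eq_one_iff_eq hp0.ne').1 h)
  have h2 : (1 - x) / (1 - p) - 1 ≤ ((1 - x) / (1 - p)) * Real.log ((1 - x) / (1 - p)) :=
    Real.self_sub_one_le_mul_log (div_nonneg (by linarith) hp'.le)
  have h3 : p * (x / p - 1) < p * ((x / p) * Real.log (x / p)) := mul_lt_mul_of_pos_left h1 hp0
  have h4 : (1 - p) * ((1 - x) / (1 - p) - 1) ≤
      (1 - p) * (((1 - x) / (1 - p)) * Real.log ((1 - x) / (1 - p))) :=
    mul_le_mul_of_nonneg_left h2 hp'.le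
  have e1 : p * (x / p - 1) = x - p := by field_simp
  have e2 : p * ((x / p) * Real.log (x / p)) = x * Real.log (x / p) := by field_simp
  have e3 : (1 - p) * ((1 - x) / (1 - p) - 1) = p - x := by field_simp; ring
  have e4 : (1 - p) * (((1 - x) / (1 - p)) * Real.log ((1 - x) / (1 - p))) =
      (1 - x) * Real.log ((1 - x) / (1 - p)) := by field_simp
  unfold relEnt
  rw [e1, e2] at h3
  rw [e3, e4] at h4
  linarith

lemma relEnt_nonneg {p x : ℝ} (hp0 : 0 < p) (hp1 : p < 1) (hx0 : 0 ≤ x) (hx1 : x ≤ 1) :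
    0 ≤ relEnt p x := by
  rcases eq_or_ne x p with rfl | hne
  · rw [relEnt_self hp0 hp1]
  · exact (relEnt_pos hp0 hp1 hx0 hx1 hne).le

/-- Minus the derivative of `relEnt p`. -/
noncomputable def lfun (p x : ℝ) : ℝ := Real.log ((1 - x) / (1 - p)) - Real.log (x / p)

lemma hasDerivAt_relEnt {p x : ℝ} (hp0 : 0 < p) (hp1 : p < 1) (hx0 : 0 < x) (hx1 : x < 1) :
    HasDerivAt (relEnt p) (-lfun p x) x := by
  have h : relEnt p = fun x => x * Real.log x + (1 - x) * Real.log (1 - x) - x * Real.log p -
      (1 - x) * Real.log (1 - p) := funext fun x => relEnt_eq hp0 hp1 x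
  rw [h]
  have h1 := Real.hasDerivAt_mul_log hx0.ne'
  have h0 : HasDerivAt (fun x : ℝ => 1 - x) (-1) x := by
    simpa using (hasDerivAt_id x).const_sub 1
  have h2 : HasDerivAt (fun x : ℝ => (1 - x) * Real.log (1 - x))
      ((Real.log (1 - x) + 1) * (-1)) x :=
    (Real.hasDerivAt_mul_log (show (1 - x) ≠ 0 by linarith)).comp x h0
  have h3 : HasDerivAt (fun x : ℝ => x * Real.log p) (1 * Real.log p) x :=
    (hasDerivAt_id x).mul_const _
  have h4 : HasDerivAt (fun x : ℝ => (1 - x) * Real.log (1 - p)) ((-1) * Real.log (1 - p)) x :=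
    h0.mul_const _
  have h5 := ((h1.add h2).sub h3).sub h4
  refine h5.congr_deriv ?_
  unfold lfun
  rw [Real.log_div (by linarith) (by linarith), Real.log_div hx0.ne' hp0.ne']
  ring

lemma lfun_strictAnti {p x y : ℝ} (hp0 : 0 < p) (hp1 : p < 1) (hx : 0 < x) (hxy : x < y)
    (hy : y < 1) : lfun p y < lfun p x := by
  unfold lfun
  have hp' : 0 < 1 - p := by linarith
  have h1 : Real.log ((1 - y) / (1 - p)) < Real.log ((1 - x) / (1 - p)) := by
    refine Real.log_lt_log (div_pos (by linarith) hp') ?_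
    exact div_lt_div_of_pos_right (by linarith) hp'
  have h2 : Real.log (x / p) < Real.log (y / p) := by
    refine Real.log_lt_log (by positivity) ?_
    exact div_lt_div_of_pos_right hxy hp0
  linarith

lemma lfun_self {p : ℝ} (hp0 : 0 < p) (hp1 : p < 1) : lfun p p = 0 := by
  unfold lfun
  rw [div_self hp0.ne', div_self (by linarith)]
  simp

lemma lfun_pos {p x : ℝ} (hp1 : p < 1) (hx : 0 < x) (hxp : x < p) : 0 < lfun p x := by
  have h := lfun_strictAnti (p := p) (hx.trans hxp) hp1 hx hxp hp1
  rwa [lfun_self (hx.trans hxp) hp1] at h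

/-- `relEnt p` is strictly decreasing on `[0,p]`. -/
lemma relEnt_strictAntiOn {p : ℝ} (hp0 : 0 < p) (hp1 : p < 1) :
    StrictAntiOn (relEnt p) (Icc 0 p) := by
  refine strictAntiOn_of_deriv_neg (convex_Icc 0 p) (continuous_relEnt hp0 hp1).continuousOn ?_
  intro x hx
  rw [interior_Icc] at hx
  rw [(hasDerivAt_relEnt hp0 hp1 hx.1 (hx.2.trans hp1)).deriv]
  linarith [lfun_pos hp1 hx.1 hx.2]

/-! ### First comparison: scaling the argument -/

/-- The ratio `lfun p' (θ x) / lfun p x` is strictly increasing in `x` on `(0, p)`, if `p' ≤ p` and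
`θ ≤ (p' / (1 - p')) / (p / (1 - p))`. -/
lemma ratio_scale {p p' θ u v : ℝ} (hp'0 : 0 < p') (hpp : p' ≤ p) (hp1 : p < 1) (hθ0 : 0 < θ)
    (hθ1 : θ < 1) (hθ : θ * (p * (1 - p')) ≤ p' * (1 - p)) (hu : 0 < u)
    (huv : u < v) (hv : v < p) : lfun p' (θ * u) * lfun p v < lfun p' (θ * v) * lfun p u := by
  have hp0 : 0 < p := by linarith
  have hp'1 : 0 < 1 - p' := by linarith
  have h1p : 0 < 1 - p := by linarith
  have hLv : 0 < lfun p v := lfun_pos hp1 (by linarith) hv
  have hLuv : lfun p v < lfun p u := lfun_strictAnti hp0 hp1 hu huv (by linarith)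
  -- lfun p' (θ x) = lfun p x + M x
  have key : ∀ x, 0 < x → x < p → lfun p' (θ * x) =
      lfun p x + (Real.log ((1 - θ * x) / (1 - x)) + (Real.log (p' * (1 - p)) -
        Real.log (θ * (p * (1 - p'))))) := by
    intro x hx0 hxp
    have hx1 : x < 1 := by linarith
    have hθx : θ * x < 1 := by nlinarith
    unfold lfun
    rw [Real.log_div (by linarith) (by linarith), Real.log_div (by positivity) hp'0.ne',
      Real.log_div (by linarith) (by linarith), Real.log_div hx0.ne' hp0.ne',
      Real.log_div (by linarith) (by linarith), Real.log_mul hθ0.ne' hx0.ne',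
      Real.log_mul hp'0.ne' h1p.ne', Real.log_mul hθ0.ne' (by positivity),
      Real.log_mul hp0.ne' hp'1.ne']
    ring
  have hc : 0 ≤ Real.log (p' * (1 - p)) - Real.log (θ * (p * (1 - p'))) := by
    have := Real.log_le_log (by positivity) hθ
    linarith
  have hMpos : ∀ x, 0 < x → x < p → 0 < Real.log ((1 - θ * x) / (1 - x)) := by
    intro x hx0 hxp
    have hx1 : x < 1 := by linarith
    refine Real.log_pos ?_
    rw [lt_div_iff₀ (by linarith)]
    nlinarith
  have hMlt : Real.log ((1 - θ * u) / (1 - u)) < Real.log ((1 - θ * v) / (1 - v)) := by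
    have hu1 : u < 1 := by linarith
    have hv1 : v < 1 := by linarith
    refine Real.log_lt_log (div_pos (by nlinarith) (by linarith)) ?_
    rw [div_lt_div_iff₀ (by linarith) (by linarith)]
    nlinarith
  rw [key u hu (by linarith), key v (by linarith) hv]
  have hMu := hMpos u hu (by linarith)
  nlinarith

/-- Pointwise comparison inequality. -/
lemma relEnt_scale_lt {p p' q θ : ℝ} (hp'0 : 0 < p') (hpp : p' ≤ p) (hp1 : p < 1) (hq0 : 0 < q)
    (hqp : q < p) (hθ0 : 0 < θ) (hθ1 : θ < 1) (hθ : θ * (p * (1 - p')) ≤ p' * (1 - p)) :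
    ∃ κ : ℝ, 0 < κ ∧ ∀ v, 0 ≤ v → v ≤ p → v ≠ q →
      relEnt p' (θ * v) - relEnt p' (θ * q) < κ * (relEnt p v - relEnt p q) := by
  have hp0 : 0 < p := by linarith
  have hp'1 : p' < 1 := by linarith
  -- `θ v < p'` for `v < p`
  have hθv : ∀ v, 0 < v → v ≤ p → θ * v ≤ p' := by
    intro v hv hvp
    have h1 : θ * p * (1 - p') ≤ p' * (1 - p') := by nlinarith
    have h2 : θ * p ≤ p' := le_of_mul_le_mul_right h1 (by linarith)
    nlinarith
  have hLq : 0 < lfun p q := lfun_pos hp1 hq0 hqp
  have hθq : 0 < θ * q := mul_pos hθ0 hq0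
  have hθq' : θ * q < p' := by
    have := hθv p hp0 le_rfl
    nlinarith
  have hLθq : 0 < lfun p' (θ * q) := lfun_pos hp'1 hθq hθq'
  refine ⟨θ * lfun p' (θ * q) / lfun p q, by positivity, ?_⟩
  set κ := θ * lfun p' (θ * q) / lfun p q with hκ
  set g : ℝ → ℝ := fun v => κ * (relEnt p v - relEnt p q) -
    (relEnt p' (θ * v) - relEnt p' (θ * q)) with hg
  have hcont : Continuous g := by
    have h1 := continuous_relEnt hp0 hp1
    have h2 : Continuous fun v : ℝ => relEnt p' (θ * v) :=
      (continuous_relEnt hp'0 hp'1).comp (continuous_const.mul continuous_id)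
    fun_prop
  have hgq : g q = 0 := by simp [hg]
  have hderiv : ∀ v, 0 < v → v < p → HasDerivAt g
      (θ * (lfun p' (θ * v) * lfun p q - lfun p' (θ * q) * lfun p v) / lfun p q) v := by
    intro v hv0 hvp
    have hv1 : v < 1 := by linarith
    have h1 := hasDerivAt_relEnt hp0 hp1 hv0 hv1
    have h0 : HasDerivAt (fun v : ℝ => θ * v) (θ * 1) v := (hasDerivAt_id v).const_mul θ
    have h2 : HasDerivAt (fun v : ℝ => relEnt p' (θ * v)) (-lfun p' (θ * v) * (θ * 1)) v :=
      (hasDerivAt_relEnt hp'0 hp'1 (mul_pos hθ0 hv0) (by nlinarith)).comp v h0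
    have h3 := ((h1.sub_const (relEnt p q)).const_mul κ).sub (h2.sub_const (relEnt p' (θ * q)))
    refine h3.congr_deriv ?_
    rw [hκ]
    field_simp
    ring
  have hanti : StrictAntiOn g (Icc 0 q) := by
    refine strictAntiOn_of_deriv_neg (convex_Icc 0 q) hcont.continuousOn ?_
    intro v hv
    rw [interior_Icc] at hv
    rw [(hderiv v hv.1 (hv.2.trans hqp)).deriv]
    have h := ratio_scale hp'0 hpp hp1 hθ0 hθ1 hθ hv.1 hv.2 hqp
    have h' : lfun p' (θ * v) * lfun p q - lfun p' (θ * q) * lfun p v < 0 := by linarith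
    exact div_neg_of_neg_of_pos (mul_neg_of_pos_of_neg hθ0 h') hLq
  have hmono : StrictMonoOn g (Icc q p) := by
    refine strictMonoOn_of_deriv_pos (convex_Icc q p) hcont.continuousOn ?_
    intro v hv
    rw [interior_Icc] at hv
    rw [(hderiv v (hq0.trans hv.1) hv.2).deriv]
    have h := ratio_scale hp'0 hpp hp1 hθ0 hθ1 hθ hq0 hv.1 hv.2
    have h' : 0 < lfun p' (θ * v) * lfun p q - lfun p' (θ * q) * lfun p v := by linarith
    positivity
  intro v hv0 hvp hne
  have hgpos : 0 < g v := by
    rcases lt_or_gt_of_ne hne with h | h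
    · have := hanti ⟨hv0, h.le⟩ ⟨hq0.le, le_rfl⟩ h
      rwa [hgq] at this
    · have := hmono ⟨le_rfl, hqp.le⟩ ⟨h.le, hvp⟩ h
      rwa [hgq] at this
  simp only [hg] at hgpos
  linarith

/-! ### Second comparison: changing `p` -/

/-- `log (1 + k y) / log (1 + y)` is strictly decreasing in `y > 0` for `k > 1`. -/
lemma log_ratio_lt {k y z : ℝ} (hk : 1 < k) (hy : 0 < y) (hyz : y < z) :
    Real.log (1 + k * z) * Real.log (1 + y) < Real.log (1 + k * y) * Real.log (1 + z) := by
  have hconv := Real.strictConvexOn_mul_log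
  -- g(k y) > k g(y) for g(y) = (1+y) log (1+y)
  have hgk : k * ((1 + y) * Real.log (1 + y)) < (1 + k * y) * Real.log (1 + k * y) := by
    have hk0 : 0 < k := by linarith
    have hm1 : (1 : ℝ) ∈ Ici (0 : ℝ) := by simp
    have hm2 : (1 + k * y) ∈ Ici (0 : ℝ) := by
      rw [mem_Ici]
      positivity
    have hne : (1 : ℝ) ≠ 1 + k * y := by
      intro h
      have : 0 < k * y := by positivity
      linarith
    have ha : 0 < 1 - 1 / k := by
      rw [sub_pos, div_lt_one hk0]
      exact hk
    have hb : 0 < 1 / k := by positivity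
    have hab : 1 - 1 / k + 1 / k = 1 := by ring
    have h := hconv.2 hm1 hm2 hne ha hb hab
    simp only [smul_eq_mul, Real.log_one, mul_zero, zero_add, mul_one] at h
    have e : 1 - 1 / k + 1 / k * (1 + k * y) = 1 + y := by
      field_simp
      ring
    rw [e] at h
    have h2 := mul_lt_mul_of_pos_left h hk0
    have e2 : k * (1 / k * ((1 + k * y) * Real.log (1 + k * y))) =
        (1 + k * y) * Real.log (1 + k * y) := by field_simp
    rw [e2] at h2
    exact h2
  have hlogy : 0 < Real.log (1 + y) := Real.log_pos (by linarith)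
  have hlogk : Real.log (1 + y) < Real.log (1 + k * y) :=
    Real.log_lt_log (by linarith) (by nlinarith)
  set G : ℝ → ℝ := fun w => Real.log (1 + k * y) * Real.log (1 + w) -
    Real.log (1 + k * w) * Real.log (1 + y) with hG
  have hderiv : ∀ w, y ≤ w → HasDerivAt G
      (Real.log (1 + k * y) * (1 / (1 + w)) - (k / (1 + k * w)) * Real.log (1 + y)) w := by
    intro w hw
    have hw0 : 0 < w := by linarith
    have h1 : HasDerivAt (fun w : ℝ => 1 + w) 1 w := by
      simpa using (hasDerivAt_id w).const_add 1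
    have h2 : HasDerivAt (fun w : ℝ => 1 + k * w) k w := by
      simpa using ((hasDerivAt_id w).const_mul k).const_add 1
    have h3 := h1.log (by linarith)
    have h4 := h2.log (by nlinarith)
    exact (h3.const_mul _).sub (h4.mul_const _)
  have hmono : StrictMonoOn G (Icc y z) := by
    refine strictMonoOn_of_deriv_pos (convex_Icc y z) ?_ ?_
    · intro w hw
      exact (hderiv w hw.1).continuousAt.continuousWithinAt
    · intro w hw
      rw [interior_Icc] at hw
      rw [(hderiv w hw.1.le).deriv]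
      have hw0 : 0 < w := by linarith [hw.1]
      have h1w : 0 < 1 + w := by linarith
      have h1kw : 0 < 1 + k * w := by nlinarith
      have hmain : 0 < (1 + k * w) * Real.log (1 + k * y) - k * (1 + w) * Real.log (1 + y) := by
        have hwy : 0 < w - y := by linarith [hw.1]
        have e : (1 + k * w) * Real.log (1 + k * y) - k * (1 + w) * Real.log (1 + y) =
            ((1 + k * y) * Real.log (1 + k * y) - k * ((1 + y) * Real.log (1 + y))) +
            k * (w - y) * (Real.log (1 + k * y) - Real.log (1 + y)) := by ring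
        rw [e]
        have h5 : 0 < k * (w - y) * (Real.log (1 + k * y) - Real.log (1 + y)) := by
          refine mul_pos (mul_pos (by linarith) hwy) (by linarith)
        linarith
      have e : Real.log (1 + k * y) * (1 / (1 + w)) - (k / (1 + k * w)) * Real.log (1 + y) =
          ((1 + k * w) * Real.log (1 + k * y) - k * (1 + w) * Real.log (1 + y)) /
            ((1 + w) * (1 + k * w)) := by
        field_simp
      rw [e]
      positivity
  have h := hmono ⟨le_rfl, hyz.le⟩ ⟨hyz.le, le_rfl⟩ hyz
  simp only [hG] at h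
  linarith

lemma lfun_mul {p z : ℝ} (hp0 : 0 < p) (hp1 : p < 1) (hz0 : 0 < z) (hz1 : z < 1) :
    lfun p (p * z) = Real.log (1 + (1 - z) / z / (1 - p)) := by
  unfold lfun
  have hpz : p * z < 1 := by nlinarith
  have h1 : p * z / p = z := by field_simp
  rw [h1, ← Real.log_div (by
    have : 0 < (1 - p * z) / (1 - p) := div_pos (by linarith) (by linarith)
    exact this.ne') hz0.ne']
  congr 1
  have : (1 - p) ≠ 0 := by linarith
  field_simp
  ring

/-- The ratio of the derivatives for `p' > p` is strictly increasing. -/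
lemma ratio_change {p p' u v : ℝ} (hp0 : 0 < p) (hpp : p < p') (hp1 : p' < 1) (hu : 0 < u)
    (huv : u < v) (hv : v < 1) :
    lfun p' (p' * u) * lfun p (p * v) < lfun p' (p' * v) * lfun p (p * u) := by
  rw [lfun_mul (by linarith) hp1 hu (by linarith), lfun_mul hp0 (by linarith) (by linarith) hv,
    lfun_mul (by linarith) hp1 (by linarith) hv, lfun_mul hp0 (by linarith) hu (by linarith)]
  have hk : 1 < (1 - p) / (1 - p') := by
    rw [one_lt_div (by linarith)]
    linarith
  have hy : 0 < (1 - v) / v / (1 - p) :=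
    div_pos (div_pos (by linarith) (by linarith)) (by linarith)
  have hyz : (1 - v) / v / (1 - p) < (1 - u) / u / (1 - p) := by
    refine div_lt_div_of_pos_right ?_ (by linarith)
    rw [div_lt_div_iff₀ (by linarith) hu]
    nlinarith
  have h := log_ratio_lt hk hy hyz
  have e : ∀ x : ℝ, (1 - p) / (1 - p') * (x / (1 - p)) = x / (1 - p') := by
    intro x
    have h1 : (1 - p) ≠ 0 := by linarith
    field_simp
  rw [e, e] at h
  exact h

/-- Pointwise inequality behind the monotonicity in `p`. -/
lemma relEnt_change_lt {p p' c : ℝ} (hp0 : 0 < p) (hpp : p < p') (hp1 : p' < 1) (hc0 : 0 < c)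
    (hc1 : c < 1) : ∃ κ : ℝ, 0 < κ ∧ ∀ z, 0 ≤ z → z ≤ 1 → z ≠ c →
      relEnt p' (p' * z) - relEnt p' (p' * c) < κ * (relEnt p (p * z) - relEnt p (p * c)) := by
  have hp'0 : 0 < p' := by linarith
  have hp1' : p < 1 := by linarith
  have hLc : 0 < lfun p (p * c) := lfun_pos hp1' (by positivity) (by nlinarith)
  have hLc' : 0 < lfun p' (p' * c) := lfun_pos hp1 (by positivity) (by nlinarith)
  refine ⟨p' * lfun p' (p' * c) / (p * lfun p (p * c)), by positivity, ?_⟩
  set κ := p' * lfun p' (p' * c) / (p * lfun p (p * c)) with hκ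
  set g : ℝ → ℝ := fun z => κ * (relEnt p (p * z) - relEnt p (p * c)) -
    (relEnt p' (p' * z) - relEnt p' (p' * c)) with hg
  have hcont : Continuous g := by
    have h1 : Continuous fun z : ℝ => relEnt p (p * z) :=
      (continuous_relEnt hp0 hp1').comp (continuous_const.mul continuous_id)
    have h2 : Continuous fun z : ℝ => relEnt p' (p' * z) :=
      (continuous_relEnt hp'0 hp1).comp (continuous_const.mul continuous_id)
    fun_prop
  have hgq : g c = 0 := by simp [hg]
  have hderiv : ∀ z, 0 < z → z < 1 → HasDerivAt g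
      (p' * (lfun p' (p' * z) * lfun p (p * c) - lfun p' (p' * c) * lfun p (p * z)) /
        lfun p (p * c)) z := by
    intro z hz0 hz1
    have h0 : HasDerivAt (fun z : ℝ => p * z) (p * 1) z := (hasDerivAt_id z).const_mul p
    have h0' : HasDerivAt (fun z : ℝ => p' * z) (p' * 1) z := (hasDerivAt_id z).const_mul p'
    have h1 : HasDerivAt (fun z : ℝ => relEnt p (p * z)) (-lfun p (p * z) * (p * 1)) z :=
      (hasDerivAt_relEnt hp0 hp1' (mul_pos hp0 hz0) (by nlinarith)).comp z h0
    have h2 : HasDerivAt (fun z : ℝ => relEnt p' (p' * z)) (-lfun p' (p' * z) * (p' * 1)) z :=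
      (hasDerivAt_relEnt hp'0 hp1 (mul_pos hp'0 hz0) (by nlinarith)).comp z h0'
    have h3 := ((h1.sub_const (relEnt p (p * c))).const_mul κ).sub
      (h2.sub_const (relEnt p' (p' * c)))
    refine h3.congr_deriv ?_
    rw [hκ]
    generalize lfun p (p * c) = A at hLc
    generalize lfun p' (p' * c) = B
    generalize lfun p (p * z) = C
    generalize lfun p' (p' * z) = D
    field_simp
    ring
  have hanti : StrictAntiOn g (Icc 0 c) := by
    refine strictAntiOn_of_deriv_neg (convex_Icc 0 c) hcont.continuousOn ?_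
    intro z hz
    rw [interior_Icc] at hz
    rw [(hderiv z hz.1 (hz.2.trans hc1)).deriv]
    have h := ratio_change hp0 hpp hp1 hz.1 hz.2 hc1
    have h' : lfun p' (p' * z) * lfun p (p * c) - lfun p' (p' * c) * lfun p (p * z) < 0 := by
      linarith
    exact div_neg_of_neg_of_pos (mul_neg_of_pos_of_neg hp'0 h') hLc
  have hmono : StrictMonoOn g (Icc c 1) := by
    refine strictMonoOn_of_deriv_pos (convex_Icc c 1) hcont.continuousOn ?_
    intro z hz
    rw [interior_Icc] at hz
    rw [(hderiv z (hc0.trans hz.1) hz.2).deriv]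
    have h := ratio_change hp0 hpp hp1 hc0 hz.1 hz.2
    have h' : 0 < lfun p' (p' * z) * lfun p (p * c) - lfun p' (p' * c) * lfun p (p * z) := by
      linarith
    positivity
  intro z hz0 hz1 hne
  have hgpos : 0 < g z := by
    rcases lt_or_gt_of_ne hne with h | h
    · have := hanti ⟨hz0, h.le⟩ ⟨hc0.le, le_rfl⟩ h
      rwa [hgq] at this
    · have := hmono ⟨le_rfl, hc1.le⟩ ⟨h.le, hz1⟩ h
      rwa [hgq] at this
  simp only [hg] at hgpos
  linarith

end Pool.Agent.H99.LowerTail
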