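import Pool.Agent.H99.Cert
import Pool.Agent.H99.RelEnt

open MeasureTheory unitInterval Set

namespace Pool.Agent.H99.LowerTail

lemma hasDerivAt_lfun {p x : ℝ} (hp0 : 0 < p) (hp1 : p < 1) (hx0 : 0 < x) (hx1 : x < 1) :
    HasDerivAt (lfun p) (-(1 / (x * (1 - x)))) x := by
  have h1 : HasDerivAt (fun x : ℝ => Real.log ((1 - x) / (1 - p)))
      ((-1 / (1 - p)) / ((1 - x) / (1 - p))) x := by
    refine HasDerivAt.log ?_ ?_
    · have h0 : HasDerivAt (fun x : ℝ => 1 - x) (-1) x := by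
        simpa using (hasDerivAt_id x).const_sub 1
      exact h0.div_const _
    · exact (div_pos (by linarith) (by linarith)).ne'
  have h2 : HasDerivAt (fun x : ℝ => Real.log (x / p)) ((1 / p) / (x / p)) x := by
    refine HasDerivAt.log ?_ ?_
    · exact (hasDerivAt_id x).div_const _
    · exact (div_pos hx0 hp0).ne'
  have h := h1.sub h2
  refine h.congr_deriv ?_
  have h3 : (1 - x) ≠ 0 := by linarith
  have h4 : (1 - p) ≠ 0 := by linarith
  field_simp
  ring

/-- `relEnt p` minus a quadratic polynomial. -/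
noncomputable def gfun (p A B C s w : ℝ) : ℝ := relEnt p w - (A + B * w + C * (w - s) ^ 2)

/-- its derivative -/
noncomputable def gder (p B C s w : ℝ) : ℝ := -lfun p w - (B + 2 * C * (w - s))

lemma hasDerivAt_gfun {p A B C s w : ℝ} (hp0 : 0 < p) (hp1 : p < 1) (hw0 : 0 < w) (hw1 : w < 1) :
    HasDerivAt (gfun p A B C s) (gder p B C s w) w := by
  have h1 := hasDerivAt_relEnt hp0 hp1 hw0 hw1
  have h2 : HasDerivAt (fun w : ℝ => A + B * w + C * (w - s) ^ 2)
      (B * 1 + C * (2 * (w - s) ^ 1 * 1)) w := by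
    have h3 : HasDerivAt (fun w : ℝ => w - s) 1 w := (hasDerivAt_id w).sub_const s
    exact (((hasDerivAt_id w).const_mul B).const_add A).add ((h3.pow 2).const_mul C)
  refine (h1.sub h2).congr_deriv ?_
  unfold gder
  ring

lemma hasDerivAt_gder {p B C s w : ℝ} (hp0 : 0 < p) (hp1 : p < 1) (hw0 : 0 < w) (hw1 : w < 1) :
    HasDerivAt (gder p B C s) (1 / (w * (1 - w)) - 2 * C) w := by
  have h1 := (hasDerivAt_lfun hp0 hp1 hw0 hw1).neg
  have h2 : HasDerivAt (fun w : ℝ => B + 2 * C * (w - s)) (2 * C * 1) w := by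
    have h3 : HasDerivAt (fun w : ℝ => w - s) 1 w := (hasDerivAt_id w).sub_const s
    exact (h3.const_mul (2 * C)).const_add B
  refine (h1.sub h2).congr_deriv ?_
  ring

lemma continuous_gfun {p A B C s : ℝ} (hp0 : 0 < p) (hp1 : p < 1) :
    Continuous (gfun p A B C s) := by
  have := continuous_relEnt hp0 hp1
  unfold gfun
  fun_prop

/-- On an interval where `2 C w (1-w) ≤ 1`, the function `gfun` lies above its tangents. -/
lemma gfun_tangent {p A B C s l r x w : ℝ} (hp0 : 0 < p) (hp1 : p < 1) (hl : 0 ≤ l) (hr : r < 1)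
    (hx0 : 0 < x) (hlx : l ≤ x) (hxr : x ≤ r)
    (hconv : ∀ w, l < w → w < r → 2 * C * (w * (1 - w)) ≤ 1)
    (hlw : l ≤ w) (hwr : w ≤ r) :
    gfun p A B C s x + gder p B C s x * (w - x) ≤ gfun p A B C s w := by
  have hx1 : x < 1 := by linarith
  -- monotonicity of the derivative
  have hmono : MonotoneOn (gder p B C s) (Icc l r ∩ Ioi 0) := by
    refine monotoneOn_of_deriv_nonneg ((convex_Icc l r).inter (convex_Ioi 0)) ?_ ?_ ?_
    · intro y hy
      exact (hasDerivAt_gder hp0 hp1 hy.2 (by linarith [hy.1.2])).continuousAt.continuousWithinAt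
    · intro y hy
      rw [interior_inter, interior_Icc, interior_Ioi] at hy
      exact (hasDerivAt_gder hp0 hp1 hy.2
        (by linarith [hy.1.2])).differentiableAt.differentiableWithinAt
    · intro y hy
      rw [interior_inter, interior_Icc, interior_Ioi] at hy
      have hy0 : 0 < y := hy.2
      have hy1 : y < 1 := by linarith [hy.1.2]
      rw [(hasDerivAt_gder hp0 hp1 hy0 hy1).deriv]
      have h1 := hconv y hy.1.1 hy.1.2
      have h2 : 0 < y * (1 - y) := mul_pos hy0 (by linarith)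
      have h3 : 2 * C ≤ 1 / (y * (1 - y)) := by
        rw [le_div_iff₀ h2]
        exact h1
      linarith
  -- the auxiliary function
  set k : ℝ → ℝ := fun w => gfun p A B C s w - gder p B C s x * w with hk
  have hkc : Continuous k := by
    have := continuous_gfun (A := A) (B := B) (C := C) (s := s) hp0 hp1
    fun_prop
  have hkd : ∀ y, 0 < y → y < 1 → HasDerivAt k (gder p B C s y - gder p B C s x * 1) y :=
    fun y hy0 hy1 => (hasDerivAt_gfun hp0 hp1 hy0 hy1).sub ((hasDerivAt_id y).const_mul _)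
  have hkey : k x ≤ k w := by
    rcases le_total w x with h | h
    · have hanti : AntitoneOn k (Icc l x) := by
        refine antitoneOn_of_deriv_nonpos (convex_Icc l x) hkc.continuousOn ?_ ?_
        · intro y hy
          rw [interior_Icc] at hy
          exact (hkd y (by linarith [hy.1]) (by linarith [hy.2])).differentiableAt.differentiableWithinAt
        · intro y hy
          rw [interior_Icc] at hy
          rw [(hkd y (by linarith [hy.1]) (by linarith [hy.2])).deriv]
          have := hmono ⟨⟨hy.1.le, by linarith [hy.2]⟩, lt_of_le_of_lt hl hy.1⟩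
            ⟨⟨hlx, hxr⟩, hx0⟩ hy.2.le
          linarith
      exact hanti ⟨hlw, h⟩ ⟨hlx, le_rfl⟩ h
    · have hmonok : MonotoneOn k (Icc x r) := by
        refine monotoneOn_of_deriv_nonneg (convex_Icc x r) hkc.continuousOn ?_ ?_
        · intro y hy
          rw [interior_Icc] at hy
          exact (hkd y (by linarith [hy.1]) (by linarith [hy.2])).differentiableAt.differentiableWithinAt
        · intro y hy
          rw [interior_Icc] at hy
          rw [(hkd y (by linarith [hy.1]) (by linarith [hy.2])).deriv]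
          have := hmono ⟨⟨hlx, hxr⟩, hx0⟩ ⟨⟨by linarith [hy.1], hy.2.le⟩, hx0.trans hy.1⟩ hy.1.le
          linarith
      exact hmonok ⟨le_rfl, hxr⟩ ⟨h, hwr⟩ h
  simp only [hk] at hkey
  linarith

/-- From tangents to nonnegativity. -/
lemma nonneg_of_tangent {g0 g1 g d t : ℝ} (h : g0 + g1 * t ≤ g) (ht1 : -d ≤ t) (ht2 : t ≤ d)
    (hd : |g1| * d ≤ g0) : 0 ≤ g := by
  have h2 : |g1 * t| ≤ |g1| * d := by
    rw [abs_mul]
    exact mul_le_mul_of_nonneg_left (abs_le.2 ⟨ht1, ht2⟩) (abs_nonneg _)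
  have h3 := (abs_le.1 h2).1
  linarith

/-- On an interval where `2 C w (1-w) ≥ 1`, the function `gfun` is concave: it is nonnegative as
soon as it is so at the endpoints. -/
lemma gfun_concave {p A B C s l r w : ℝ} (hp0 : 0 < p) (hp1 : p < 1) (hl : 0 ≤ l) (hr : r < 1)
    (hconc : ∀ w, l < w → w < r → 1 ≤ 2 * C * (w * (1 - w)))
    (h0 : 0 ≤ gfun p A B C s l) (h1 : 0 ≤ gfun p A B C s r)
    (hlw : l ≤ w) (hwr : w ≤ r) : 0 ≤ gfun p A B C s w := by
  have hc : ConcaveOn ℝ (Icc l r) (gfun p A B C s) := by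
    refine concaveOn_of_hasDerivWithinAt2_nonpos (convex_Icc l r)
      (f' := gder p B C s) (f'' := fun w => 1 / (w * (1 - w)) - 2 * C)
      (continuous_gfun hp0 hp1).continuousOn ?_ ?_ ?_
    · intro y hy
      rw [interior_Icc] at hy
      exact (hasDerivAt_gfun hp0 hp1 (by linarith [hy.1]) (by linarith [hy.2])).hasDerivWithinAt
    · intro y hy
      rw [interior_Icc] at hy
      exact (hasDerivAt_gder hp0 hp1 (by linarith [hy.1]) (by linarith [hy.2])).hasDerivWithinAt
    · intro y hy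
      rw [interior_Icc] at hy
      have hy0 : 0 < y := by linarith [hy.1]
      have hy1 : y < 1 := by linarith [hy.2]
      have h1 := hconc y hy.1 hy.2
      have h2 : 0 < y * (1 - y) := mul_pos hy0 (by linarith)
      have h3 : 1 / (y * (1 - y)) ≤ 2 * C := by
        rw [div_le_iff₀ h2]
        exact h1
      linarith
  have h := hc.min_le_of_mem_Icc ⟨le_rfl, hlw.trans hwr⟩ ⟨hlw.trans hwr, le_rfl⟩ ⟨hlw, hwr⟩
  exact (le_min h0 h1).trans h

/-- Nonnegativity of `gfun` on `[l,r]`: approximate touching at `x`. The point `y` bounds the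
region of convexity from the right. -/
lemma gfun_nonneg {p A B C s l r x y w : ℝ} (hp0 : 0 < p) (hp1 : p < 1) (hl : 0 ≤ l) (hr : r < 1)
    (hlx : l < x) (hxy : x ≤ y) (hyr : y ≤ r)
    (hC : (y = r ∧ (C ≤ 2 ∨ (r ≤ 1 / 2 ∧ 2 * C * (r * (1 - r)) ≤ 1))) ∨
      (2 * C * (x * (1 - x)) ≤ 1 ∧ y ≤ 1 / 2 ∧ 1 ≤ 2 * C * (y * (1 - y)) ∧
      (r ≤ 1 / 2 ∨ 1 ≤ 2 * C * (r * (1 - r))) ∧ 0 ≤ gfun p A B C s r))
    (hx : |gder p B C s x| * (y - l) ≤ gfun p A B C s x)
    (hlw : l ≤ w) (hwr : w ≤ r) : 0 ≤ gfun p A B C s w := by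
  have htan : ∀ z, l ≤ z → z ≤ y → gfun p A B C s x + gder p B C s x * (z - x) ≤ gfun p A B C s z →
      0 ≤ gfun p A B C s z := by
    intro z hz1 hz2 h
    have h1 : -(|gder p B C s x| * (y - l)) ≤ gder p B C s x * (z - x) := by
      have h2 : |gder p B C s x * (z - x)| ≤ |gder p B C s x| * (y - l) := by
        rw [abs_mul]
        refine mul_le_mul_of_nonneg_left ?_ (abs_nonneg _)
        rw [abs_le]
        constructor <;> linarith
      exact (abs_le.1 h2).1
    linarith
  rcases hC with ⟨rfl, hC⟩ | ⟨hC1, hC2, hC3, hC4, hC5⟩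
  · refine htan w hlw hwr (gfun_tangent hp0 hp1 hl hr (by linarith) hlx.le hxy ?_ hlw hwr)
    intro z hz1 hz2
    have h0 : 0 ≤ z * (1 - z) := mul_nonneg (by linarith) (by linarith)
    rcases hC with hC | ⟨hC, hC'⟩
    · have : z * (1 - z) ≤ 1 / 4 := by nlinarith [sq_nonneg (z - 1 / 2)]
      nlinarith
    · rcases le_or_gt C 0 with h5 | h5
      · nlinarith
      · have h6 : z * (1 - z) ≤ y * (1 - y) := by nlinarith
        have h7 := mul_le_mul_of_nonneg_left h6 (show 0 ≤ 2 * C by linarith)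
        linarith
  · have hC' : 2 ≤ C := by
      by_contra hcon
      push Not at hcon
      have h6 : y * (1 - y) ≤ 1 / 4 := by nlinarith [sq_nonneg (y - 1 / 2)]
      have h7 : 0 < y * (1 - y) := mul_pos (by linarith) (by linarith)
      nlinarith
    -- the inflection point
    set D := Real.sqrt (1 - 2 / C) with hD
    have hCpos : 0 < C := by linarith
    have h2C : 2 / C ≤ 1 := (div_le_one hCpos).2 hC'
    have hD0 : 0 ≤ D := Real.sqrt_nonneg _
    have hD2 : D ^ 2 = 1 - 2 / C := Real.sq_sqrt (by linarith)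
    set x0 := (1 - D) / 2 with hx0
    have hx0eq : 2 * C * (x0 * (1 - x0)) = 1 := by
      have e : x0 * (1 - x0) = (1 - D ^ 2) / 4 := by rw [hx0]; ring
      rw [e, hD2]
      field_simp
      ring
    have hx0half : x0 ≤ 1 / 2 := by rw [hx0]; linarith
    -- comparison
    have hlow : ∀ z, z ≤ x0 → 2 * C * (z * (1 - z)) ≤ 1 := by
      intro z hz
      have h6 : z * (1 - z) ≤ x0 * (1 - x0) := by nlinarith
      have h7 := mul_le_mul_of_nonneg_left h6 (show 0 ≤ 2 * C by linarith)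
      linarith
    have hhigh : ∀ z, x0 ≤ z → z ≤ 1 - x0 → 1 ≤ 2 * C * (z * (1 - z)) := by
      intro z hz1 hz2
      have h6 : x0 * (1 - x0) ≤ z * (1 - z) := by nlinarith
      have h7 := mul_le_mul_of_nonneg_left h6 (show 0 ≤ 2 * C by linarith)
      linarith
    have hxx0 : x ≤ x0 := by
      by_contra hcon
      push Not at hcon
      have h6 : x0 * (1 - x0) < x * (1 - x) := by nlinarith
      have h7 := mul_lt_mul_of_pos_left h6 (show 0 < 2 * C by linarith)
      linarith
    have hx0y : x0 ≤ y := by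
      by_contra hcon
      push Not at hcon
      have h6 : y * (1 - y) < x0 * (1 - x0) := by nlinarith
      have h7 := mul_lt_mul_of_pos_left h6 (show 0 < 2 * C by linarith)
      linarith
    have hx01 : x0 < 1 := by linarith
    have h5 : ∀ z, l ≤ z → z ≤ x0 → 0 ≤ gfun p A B C s z := fun z hz1 hz2 =>
      htan z hz1 (by linarith) (gfun_tangent hp0 hp1 hl hx01 (by linarith) hlx.le hxx0
        (fun z hz1 hz2 => hlow z hz2.le) hz1 hz2)
    rcases le_or_gt w x0 with hwx | hwx
    · exact h5 w hlw hwx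
    · have hr' : r ≤ 1 - x0 := by
        rcases hC4 with h | h
        · linarith
        · by_contra hcon
          push Not at hcon
          have h6 : r * (1 - r) < x0 * (1 - x0) := by nlinarith
          have h7 := mul_lt_mul_of_pos_left h6 (show 0 < 2 * C by linarith)
          linarith
      refine gfun_concave hp0 hp1 (by linarith) hr (fun z hz1 hz2 => hhigh z hz1.le (by linarith))
        (h5 x0 (by linarith) le_rfl) hC5 hwx.le hwr

/-- The two inflection points. -/
lemma exists_inflection {C y : ℝ} (hy0 : 0 < y) (hy1 : y < 1) (hC : 1 ≤ 2 * C * (y * (1 - y))) :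
    ∃ x0 : ℝ, 0 < x0 ∧ x0 ≤ 1 / 2 ∧ 2 * C * (x0 * (1 - x0)) = 1 ∧ 0 < 2 * C := by
  have hyy : 0 < y * (1 - y) := mul_pos hy0 (by linarith)
  have hC' : 2 ≤ C := by
    by_contra hcon
    push Not at hcon
    have h6 : y * (1 - y) ≤ 1 / 4 := by nlinarith [sq_nonneg (y - 1 / 2)]
    nlinarith
  have hCpos : 0 < C := by linarith
  have h2C : 2 / C ≤ 1 := (div_le_one hCpos).2 hC'
  have hD2 : Real.sqrt (1 - 2 / C) ^ 2 = 1 - 2 / C := Real.sq_sqrt (by linarith)
  have hD0 : 0 ≤ Real.sqrt (1 - 2 / C) := Real.sqrt_nonneg _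
  set D := Real.sqrt (1 - 2 / C)
  have hx0eq : 2 * C * ((1 - D) / 2 * (1 - (1 - D) / 2)) = 1 := by
    have e : (1 - D) / 2 * (1 - (1 - D) / 2) = (1 - D ^ 2) / 4 := by ring
    rw [e, hD2]
    field_simp
    ring
  refine ⟨(1 - D) / 2, ?_, by linarith, hx0eq, by linarith⟩
  by_contra hcon
  push Not at hcon
  have h6 : (1 - D) / 2 * (1 - (1 - D) / 2) ≤ 0 :=
    mul_nonpos_of_nonpos_of_nonneg hcon (by linarith)
  nlinarith

lemma infl_le {C x0 z : ℝ} (hC : 0 < 2 * C) (hx : 2 * C * (x0 * (1 - x0)) = 1) (hx2 : x0 ≤ 1 / 2)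
    (hz : z ≤ x0 ∨ 1 - x0 ≤ z) : 2 * C * (z * (1 - z)) ≤ 1 := by
  have h6 : z * (1 - z) ≤ x0 * (1 - x0) := by
    rcases hz with h | h <;> nlinarith
  have h7 := mul_le_mul_of_nonneg_left h6 hC.le
  linarith

lemma le_infl {C x0 z : ℝ} (hC : 0 < 2 * C) (hx : 2 * C * (x0 * (1 - x0)) = 1)
    (hz1 : x0 ≤ z) (hz2 : z ≤ 1 - x0) : 1 ≤ 2 * C * (z * (1 - z)) := by
  have h6 : x0 * (1 - x0) ≤ z * (1 - z) := by nlinarith
  have h7 := mul_le_mul_of_nonneg_left h6 hC.le
  linarith

lemma infl_le_of {C x0 y : ℝ} (hC : 0 < 2 * C) (hx : 2 * C * (x0 * (1 - x0)) = 1)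
    (hx2 : x0 ≤ 1 / 2) (hy : 1 ≤ 2 * C * (y * (1 - y))) : x0 ≤ y ∧ y ≤ 1 - x0 := by
  constructor
  · by_contra hcon
    push Not at hcon
    have h6 : y * (1 - y) < x0 * (1 - x0) := by nlinarith
    have h7 := mul_lt_mul_of_pos_left h6 hC
    linarith
  · by_contra hcon
    push Not at hcon
    have h6 : y * (1 - y) < x0 * (1 - x0) := by nlinarith
    have h7 := mul_lt_mul_of_pos_left h6 hC
    linarith

/-- Nonnegativity of `gfun` on `[l,r]`: touching at `x ≥ 1/2`, beyond the region of concavity.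
The points `yl`, `yr` bound the region of concavity from inside. -/
lemma gfun_nonneg_right {p A B C s l r x yl yr w : ℝ} (hp0 : 0 < p) (hp1 : p < 1) (hl : 0 < l)
    (hr : r < 1) (hxr : x ≤ r) (hx12 : 1 / 2 ≤ x) (hlyl : l ≤ yl) (hyl12 : yl ≤ 1 / 2)
    (hyrx : yr ≤ x) (hCyl : 1 ≤ 2 * C * (yl * (1 - yl)))
    (hCyr : 1 ≤ 2 * C * (yr * (1 - yr))) (hCx : 2 * C * (x * (1 - x)) ≤ 1)
    (hgl : |gder p B C s l| * (yl - l) ≤ gfun p A B C s l)
    (hgx : |gder p B C s x| * (r - yr) ≤ gfun p A B C s x)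
    (hlw : l ≤ w) (hwr : w ≤ r) : 0 ≤ gfun p A B C s w := by
  obtain ⟨x0, hx0pos, hx0half, hx0eq, h2C⟩ := exists_inflection (by linarith) (by linarith) hCyl
  have hx0yl := (infl_le_of h2C hx0eq hx0half hCyl).1
  have hyrx0 := (infl_le_of h2C hx0eq hx0half hCyr).2
  have hxx0 : 1 - x0 ≤ x := by
    by_contra hcon
    push Not at hcon
    have h6 : x0 * (1 - x0) < x * (1 - x) := by nlinarith
    have h7 := mul_lt_mul_of_pos_left h6 h2C
    linarith
  have hR : ∀ z, 1 - x0 ≤ z → z ≤ r → 0 ≤ gfun p A B C s z := fun z hz1 hz2 =>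
    nonneg_of_tangent (d := r - yr) (gfun_tangent (l := 1 - x0) (r := r) hp0 hp1 (by linarith) hr
      (by linarith) hxx0 hxr (fun y hy1 _ => infl_le h2C hx0eq hx0half (Or.inr hy1.le)) hz1 hz2)
      (by linarith) (by linarith) hgx
  have hgl0 : 0 ≤ gfun p A B C s l := by
    have : 0 ≤ |gder p B C s l| * (yl - l) := mul_nonneg (abs_nonneg _) (by linarith)
    linarith
  have hL : ∀ z, l ≤ z → z ≤ x0 → 0 ≤ gfun p A B C s z := fun z hz1 hz2 =>
    nonneg_of_tangent (d := yl - l) (gfun_tangent (l := l) (r := x0) hp0 hp1 hl.le (by linarith) hl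
      le_rfl (hz1.trans hz2) (fun y _ hy2 => infl_le h2C hx0eq hx0half (Or.inl hy2.le)) hz1 hz2)
      (by linarith) (by linarith) hgl
  rcases le_or_gt (1 - x0) w with hw | hw
  · exact hR w hw hwr
  rcases le_or_gt w x0 with hw2 | hw2
  · exact hL w hlw hw2
  rcases le_or_gt l x0 with hlx | hlx
  · exact gfun_concave hp0 hp1 hx0pos.le (by linarith : 1 - x0 < 1)
      (fun z hz1 hz2 => le_infl h2C hx0eq hz1.le hz2.le) (hL x0 hlx le_rfl)
      (hR (1 - x0) le_rfl (by linarith)) hw2.le hw.le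
  · exact gfun_concave hp0 hp1 hl.le (by linarith : 1 - x0 < 1)
      (fun z hz1 hz2 => le_infl h2C hx0eq (by linarith) hz2.le) hgl0
      (hR (1 - x0) le_rfl (by linarith)) hlw hw.le

end Pool.Agent.H99.LowerTail
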