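import Pool.Agent.H99.Minorant

open MeasureTheory unitInterval Set

namespace Pool.Agent.H99.LowerTail

/-! ### Moving the level `s` -/

lemma dn_le_add {W : I → I → ℝ} {s s' : ℝ} (h : s' ≤ s) (x y : I) :
    dn W s x y ≤ dn W s' x y + (s - s') := by
  unfold dn
  refine max_le ?_ ?_
  · have := le_max_left (s' - W x y) 0
    linarith
  · have := le_max_right (s' - W x y) 0
    linarith

lemma dn_mono {W : I → I → ℝ} {s s' : ℝ} (h : s' ≤ s) (x y : I) :
    dn W s' x y ≤ dn W s x y := by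
  unfold dn
  exact max_le_max (by linarith) le_rfl

lemma d2_mono {W : I → I → ℝ} (hW : IsKer W) {s s' : ℝ} (h : s' ≤ s) : d2 W s' ≤ d2 W s := by
  unfold d2
  refine integral_mono (isKer_dn hW s').integrable_sq (isKer_dn hW s).integrable_sq fun q => ?_
  exact pow_le_pow_left₀ (dn_nonneg W s' _ _) (dn_mono h _ _) 2

lemma sqrt_d2_mono {W : I → I → ℝ} (hW : IsKer W) {s s' : ℝ} (h : s' ≤ s) :
    Real.sqrt (d2 W s') ≤ Real.sqrt (d2 W s) := Real.sqrt_le_sqrt (d2_mono hW h)

lemma sqrt_d2_shift {W : I → I → ℝ} (hW : IsKer W) {s s' : ℝ} (h : s' ≤ s) :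
    Real.sqrt (d2 W s) ≤ Real.sqrt (d2 W s') + (s - s') := by
  have k' := isKer_dn hW s'
  have h1 : d2 W s ≤ ∫ q : I × I, (dn W s' q.1 q.2 ^ 2 + 2 * (s - s') * dn W s' q.1 q.2 +
      (s - s') ^ 2) := by
    unfold d2
    refine integral_mono (isKer_dn hW s).integrable_sq
      ((k'.integrable_sq.add (k'.integrable.const_mul _)).add (integrable_const _)) fun q => ?_
    have h2 := pow_le_pow_left₀ (dn_nonneg W s q.1 q.2) (dn_le_add h q.1 q.2) 2
    simp only
    nlinarith
  have h2 : ∫ q : I × I, (dn W s' q.1 q.2 ^ 2 + 2 * (s - s') * dn W s' q.1 q.2 +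
      (s - s') ^ 2) = d2 W s' + 2 * (s - s') * (∫ q : I × I, dn W s' q.1 q.2) +
      (s - s') ^ 2 := by
    rw [integral_add (f := fun q : I × I => dn W s' q.1 q.2 ^ 2 +
      2 * (s - s') * dn W s' q.1 q.2) (k'.integrable_sq.add (k'.integrable.const_mul _))
      (integrable_const _), integral_add k'.integrable_sq (k'.integrable.const_mul _),
      integral_const_mul]
    simp [d2]
  have h3 : (∫ q : I × I, dn W s' q.1 q.2) ≤ Real.sqrt (d2 W s') := by
    refine Real.le_sqrt_of_sq_le ?_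
    have h4 := cauchy_schwarz (μ := (volume : Measure (I × I)))
      (f := fun q : I × I => dn W s' q.1 q.2) (g := fun _ => 1)
      k'.integrable_sq (by simp) (by simpa using k'.integrable)
    simp only [mul_one, one_pow, integral_const, probReal_univ, smul_eq_mul] at h4
    exact h4
  have h5 := Real.sq_sqrt (d2_nonneg W s')
  have h6 : d2 W s ≤ (Real.sqrt (d2 W s') + (s - s')) ^ 2 := by
    rw [h2] at h1
    nlinarith
  have h7 : 0 ≤ Real.sqrt (d2 W s') + (s - s') := by
    have := Real.sqrt_nonneg (d2 W s')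
    linarith
  rw [Real.sqrt_le_left h7]
  exact h6

lemma sqrt_d2_le (W : Graphon) {s : ℝ} (hs : 0 ≤ s) : Real.sqrt (d2 W s) ≤ s := by
  rw [Real.sqrt_le_left hs]
  have h1 : d2 W s ≤ ∫ _q : I × I, s ^ 2 := by
    unfold d2
    refine integral_mono (isKer_dn W.isKer s).integrable_sq (integrable_const _) fun q => ?_
    refine pow_le_pow_left₀ (dn_nonneg W s q.1 q.2) ?_ 2
    unfold dn
    have := W.nonneg' q.1 q.2
    exact max_le (by linarith) hs
  simpa using h1

/-! ### Chains of certificates -/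

/-- Every graphon `W ≤ p` with few triangles and `‖(s - W)_+‖ ≤ m` costs at least `I_p(q)`. -/
def Upto (p q s m : ℝ) : Prop :=
  ∀ W : Graphon, (∀ x y, W x y ≤ p) → tri W W W ≤ q ^ 3 → Real.sqrt (d2 W s) ≤ m →
    relEnt p q ≤ cost p W

lemma Upto.up {p q s s' m : ℝ} (h : Upto p q s m) (hs : s ≤ s') : Upto p q s' m :=
  fun W hWp ht hm => h W hWp ht ((sqrt_d2_mono W.isKer hs).trans hm)

lemma Upto.down {p q s s' m : ℝ} (h : Upto p q s m) (hs : s' ≤ s) :
    Upto p q s' (m - (s - s')) := fun W hWp ht hm => h W hWp ht (by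
  have := sqrt_d2_shift W.isKer hs
  linarith)

lemma Upto.step {p q s l r m : ℝ} (h : Upto p q s m) (hl : l ≤ m) (hc : Cov p q s l r) :
    Upto p q s r := fun W hWp ht hm => by
  rcases le_or_gt (Real.sqrt (d2 W s)) l with h1 | h1
  · exact h W hWp ht (h1.trans hl)
  · exact hc W hWp ht h1 hm

lemma Upto.isMinimizer {p q s m : ℝ} (hp0 : 0 < p) (hp1 : p < 1) (h : Upto p q s m) (hs : 0 ≤ s)
    (hsm : s ≤ m) : IsMinimizer K3 p q := by
  intro W hW
  rw [numEdges_K3] at hW
  refine le_trans (h (trunc W p hp0.le) (fun x y => min_le_right _ _) ?_ ?_)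
    (cost_trunc_le hp0 hp1 W)
  · rw [← homDensity_K3]
    exact (homDensity_mono (⊤ : SimpleGraph (Fin 3)) (U := trunc W p hp0.le) (W := W)
      fun x y => min_le_left _ _).trans hW
  · exact (sqrt_d2_le _ hs).trans hsm

/-! ### The first certificate -/

/-- The Bregman divergence of `I_p` is `I_q`. -/
lemma relEnt_bregman {p q : ℝ} (hp0 : 0 < p) (hp1 : p < 1) (hq0 : 0 < q) (hq1 : q < 1) (w : ℝ) :
    relEnt p w = relEnt p q - lfun p q * (w - q) + relEnt q w := by
  rw [relEnt_eq hp0 hp1, relEnt_eq hp0 hp1, relEnt_eq hq0 hq1]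
  unfold lfun
  rw [Real.log_div (by linarith) (by linarith), Real.log_div hq0.ne' hp0.ne']
  ring

lemma mul_log_ge {t : ℝ} (ht0 : 0 ≤ t) (ht1 : t ≤ 1) : (1 - t) ^ 2 / 2 ≤ t * Real.log t - t + 1 := by
  have hc : Continuous fun t : ℝ => t * Real.log t - t + 1 - (1 - t) ^ 2 / 2 := by
    have : Continuous fun x : ℝ => x * Real.log x := Real.continuous_mul_log
    fun_prop
  have hanti : AntitoneOn (fun t : ℝ => t * Real.log t - t + 1 - (1 - t) ^ 2 / 2) (Icc 0 1) := by
    have hd : ∀ x : ℝ, 0 < x → HasDerivAt (fun t : ℝ => t * Real.log t - t + 1 - (1 - t) ^ 2 / 2)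
        (Real.log x + 1 - 1 - (2 * (1 - x) ^ 1 * (-1)) / 2) x := by
      intro x hx
      have h1 := Real.hasDerivAt_mul_log hx.ne'
      have h0 : HasDerivAt (fun x : ℝ => 1 - x) (-1) x := by
        simpa using (hasDerivAt_id x).const_sub 1
      exact ((h1.sub (hasDerivAt_id x)).add_const 1).sub ((h0.pow 2).div_const 2)
    refine antitoneOn_of_deriv_nonpos (convex_Icc 0 1) hc.continuousOn ?_ ?_
    · intro x hx
      rw [interior_Icc] at hx
      exact (hd x hx.1).differentiableAt.differentiableWithinAt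
    · intro x hx
      rw [interior_Icc] at hx
      rw [(hd x hx.1).deriv]
      have := Real.log_le_sub_one_of_pos hx.1
      linarith
  have h := hanti ⟨ht0, ht1⟩ ⟨zero_le_one, le_rfl⟩ ht1
  simp only [Real.log_one, mul_zero, sub_self, ne_eq, OfNat.ofNat_ne_zero, not_false_eq_true,
    zero_pow, zero_div, sub_zero] at h
  linarith

lemma relEnt_ge_low {q w : ℝ} (hq0 : 0 < q) (hq1 : q < 1) (hw0 : 0 ≤ w) (hwq : w ≤ q) :
    1 / (2 * q) * (q - w) ^ 2 ≤ relEnt q w := by
  have h1 := mul_log_ge (t := w / q) (by positivity) ((div_le_one hq0).2 hwq)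
  have h2 := mul_le_mul_of_nonneg_left h1 hq0.le
  have e1 : q * ((1 - w / q) ^ 2 / 2) = 1 / (2 * q) * (q - w) ^ 2 := by
    field_simp
  have e2 : q * (w / q * Real.log (w / q) - w / q + 1) = w * Real.log (w / q) - w + q := by
    field_simp
  rw [e1, e2] at h2
  have h3 : (1 - w) / (1 - q) - 1 ≤ ((1 - w) / (1 - q)) * Real.log ((1 - w) / (1 - q)) :=
    Real.self_sub_one_le_mul_log (div_nonneg (by linarith) (by linarith))
  have h4 := mul_le_mul_of_nonneg_left h3 (show (0:ℝ) ≤ 1 - q by linarith)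
  have hq' : (1 - q) ≠ 0 := by linarith
  have e3 : (1 - q) * ((1 - w) / (1 - q) - 1) = q - w := by field_simp; ring
  have e4 : (1 - q) * (((1 - w) / (1 - q)) * Real.log ((1 - w) / (1 - q))) =
      (1 - w) * Real.log ((1 - w) / (1 - q)) := by field_simp
  rw [e3, e4] at h4
  unfold relEnt
  linarith

/-- The first certificate. -/
lemma upto_rs {p q C1 r J : ℝ} (hq0 : 0 < q) (hqp : q < p) (hp1 : p < 1)
    (hJ : lfun p q ≤ J)
    (hmin : ∀ w, 0 ≤ w → w ≤ p → 0 ≤ gfun q 0 0 C1 q w)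
    (h1 : 0.70711 * J * r ≤ C1 * q ^ 2) (h2 : 2 * J * r ≤ 3 * q) : Upto p q q r := by
  intro W hWp ht hr
  have hp0 : 0 < p := hq0.trans hqp
  have hq1 : q < 1 := hqp.trans hp1
  have hJ0 : 0 < lfun p q := lfun_pos hp1 hq0 hqp
  have hcost := cost_ge (s := q) (A := relEnt p q + lfun p q * q) (B := -lfun p q) (C1 := C1)
    (C2 := 1 / (2 * q)) hp0 hp1 W hWp (by
      intro w hw0 hwp
      rw [relEnt_bregman hp0 hp1 hq0 hq1 w]
      rcases le_total w q with h | h
      · rw [max_eq_right (by linarith : w - q ≤ 0), max_eq_left (by linarith : 0 ≤ q - w)]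
        have h3 := relEnt_ge_low hq0 hq1 hw0 h
        linarith
      · rw [max_eq_left (by linarith : 0 ≤ w - q), max_eq_right (by linarith : q - w ≤ 0)]
        have h3 := hmin w hw0 hwp
        unfold gfun at h3
        linarith)
  refine le_trans ?_ hcost
  have hT := tri_ge_simple W.isKer hq0.le
  set δ := Real.sqrt (d2 W q) with hδ
  have hδ0 : 0 ≤ δ := Real.sqrt_nonneg _
  have hδ2 : δ ^ 2 = d2 W q := Real.sq_sqrt (d2_nonneg W q)
  rw [← hδ2]
  set N := n2 W q
  have hN : 0 ≤ N := n2_nonneg W q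
  set x := xm W q
  set ω := Real.sqrt 2 / 2
  have hω : ω ≤ 0.70711 := sqrt_two_div_two_le
  have h3 : 3 * q ^ 2 * x ≤ 3 * ω * δ * N + δ ^ 3 := by
    have : 0 ≤ 3 * q * x ^ 2 := by positivity
    linarith
  -- multiply by J0
  have h4 : lfun p q * (3 * q ^ 2 * x) ≤ lfun p q * (3 * ω * δ * N + δ ^ 3) :=
    mul_le_mul_of_nonneg_left h3 hJ0.le
  have h5 : lfun p q * (3 * ω * δ * N) ≤ 3 * q ^ 2 * (C1 * N) := by
    have h6 : lfun p q * ω * δ ≤ C1 * q ^ 2 := by
      refine le_trans ?_ h1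
      have : 0 ≤ ω := by positivity
      have hJ' : 0 ≤ J := hJ0.le.trans hJ
      calc lfun p q * ω * δ ≤ J * 0.70711 * r := by
            refine mul_le_mul (mul_le_mul hJ hω this hJ') hr hδ0 (by positivity)
        _ = _ := by ring
    nlinarith
  have h7 : lfun p q * δ ^ 3 ≤ 3 * q ^ 2 * (1 / (2 * q) * δ ^ 2) := by
    have e : 3 * q ^ 2 * (1 / (2 * q) * δ ^ 2) = (3 * q / 2) * δ ^ 2 := by
      field_simp
    rw [e]
    have h8 : lfun p q * δ ≤ 3 * q / 2 := by
      have hJ' : 0 ≤ J := hJ0.le.trans hJ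
      have := mul_le_mul hJ hr hδ0 hJ'
      linarith
    nlinarith [sq_nonneg δ]
  have h9 : 3 * q ^ 2 * (lfun p q * x) ≤ 3 * q ^ 2 * (C1 * N + 1 / (2 * q) * δ ^ 2) := by
    linarith
  have h10 : lfun p q * x ≤ C1 * N + 1 / (2 * q) * δ ^ 2 :=
    le_of_mul_le_mul_left h9 (by positivity)
  linarith

end Pool.Agent.H99.LowerTail
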