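import Pool.Agent.H99.Region
import Pool.Agent.H99.Pinsker

open MeasureTheory unitInterval Set

namespace Pool.Agent.H99.LowerTail

/-- Certificates with the exact constant. -/
lemma cov_exact {p q s A B C1 C2 Iq l r : ℝ} (hp0 : 0 < p) (hp1 : p < 1) (hs : 0 < s)
    (hC1 : 0 < C1) (hl : 0 < l)
    (hmin : ∀ w, 0 ≤ w → w ≤ p →
      A + B * w + C1 * (max (w - s) 0) ^ 2 + C2 * (max (s - w) 0) ^ 2 ≤ relEnt p w)
    (hIq : relEnt p q ≤ Iq)
    (hP1 : ∀ δ, l < δ → δ ≤ r → 0 ≤ (C2 - C1 * (Real.sqrt 2 / 2) / (3 * (Real.sqrt 2 / 2))) * δ ^ 3 -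
      3 * (Real.sqrt 2 / 2) * B ^ 2 / (12 * s * C1) * δ ^ 2 +
      (A + B * s / 2 - Iq) * δ - C1 / (3 * (Real.sqrt 2 / 2)) * (q ^ 3 - s ^ 3 / 4))
    (hP2 : ∀ δ, l < δ → δ ≤ r → 0 ≤ (C2 - C1 * 1 / 1.82844) * δ ^ 3 -
      1.82844 * B ^ 2 / (12 * s * C1) * δ ^ 2 +
      (A + B * s / 2 - Iq) * δ - C1 / 1.82844 * (q ^ 3 - s ^ 3 / 4)) :
    Cov p q s l r := by
  intro W hWp ht hl' hr'
  refine hIq.trans ?_
  have hcost := cost_ge hp0 hp1 W hWp hmin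
  refine le_trans ?_ hcost
  set δ := Real.sqrt (d2 W s) with hδ
  have hδ0 : 0 < δ := hl.trans hl'
  have hδ2 : δ ^ 2 = d2 W s := Real.sq_sqrt (d2_nonneg W s)
  rw [← hδ2]
  rcases le_total (d2 W s) (n2 W s) with h | h
  · have hT := tri_ge_sharp W.isKer hs.le h
    rw [← hδ, ← hδ2] at hT
    refine alg_cert (κ := 3 * (Real.sqrt 2 / 2)) (η := Real.sqrt 2 / 2) hs hC1 (by positivity) hδ0
      ?_ (hP1 δ hl' hr')
    linarith
  · have hT := tri_ge_chord W.isKer hs.le h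
    refine alg_cert (κ := 1.82844) (η := 1) hs hC1 (by norm_num) hδ0 ?_ (hP2 δ hl' hr')
    linarith

/-- The factorization of the cubic of the tight certificate. -/
lemma tight_cubic {a b s τ D Λ ω δ ε : ℝ} (hs : s = a + τ * D) (hb : b = a + D) (hs0 : 0 < s)
    (hτ : 0 < τ) (hD : 0 < D) (hΛ : 0 < Λ) (hω0 : 0 < ω) (hω : ω ^ 2 = 1 / 2) :
    (Λ * (τ ^ 2 + (1 - τ) ^ 2) / (2 * τ * D) - Λ * τ / D * ω / (3 * ω)) * δ ^ 3 -
      3 * ω * (-2 * Λ * s * (a + b - s) / D ^ 2) ^ 2 / (12 * s * (Λ * τ / D)) * δ ^ 2 +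
      ((-(-2 * Λ * s * (a + b - s) / D ^ 2) / 2 * (a + b - s) - Λ * τ * (1 - τ) ^ 2 * D / 2 -
        Λ * τ * (τ ^ 2 + (1 - τ) ^ 2) * D / 4) + ε) * δ -
      (Λ * τ / D) / (3 * ω) * ((a ^ 3 + 3 * a * b ^ 2) / 4 - s ^ 3 / 4) =
    Λ * (τ ^ 2 + 3 * (1 - τ) ^ 2) / (6 * τ * D) * (δ - ω * τ * D) ^ 2 *
      (δ - 2 * ω * (a ^ 3 + 3 * a * b ^ 2 - s ^ 3) / (D ^ 2 * (τ ^ 2 + 3 * (1 - τ) ^ 2))) +
      ε * δ := by
  have hT : 0 < τ ^ 2 + 3 * (1 - τ) ^ 2 := by positivity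
  have hinv : 1 / ω = 2 * ω := by
    field_simp
    linarith
  set T := τ ^ 2 + 3 * (1 - τ) ^ 2 with hTdef
  set K := a ^ 3 + 3 * a * b ^ 2 - s ^ 3 with hK
  have hKeq : K = 3 * s * (a + b - s) ^ 2 - τ * D ^ 3 * T := by
    rw [hK, hTdef, hs, hb]
    ring
  have e3 : Λ * (τ ^ 2 + (1 - τ) ^ 2) / (2 * τ * D) - Λ * τ / D * ω / (3 * ω) =
      Λ * T / (6 * τ * D) := by
    rw [hTdef]
    field_simp
    ring
  have e2 : 3 * ω * (-2 * Λ * s * (a + b - s) / D ^ 2) ^ 2 / (12 * s * (Λ * τ / D)) =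
      Λ * T / (6 * τ * D) * (2 * ω * τ * D + 2 * ω * K / (D ^ 2 * T)) := by
    have h1 : 3 * ω * (-2 * Λ * s * (a + b - s) / D ^ 2) ^ 2 / (12 * s * (Λ * τ / D)) =
        ω * Λ / (3 * τ * D ^ 3) * (3 * s * (a + b - s) ^ 2) := by
      field_simp
      ring
    have h2 : Λ * T / (6 * τ * D) * (2 * ω * τ * D + 2 * ω * K / (D ^ 2 * T)) =
        ω * Λ / (3 * τ * D ^ 3) * (K + τ * D ^ 3 * T) := by
      field_simp
      ring
    rw [h1, h2, hKeq]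
    ring
  have e1 : -(-2 * Λ * s * (a + b - s) / D ^ 2) / 2 * (a + b - s) - Λ * τ * (1 - τ) ^ 2 * D / 2 -
        Λ * τ * (τ ^ 2 + (1 - τ) ^ 2) * D / 4 =
      Λ * T / (6 * τ * D) * (ω ^ 2 * τ ^ 2 * D ^ 2 + 2 * ω * τ * D * (2 * ω * K / (D ^ 2 * T))) := by
    have h1 : Λ * T / (6 * τ * D) * (ω ^ 2 * τ ^ 2 * D ^ 2 +
        2 * ω * τ * D * (2 * ω * K / (D ^ 2 * T))) =
        ω ^ 2 * (Λ * T * τ * D / 6 + 2 * Λ * K / (3 * D ^ 2)) := by
      field_simp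
      ring
    rw [h1, hω, hKeq, hTdef]
    field_simp
    ring
  have e0 : (Λ * τ / D) / (3 * ω) * ((a ^ 3 + 3 * a * b ^ 2) / 4 - s ^ 3 / 4) =
      Λ * T / (6 * τ * D) * (ω ^ 2 * τ ^ 2 * D ^ 2 * (2 * ω * K / (D ^ 2 * T))) := by
    have h1 : Λ * T / (6 * τ * D) * (ω ^ 2 * τ ^ 2 * D ^ 2 * (2 * ω * K / (D ^ 2 * T))) =
        ω ^ 2 * (Λ * τ * ω * K / (3 * D)) := by
      field_simp
      ring
    have h2 : (Λ * τ / D) / (3 * ω) * ((a ^ 3 + 3 * a * b ^ 2) / 4 - s ^ 3 / 4) =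
        (1 / ω) * (Λ * τ * K / (12 * D)) := by
      rw [hK]
      field_simp
      ring
    rw [h1, h2, hω, hinv]
    ring
  rw [e3, e2, e1, e0]
  ring

lemma minorant_low {A B C1 C2 s w R : ℝ} (h : 0 ≤ R - (A + B * w + C2 * (w - s) ^ 2))
    (hws : w ≤ s) : A + B * w + C1 * (max (w - s) 0) ^ 2 + C2 * (max (s - w) 0) ^ 2 ≤ R := by
  rw [max_eq_right (by linarith : w - s ≤ 0), max_eq_left (by linarith : 0 ≤ s - w)]
  have e : (s - w) ^ 2 = (w - s) ^ 2 := by ring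
  rw [e]
  linarith

lemma minorant_high {A B C1 C2 s w R : ℝ} (h : 0 ≤ R - (A + B * w + C1 * (w - s) ^ 2))
    (hws : s ≤ w) : A + B * w + C1 * (max (w - s) 0) ^ 2 + C2 * (max (s - w) 0) ^ 2 ≤ R := by
  rw [max_eq_left (by linarith : 0 ≤ w - s), max_eq_right (by linarith : s - w ≤ 0)]
  linarith

lemma gfun_eq_of_touch {p A B C s b w : ℝ} (hp0 : 0 < p) (hp1 : p < 1) (hb0 : 0 < b) (hb1 : b < 1)
    (h1 : gfun p A B C s b = 0) (h2 : gder p B C s b = 0) :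
    gfun p A B C s w = relEnt b w - C * (w - b) ^ 2 := by
  unfold gfun at h1 ⊢
  unfold gder at h2
  rw [relEnt_bregman hp0 hp1 hb0 hb1 w]
  have e1 : relEnt p b = A + B * b + C * (b - s) ^ 2 := by linarith
  have e2 : lfun p b = -(B + 2 * C * (b - s)) := by linarith
  rw [e1, e2]
  ring

/-- The minorant of the tight certificate. -/
lemma tight_minorant {p A B C1 C2 s a b : ℝ} (hp0 : 0 < p) (hp1 : p < 1) (ha : 0 < a)
    (hsa : a < s) (hsb : s ≤ b) (hbp : b ≤ p) (hs : s ≤ 1 / 2)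
    (ta1 : gfun p A B C2 s a = 0) (ta2 : gder p B C2 s a = 0)
    (tb1 : gfun p A B C1 s b = 0) (tb2 : gder p B C1 s b = 0)
    (h1 : 2 * C2 * (a * (1 - a)) ≤ 1) (h2 : 0 ≤ gfun p A B C2 s s)
    (h3 : C1 ≤ 2 + 8 / 3 * (b - 1 / 2) ^ 2) :
    ∀ w, 0 ≤ w → w ≤ p →
      A + B * w + C1 * (max (w - s) 0) ^ 2 + C2 * (max (s - w) 0) ^ 2 ≤ relEnt p w := by
  have hs0 : 0 < s := by linarith
  have hs1 : s < 1 := by linarith
  have hb0 : 0 < b := by linarith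
  intro w hw0 hwp
  rcases le_total w s with h | h
  · refine minorant_low ?_ h
    have h9 : 0 ≤ gfun p A B C2 s w := by
      rcases le_or_gt (2 * C2 * (s * (1 - s))) 1 with h10 | h10
      · refine gfun_nonneg (x := a) (y := s) (l := 0) (r := s) hp0 hp1 le_rfl hs1 ha hsa.le le_rfl
          (Or.inl ⟨rfl, Or.inr ⟨hs, h10⟩⟩) ?_ hw0 h
        rw [ta1, ta2]
        simp
      · refine gfun_nonneg (x := a) (y := s) (l := 0) (r := s) hp0 hp1 le_rfl hs1 ha hsa.le le_rfl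
          (Or.inr ⟨h1, hs, h10.le, Or.inl hs, h2⟩) ?_ hw0 h
        rw [ta1, ta2]
        simp
    exact h9
  · refine minorant_high ?_ h
    have h9 : 0 ≤ gfun p A B C1 s w := by
      rw [gfun_eq_of_touch hp0 hp1 hb0 (by linarith) tb1 tb2]
      have h10 := relEnt_refined hb0 (by linarith) hw0 (by linarith : w ≤ 1)
      have h11 := mul_le_mul_of_nonneg_right h3 (sq_nonneg (w - b))
      linarith
    exact h9

/-- The tight certificate, built on a critical two-block graphon. -/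
lemma tight_cov {p q a b τ l : ℝ} (hp0 : 0 < p) (hp1 : p < 1) (ha : 0 < a) (hab : a < b)
    (hbp : b ≤ p) (hq : a ^ 3 + 3 * a * b ^ 2 = 4 * q ^ 3)
    (hE : lfun p b * (b - a) ^ 2 = 2 * a * b * (lfun p a - lfun p b))
    (hT0 : relEnt b a = τ * (3 / 2 - τ) * (lfun p a - lfun p b) * (b - a))
    (hTB : 2 * relEnt p q ≤ relEnt p a + relEnt p b)
    (hτ0 : 0 < τ) (hτ1 : τ ≤ 1 / 2) (hs : a + τ * (b - a) ≤ 1 / 2)
    (h1 : (lfun p a - lfun p b) * (τ ^ 2 + (1 - τ) ^ 2) * (a * (1 - a)) ≤ τ * (b - a))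
    (h2 : (lfun p a - lfun p b) * τ * (b - a) * (1 / 2 - τ * (1 - τ)) ≤
      relEnt a (a + τ * (b - a)))
    (h3 : (lfun p a - lfun p b) * τ ≤ (b - a) * (2 + 8 / 3 * (b - 1 / 2) ^ 2))
    (hl : 0 < l)
    (h4 : 1.41422 * (a ^ 3 + 3 * a * b ^ 2 - (a + τ * (b - a)) ^ 3) ≤
      l * ((b - a) ^ 2 * (τ ^ 2 + 3 * (1 - τ) ^ 2)))
    (h5 : ∀ δ, l < δ → δ ≤ a + τ * (b - a) →
      0 ≤ ((τ ^ 2 + (1 - τ) ^ 2) / 2 - τ ^ 2 / 1.82844) * (b - a) ^ 2 * δ ^ 3 -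
        1.82844 / 3 * (a + τ * (b - a)) * (a + b - (a + τ * (b - a))) ^ 2 * δ ^ 2 +
        (τ * (a + τ * (b - a)) * (a + b - (a + τ * (b - a))) ^ 2 * (b - a) -
          τ ^ 2 * (1 - τ) ^ 2 * (b - a) ^ 4 / 2 -
          τ ^ 2 * (τ ^ 2 + (1 - τ) ^ 2) * (b - a) ^ 4 / 4) * δ -
        τ ^ 2 * (b - a) ^ 2 / (4 * 1.82844) *
          (a ^ 3 + 3 * a * b ^ 2 - (a + τ * (b - a)) ^ 3)) :
    Cov p q (a + τ * (b - a)) l (a + τ * (b - a)) := by
  set D := b - a with hD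
  set Λ := lfun p a - lfun p b with hΛ
  set s := a + τ * D with hsdef
  have hD0 : 0 < D := by rw [hD]; linarith
  have hb : b = a + D := by rw [hD]; ring
  have hb0 : 0 < b := by linarith
  have hb1 : b < 1 := by linarith
  have ha1 : a < 1 := by linarith
  have hs0 : 0 < s := by positivity
  have hsb : s ≤ b := by rw [hsdef, hb]; nlinarith
  have hsa : a < s := by rw [hsdef]; nlinarith
  have hs1 : s < 1 := by linarith
  have hΛ0 : 0 < Λ := by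
    have := lfun_strictAnti hp0 hp1 ha hab hb1
    rw [hΛ]; linarith
  set C1 := Λ * τ / D with hC1
  set C2 := Λ * (τ ^ 2 + (1 - τ) ^ 2) / (2 * τ * D) with hC2
  set B := -2 * Λ * s * (a + b - s) / D ^ 2 with hB
  have hC10 : 0 < C1 := by positivity
  have hBeq : B = -2 * Λ * (a * b) / D ^ 2 - 2 * Λ * (τ * (1 - τ)) := by
    rw [hB, hsdef, hb]
    field_simp
    ring
  have hlb : lfun p b = 2 * Λ * (a * b) / D ^ 2 := by
    rw [eq_div_iff (by positivity)]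
    linarith
  have hla : lfun p a = Λ + 2 * Λ * (a * b) / D ^ 2 := by
    rw [← hlb, hΛ]; ring
  set A := relEnt p b - B * b - C1 * (b - s) ^ 2 with hA
  -- touching at b
  have tb1 : gfun p A B C1 s b = 0 := by
    unfold gfun
    rw [hA]; ring
  have tb2 : gder p B C1 s b = 0 := by
    unfold gder
    rw [hlb, hBeq, hC1, hsdef, hb]
    field_simp
    ring
  -- touching at a
  have ta2 : gder p B C2 s a = 0 := by
    unfold gder
    rw [hla, hBeq, hC2, hsdef]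
    field_simp
    ring
  have hfa : relEnt p a = relEnt p b + lfun p b * D + relEnt b a := by
    rw [relEnt_bregman hp0 hp1 hb0 hb1 a, hD]
    ring
  have ta1 : gfun p A B C2 s a = 0 := by
    unfold gfun
    rw [hA, hfa, hT0, hlb, hBeq, hC1, hC2, hsdef, hb]
    field_simp
    ring
  -- the value at s
  have hgs : gfun p A B C2 s s = relEnt a s - Λ * τ * D * (1 / 2 - τ * (1 - τ)) := by
    have e1 : gfun p A B C2 s s - gfun p A B C2 s a =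
        relEnt p s - relEnt p a - B * (s - a) + C2 * (s - a) ^ 2 := by
      unfold gfun
      ring
    rw [ta1, sub_zero, relEnt_bregman hp0 hp1 ha ha1 s, hla] at e1
    rw [e1, hBeq, hC2, hsdef]
    field_simp
    ring
  -- the minorant
  have hmin : ∀ w, 0 ≤ w → w ≤ p →
      A + B * w + C1 * (max (w - s) 0) ^ 2 + C2 * (max (s - w) 0) ^ 2 ≤ relEnt p w := by
    refine tight_minorant hp0 hp1 ha hsa hsb hbp hs ta1 ta2 tb1 tb2 ?_ ?_ ?_
    · have e : 2 * C2 * (a * (1 - a)) =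
          Λ * (τ ^ 2 + (1 - τ) ^ 2) * (a * (1 - a)) / (τ * D) := by
        rw [hC2]
        field_simp
      rw [e, div_le_one (by positivity)]
      exact h1
    · rw [hgs]
      linarith
    · rw [hC1, div_le_iff₀ hD0]
      linarith
  -- the cubics
  have hq3 : q ^ 3 = (a ^ 3 + 3 * a * b ^ 2) / 4 := by linarith
  set ε := (relEnt p a + relEnt p b) / 2 - relEnt p q with hε
  have hε0 : 0 ≤ ε := by rw [hε]; linarith
  have hc1 : A + B * s / 2 - relEnt p q =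
      (-B / 2 * (a + b - s) - Λ * τ * (1 - τ) ^ 2 * D / 2 -
        Λ * τ * (τ ^ 2 + (1 - τ) ^ 2) * D / 4) + ε := by
    have e1 : relEnt p a = A + B * a + C2 * (a - s) ^ 2 := by
      have := ta1
      unfold gfun at this
      linarith
    have e2 : relEnt p b = A + B * b + C1 * (b - s) ^ 2 := by
      rw [hA]; ring
    rw [hε]
    have e3 : C1 * (b - s) ^ 2 = Λ * τ * (1 - τ) ^ 2 * D := by
      rw [hC1, hsdef, hb]
      field_simp
      ring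
    have e4 : C2 * (a - s) ^ 2 = Λ * τ * (τ ^ 2 + (1 - τ) ^ 2) * D / 2 := by
      rw [hC2, hsdef]
      field_simp
      ring
    rw [e3] at e2
    rw [e4] at e1
    rw [e1, e2]
    ring
  refine cov_exact (A := A) (B := B) (C1 := C1) (C2 := C2) (Iq := relEnt p q) hp0 hp1 hs0 hC10 hl
    hmin le_rfl ?_ ?_
  · intro δ hlδ hδs
    have hω2 : (Real.sqrt 2 / 2) ^ 2 = 1 / 2 := by
      rw [div_pow, Real.sq_sqrt (by norm_num)]
      norm_num
    have hω0 : 0 < Real.sqrt 2 / 2 := by positivity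
    have hfac := tight_cubic (a := a) (b := b) (s := s) (τ := τ) (D := D) (Λ := Λ)
      (ω := Real.sqrt 2 / 2) (δ := δ) (ε := ε) rfl hb hs0 hτ0 hD0 hΛ0 hω0 hω2
    rw [hc1, hq3]
    rw [← hC1, ← hC2, ← hB] at hfac
    rw [hfac]
    set K := a ^ 3 + 3 * a * b ^ 2 - s ^ 3 with hK
    have hT : 0 < τ ^ 2 + 3 * (1 - τ) ^ 2 := by positivity
    have hr3 : 2 * (Real.sqrt 2 / 2) * K / (D ^ 2 * (τ ^ 2 + 3 * (1 - τ) ^ 2)) ≤ l := by
      rw [div_le_iff₀ (by positivity)]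
      refine le_trans ?_ (max_le h4 (show (0:ℝ) ≤ l * (D ^ 2 * (τ ^ 2 + 3 * (1 - τ) ^ 2)) by
        positivity))
      have hω : 2 * (Real.sqrt 2 / 2) ≤ 1.41422 := by
        have h : Real.sqrt 2 ≤ 1.41422 := by
          rw [Real.sqrt_le_left (by norm_num)]
          norm_num
        linarith
      rcases le_total 0 K with h | h
      · exact (mul_le_mul_of_nonneg_right hω h).trans (le_max_left _ _)
      · exact (mul_nonpos_of_nonneg_of_nonpos (by positivity) h).trans (le_max_right _ _)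
    have hδ0 : 0 < δ := hl.trans hlδ
    have h6 : 0 ≤ δ - 2 * (Real.sqrt 2 / 2) * K / (D ^ 2 * (τ ^ 2 + 3 * (1 - τ) ^ 2)) := by linarith
    have h7 : 0 ≤ Λ * (τ ^ 2 + 3 * (1 - τ) ^ 2) / (6 * τ * D) *
        (δ - Real.sqrt 2 / 2 * τ * D) ^ 2 := by positivity
    have h8 : 0 ≤ ε * δ := mul_nonneg hε0 hδ0.le
    have h9 := mul_nonneg h7 h6
    linarith
  · intro δ hlδ hδs
    have h6 := h5 δ hlδ hδs
    have hδ0 : 0 < δ := hl.trans hlδ
    have h8 : 0 ≤ ε * δ := mul_nonneg hε0 hδ0.le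
    rw [hc1, hq3]
    have e : (C2 - C1 * 1 / 1.82844) * δ ^ 3 - 1.82844 * B ^ 2 / (12 * s * C1) * δ ^ 2 +
      ((-B / 2 * (a + b - s) - Λ * τ * (1 - τ) ^ 2 * D / 2 -
        Λ * τ * (τ ^ 2 + (1 - τ) ^ 2) * D / 4) + ε) * δ -
        C1 / 1.82844 * ((a ^ 3 + 3 * a * b ^ 2) / 4 - s ^ 3 / 4) =
      Λ / (τ * D ^ 3) * (((τ ^ 2 + (1 - τ) ^ 2) / 2 - τ ^ 2 / 1.82844) * D ^ 2 * δ ^ 3 -
        1.82844 / 3 * s * (a + b - s) ^ 2 * δ ^ 2 +
        (τ * s * (a + b - s) ^ 2 * D - τ ^ 2 * (1 - τ) ^ 2 * D ^ 4 / 2 -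
          τ ^ 2 * (τ ^ 2 + (1 - τ) ^ 2) * D ^ 4 / 4) * δ -
        τ ^ 2 * D ^ 2 / (4 * 1.82844) * (a ^ 3 + 3 * a * b ^ 2 - s ^ 3)) + ε * δ := by
      rw [hC1, hC2, hB]
      field_simp
      ring
    rw [e]
    have h7 : 0 ≤ Λ / (τ * D ^ 3) := by positivity
    have h9 := mul_nonneg h7 h6
    linarith

end Pool.Agent.H99.LowerTail
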