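import Pool.Agent.H99.Kernel

open MeasureTheory unitInterval Set

namespace Pool.Agent.H99.LowerTail

/-- The positive part of `W - s`. -/
noncomputable def up (W : I → I → ℝ) (s : ℝ) : I → I → ℝ := fun x y => max (W x y - s) 0

/-- The positive part of `s - W`. -/
noncomputable def dn (W : I → I → ℝ) (s : ℝ) : I → I → ℝ := fun x y => max (s - W x y) 0

lemma isKer_up {W : I → I → ℝ} (hW : IsKer W) (s : ℝ) : IsKer (up W s) :=
  hW.comp (φ := fun w => max (w - s) 0) (by fun_prop)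

lemma isKer_dn {W : I → I → ℝ} (hW : IsKer W) (s : ℝ) : IsKer (dn W s) :=
  hW.comp (φ := fun w => max (s - w) 0) (by fun_prop)

lemma up_nonneg (W : I → I → ℝ) (s : ℝ) (x y : I) : 0 ≤ up W s x y := le_max_right _ _

lemma dn_nonneg (W : I → I → ℝ) (s : ℝ) (x y : I) : 0 ≤ dn W s x y := le_max_right _ _

lemma up_sub_dn (W : I → I → ℝ) (s : ℝ) (x y : I) : up W s x y - dn W s x y = W x y - s := by
  unfold up dn
  rcases le_total (W x y) s with h | h
  · rw [max_eq_right (by linarith), max_eq_left (by linarith)]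
    ring
  · rw [max_eq_left (by linarith), max_eq_right (by linarith)]
    ring

lemma up_mul_dn (W : I → I → ℝ) (s : ℝ) (x y : I) : up W s x y * dn W s x y = 0 := by
  unfold up dn
  rcases le_total (W x y) s with h | h
  · rw [max_eq_right (by linarith)]
    ring
  · rw [max_eq_right (a := s - W x y) (by linarith)]
    ring

/-- `‖(W - s)_+‖²` -/
noncomputable def n2 (W : I → I → ℝ) (s : ℝ) : ℝ := ∫ q : I × I, up W s q.1 q.2 ^ 2

/-- `‖(s - W)_+‖²` -/
noncomputable def d2 (W : I → I → ℝ) (s : ℝ) : ℝ := ∫ q : I × I, dn W s q.1 q.2 ^ 2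

lemma n2_nonneg (W : I → I → ℝ) (s : ℝ) : 0 ≤ n2 W s := integral_nonneg fun _ => sq_nonneg _

lemma d2_nonneg (W : I → I → ℝ) (s : ℝ) : 0 ≤ d2 W s := integral_nonneg fun _ => sq_nonneg _

/-- The mean of `W - s`. -/
noncomputable def xm (W : I → I → ℝ) (s : ℝ) : ℝ := (∫ q : I × I, W q.1 q.2) - s

/-- Expansion around the constant `s`. -/
lemma tri_ge {W : I → I → ℝ} (hW : IsKer W) {s : ℝ} (hs : 0 ≤ s) :
    s ^ 3 + 3 * s ^ 2 * xm W s + 3 * s * xm W s ^ 2 +
      (tri (up W s) (up W s) (up W s) - 3 * tri (up W s) (up W s) (dn W s) +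
        3 * tri (up W s) (dn W s) (dn W s) - tri (dn W s) (dn W s) (dn W s)) ≤ tri W W W := by
  set X : I → I → ℝ := fun x y => W x y - s with hX
  have kX : IsKer X := hW.sub (isKer_const s)
  have k1 : IsKer (fun _ _ => (1 : ℝ)) := isKer_const 1
  have e0 : (fun x y => X x y - (-s) * (fun _ _ => (1 : ℝ)) x y) = W := by
    funext x y
    simp [hX]
  have h := tri_expand kX k1 (-s)
  rw [e0] at h
  have e1 : tri X X (fun _ _ => 1) = tri X (fun _ _ => 1) X := (tri_cycle kX k1 kX).symm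
  have e2 : ∫ q : I × I, X q.1 q.2 = xm W s := by
    unfold xm
    simp only [hX]
    rw [integral_sub hW.integrable (integrable_const _)]
    simp
  have h2 := tri_one_right kX
  rw [e2] at h2
  rw [e1, tri_one_one kX, e2, tri_one] at h
  have kN := isKer_up hW s
  have kD := isKer_dn hW s
  have e3 : (fun x y => up W s x y - 1 * dn W s x y) = X := by
    funext x y
    rw [one_mul, up_sub_dn]
  have h3 := tri_expand kN kD 1
  rw [e3] at h3
  have h4 : 3 * s * xm W s ^ 2 ≤ 3 * s * tri X (fun _ _ => 1) X :=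
    mul_le_mul_of_nonneg_left h2 (by positivity)
  rw [h, h3]
  linarith

lemma norm_combo {W : I → I → ℝ} (hW : IsKer W) (s c : ℝ) :
    ∫ q : I × I, (up W s q.1 q.2 - c * dn W s q.1 q.2) ^ 2 = n2 W s + c ^ 2 * d2 W s := by
  have kN := isKer_up hW s
  have kD := isKer_dn hW s
  unfold n2 d2
  rw [← integral_const_mul, ← integral_add kN.integrable_sq (kD.integrable_sq.const_mul _)]
  refine integral_congr_ae (Filter.Eventually.of_forall fun q => ?_)
  have h := up_mul_dn W s q.1 q.2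
  simp only
  linear_combination (-2 * c) * h

/-- The mixed term. -/
lemma mixed_le {W : I → I → ℝ} (hW : IsKer W) (s : ℝ) :
    tri (up W s) (up W s) (dn W s) ≤ Real.sqrt 2 / 2 * Real.sqrt (d2 W s) * n2 W s := by
  have h := tri_mixed_sq_le (isKer_up hW s) (isKer_dn hW s) (by
    intro x y hne
    have h := up_mul_dn W s x y
    exact (mul_eq_zero.1 h).resolve_left hne)
  have h2 := Real.sq_sqrt (d2_nonneg W s)
  have h3 : (Real.sqrt 2) ^ 2 = 2 := Real.sq_sqrt (by norm_num)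
  have h4 : 0 ≤ Real.sqrt 2 / 2 * Real.sqrt (d2 W s) * n2 W s := by
    have := n2_nonneg W s
    positivity
  refine abs_le_of_sq_le_sq' ?_ h4 |>.2
  refine h.trans (le_of_eq ?_)
  show d2 W s * (n2 W s ^ 2 / 2) = _
  calc d2 W s * (n2 W s ^ 2 / 2) = (Real.sqrt (d2 W s)) ^ 2 * (n2 W s ^ 2 / 2) := by rw [h2]
    _ = (Real.sqrt 2) ^ 2 / 4 * (Real.sqrt (d2 W s)) ^ 2 * n2 W s ^ 2 := by rw [h3]; ring
    _ = _ := by ring

/-- Hilbert-Schmidt bound for `N - c D`. -/
lemma hs_le {W : I → I → ℝ} (hW : IsKer W) (s c : ℝ) :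
    -(tri (up W s) (up W s) (up W s) - 3 * c * tri (up W s) (up W s) (dn W s) +
      3 * c ^ 2 * tri (up W s) (dn W s) (dn W s) - c ^ 3 * tri (dn W s) (dn W s) (dn W s)) ≤
      Real.sqrt (n2 W s + c ^ 2 * d2 W s) ^ 3 := by
  have kN := isKer_up hW s
  have kD := isKer_dn hW s
  have h := tri_sq_le (kN.sub (kD.const_mul c))
  rw [norm_combo hW, tri_expand kN kD] at h
  have h0 : 0 ≤ n2 W s + c ^ 2 * d2 W s := by
    have := n2_nonneg W s
    have := d2_nonneg W s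
    positivity
  set a := tri (up W s) (up W s) (up W s) - 3 * c * tri (up W s) (up W s) (dn W s) +
      3 * c ^ 2 * tri (up W s) (dn W s) (dn W s) - c ^ 3 * tri (dn W s) (dn W s) (dn W s)
  have h2 : a ^ 2 ≤ (Real.sqrt (n2 W s + c ^ 2 * d2 W s) ^ 3) ^ 2 := by
    rw [← pow_mul, show 3 * 2 = 2 * 3 by norm_num, pow_mul, Real.sq_sqrt h0]
    exact h
  have h3 := abs_le_of_sq_le_sq' h2 (by positivity)
  linarith [h3.1]

/-- First bound: valid always. -/
lemma tri_ge_hs {W : I → I → ℝ} (hW : IsKer W) {s : ℝ} (hs : 0 ≤ s) :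
    s ^ 3 + 3 * s ^ 2 * xm W s + 3 * s * xm W s ^ 2 - Real.sqrt (n2 W s + d2 W s) ^ 3 ≤
      tri W W W := by
  have h1 := tri_ge hW hs
  have h2 := hs_le hW s 1
  simp only [one_pow, mul_one, one_mul] at h2
  linarith

/-- Second bound: valid always. -/
lemma tri_ge_simple {W : I → I → ℝ} (hW : IsKer W) {s : ℝ} (hs : 0 ≤ s) :
    s ^ 3 + 3 * s ^ 2 * xm W s + 3 * s * xm W s ^ 2 -
      (3 * (Real.sqrt 2 / 2) * Real.sqrt (d2 W s) * n2 W s + Real.sqrt (d2 W s) ^ 3) ≤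
      tri W W W := by
  have h1 := tri_ge hW hs
  have kD := isKer_dn hW s
  have h2 := mixed_le hW s
  have h3 := tri_sq_le kD
  have h4 : tri (dn W s) (dn W s) (dn W s) ≤ Real.sqrt (d2 W s) ^ 3 := by
    refine (abs_le_of_sq_le_sq' ?_ (by positivity)).2
    rw [← pow_mul, show 3 * 2 = 2 * 3 by norm_num, pow_mul, Real.sq_sqrt (d2_nonneg W s)]
    exact h3
  have h5 := tri_nonneg (up_nonneg W s) (up_nonneg W s) (up_nonneg W s)
  have h6 := tri_nonneg (up_nonneg W s) (dn_nonneg W s) (dn_nonneg W s)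
  linarith

/-- Third bound: valid if `‖D‖ ≤ ‖N‖`. -/
lemma tri_ge_sharp {W : I → I → ℝ} (hW : IsKer W) {s : ℝ} (hs : 0 ≤ s)
    (hdn : d2 W s ≤ n2 W s) :
    s ^ 3 + 3 * s ^ 2 * xm W s + 3 * s * xm W s ^ 2 -
      Real.sqrt 2 / 2 * Real.sqrt (d2 W s) * (3 * n2 W s + d2 W s) ≤ tri W W W := by
  have h1 := tri_ge hW hs
  have h2 := mixed_le hW s
  have h5 := tri_nonneg (up_nonneg W s) (up_nonneg W s) (up_nonneg W s)
  have h6 := tri_nonneg (up_nonneg W s) (dn_nonneg W s) (dn_nonneg W s)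
  rcases (d2_nonneg W s).eq_or_lt with h0 | h0
  · have h3 := tri_ge_simple hW hs
    rw [← h0] at h3 ⊢
    simp only [Real.sqrt_zero, mul_zero, zero_mul, ne_eq, OfNat.ofNat_ne_zero, not_false_eq_true,
      zero_pow, add_zero, sub_zero] at h3 ⊢
    exact h3
  set N2 := n2 W s
  set D2 := d2 W s
  set a := tri (up W s) (up W s) (up W s)
  set b := tri (up W s) (up W s) (dn W s)
  set c := tri (up W s) (dn W s) (dn W s)
  set d := tri (dn W s) (dn W s) (dn W s)
  set δ := Real.sqrt D2 with hδ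
  set n := Real.sqrt N2 with hn
  have hN0 : 0 < N2 := h0.trans_le hdn
  have hδ0 : 0 < δ := Real.sqrt_pos.2 h0
  have hn0 : 0 < n := Real.sqrt_pos.2 hN0
  have hδsq : δ ^ 2 = D2 := Real.sq_sqrt h0.le
  have hnsq : n ^ 2 = N2 := Real.sq_sqrt hN0.le
  have hδn : δ ≤ n := Real.sqrt_le_sqrt hdn
  have h3 := hs_le hW s (n / δ)
  have e1 : N2 + (n / δ) ^ 2 * D2 = 2 * N2 := by
    rw [← hδsq, ← hnsq]
    field_simp
    ring
  rw [e1, Real.sqrt_mul (by norm_num)] at h3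
  set r := Real.sqrt 2 with hr
  have hr2 : r ^ 2 = 2 := Real.sq_sqrt (by norm_num)
  have hr0 : 0 < r := Real.sqrt_pos.2 (by norm_num)
  have h3' : -(a - 3 * (n / δ) * b + 3 * (n / δ) ^ 2 * c - (n / δ) ^ 3 * d) ≤ (r * n) ^ 3 := h3
  -- multiply by (δ/n)^3
  set k := δ / n with hk
  have hk0 : 0 < k := by positivity
  have hk1 : k ≤ 1 := (div_le_one hn0).2 hδn
  have e2 : n / δ = k⁻¹ := by rw [hk, inv_div]
  rw [e2] at h3'
  have h4 := mul_le_mul_of_nonneg_left h3' (pow_pos hk0 3).le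
  have e3 : k ^ 3 * -(a - 3 * k⁻¹ * b + 3 * k⁻¹ ^ 2 * c - k⁻¹ ^ 3 * d) =
      -(k ^ 3 * a) + 3 * k ^ 2 * b - 3 * k * c + d := by
    field_simp
    ring
  have e4 : k ^ 3 * (r * n) ^ 3 = r ^ 3 * δ ^ 3 := by
    rw [hk]
    field_simp
  rw [e3, e4] at h4
  have e5 : r ^ 3 = 2 * r := by
    rw [pow_succ, hr2]
  rw [e5] at h4
  -- bound on d
  have hb : b ≤ r / 2 * δ * N2 := h2
  have hk2 : k ^ 2 * N2 = D2 := by
    rw [hk, ← hδsq, ← hnsq]
    field_simp
  have h7 : (1 - k ^ 2) * b ≤ (1 - k ^ 2) * (r / 2 * δ * N2) :=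
    mul_le_mul_of_nonneg_left hb (by nlinarith)
  have hk3 : k ^ 3 ≤ 1 := pow_le_one₀ hk0.le hk1
  have h8 : 0 ≤ (1 - k ^ 3) * a := mul_nonneg (by linarith) h5
  have h9 : 0 ≤ (1 - k) * c := mul_nonneg (by linarith) h6
  have e6 : (1 - k ^ 2) * (r / 2 * δ * N2) = r / 2 * δ * (N2 - D2) := by
    linear_combination (-(r / 2 * δ)) * hk2
  rw [e6] at h7
  have e7 : 2 * r * δ ^ 3 = 2 * r * δ * D2 := by rw [← hδsq]; ring
  rw [e7] at h4
  have h10 : 3 * b - a - 3 * c + d ≤ r / 2 * δ * (3 * N2 + D2) := by linarith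
  linarith

end Pool.Agent.H99.LowerTail
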